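import Pool.Agent.T2H75.GN.Stm2

set_option autoImplicit false

namespace Pool.Agent.T2H75.GN

open Complex ZMod

namespace PkgFLOW1

/-- The imaginary part of the quaternion `conj p * q`. -/
def J (p q : ℂ × ℂ) : Fin 3 → ℝ :=
  ![p.1.re * q.1.im - p.1.im * q.1.re - p.2.re * q.2.im + p.2.im * q.2.re,
    p.1.re * q.2.re - p.2.re * q.1.re - p.2.im * q.1.im + p.1.im * q.2.im,
    p.1.re * q.2.im - p.2.im * q.1.re - p.1.im * q.2.re + p.2.re * q.1.im]

/-- `J p` as an additive map. -/
def Jh (p : ℂ × ℂ) : ℂ × ℂ →+ (Fin 3 → ℝ) where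
  toFun := J p
  map_zero' := by
    funext i
    fin_cases i <;> simp [J]
  map_add' x y := by
    funext i
    fin_cases i <;> simp [J] <;> ring

theorem Jh_apply (p q : ℂ × ℂ) : Jh p q = J p q := rfl

theorem J_norm (p q : ℂ × ℂ) (hp : ip p p = 1) (hq : ip q q = 1) (hpq : ip p q = 0) :
    (J p q 0) ^ 2 + (J p q 1) ^ 2 + (J p q 2) ^ 2 = 1 := by
  have h1 : (J p q 0) ^ 2 + (J p q 1) ^ 2 + (J p q 2) ^ 2 = ip p p * ip q q - ip p q ^ 2 := by
    simp only [J, ip, Matrix.cons_val_zero, Matrix.cons_val_one, Matrix.cons_val]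
    ring
  rw [h1, hp, hq, hpq]
  norm_num

theorem J_back (p d : ℂ × ℂ) (c s : ℝ) (h : c ^ 2 + s ^ 2 = 1) :
    J (c • p + s • d) (s • p - c • d) = -J p d := by
  funext i
  fin_cases i
  · simp [J]
    linear_combination (-(p.1.re * d.1.im - p.1.im * d.1.re - p.2.re * d.2.im + p.2.im * d.2.re)) * h
  · simp [J]
    linear_combination (-(p.1.re * d.2.re - p.2.re * d.1.re - p.2.im * d.1.im + p.1.im * d.2.im)) * h
  · simp [J]
    linear_combination (-(p.1.re * d.2.im - p.2.im * d.1.re - p.1.im * d.2.re + p.2.re * d.1.im)) * h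

end PkgFLOW1

open PkgFLOW1 in
open Classical in
theorem flow1 : Flow1Stm := by
  intro V E _ _ N
  refine ⟨fun e => J (N.pos (N.src e)) (N.dir e), ?_, ?_⟩
  · intro e
    exact J_norm _ _ (N.pos_unit _) (N.dir_unit e) (N.dir_perp e)
  · intro v
    have hb := N.balanced v
    have h1 := congrArg (Jh (N.pos v)) hb
    rw [map_add, map_sum, map_sum, map_zero] at h1
    have h2 : ∀ e ∈ Finset.univ.filter (fun e => N.src e = v),
        Jh (N.pos v) (N.dir e) = J (N.pos (N.src e)) (N.dir e) := by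
      intro e he
      rw [Finset.mem_filter] at he
      rw [he.2]
      rfl
    have h3 : ∀ e ∈ Finset.univ.filter (fun e => N.tgt e = v),
        Jh (N.pos v) (Real.sin (N.len e) • N.pos (N.src e) - Real.cos (N.len e) • N.dir e) =
          -J (N.pos (N.src e)) (N.dir e) := by
      intro e he
      rw [Finset.mem_filter] at he
      rw [Jh_apply, ← he.2, N.end_pt e]
      exact J_back _ _ _ _ (Real.cos_sq_add_sin_sq _)
    rw [Finset.sum_congr rfl h2, Finset.sum_congr rfl h3, Finset.sum_neg_distrib] at h1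
    exact add_neg_eq_zero.1 h1

end Pool.Agent.T2H75.GN
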