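import Pool.Agent.T2H75.GN.Stm

/-! Unit vector flows and cubic multigraphs (used by the flow criterion). -/

namespace Pool.Agent.T2H75.GN

open Classical in
/-- `f` is a flow on the multigraph with edges `e` from `src e` to `tgt e`, whose values are unit
vectors of `ℝ³`. -/
def IsUnitFlow {V E : Type} [Fintype V] [Fintype E] (src tgt : E → V) (f : E → Fin 3 → ℝ) : Prop :=
  (∀ e, (f e 0) ^ 2 + (f e 1) ^ 2 + (f e 2) ^ 2 = 1) ∧
    ∀ v, ∑ e ∈ Finset.univ.filter (fun e => src e = v), f e =
      ∑ e ∈ Finset.univ.filter (fun e => tgt e = v), f e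

open Classical in
/-- Every vertex of the multigraph has degree three (loops count twice). -/
def IsCubicMulti {V E : Type} [Fintype V] [Fintype E] (src tgt : E → V) : Prop :=
  ∀ v, (Finset.univ.filter (fun e => src e = v)).card +
    (Finset.univ.filter (fun e => tgt e = v)).card = 3

end Pool.Agent.T2H75.GN
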