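import Pool.Agent.T2H75.GN.FLOW2
import Pool.Agent.T2H75.GN.FlowDef

/-! Package FLOW2 with the net on the great two-sphere. -/

namespace Pool.Agent.T2H75.GN

open FLOW2 in
/-- As `flow2`, with the net on the great two-sphere `Re z = 0` of `S³`. -/
theorem flow2s : ∀ (V E : Type) [Fintype V] [Fintype E] (src tgt : E → V) (f : E → Fin 3 → ℝ),
    IsCubicMulti src tgt → IsUnitFlow src tgt f →
    ∃ N : GeoNet V E, N.src = src ∧ N.tgt = tgt ∧ (∀ v, (N.pos v).1.re = 0) ∧
      ∀ e, (N.dir e).1.re = 0 := by
  classical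
  intro V E _ _ src tgt f hdeg ⟨hunit, hcons⟩
  have hn : ∀ v, ∃ n : Fin 3 → ℝ, dt n n = 1 ∧ ∀ e, (src e = v ∨ tgt e = v) → dt n (f e) = 0 := by
    intro v
    obtain ⟨n, h1, h2⟩ := normal f (Finset.univ.filter (fun e => src e = v))
      (Finset.univ.filter (fun e => tgt e = v)) (by convert hdeg v) (by convert hcons v)
    refine ⟨n, h1, fun e he => h2 e ?_⟩
    rcases he with he | he
    · exact Or.inl (by simp [he])
    · exact Or.inr (by simp [he])
  choose n hn1 hn2 using hn
  have hfu : ∀ e, dt (f e) (f e) = 1 := by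
    intro e
    have := hunit e
    unfold dt
    nlinarith
  have hs : ∀ e, dt (n (src e)) (f e) = 0 := fun e => hn2 _ e (Or.inl rfl)
  have ht : ∀ e, dt (n (tgt e)) (f e) = 0 := fun e => hn2 _ e (Or.inr rfl)
  have hang : ∀ e, ∃ θ : ℝ, 0 < θ ∧ Real.cos θ = dt (n (tgt e)) (n (src e)) ∧
      Real.sin θ = dt (n (tgt e)) (cr (n (src e)) (f e)) := fun e =>
    angle (gram (hn1 (src e)) (hn1 (tgt e)) (hs e) (ht e) (hfu e))
  choose len hlen hcos hsin using hang
  have hend : ∀ e, n (tgt e) = Real.cos (len e) • n (src e) + Real.sin (len e) •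
      cr (n (src e)) (f e) := by
    intro e
    rw [hcos, hsin]
    exact decomp (hn1 (src e)) (hn1 (tgt e)) (hs e) (ht e) (hfu e)
  refine ⟨{ src := src, tgt := tgt, pos := fun v => J (n v), dir := fun e => J (cr (n (src e)) (f e)),
            len := len, pos_unit := ?_, dir_unit := ?_, dir_perp := ?_, len_pos := hlen,
            end_pt := ?_, balanced := ?_ }, rfl, rfl, ?_, ?_⟩
  · intro v
    rw [ip_J, hn1]
  · intro e
    rw [ip_J]
    exact cr_unit (hn1 (src e)) (hs e) (hfu e)
  · intro e
    rw [ip_J]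
    exact cr_perp _ _
  · intro e
    show J (n (tgt e)) = _
    rw [hend e, map_add, LinearMap.map_smul, LinearMap.map_smul]
  · intro v
    have e1 : ∑ e ∈ Finset.univ.filter (fun e => src e = v), J (cr (n (src e)) (f e)) =
        J (cr (n v) (∑ e ∈ Finset.univ.filter (fun e => src e = v), f e)) := by
      rw [map_sum, map_sum]
      refine Finset.sum_congr rfl fun e he => ?_
      rw [(Finset.mem_filter.1 he).2]
    have e2 : ∑ e ∈ Finset.univ.filter (fun e => tgt e = v),
        (Real.sin (len e) • J (n (src e)) - Real.cos (len e) • J (cr (n (src e)) (f e))) =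
        -J (cr (n v) (∑ e ∈ Finset.univ.filter (fun e => tgt e = v), f e)) := by
      rw [map_sum, map_sum, ← Finset.sum_neg_distrib]
      refine Finset.sum_congr rfl fun e he => ?_
      have hv : tgt e = v := (Finset.mem_filter.1 he).2
      rw [← hv, ← LinearMap.map_smul, ← LinearMap.map_smul, ← map_sub, ← map_neg,
        back (hs e) (hfu e) (hend e)]
    have h6 : (∑ e ∈ Finset.univ.filter (fun e => src e = v), f e) =
      ∑ e ∈ Finset.univ.filter (fun e => tgt e = v), f e := by convert hcons v
    have h7 : (∑ e ∈ Finset.univ.filter (fun e => src e = v), J (cr (n (src e)) (f e))) +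
      (∑ e ∈ Finset.univ.filter (fun e => tgt e = v),
        (Real.sin (len e) • J (n (src e)) - Real.cos (len e) • J (cr (n (src e)) (f e)))) = 0 := by
      rw [e1, e2, h6, add_neg_cancel]
    convert h7
  · intro v
    simp [J]
  · intro e
    simp [J]

end Pool.Agent.T2H75.GN
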