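import Pool.Agent.T2H75.GN.Stm4

/-!
Project GN, fifth batch: the necklace with an odd number `k` of digons carries a net.
`h = (k - 1) / 2`, `χ h = exp (2 π i h / k) = - exp (- π i / k)`.
-/

namespace Pool.Agent.T2H75.GN

open Complex ZMod

/-- Positions: `a i ↦ (χ (h i), 0)`, `b i ↦ (- χ (h i), 0)`. -/
noncomputable def npos (k : ℕ) [NeZero k] (v : ZMod k × Bool) : ℂ × ℂ :=
  ((if v.2 then -1 else 1) * stdAddChar (((k - 1) / 2 : ℕ) * v.1 : ZMod k), 0)

/-- Directions: joining edges `(I χ (h i), 0)`, digon edges `(- I χ (h i) / 2, ± (√3/2) η i)` with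
`η i = exp (π i / k * I)` (pairwise non-parallel). -/
noncomputable def ndir (k : ℕ) [NeZero k] (e : ZMod k × Fin 3) : ℂ × ℂ :=
  if e.2 = 2 then (I * stdAddChar (((k - 1) / 2 : ℕ) * e.1 : ZMod k), 0)
  else (-(1 / 2) * (I * stdAddChar (((k - 1) / 2 : ℕ) * e.1 : ZMod k)),
    (if e.2 = 0 then 1 else -1) * (((√3 / 2 : ℝ) : ℂ) * exp (((Real.pi * e.1.val / k : ℝ) : ℂ) * I)))

/-- Lengths: `π / k` for joining edges, `π` for digon edges. -/
noncomputable def nlen (k : ℕ) (e : ZMod k × Fin 3) : ℝ := if e.2 = 2 then Real.pi / k else Real.pi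

/-- NP1. This is a balanced net.  End points: `cos (π/k) (- p) + sin (π/k) I p = - p e^{-iπ/k} = p χ h`
for `p = χ (h i)`; balance at `a i`: digon directions sum to `- I p i`, the backward tangent of
`(i-1, 2)` is `- sin p - cos I p = - I p_{i-1} e^{-iπ/k} = I p_i`; balance at `b i`: the backward
tangents of the digon edges are their directions (`cos π = -1`). -/
def Np1Stm : Prop :=
  ∀ (k : ℕ) [NeZero k], 3 ≤ k → Odd k → ∃ N : GeoNet (ZMod k × Bool) (ZMod k × Fin 3),
    N.src = nsrc k ∧ N.tgt = ntgt k ∧ N.pos = npos k ∧ N.dir = ndir k ∧ N.len = nlen k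

/-- NP2. Positions are distinct: `χ (h i) = ± χ (h j)`; with `+`: `h (i - j) = 0`, so `i = j` since
`2 h = -1`; with `-`: squares: `χ (2h (i - j)) = 1`, `i = j`, contradiction.  Edges are simple: for an
orthonormal pair `(p, d)`, `cos s p + sin s d = cos t p + sin t d` with `0 ≤ s < t ≤ π` is impossible. -/
def Np2Stm : Prop :=
  ∀ (k : ℕ) [NeZero k], 3 ≤ k → Odd k → ∀ N : GeoNet (ZMod k × Bool) (ZMod k × Fin 3),
    N.src = nsrc k → N.tgt = ntgt k → N.pos = npos k → N.dir = ndir k → N.len = nlen k →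
    Function.Injective N.pos ∧
    ∀ e s t, 0 ≤ s → s < t → t ≤ N.len e → N.pt e s = N.pt e t → s = 0 ∧ t = N.len e

/-- NP3. Different digon edges, or a digon edge and a joining edge, meet only in vertices: the second
coordinate of `pt e t` is `± (√3/2) sin t η i` for digon edges and `0` for joining edges.  So a common
point has `sin t = 0`, `t = 0` or `t = π`, and it is the position of the start or end of the digon edge
(both edges of one digon: `sin t = - sin t'`, both `≥ 0`); different digons: `η i`, `η j` are not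
parallel (`|i.val - j.val| < k`).  If the other one is a joining edge, its point with `(first
coordinate) = ± χ (h i)` must be an end of it: its points are `- χ (h j) e^{-iu}`, `0 ≤ u ≤ π/k`, and
`χ (h i - h j)`-multiples of `e^{iπ/k}` occur only for `u = 0` or `u = π/k`. -/
def Np3Stm : Prop :=
  ∀ (k : ℕ) [NeZero k], 3 ≤ k → Odd k → ∀ N : GeoNet (ZMod k × Bool) (ZMod k × Fin 3),
    N.src = nsrc k → N.tgt = ntgt k → N.pos = npos k → N.dir = ndir k → N.len = nlen k →
    Function.Injective N.pos →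
    ∀ e f, e ≠ f → e.2 ≠ 2 → ∀ s t, 0 ≤ s → s ≤ N.len e → 0 ≤ t → t ≤ N.len f →
      N.pt e s = N.pt f t →
        ∃ v, (v = N.src e ∨ v = N.tgt e) ∧ (v = N.src f ∨ v = N.tgt f) ∧ N.pt e s = N.pos v

/-- NP4. Different joining edges are disjoint: the points of `(i, 2)` are
`- χ (h i) e^{-iu} = χ (h i + h) e^{i (π/k - u)}`, `0 ≤ u ≤ π/k`, i.e. `χ (h (i+1)) e^{iω}`,
`0 ≤ ω ≤ π/k < 2π/k`; use SEC (`SecStm`) with `N = k`: `h (i+1) = h (j+1)`, `i = j`. -/
def Np4Stm : Prop :=
  ∀ (k : ℕ) [NeZero k], 3 ≤ k → Odd k → ∀ N : GeoNet (ZMod k × Bool) (ZMod k × Fin 3),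
    N.src = nsrc k → N.tgt = ntgt k → N.pos = npos k → N.dir = ndir k → N.len = nlen k →
    ∀ i j : ZMod k, i ≠ j → ∀ s t, 0 ≤ s → s ≤ Real.pi / k → 0 ≤ t → t ≤ Real.pi / k →
      N.pt (i, 2) s ≠ N.pt (j, 2) t

end Pool.Agent.T2H75.GN
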