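import Pool.Agent.T2H75.GN.Asm4
import Pool.Agent.T2H75.GN.Stm5
import Pool.Agent.T2H75.GN.FlowDef

/-! Assembly: odd necklaces carry an embedded net. -/

namespace Pool.Agent.T2H75.GN

theorem necklace_odd (h1 : Np1Stm) (h2 : Np2Stm) (h3 : Np3Stm) (h4 : Np4Stm) :
    ∀ (k : ℕ) [NeZero k], 3 ≤ k → Odd k → ∃ N : GeoNet (ZMod k × Bool) (ZMod k × Fin 3),
      N.src = nsrc k ∧ N.tgt = ntgt k ∧ N.Embedded := by
  intro k _ hk hko
  obtain ⟨N, hs, ht, hp, hd, hl⟩ := h1 k hk hko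
  obtain ⟨hinj, hsimple⟩ := h2 k hk hko N hs ht hp hd hl
  have hdig := h3 k hk hko N hs ht hp hd hl hinj
  have hjoin := h4 k hk hko N hs ht hp hd hl
  refine ⟨N, hs, ht, hinj, hsimple, ?_⟩
  intro e f hef s t hs0 hs1 ht0 ht1 heq
  by_cases he : e.2 = 2
  · by_cases hf : f.2 = 2
    · exfalso
      obtain ⟨i, i2⟩ := e
      obtain ⟨j, j2⟩ := f
      simp only at he hf
      subst he
      subst hf
      have hij : i ≠ j := by
        rintro rfl; exact hef rfl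
      rw [hl] at hs1 ht1
      simp only [nlen, if_true] at hs1 ht1
      exact hjoin i j hij s t hs0 hs1 ht0 ht1 heq
    · obtain ⟨v, hv1, hv2, hv3⟩ := hdig f e (Ne.symm hef) hf t s ht0 ht1 hs0 hs1 heq.symm
      exact ⟨v, hv2, hv1, heq.trans hv3⟩
  · exact hdig e f hef he s t hs0 hs1 ht0 ht1 heq

theorem necklace_iff (h1 : Np1Stm) (h2 : Np2Stm) (h3 : Np3Stm) (h4 : Np4Stm)
    (ht : NecklaceTarget) :
    ∀ (k : ℕ) [NeZero k], 2 ≤ k →
      ((∃ N : GeoNet (ZMod k × Bool) (ZMod k × Fin 3),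
        N.src = nsrc k ∧ N.tgt = ntgt k ∧ N.Embedded) ↔ Odd k) := by
  intro k _ hk
  constructor
  · rintro ⟨N, hs, ht', he⟩
    by_contra hno
    rw [Nat.not_odd_iff_even] at hno
    exact ht k hk hno N hs ht' he
  · intro ho
    have : 3 ≤ k := by
      rcases ho with ⟨r, hr⟩
      omega
    exact necklace_odd h1 h2 h3 h4 k this ho

end Pool.Agent.T2H75.GN
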