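import Pool.Agent.T2H75.GN.Stm5

set_option autoImplicit false

open Complex ZMod

namespace Pool.Agent.T2H75.GN

namespace NP1

theorem sum_filter_eq {α M : Type} [AddCommMonoid M] [Fintype α] [DecidableEq α]
    (P : α → Prop) (inst : DecidablePred P) (s : Finset α) (hs : ∀ e, P e ↔ e ∈ s) (f : α → M) :
    ∑ e ∈ @Finset.filter α P inst Finset.univ, f e = ∑ e ∈ s, f e := by
  refine Finset.sum_congr ?_ fun _ _ => rfl
  ext e
  simp [hs]

/-- `χ (h i)` -/
noncomputable def c (k : ℕ) [NeZero k] (i : ZMod k) : ℂ :=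
  stdAddChar (((k - 1) / 2 : ℕ) * i : ZMod k)

theorem c_norm (k : ℕ) [NeZero k] (i : ZMod k) : (c k i).re ^ 2 + (c k i).im ^ 2 = 1 := by
  have h1 : ‖c k i‖ = 1 := by
    unfold c
    rw [stdAddChar_apply]
    exact Circle.norm_coe _
  have h2 := Complex.sq_norm (c k i)
  rw [h1, Complex.normSq_apply] at h2
  linarith

theorem c_step (k : ℕ) [NeZero k] (hodd : Odd k) (i : ZMod k) :
    c k (i + 1) = c k i * -((Real.cos (Real.pi / k) : ℂ) - (Real.sin (Real.pi / k) : ℂ) * I) := by
  unfold c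
  rw [mul_add, mul_one, AddChar.map_add_eq_mul]
  congr 1
  obtain ⟨h, hh⟩ := hodd
  have h2 : (k - 1) / 2 = h := by omega
  have hk : (k : ℂ) ≠ 0 := by exact_mod_cast NeZero.ne k
  rw [h2]
  have h3 : ((h : ℕ) : ZMod k) = ((h : ℤ) : ZMod k) := by push_cast; rfl
  rw [h3, stdAddChar_coe]
  have h4 : 2 * (Real.pi : ℂ) * I * ((h : ℤ) : ℂ) / (k : ℂ) =
      (Real.pi : ℂ) * I + ((-(Real.pi / k) : ℝ) : ℂ) * I := by
    have h5 : (k : ℂ) = 2 * h + 1 := by exact_mod_cast hh
    push_cast
    field_simp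
    rw [h5]
    ring
  rw [h4, Complex.exp_add, Complex.exp_pi_mul_I, Complex.exp_mul_I, ← Complex.ofReal_cos,
    ← Complex.ofReal_sin, Real.cos_neg, Real.sin_neg]
  push_cast
  ring

theorem eta_norm (x : ℝ) : (exp ((x : ℂ) * I)).re ^ 2 + (exp ((x : ℂ) * I)).im ^ 2 = 1 := by
  rw [Complex.exp_ofReal_mul_I_re, Complex.exp_ofReal_mul_I_im]
  exact Real.cos_sq_add_sin_sq x

theorem npos_eq (k : ℕ) [NeZero k] (v : ZMod k × Bool) :
    npos k v = ((if v.2 then -1 else 1) * c k v.1, 0) := rfl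

theorem ndir_eq (k : ℕ) [NeZero k] (e : ZMod k × Fin 3) :
    ndir k e = if e.2 = 2 then (I * c k e.1, 0)
      else (-(1 / 2) * (I * c k e.1),
        (if e.2 = 0 then 1 else -1) *
          (((√3 / 2 : ℝ) : ℂ) * exp (((Real.pi * e.1.val / k : ℝ) : ℂ) * I))) := rfl

end NP1

theorem np1 : Np1Stm := by
  intro k _ hk3 hodd
  have hk0 : (0 : ℝ) < k := by
    have : 0 < k := by omega
    exact_mod_cast this
  have h3 : (√3 : ℝ) ^ 2 = 3 := Real.sq_sqrt (by norm_num)
  refine ⟨⟨nsrc k, ntgt k, npos k, ndir k, nlen k, ?_, ?_, ?_, ?_, ?_, ?_⟩, rfl, rfl, rfl, rfl, rfl⟩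
  · rintro ⟨i, b⟩
    have h := NP1.c_norm k i
    rw [NP1.npos_eq]
    cases b <;> simp [ip] <;> linarith
  · rintro ⟨i, b⟩
    have h := NP1.c_norm k i
    have h' := NP1.eta_norm (Real.pi * i.val / k)
    rw [NP1.ndir_eq]
    by_cases hb : b = 2
    · simp only [hb, if_true]
      simp [ip]
      linarith
    · simp only [hb, if_false]
      obtain ⟨η, hη⟩ : ∃ η : ℂ, η = exp (((Real.pi * i.val / k : ℝ) : ℂ) * I) := ⟨_, rfl⟩
      rw [← hη] at h' ⊢
      by_cases h0 : b = 0
      · simp only [h0, if_true]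
        simp [ip]
        nlinarith
      · simp only [h0, if_false]
        simp [ip]
        nlinarith
  · rintro ⟨i, b⟩
    rw [NP1.ndir_eq]
    by_cases hb : b = 2
    · simp only [nsrc, hb, if_true, NP1.npos_eq]
      simp [ip]
      ring
    · simp only [nsrc, hb, if_false, NP1.npos_eq]
      simp [ip]
      ring
  · rintro ⟨i, b⟩
    unfold nlen
    split_ifs
    · positivity
    · exact Real.pi_pos
  · rintro ⟨i, b⟩
    rw [NP1.ndir_eq]
    by_cases hb : b = 2
    · simp only [nsrc, ntgt, nlen, hb, if_true, NP1.npos_eq, NP1.c_step k hodd]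
      refine Prod.ext ?_ ?_
      · simp only [Prod.fst_add, Prod.smul_fst, Complex.real_smul]
        simp
        ring
      · simp
    · simp only [nsrc, ntgt, nlen, hb, if_false, NP1.npos_eq]
      rw [Real.cos_pi, Real.sin_pi]
      refine Prod.ext ?_ ?_
      · simp
      · simp
  · rintro ⟨i, b⟩
    cases b
    · rw [NP1.sum_filter_eq _ _ {(i, 0), (i, 1)} (by
          rintro ⟨j, c⟩
          fin_cases c <;> simp [nsrc]),
        NP1.sum_filter_eq _ _ {(i - 1, 2)} (by
          rintro ⟨j, c⟩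
          fin_cases c <;> simp [ntgt, eq_sub_iff_add_eq]),
        Finset.sum_pair (by simp), Finset.sum_singleton]
      have h := NP1.c_step k hodd (i - 1)
      rw [sub_add_cancel] at h
      simp only [NP1.ndir_eq, nsrc, nlen, NP1.npos_eq, if_true]
      refine Prod.ext ?_ ?_
      · simp
        rw [h]
        ring_nf
        simp
      · simp
    · rw [NP1.sum_filter_eq _ _ {(i, 2)} (by
          rintro ⟨j, c⟩
          fin_cases c <;> simp [nsrc]),
        NP1.sum_filter_eq _ _ {(i, 0), (i, 1)} (by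
          rintro ⟨j, c⟩
          fin_cases c <;> simp [ntgt]),
        Finset.sum_pair (by simp), Finset.sum_singleton]
      simp only [NP1.ndir_eq, nsrc, nlen, NP1.npos_eq, if_true]
      refine Prod.ext ?_ ?_
      · simp
        ring
      · simp

end Pool.Agent.T2H75.GN
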