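import Pool.Agent.T2H75.GN.Stm5

set_option autoImplicit false

/-!
# Package NP2 of project GN (`MP_a226eb_gt`): positions are distinct, edges are simple
-/

namespace Pool.Agent.T2H75.GN

open ZMod

namespace NP2

theorem ip_comb (p x : ℂ × ℂ) (a b : ℝ) : ip p (a • p + b • x) = a * ip p p + b * ip p x := by
  simp only [ip, Prod.fst_add, Prod.snd_add, Prod.smul_fst, Prod.smul_snd, Complex.add_re,
    Complex.add_im, Complex.smul_re, Complex.smul_im, smul_eq_mul]
  ring

theorem two_half (k : ℕ) [NeZero k] (hk : Odd k) :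
    (2 : ZMod k) * (((k - 1) / 2 : ℕ) : ZMod k) = -1 := by
  obtain ⟨m, hm⟩ := hk
  have e : (k - 1) / 2 = m := by omega
  rw [e]
  have h : ((2 * m + 1 : ℕ) : ZMod k) = 0 := by
    rw [← hm]
    exact ZMod.natCast_self k
  push_cast at h
  exact eq_neg_of_add_eq_zero_left h

theorem inj (k : ℕ) [NeZero k] (hk : Odd k) : Function.Injective (npos k) := by
  rintro ⟨i, b⟩ ⟨j, c⟩ h
  have h1 := congrArg Prod.fst h
  simp only [npos] at h1
  have hsq : (stdAddChar ((((k - 1) / 2 : ℕ) : ZMod k) * i) : ℂ) ^ 2 =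
      (stdAddChar ((((k - 1) / 2 : ℕ) : ZMod k) * j) : ℂ) ^ 2 := by
    have h2 := congrArg (fun z : ℂ => z ^ 2) h1
    simp only [mul_pow] at h2
    have eb : ∀ b : Bool, ((if b then -1 else 1 : ℂ)) ^ 2 = 1 := by
      intro b; cases b <;> simp
    rw [eb, eb, one_mul, one_mul] at h2
    exact h2
  have hij : i = j := by
    rw [← AddChar.map_nsmul_eq_pow, ← AddChar.map_nsmul_eq_pow] at hsq
    have h3 := injective_stdAddChar hsq
    rw [nsmul_eq_mul, nsmul_eq_mul, ← mul_assoc, ← mul_assoc] at h3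
    push_cast at h3
    have e := two_half k hk
    have h4 : ((2 : ZMod k) * (((k - 1) / 2 : ℕ) : ZMod k)) * i =
      ((2 : ZMod k) * (((k - 1) / 2 : ℕ) : ZMod k)) * j := by exact_mod_cast h3
    rw [e, neg_one_mul, neg_one_mul] at h4
    exact neg_injective h4
  subst hij
  have hne : (stdAddChar ((((k - 1) / 2 : ℕ) : ZMod k) * i) : ℂ) ≠ 0 := by
    intro h0
    have := AddChar.norm_apply (stdAddChar (N := k)) ((((k - 1) / 2 : ℕ) : ZMod k) * i)
    rw [h0] at this
    simp at this
  have hbc := mul_right_cancel₀ hne h1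
  cases b <;> cases c
  · rfl
  · norm_num at hbc
  · norm_num at hbc
  · rfl

end NP2

theorem np2 : Np2Stm := by
  intro k _ hk3 hk N hsrc htgt hpos hdir hlen
  refine ⟨?_, ?_⟩
  · rw [hpos]
    exact NP2.inj k hk
  · intro e s t hs hst ht h
    exfalso
    have hl : N.len e ≤ Real.pi := by
      rw [hlen]
      unfold nlen
      split_ifs
      · have hk1 : (1 : ℝ) ≤ k := by
          have : (3 : ℝ) ≤ k := by exact_mod_cast hk3
          linarith
        exact div_le_self Real.pi_pos.le hk1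
      · exact le_refl _
    unfold GeoNet.pt at h
    have h4 := congrArg (ip (N.pos (N.src e))) h
    rw [NP2.ip_comb, NP2.ip_comb, N.pos_unit, N.dir_perp, mul_one, mul_zero, add_zero, mul_one,
      mul_zero, add_zero] at h4
    have h5 : s = t := Real.injOn_cos ⟨hs, by linarith⟩ ⟨by linarith, by linarith⟩ h4
    linarith

end Pool.Agent.T2H75.GN
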