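import Pool.Agent.T2H75.GN.Stm5

namespace Pool.Agent.T2H75.GN

open Complex ZMod

namespace NP3

variable {k : ℕ} [NeZero k]

/-- the character of `h i` -/
noncomputable def ch (k : ℕ) [NeZero k] (i : ZMod k) : ℂ :=
  stdAddChar (((k - 1) / 2 : ℕ) * i : ZMod k)

lemma ch_pow (i : ZMod k) : (ch k i) ^ k = 1 := by
  unfold ch
  rw [← AddChar.map_nsmul_eq_pow, nsmul_eq_mul, ZMod.natCast_self, zero_mul,
    AddChar.map_zero_eq_one]

/-- the exponential of the second coordinate -/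
noncomputable def eta (k : ℕ) (i : ZMod k) : ℂ := exp (((Real.pi * i.val / k : ℝ) : ℂ) * I)

lemma eta_norm (i : ZMod k) : ‖eta k i‖ = 1 := Complex.norm_exp_ofReal_mul_I _

lemma eta_ne (i : ZMod k) : eta k i ≠ 0 := Complex.exp_ne_zero _

lemma eta_sq (i : ZMod k) : eta k i ^ 2 = stdAddChar i := by
  have h : (((i.val : ℕ) : ℤ) : ZMod k) = i := by simp
  conv_rhs => rw [← h, ZMod.stdAddChar_coe]
  unfold eta
  rw [← Complex.exp_nat_mul]
  congr 1
  push_cast
  ring

lemma eta_inj {i j : ZMod k} {σ τ : ℂ} (h1 : σ ^ 2 = 1) (h2 : τ ^ 2 = 1)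
    (h : σ * eta k i = τ * eta k j) : i = j ∧ σ = τ := by
  have h3 : (stdAddChar i : ℂ) = stdAddChar j := by
    have h4 : (σ * eta k i) ^ 2 = (τ * eta k j) ^ 2 := by rw [h]
    rw [mul_pow, mul_pow, h1, h2, one_mul, one_mul, eta_sq, eta_sq] at h4
    exact h4
  have h4 : i = j := ZMod.injective_stdAddChar h3
  subst h4
  exact ⟨rfl, mul_right_cancel₀ (eta_ne i) h⟩

/-- the sign of a digon edge -/
noncomputable def sg (e : ZMod k × Fin 3) : ℂ := if e.2 = 0 then 1 else -1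

lemma sg_sq (e : ZMod k × Fin 3) : sg e ^ 2 = 1 := by
  unfold sg
  split_ifs <;> norm_num

lemma sg_norm (e : ZMod k × Fin 3) : ‖sg e‖ = 1 := by
  unfold sg
  split_ifs <;> simp

lemma pt_snd_digon (N : GeoNet (ZMod k × Bool) (ZMod k × Fin 3)) (hp : N.pos = npos k)
    (hd : N.dir = ndir k) (e : ZMod k × Fin 3) (he : e.2 ≠ 2) (s : ℝ) :
    (N.pt e s).2 = sg e * (((Real.sin s * (√3 / 2) : ℝ) : ℂ) * eta k e.1) := by
  unfold GeoNet.pt
  rw [hp, hd, Prod.snd_add, Prod.smul_snd, Prod.smul_snd]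
  simp only [npos, ndir, if_neg he]
  rw [smul_zero, zero_add, Complex.real_smul]
  unfold sg eta
  push_cast
  ring

lemma pt_snd_join (N : GeoNet (ZMod k × Bool) (ZMod k × Fin 3)) (hp : N.pos = npos k)
    (hd : N.dir = ndir k) (e : ZMod k × Fin 3) (he : e.2 = 2) (s : ℝ) :
    (N.pt e s).2 = 0 := by
  unfold GeoNet.pt
  rw [hp, hd, Prod.snd_add, Prod.smul_snd, Prod.smul_snd]
  simp only [npos, ndir, if_pos he, smul_zero, add_zero]

lemma pt_fst_join (N : GeoNet (ZMod k × Bool) (ZMod k × Fin 3)) (hs : N.src = nsrc k)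
    (hp : N.pos = npos k) (hd : N.dir = ndir k) (e : ZMod k × Fin 3) (he : e.2 = 2) (s : ℝ) :
    (N.pt e s).1 = -exp (((-s : ℝ) : ℂ) * I) * ch k e.1 := by
  unfold GeoNet.pt
  rw [hp, hd, hs, Prod.fst_add, Prod.smul_fst, Prod.smul_fst]
  simp only [npos, ndir, nsrc, if_pos he, if_true, Complex.real_smul]
  rw [Complex.exp_mul_I, ← Complex.ofReal_cos, ← Complex.ofReal_sin, Real.cos_neg, Real.sin_neg]
  unfold ch
  push_cast
  ring

lemma pos_fst_pow (N : GeoNet (ZMod k × Bool) (ZMod k × Fin 3)) (hp : N.pos = npos k)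
    (v : ZMod k × Bool) : (N.pos v).1 ^ (2 * k) = 1 := by
  rw [hp]
  simp only [npos]
  rw [mul_pow, pow_mul, pow_mul (stdAddChar _ : ℂ)]
  have h1 : ((if v.2 = true then (-1 : ℂ) else 1)) ^ 2 = 1 := by split_ifs <;> norm_num
  rw [h1, one_pow, one_mul, ← pow_mul, mul_comm 2 k, pow_mul]
  have h2 := ch_pow v.1
  unfold ch at h2
  rw [h2, one_pow]

lemma pt_zero (N : GeoNet (ZMod k × Bool) (ZMod k × Fin 3)) (e : ZMod k × Fin 3) :
    N.pt e 0 = N.pos (N.src e) := by
  unfold GeoNet.pt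
  simp

lemma pt_len (N : GeoNet (ZMod k × Bool) (ZMod k × Fin 3)) (e : ZMod k × Fin 3) :
    N.pt e (N.len e) = N.pos (N.tgt e) := by
  unfold GeoNet.pt
  rw [N.end_pt e]

lemma digon_end (N : GeoNet (ZMod k × Bool) (ZMod k × Fin 3)) (hl : N.len = nlen k)
    (e : ZMod k × Fin 3) (he : e.2 ≠ 2) (s : ℝ) (h0 : 0 ≤ s) (h1 : s ≤ N.len e)
    (h : Real.sin s = 0) : ∃ v, (v = N.src e ∨ v = N.tgt e) ∧ N.pt e s = N.pos v := by
  have hle : N.len e = Real.pi := by
    rw [hl]
    simp [nlen, he]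
  rcases h0.eq_or_lt with h2 | h2
  · exact ⟨N.src e, Or.inl rfl, by rw [← h2, pt_zero]⟩
  · rcases h1.eq_or_lt with h3 | h3
    · exact ⟨N.tgt e, Or.inr rfl, by rw [h3, pt_len]⟩
    · rw [hle] at h3
      exact absurd h (Real.sin_pos_of_pos_of_lt_pi h2 h3).ne'

lemma join_end (N : GeoNet (ZMod k × Bool) (ZMod k × Fin 3)) (hs : N.src = nsrc k)
    (hp : N.pos = npos k) (hd : N.dir = ndir k) (hl : N.len = nlen k)
    (e : ZMod k × Fin 3) (he : e.2 = 2) (t : ℝ) (h0 : 0 ≤ t) (h1 : t ≤ N.len e)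
    (h : (N.pt e t).1 ^ (2 * k) = 1) : ∃ v, (v = N.src e ∨ v = N.tgt e) ∧ N.pt e t = N.pos v := by
  have hk : (0 : ℝ) < k := by exact_mod_cast Nat.pos_of_ne_zero (NeZero.ne k)
  have hle : N.len e = Real.pi / k := by
    rw [hl]
    simp [nlen, he]
  rw [pt_fst_join N hs hp hd e he, mul_pow, neg_pow, mul_comm 2 k, pow_mul (ch k e.1), ch_pow,
    one_pow, mul_one, mul_comm k 2, pow_mul (-1 : ℂ), neg_one_sq, one_pow, one_mul,
    ← Complex.exp_nat_mul, Complex.exp_eq_one_iff] at h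
  obtain ⟨n, hn⟩ := h
  have hn' : -(k * t) = n * Real.pi := by
    have h2 := congrArg Complex.im hn
    simp at h2
    linarith
  have hpi := Real.pi_pos
  have hkt : k * t ≤ Real.pi := by
    rw [hle, le_div_iff₀ hk] at h1
    linarith
  have hn1 : n ≤ 0 := by
    by_contra hc
    push Not at hc
    have : (1 : ℝ) ≤ n := by exact_mod_cast hc
    nlinarith [mul_nonneg hk.le h0]
  have hn2 : -1 ≤ n := by
    by_contra hc
    push Not at hc
    have h3 : n ≤ -2 := by omega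
    have : (n : ℝ) ≤ -2 := by exact_mod_cast h3
    nlinarith
  have hcases : n = 0 ∨ n = -1 := by omega
  rcases hcases with rfl | rfl
  · have ht : t = 0 := by
      have h3 : k * t = 0 := by
        push_cast at hn'
        linarith
      rcases mul_eq_zero.mp h3 with h4 | h4
      · exact absurd h4 hk.ne'
      · exact h4
    exact ⟨N.src e, Or.inl rfl, by rw [ht, pt_zero]⟩
  · have ht : t = N.len e := by
      rw [hle, eq_div_iff hk.ne']
      push_cast at hn'
      linarith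
    exact ⟨N.tgt e, Or.inr rfl, by rw [ht, pt_len]⟩

lemma common (N : GeoNet (ZMod k × Bool) (ZMod k × Fin 3)) (hi : Function.Injective N.pos)
    {e f : ZMod k × Fin 3} {s t : ℝ} (h : N.pt e s = N.pt f t)
    (h1 : ∃ v, (v = N.src e ∨ v = N.tgt e) ∧ N.pt e s = N.pos v)
    (h2 : ∃ v, (v = N.src f ∨ v = N.tgt f) ∧ N.pt f t = N.pos v) :
    ∃ v, (v = N.src e ∨ v = N.tgt e) ∧ (v = N.src f ∨ v = N.tgt f) ∧ N.pt e s = N.pos v := by
  obtain ⟨v, hv, hv'⟩ := h1
  obtain ⟨w, hw, hw'⟩ := h2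
  have : v = w := hi (by rw [← hv', ← hw', h])
  subst this
  exact ⟨v, hv, hw, hv'⟩

end NP3

open NP3 in
theorem np3 : Np3Stm := by
  intro k _ hk hodd N hs ht hp hd hl hi e f hef he s t hs0 hs1 ht0 ht1 h
  have hc : (0 : ℝ) < √3 / 2 := by positivity
  have hle : N.len e = Real.pi := by
    rw [hl]
    simp [nlen, he]
  have hse : 0 ≤ Real.sin s := Real.sin_nonneg_of_nonneg_of_le_pi hs0 (hle ▸ hs1)
  have h2 : (N.pt e s).2 = (N.pt f t).2 := by rw [h]
  rw [pt_snd_digon N hp hd e he] at h2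
  by_cases hf : f.2 = 2
  · rw [pt_snd_join N hp hd f hf] at h2
    have hsin : Real.sin s = 0 := by
      have h3 : ‖sg e * (((Real.sin s * (√3 / 2) : ℝ) : ℂ) * eta k e.1)‖ = 0 := by
        rw [h2, norm_zero]
      rw [norm_mul, norm_mul, sg_norm, eta_norm, one_mul, mul_one, Complex.norm_real,
        Real.norm_eq_abs, abs_eq_zero] at h3
      rcases mul_eq_zero.mp h3 with h4 | h4
      · exact h4
      · exact absurd h4 hc.ne'
    have h1 := digon_end N hl e he s hs0 hs1 hsin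
    refine common N hi h h1 (join_end N hs hp hd hl f hf t ht0 ht1 ?_)
    obtain ⟨v, -, hv⟩ := h1
    rw [← h, hv]
    exact pos_fst_pow N hp v
  · rw [pt_snd_digon N hp hd f hf] at h2
    have hlf : N.len f = Real.pi := by
      rw [hl]
      simp [nlen, hf]
    have hst : 0 ≤ Real.sin t := Real.sin_nonneg_of_nonneg_of_le_pi ht0 (hlf ▸ ht1)
    have hsin : Real.sin s = Real.sin t := by
      have h3 := congrArg norm h2
      rw [norm_mul, norm_mul, norm_mul, norm_mul, sg_norm, sg_norm, eta_norm, eta_norm, one_mul,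
        one_mul, mul_one, mul_one, Complex.norm_real, Complex.norm_real, Real.norm_eq_abs,
        Real.norm_eq_abs, abs_of_nonneg (mul_nonneg hse hc.le),
        abs_of_nonneg (mul_nonneg hst hc.le)] at h3
      exact mul_right_cancel₀ hc.ne' h3
    by_cases hz : Real.sin s = 0
    · exact common N hi h (digon_end N hl e he s hs0 hs1 hz)
        (digon_end N hl f hf t ht0 ht1 (hsin ▸ hz))
    · exfalso
      apply hef
      rw [← hsin] at h2
      have hr : (((Real.sin s * (√3 / 2) : ℝ)) : ℂ) ≠ 0 := by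
        exact_mod_cast mul_ne_zero hz hc.ne'
      have h3 : sg e * eta k e.1 = sg f * eta k f.1 := by
        apply mul_left_cancel₀ hr
        calc _ = sg e * (((Real.sin s * (√3 / 2) : ℝ) : ℂ) * eta k e.1) := by ring
          _ = _ := h2
          _ = _ := by ring
      obtain ⟨h4, h5⟩ := eta_inj (sg_sq e) (sg_sq f) h3
      refine Prod.ext h4 ?_
      unfold sg at h5
      have he3 : e.2 = 0 ∨ e.2 = 1 := by
        have : ∀ c : Fin 3, c ≠ 2 → c = 0 ∨ c = 1 := by decide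
        exact this _ he
      have hf3 : f.2 = 0 ∨ f.2 = 1 := by
        have : ∀ c : Fin 3, c ≠ 2 → c = 0 ∨ c = 1 := by decide
        exact this _ hf
      rcases he3 with h6 | h6 <;> rcases hf3 with h7 | h7
      · rw [h6, h7]
      · rw [h6, h7] at h5
        norm_num at h5
      · rw [h6, h7] at h5
        norm_num at h5
      · rw [h6, h7]

end Pool.Agent.T2H75.GN
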