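import Pool.Agent.T2H75.GN.Stm5

set_option autoImplicit false

namespace Pool.Agent.T2H75.GN

open Complex ZMod

namespace PkgNP4

lemma two_h (k : ℕ) (hk : 3 ≤ k) (hodd : Odd k) :
    (2 : ZMod k) * ((((k - 1) / 2 : ℕ)) : ZMod k) = -1 := by
  obtain ⟨m, rfl⟩ := hodd
  have h1 : (2 * m + 1 - 1) / 2 = m := by omega
  rw [h1]
  have h2 : ((2 * m + 1 : ℕ) : ZMod (2 * m + 1)) = 0 := ZMod.natCast_self _
  push_cast at h2
  linear_combination h2

lemma h_inj (k : ℕ) (hk : 3 ≤ k) (hodd : Odd k) (i j : ZMod k)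
    (h : ((((k - 1) / 2 : ℕ)) : ZMod k) * i + ((((k - 1) / 2 : ℕ)) : ZMod k) =
      ((((k - 1) / 2 : ℕ)) : ZMod k) * j + ((((k - 1) / 2 : ℕ)) : ZMod k)) : i = j := by
  have h2 := two_h k hk hodd
  linear_combination (-2) * h + (i - j) * h2

lemma chi_aux (k h : ℕ) [NeZero k] (h2 : (2 : ℂ) * (h : ℂ) = k - 1) :
    stdAddChar (h : ZMod k) * exp (((Real.pi / k : ℝ) : ℂ) * I) = -1 := by
  have e := ZMod.stdAddChar_coe (N := k) (h : ℤ)
  rw [Int.cast_natCast] at e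
  rw [e, ← Complex.exp_add]
  have hk0 : (k : ℂ) ≠ 0 := by
    have : k ≠ 0 := NeZero.ne k
    exact_mod_cast this
  have e2 : 2 * (Real.pi : ℂ) * I * ((h : ℤ) : ℂ) / k + ((Real.pi / k : ℝ) : ℂ) * I =
      Real.pi * I := by
    push_cast
    rw [div_add' _ _ _ hk0, div_eq_iff hk0]
    have e3 : (Real.pi : ℂ) / k * I * k = Real.pi * I := by
      field_simp
    rw [e3]
    linear_combination (Real.pi * I) * h2
  rw [e2, Complex.exp_pi_mul_I]

lemma chi_h (k : ℕ) [NeZero k] (hk : 3 ≤ k) (hodd : Odd k) :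
    stdAddChar ((((k - 1) / 2 : ℕ)) : ZMod k) * exp (((Real.pi / k : ℝ) : ℂ) * I) = -1 := by
  apply chi_aux
  obtain ⟨m, rfl⟩ := hodd
  have h1 : (2 * m + 1 - 1) / 2 = m := by omega
  rw [h1]
  push_cast
  ring

lemma fst_pt (k : ℕ) [NeZero k] (hk : 3 ≤ k) (hodd : Odd k)
    (N : GeoNet (ZMod k × Bool) (ZMod k × Fin 3))
    (hs : N.src = nsrc k) (hp : N.pos = npos k) (hd : N.dir = ndir k) (i : ZMod k) (s : ℝ) :
    (N.pt (i, 2) s).1 = stdAddChar (((((k - 1) / 2 : ℕ)) : ZMod k) * i + ((((k - 1) / 2 : ℕ)) : ZMod k)) *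
      exp (((Real.pi / k - s : ℝ) : ℂ) * I) := by
  have h1 : (N.pt (i, 2) s).1 =
      Real.cos s * (-1 * stdAddChar (((((k - 1) / 2 : ℕ)) : ZMod k) * i)) +
      Real.sin s * (I * stdAddChar (((((k - 1) / 2 : ℕ)) : ZMod k) * i)) := by
    unfold GeoNet.pt
    rw [hs, hp, hd]
    simp [nsrc, npos, ndir]
  have h2 := chi_h k hk hodd
  have h3 : exp (((Real.pi / k - s : ℝ) : ℂ) * I) =
      exp (((Real.pi / k : ℝ) : ℂ) * I) * (Real.cos s - Real.sin s * I) := by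
    have e1 : ((Real.pi / k - s : ℝ) : ℂ) * I = ((Real.pi / k : ℝ) : ℂ) * I + ((-s : ℝ) : ℂ) * I := by
      push_cast
      ring
    rw [e1, Complex.exp_add, Complex.exp_mul_I ((-s : ℝ) : ℂ), ← Complex.ofReal_cos, ← Complex.ofReal_sin,
      Real.cos_neg, Real.sin_neg]
    push_cast
    ring
  rw [h1, h3, AddChar.map_add_eq_mul]
  linear_combination (-(stdAddChar (((((k - 1) / 2 : ℕ)) : ZMod k) * i)) * (Real.cos s - Real.sin s * I)) * h2

end PkgNP4

open PkgNP4 in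
theorem np4 (hsec : SecStm) : Np4Stm := by
  intro k _ hk hodd N hs _ hp hd _ i j hij s t hs0 hs1 ht0 ht1 heq
  apply hij
  have e1 := fst_pt k hk hodd N hs hp hd i s
  have e2 := fst_pt k hk hodd N hs hp hd j t
  have hk0 : (0 : ℝ) < k := by
    have : 0 < k := by omega
    exact_mod_cast this
  have hpi : Real.pi / k < 2 * Real.pi / k := by
    apply div_lt_div_of_pos_right _ hk0
    linarith [Real.pi_pos]
  have h := hsec k (((((k - 1) / 2 : ℕ)) : ZMod k) * i + ((((k - 1) / 2 : ℕ)) : ZMod k))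
    (((((k - 1) / 2 : ℕ)) : ZMod k) * j + ((((k - 1) / 2 : ℕ)) : ZMod k)) 1 1
    (Real.pi / k - s) (Real.pi / k - t) one_pos one_pos (by linarith) (by linarith) (by linarith) (by linarith)
    (by rw [← e1, ← e2, heq])
  exact h_inj k hk hodd i j h.1

end Pool.Agent.T2H75.GN
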