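import Pool.Agent.T2H75.GN.Stm

set_option autoImplicit false

namespace Pool.Agent.T2H75.GN

open Complex ZMod

namespace SEC

lemma chi_eq (N : ℕ) [NeZero N] (r : ZMod N) :
    (stdAddChar r : ℂ) = exp (((r.val : ℝ) * (2 * Real.pi / N) : ℝ) * I) := by
  have h : ((r.val : ℤ) : ZMod N) = r := by
    rw [Int.cast_natCast, ZMod.natCast_zmod_val]
  conv_lhs => rw [← h]
  rw [stdAddChar_coe]
  congr 1
  push_cast
  ring

end SEC

open SEC in
theorem sec : SecStm := by
  intro N _ r r' ρ ρ' ω ω' hρ hρ' hω0 hω1 hω0' hω1' h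
  have hN : (0 : ℝ) < N := by exact_mod_cast Nat.pos_of_ne_zero (NeZero.ne N)
  have hpi := Real.pi_pos
  set δ : ℝ := 2 * Real.pi / N with hδ
  have hδ0 : 0 < δ := by positivity
  have hNδ : (N : ℝ) * δ = 2 * Real.pi := by
    rw [hδ]; field_simp
  rw [chi_eq N r, chi_eq N r', ← exp_add, ← exp_add, ← add_mul, ← add_mul, ← ofReal_add,
    ← ofReal_add] at h
  have hn : ρ = ρ' := by
    have h1 := congrArg norm h
    rw [norm_mul, norm_mul, norm_exp_ofReal_mul_I, norm_exp_ofReal_mul_I, mul_one, mul_one,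
      norm_real, norm_real, Real.norm_of_nonneg hρ.le, Real.norm_of_nonneg hρ'.le] at h1
    exact h1
  subst hn
  have hρC : (ρ : ℂ) ≠ 0 := by exact_mod_cast hρ.ne'
  have h2 := mul_left_cancel₀ hρC h
  obtain ⟨n, hn⟩ := exp_eq_exp_iff_exists_int.1 h2
  set α : ℝ := (r.val : ℝ) * δ + ω with hα
  set β : ℝ := (r'.val : ℝ) * δ + ω' with hβ
  have hre : α = β + n * (2 * Real.pi) := by
    have h3 := congrArg Complex.im hn
    simpa using h3
  have hv : (r.val : ℝ) ≤ N - 1 := by
    have := ZMod.val_lt r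
    have h4 : r.val + 1 ≤ N := this
    have h5 : ((r.val + 1 : ℕ) : ℝ) ≤ N := by exact_mod_cast h4
    push_cast at h5
    linarith
  have hv' : (r'.val : ℝ) ≤ N - 1 := by
    have := ZMod.val_lt r'
    have h4 : r'.val + 1 ≤ N := this
    have h5 : ((r'.val + 1 : ℕ) : ℝ) ≤ N := by exact_mod_cast h4
    push_cast at h5
    linarith
  have hα0 : 0 ≤ α := by positivity
  have hβ0 : 0 ≤ β := by positivity
  have hα1 : α < 2 * Real.pi := by
    have : (r.val : ℝ) * δ ≤ (N - 1) * δ := mul_le_mul_of_nonneg_right hv hδ0.le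
    nlinarith
  have hβ1 : β < 2 * Real.pi := by
    have : (r'.val : ℝ) * δ ≤ (N - 1) * δ := mul_le_mul_of_nonneg_right hv' hδ0.le
    nlinarith
  have hn0 : n = 0 := by
    have h6 : (n : ℝ) < 1 := by
      by_contra hc
      push Not at hc
      nlinarith
    have h7 : (-1 : ℝ) < n := by
      by_contra hc
      push Not at hc
      nlinarith
    have h8 : n < 1 := by exact_mod_cast h6
    have h9 : -1 < n := by exact_mod_cast h7
    omega
  rw [hn0] at hre
  have hab : α = β := by simpa using hre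
  have hd : ((r.val : ℝ) - r'.val) * δ = ω' - ω := by
    rw [hα, hβ] at hab
    linarith
  have h10 : (r.val : ℝ) - r'.val < 1 := by
    by_contra hc
    push Not at hc
    nlinarith
  have h11 : -1 < (r.val : ℝ) - r'.val := by
    by_contra hc
    push Not at hc
    nlinarith
  have hval : r.val = r'.val := by
    have h12 : ((r.val : ℤ) - r'.val : ℤ) < 1 := by
      have : (((r.val : ℤ) - r'.val : ℤ) : ℝ) < 1 := by push_cast; exact h10
      exact_mod_cast this
    have h13 : -1 < ((r.val : ℤ) - r'.val : ℤ) := by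
      have : (-1 : ℝ) < (((r.val : ℤ) - r'.val : ℤ) : ℝ) := by push_cast; exact h11
      exact_mod_cast this
    omega
  refine ⟨ZMod.val_injective N hval, ?_, rfl⟩
  rw [hval] at hd
  linarith

end Pool.Agent.T2H75.GN
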