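import Pool.Agent.T2H75.GN.Fin4
import Pool.Agent.T2H75.GN.Asm5
import Pool.Agent.T2H75.GN.NP1
import Pool.Agent.T2H75.GN.NP2
import Pool.Agent.T2H75.GN.NP3
import Pool.Agent.T2H75.GN.NP4
import Pool.Agent.T2H75.GN.SEC

/-! Necklaces: the complete answer. -/

namespace Pool.Agent.T2H75.GN

theorem necklace_complete : ∀ (k : ℕ) [NeZero k], 2 ≤ k →
    ((∃ N : GeoNet (ZMod k × Bool) (ZMod k × Fin 3),
      N.src = nsrc k ∧ N.tgt = ntgt k ∧ N.Embedded) ↔ Odd k) :=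
  necklace_iff np1 np2 np3 (np4 sec) necklace_even

end Pool.Agent.T2H75.GN
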