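import Pool.Agent.T2H75.GN.Stm

/-! Assembly of the project GN. -/

namespace Pool.Agent.T2H75.GN

open Complex ZMod

theorem bemb (hloc : BlocStm) (hzz : BzzStm) (hvv : BvvStm) (hpt : BptStm) : BembStm := by
  intro m k _ _ hm hk φ ψ c s hφ hψ hφψ hc hs hcs
  obtain ⟨hinj, hap, hZ, hV⟩ := hpt m k hm hk φ ψ c s hφ hψ hφψ hc hs
  obtain ⟨hVV, hZV⟩ := hvv m k hm hk φ ψ c s hφ hψ hφψ hc hs
  have hZZ := hzz m k hm hk φ ψ c s hφ hψ hφψ hc hs
  refine ⟨hinj, hap, ?_⟩
  intro v w v' w' hvw hvw' hne x hx hx'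
  have h1 := hloc m k hm hk φ ψ c s hφψ hcs v w hvw x hx
  have h2 := hloc m k hm hk φ ψ c s hφψ hcs v' w' hvw' x hx'
  -- a vertex on both edges
  have key : ∀ u u', x = bpos m k φ c s u → x = bpos m k φ c s u' → (u = v ∨ u = w) →
      (u' = v' ∨ u' = w') → ∃ u, (u = v ∨ u = w) ∧ (u = v' ∨ u = w') ∧ x = bpos m k φ c s u := by
    intro u u' hu hu' h h'
    have : u = u' := hinj (hu.symm.trans hu')
    subst this
    exact ⟨u, h, h', hu⟩
  rcases h1 with h1 | h1 | ⟨a, r, ε, hε, hpar, hs1, h1⟩ | ⟨a, r, hpar, hs1, h1⟩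
  · rcases h2 with h2 | h2 | ⟨a', r', ε', hε', hpar', hs2, h2⟩ | ⟨a', r', hpar', hs2, h2⟩
    · exact key v v' h1 h2 (Or.inl rfl) (Or.inl rfl)
    · exact key v w' h1 h2 (Or.inl rfl) (Or.inr rfl)
    · rw [h1] at h2; exact absurd h2 (hZ _ _ _ _ hε')
    · rw [h1] at h2; exact absurd h2 (hV _ _ _)
  · rcases h2 with h2 | h2 | ⟨a', r', ε', hε', hpar', hs2, h2⟩ | ⟨a', r', hpar', hs2, h2⟩
    · exact key w v' h1 h2 (Or.inr rfl) (Or.inl rfl)
    · exact key w w' h1 h2 (Or.inr rfl) (Or.inr rfl)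
    · rw [h1] at h2; exact absurd h2 (hZ _ _ _ _ hε')
    · rw [h1] at h2; exact absurd h2 (hV _ _ _)
  · rcases h2 with h2 | h2 | ⟨a', r', ε', hε', hpar', hs2, h2⟩ | ⟨a', r', hpar', hs2, h2⟩
    · rw [h2] at h1; exact absurd h1 (hZ _ _ _ _ hε)
    · rw [h2] at h1; exact absurd h1 (hZ _ _ _ _ hε)
    · obtain ⟨rfl, rfl, rfl⟩ := hZZ a a' r r' ε ε' x hε hε' hpar hpar' h1 h2
      exact absurd (hs1.trans hs2.symm) hne
    · exact absurd h2 (hZV a a' r r' ε x hε h1)
  · rcases h2 with h2 | h2 | ⟨a', r', ε', hε', hpar', hs2, h2⟩ | ⟨a', r', hpar', hs2, h2⟩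
    · rw [h2] at h1; exact absurd h1 (hV _ _ _)
    · rw [h2] at h1; exact absurd h1 (hV _ _ _)
    · exact absurd h1 (hZV a' a r' r ε' x hε' h2)
    · obtain ⟨rfl, rfl⟩ := hVV a a' r r' x h1 h2
      exact absurd (hs1.trans hs2.symm) hne

/-- `ip` of a point of the form `(c u, s v)`. -/
theorem ip_unit (c s : ℝ) (u v : ℂ) (hu : ‖u‖ = 1) (hv : ‖v‖ = 1) (h : c ^ 2 + s ^ 2 = 1) :
    ip ((c : ℂ) * u, (s : ℂ) * v) ((c : ℂ) * u, (s : ℂ) * v) = 1 := by
  have h1 : u.re * u.re + u.im * u.im = 1 := by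
    have := Complex.normSq_eq_norm_sq u
    rw [hu, Complex.normSq_apply] at this; simpa using this
  have h2 : v.re * v.re + v.im * v.im = 1 := by
    have := Complex.normSq_eq_norm_sq v
    rw [hv, Complex.normSq_apply] at this; simpa using this
  simp only [ip, Complex.mul_re, Complex.mul_im, Complex.ofReal_re, Complex.ofReal_im]
  have : (c * u.re - 0 * u.im) * (c * u.re - 0 * u.im) + (c * u.im + 0 * u.re) * (c * u.im + 0 * u.re)
      + (s * v.re - 0 * v.im) * (s * v.re - 0 * v.im) + (s * v.im + 0 * v.re) * (s * v.im + 0 * v.re)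
      = c ^ 2 * (u.re * u.re + u.im * u.im) + s ^ 2 * (v.re * v.re + v.im * v.im) := by ring
  rw [this, h1, h2]; linarith

theorem brick_target (hgen : GenStm) (hbtr : BtrStm) (hbiv : BivStm) (hbbal : BbalStm)
    (hadj : BadjStm) (hnb : BnbStm) (hemb : BembStm) : BrickTarget := by
  intro m k _ _ hk hkm
  have hm2 : 2 ≤ m := by omega
  have hm : (0 : ℝ) < m := by exact_mod_cast (by omega : 0 < m)
  have hkk : (0 : ℝ) < k := by exact_mod_cast (by omega : 0 < k)
  have hk2 : (2 : ℝ) ≤ k := by exact_mod_cast hk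
  have hkm' : (k : ℝ) < m := by exact_mod_cast hkm
  have hπ := Real.pi_pos
  have hθ : 0 < Real.pi / m := by positivity
  have hθδ : Real.pi / m < Real.pi / k := div_lt_div_of_pos_left hπ hkk hkm'
  have hδ : Real.pi / k ≤ Real.pi / 2 := div_le_div_of_nonneg_left hπ.le (by norm_num) hk2
  obtain ⟨φ, ψ, hφ, hψ, hsum, hang⟩ := hbtr _ _ hθ hθδ hδ
  have hφπ : φ < Real.pi := by linarith
  have hψπ : ψ < Real.pi := by linarith
  obtain ⟨c, s, hc, hs, hcs, hk1, hk3, he1, he2⟩ :=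
    hbiv (Real.pi / m) φ ψ hθ (by linarith) hφ hφπ hψ hψπ hang
  obtain ⟨hconn, hadj'⟩ := hadj m k hm2 hk
  obtain ⟨hinj, hap, hembd⟩ := hemb m k hm2 hk φ ψ c s hφ hψ hsum hc hs hcs
  have hnb' := hnb m k hm2 hk φ ψ c s hsum
  -- distinctness of the neighbours
  have hdist : ∀ v : ZMod (2 * m) × ZMod (2 * k),
      ((v.1 + 1, v.2) : ZMod (2 * m) × ZMod (2 * k)) ≠ (v.1 - 1, v.2) ∧
      ((v.1 + 1, v.2) : ZMod (2 * m) × ZMod (2 * k)) ≠
        (v.1, if Odd (v.1.val + v.2.val) then v.2 + 1 else v.2 - 1) ∧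
      ((v.1 - 1, v.2) : ZMod (2 * m) × ZMod (2 * k)) ≠
        (v.1, if Odd (v.1.val + v.2.val) then v.2 + 1 else v.2 - 1) := by
    intro v
    have h1 : (1 : ZMod (2 * m)) ≠ 0 := by
      intro h
      have : ((1 : ℕ) : ZMod (2 * m)) = 0 := by exact_mod_cast h
      rw [ZMod.natCast_eq_zero_iff] at this
      have := Nat.le_of_dvd (by norm_num) this
      omega
    have h2 : (2 : ZMod (2 * m)) ≠ 0 := by
      intro h
      have : ((2 : ℕ) : ZMod (2 * m)) = 0 := by exact_mod_cast h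
      rw [ZMod.natCast_eq_zero_iff] at this
      have := Nat.le_of_dvd (by norm_num) this
      omega
    refine ⟨fun h => ?_, fun h => ?_, fun h => ?_⟩
    · have h' : v.1 + 1 = v.1 - 1 := congrArg Prod.fst h
      apply h2
      have : (2 : ZMod (2 * m)) = (v.1 + 1) - (v.1 - 1) := by ring
      rw [this, h', sub_self]
    · have h' : v.1 + 1 = v.1 := congrArg Prod.fst h
      apply h1
      have : (1 : ZMod (2 * m)) = (v.1 + 1) - v.1 := by ring
      rw [this, h', sub_self]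
    · have h' : v.1 - 1 = v.1 := congrArg Prod.fst h
      apply h1
      have : (1 : ZMod (2 * m)) = v.1 - (v.1 - 1) := by ring
      rw [this, h', sub_self]
  obtain ⟨hcub, hbal⟩ := hgen _ (brick m k) (fun v => (v.1 + 1, v.2)) (fun v => (v.1 - 1, v.2))
    (fun v => (v.1, if Odd (v.1.val + v.2.val) then v.2 + 1 else v.2 - 1)) hdist hadj'
  refine ⟨hconn, hcub, bpos m k φ c s, ?_, hinj, hap, ?_, hembd⟩
  · intro v
    obtain ⟨e, x, y, _, hx, hy, hpos, _⟩ := hnb' v
    rw [hpos]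
    exact ip_unit c s x y hx hy hcs
  · apply hbal
    intro v
    obtain ⟨e, x, y, he, hx, hy, hpos, hp1, hp2, hp3⟩ := hnb' v
    rw [hpos, hp1, hp2, hp3]
    exact hbbal (Real.pi / m) φ ψ c s e x y he hx hy hcs hk1 hk3 he1 he2

theorem norm_stdAddChar {N : ℕ} [NeZero N] (j : ZMod N) : ‖(stdAddChar j : ℂ)‖ = 1 := by
  rw [stdAddChar_apply]; exact Circle.norm_coe _

theorem stdAddChar_neg_one_mul {N : ℕ} [NeZero N] (j : ZMod N) (w : ℂ) (h : stdAddChar j = w) :
    stdAddChar (-j) = w⁻¹ := by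
  rw [AddChar.map_neg_eq_inv, h]

theorem stdAddChar_one_half (m : ℕ) [NeZero m] :
    (stdAddChar (1 : ZMod (2 * m)) : ℂ) = exp (((Real.pi / m : ℝ) : ℂ) * I) := by
  have h := stdAddChar_coe (N := 2 * m) (1 : ℤ)
  simp only [Int.cast_one] at h
  rw [h]; congr 1; push_cast
  have : (m : ℂ) ≠ 0 := by exact_mod_cast NeZero.ne m
  field_simp

theorem stdAddChar_m_half (m : ℕ) [NeZero m] :
    (stdAddChar ((m : ℕ) : ZMod (2 * m)) : ℂ) = -1 := by
  have h := stdAddChar_coe (N := 2 * m) (m : ℤ)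
  have hm : (m : ℂ) ≠ 0 := by exact_mod_cast NeZero.ne m
  simp only [Int.cast_natCast] at h
  rw [h, ← Complex.exp_pi_mul_I]; congr 1; push_cast
  field_simp

theorem stdAddChar_one (n : ℕ) [NeZero n] :
    (stdAddChar (1 : ZMod n) : ℂ) = exp (((2 * Real.pi / n : ℝ) : ℂ) * I) := by
  have h := stdAddChar_coe (N := n) (1 : ℤ)
  simp only [Int.cast_one] at h
  rw [h]; congr 1; push_cast
  ring

theorem moebius_target (hgen : GenStm) (hmar : MarStm) (hmiv : MivStm) (hmbal : MbalStm)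
    (hadj : MadjStm) (hemb : MembStm) : MoebiusTarget := by
  intro m _ hm3 hm4 hm6
  obtain ⟨a, ham, hker, α, hα, hα1, hα2⟩ := hmar m hm3 hm4 hm6
  have hm : (0 : ℝ) < m := by exact_mod_cast (by omega : 0 < m)
  have hm3' : (3 : ℝ) ≤ m := by exact_mod_cast hm3
  have hπ := Real.pi_pos
  have hβ0 : 0 < Real.pi / m := by positivity
  have hβ1 : Real.pi / m < Real.pi := by
    rw [div_lt_iff₀ hm]; nlinarith
  have hβ : Real.cos (Real.pi / m) < 1 := by
    rw [← Real.cos_zero]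
    exact Real.cos_lt_cos_of_nonneg_of_le_pi le_rfl hβ1.le hβ0
  obtain ⟨c, s, hc, hs, hcs, hk, he⟩ := hmiv _ _ hα1 hα2 hβ
  obtain ⟨hconn, hadj', hdist⟩ := hadj.1 m (by omega)
  obtain ⟨hinj, hap, hembd⟩ := hemb m hm3 a ham hker c s hc hs hcs
  obtain ⟨hcub, hbal⟩ := hgen _ (moebius m) (fun i => i + 1) (fun i => i - 1)
    (fun i => i + (m : ZMod (2 * m))) hdist hadj'
  refine ⟨hconn, hcub, mpos m a c s, ?_, hinj, hap, ?_, hembd⟩
  · intro v
    exact ip_unit c s _ _ (norm_stdAddChar _) (norm_stdAddChar _) hcs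
  · apply hbal
    intro v
    have h := hmbal α (Real.pi / m) c s (stdAddChar (a * v)) (stdAddChar v) (norm_stdAddChar _)
      (norm_stdAddChar _) hc hs hcs hk he
    have e1 : mpos m a c s (v + 1) = ((c : ℂ) * (stdAddChar (a * v) * exp (α * I)),
        (s : ℂ) * (stdAddChar v * exp ((Real.pi / m : ℝ) * I))) := by
      rw [mpos, mul_add, mul_one, AddChar.map_add_eq_mul, AddChar.map_add_eq_mul, hα,
        stdAddChar_one_half]
    have e2 : mpos m a c s (v - 1) = ((c : ℂ) * (stdAddChar (a * v) * exp (-(α * I))),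
        (s : ℂ) * (stdAddChar v * exp (-((Real.pi / m : ℝ) * I)))) := by
      rw [mpos, mul_sub, mul_one, sub_eq_add_neg, sub_eq_add_neg, AddChar.map_add_eq_mul,
        AddChar.map_add_eq_mul, stdAddChar_neg_one_mul a _ hα,
        stdAddChar_neg_one_mul 1 _ (stdAddChar_one_half m), ← Complex.exp_neg, ← Complex.exp_neg]
    have e3 : mpos m a c s (v + (m : ZMod (2 * m))) =
        ((c : ℂ) * stdAddChar (a * v), -((s : ℂ) * stdAddChar v)) := by
      rw [mpos, mul_add, ham, add_zero, AddChar.map_add_eq_mul, stdAddChar_m_half]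
      simp
    rw [e1, e2, e3]
    exact h

theorem prism_target (hgen : GenStm) (hpar : ParStm) (hmiv : MivStm) (hmbal : MbalStm)
    (hadj : MadjStm) (hemb : PembStm) : PrismTarget := by
  intro n _ hn8 hne
  obtain ⟨a, hker, hah, α, hα, hα1, hα2⟩ := hpar n hn8 hne
  have hn : (0 : ℝ) < n := by exact_mod_cast (by omega : 0 < n)
  have hn8' : (8 : ℝ) ≤ n := by exact_mod_cast hn8
  have hπ := Real.pi_pos
  have hβ0 : 0 < 2 * Real.pi / n := by positivity
  have hβ1 : 2 * Real.pi / n < Real.pi := by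
    rw [div_lt_iff₀ hn]; nlinarith
  have hβ : Real.cos (2 * Real.pi / n) < 1 := by
    rw [← Real.cos_zero]
    exact Real.cos_lt_cos_of_nonneg_of_le_pi le_rfl hβ1.le hβ0
  obtain ⟨c, s, hc, hs, hcs, hk, he⟩ := hmiv _ _ hα1 hα2 hβ
  obtain ⟨hconn, hadj', hdist⟩ := hadj.2 n (by omega)
  obtain ⟨hinj, hap, hembd⟩ := hemb n (by omega) hne a hker hah c s hc hs hcs
  obtain ⟨hcub, hbal⟩ := hgen _ (prism n) (fun v => (v.1 + 1, v.2)) (fun v => (v.1 - 1, v.2))
    (fun v => (v.1, !v.2)) hdist hadj'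
  have hsg : ∀ b : Bool, ‖((if b then -1 else 1 : ℂ))‖ = 1 := by
    intro b; cases b <;> simp
  refine ⟨hconn, hcub, ppos n a c s, ?_, hinj, hap, ?_, hembd⟩
  · intro v
    refine ip_unit c s _ _ (norm_stdAddChar _) ?_ hcs
    rw [norm_mul, hsg, norm_stdAddChar, one_mul]
  · apply hbal
    rintro ⟨i, b⟩
    have h := hmbal α (2 * Real.pi / n) c s (stdAddChar (a * i))
      ((if b then -1 else 1) * stdAddChar i) (norm_stdAddChar _)
      (by rw [norm_mul, hsg, norm_stdAddChar, one_mul]) hc hs hcs hk he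
    have e1 : ppos n a c s (i + 1, b) = ((c : ℂ) * (stdAddChar (a * i) * exp (α * I)),
        (s : ℂ) * ((if b then -1 else 1) * stdAddChar i *
          exp ((2 * Real.pi / n : ℝ) * I))) := by
      simp only [ppos]
      rw [mul_add, mul_one, AddChar.map_add_eq_mul, AddChar.map_add_eq_mul, hα,
        stdAddChar_one n, mul_assoc]
    have e2 : ppos n a c s (i - 1, b) = ((c : ℂ) * (stdAddChar (a * i) * exp (-(α * I))),
        (s : ℂ) * ((if b then -1 else 1) * stdAddChar i *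
          exp (-((2 * Real.pi / n : ℝ) * I)))) := by
      simp only [ppos]
      rw [mul_sub, mul_one, sub_eq_add_neg, sub_eq_add_neg, AddChar.map_add_eq_mul,
        AddChar.map_add_eq_mul, stdAddChar_neg_one_mul a _ hα,
        stdAddChar_neg_one_mul 1 _ (stdAddChar_one n), ← Complex.exp_neg, ← Complex.exp_neg,
        mul_assoc]
    have e3 : ppos n a c s (i, !b) =
        ((c : ℂ) * stdAddChar (a * i), -((s : ℂ) * ((if b then -1 else 1) * stdAddChar i))) := by
      cases b <;> simp [ppos]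
    have e0 : ppos n a c s (i, b) =
        ((c : ℂ) * stdAddChar (a * i), (s : ℂ) * ((if b then -1 else 1) * stdAddChar i)) := rfl
    simp only
    rw [e1, e2, e3, e0]
    exact h

end Pool.Agent.T2H75.GN
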