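import Pool.Agent.T2H75.GN.Stm

/-!
Project GN, second batch: generalised Petersen graphs, odd prisms, the flow criterion, and three
small graphs.
-/

namespace Pool.Agent.T2H75.GN

open Complex ZMod

/-! ### Generalised Petersen graphs -/

/-- The generalised Petersen graph `GP(n, k)`: outer cycle `(i, false)`, inner vertices `(i, true)`,
`(i, true)` joined to `(i ± k, true)`, spokes. -/
def petersen (n : ℕ) (k : ZMod n) : SimpleGraph (ZMod n × Bool) :=
  SimpleGraph.fromRel fun v w =>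
    (v.2 = false ∧ w.2 = false ∧ w.1 = v.1 + 1) ∨ (v.2 = true ∧ w.2 = true ∧ w.1 = v.1 + k) ∨
      (w.1 = v.1 ∧ w.2 = !v.2)

/-- Positions: `(c χ(k' i), s χ(i))` for outer and `(c' χ(k' i), s' χ(i))` for inner vertices. -/
noncomputable def gpos (n : ℕ) [NeZero n] (k' : ZMod n) (c s c' s' : ℝ) (v : ZMod n × Bool) : ℂ × ℂ :=
  if v.2 then (c' * stdAddChar (k' * v.1), s' * stdAddChar v.1)
  else (c * stdAddChar (k' * v.1), s * stdAddChar v.1)

/-- GADJ. -/
def GadjStm : Prop :=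
  ∀ (n : ℕ) [NeZero n] (k : ZMod n), 5 ≤ n → IsUnit k →
    (petersen n k).Connected ∧
    (∀ v w, (petersen n k).Adj v w ↔
      w = (v.1 + (if v.2 then k else 1), v.2) ∨ w = (v.1 - (if v.2 then k else 1), v.2) ∨
        w = (v.1, !v.2)) ∧
    ∀ v : ZMod n × Bool,
      (v.1 + (if v.2 then k else 1), v.2) ≠ (v.1 - (if v.2 then k else 1), v.2) ∧
      (v.1 + (if v.2 then k else 1), v.2) ≠ (v.1, !v.2) ∧
      (v.1 - (if v.2 then k else 1), v.2) ≠ (v.1, !v.2)

/-- MIV2. Intermediate value theorem in `t ∈ [π/4, π/2]` (`c = cos t`, `s = sin t`) for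
`sin 2t (y - x) - √(1 - (x cos² t + y sin² t)²)`, positive at `π/4` as `y - x > 1`, negative at
`π/2` as `y² < 1`. -/
def Miv2Stm : Prop :=
  ∀ x y : ℝ, -1 < x → x < y - 1 → y < 1 →
    ∃ c s : ℝ, 0 < c ∧ c < s ∧ c ^ 2 + s ^ 2 = 1 ∧ (c ^ 2 * x + s ^ 2 * y) ^ 2 < 1 ∧
      2 * c * s * (y - x) = √(1 - (c ^ 2 * x + s ^ 2 * y) ^ 2)

/-- GBAL. Balance at a vertex with two neighbours `(c u e^{±iα}, s v e^{±iβ})` and a spoke to
`(c' u, s' v)`.  Proof: with `κ = c² cos α + s² cos β`, `S = √(1 - κ²)` the first two terms sum to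
`X (- s u, c v)`, `X = 2 c s (cos β - cos α) / S` (`= e`), because `cos α - κ = s² (cos α - cos β)`,
`cos β - κ = c² (cos β - cos α)`; the spoke has the unit tangent `e (s u, - c v)`: with
`c = cos t, s = sin t, c' = cos t', s' = sin t'`: `ip = cos (t - t') = c c' + s s'`,
`√(1 - ip²) = |c' s - c s'|`, `(c', s') - ip (c, s) = (c' s - c s') (s, - c)`, and the sign of
`c' s - c s'` is that of `c' - c`. -/
def GbalStm : Prop :=
  ∀ (α β c s c' s' e : ℝ) (u v : ℂ), ‖u‖ = 1 → ‖v‖ = 1 → 0 < c → 0 < s → c ^ 2 + s ^ 2 = 1 →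
    0 < c' → 0 < s' → c' ^ 2 + s' ^ 2 = 1 →
    (c ^ 2 * Real.cos α + s ^ 2 * Real.cos β) ^ 2 < 1 →
    ((e = 1 ∧ c < c') ∨ (e = -1 ∧ c' < c)) →
    2 * c * s * (Real.cos β - Real.cos α) =
      e * √(1 - (c ^ 2 * Real.cos α + s ^ 2 * Real.cos β) ^ 2) →
    tang (c * u, s * v) (c * (u * exp (α * I)), s * (v * exp (β * I))) +
      tang (c * u, s * v) (c * (u * exp (-(α * I))), s * (v * exp (-(β * I)))) +
      tang (c * u, s * v) (c' * u, s' * v) = 0

/-- GLAY. The three layers.  Let `p, q` be unit vectors `(c u, s v)`, `(c u', s v')`,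
`|u| = ... = |v'| = 1`, whose first coordinates make a larger angle than the second ones:
`Re (u conj u') < Re (v conj v')`.  Then the first coordinate of every point of `arc p q` other than
`p, q` has norm `< c` (and its second one norm `> s`).
Proof: `x = l p + m q`, `1 = ip x x = l² + m² + 2 l m κ`, `κ = c² Re(u ū') + s² Re(v v̄')`,
`‖x.1‖² = c² (l² + m² + 2 l m Re(u ū')) = c² (1 + 2 l m (Re(u ū') - κ))` and `Re(u ū') < κ`;
if `l m = 0` then `x = p` or `x = q`. -/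
def GlayStm : Prop :=
  ∀ (c s : ℝ) (u v u' v' : ℂ), 0 < c → 0 < s → c ^ 2 + s ^ 2 = 1 →
    ‖u‖ = 1 → ‖v‖ = 1 → ‖u'‖ = 1 → ‖v'‖ = 1 →
    ∀ x, x ∈ arc ((c : ℂ) * u, (s : ℂ) * v) ((c : ℂ) * u', (s : ℂ) * v') →
      ((u.re * u'.re + u.im * u'.im < v.re * v'.re + v.im * v'.im) →
        x = ((c : ℂ) * u, (s : ℂ) * v) ∨ x = ((c : ℂ) * u', (s : ℂ) * v') ∨ ‖x.1‖ < c) ∧
      ((v.re * v'.re + v.im * v'.im < u.re * u'.re + u.im * u'.im) →
        x = ((c : ℂ) * u, (s : ℂ) * v) ∨ x = ((c : ℂ) * u', (s : ℂ) * v') ∨ c < ‖x.1‖)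

/-- GSP. Spokes: every point of `arc (c u, s v) (c' u, s' v)` (`c < c'`, all positive) is
`(x u, y v)` with `c ≤ x ≤ c'`, `0 < y`, and it is an endpoint if `x = c` or `x = c'`. -/
def GspStm : Prop :=
  ∀ (c s c' s' : ℝ) (u v : ℂ), 0 < c → 0 < s → c ^ 2 + s ^ 2 = 1 → 0 < c' → 0 < s' →
    c' ^ 2 + s' ^ 2 = 1 → c < c' → ‖u‖ = 1 → ‖v‖ = 1 →
    ∀ z, z ∈ arc ((c : ℂ) * u, (s : ℂ) * v) ((c' : ℂ) * u, (s' : ℂ) * v) →
      ∃ x y : ℝ, c ≤ x ∧ x ≤ c' ∧ 0 < y ∧ z = ((x : ℂ) * u, (y : ℂ) * v) ∧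
        (x = c → z = ((c : ℂ) * u, (s : ℂ) * v)) ∧ (x = c' → z = ((c' : ℂ) * u, (s' : ℂ) * v))

/-- GOUT. Outer edges `i, i + 1` and `j, j + 1` meet only in common endpoints (sectors in the second
coordinate, as in MEMB).  Proof: `x = l p_i + m p_{i+1}`: `x.2 = s χ i (l + m e^{iβ})`, `β = 2π/n`; POL and SEC. -/
def GoutStm : Prop :=
  ∀ (n : ℕ) [NeZero n], 5 ≤ n → ∀ (s : ℝ), 0 < s →
    ∀ (i j : ZMod n) (l m l' m' : ℝ), 0 ≤ l → 0 ≤ m → 0 ≤ l' → 0 ≤ m' → (l ≠ 0 ∨ m ≠ 0) →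
      (l' ≠ 0 ∨ m' ≠ 0) → i ≠ j →
      l • ((s : ℂ) * stdAddChar i) + m • ((s : ℂ) * stdAddChar (i + 1)) =
        l' • ((s : ℂ) * stdAddChar j) + m' • ((s : ℂ) * stdAddChar (j + 1)) →
      (m = 0 ∧ l' = 0 ∧ i = j + 1) ∨ (l = 0 ∧ m' = 0 ∧ j = i + 1)

/-- GEMB. Injectivity, non-antipodality and embeddedness of `GP(n, k)`, `k k' = ±1`.
Proof: outer edges lie in `‖x.1‖ < c` (GLAY, first case: `cos (2πk'/n) < cos (2π/n)`) except for
their endpoints, inner edges in `‖x.1‖ > c'` (GLAY, second case: the first coordinates of the inner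
edge `i, i + k` differ by `χ (k' k) = χ (±1)`, the second ones by `χ k`), spokes in
`c ≤ ‖x.1‖ ≤ c'` (GSP) with `c < c'`.  Outer/outer: GOUT (second coordinates).  Inner/inner: GOUT
applied to the first coordinates, with `k' i` in place of `i` (`k'` is a unit, so `i ↦ k' i` is
injective, and `k' (i + k) = k' i ± 1`).  Spoke/spoke: `χ i` is the direction of the second
coordinate. Vertices: norms and injectivity of `χ`.  All `l, m` come from `arc`. -/
def GembStm : Prop :=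
  ∀ (n : ℕ) [NeZero n], 5 ≤ n → ∀ k k' : ZMod n, (k * k' = 1 ∨ k * k' = -1) →
    (stdAddChar k : ℂ).re < (stdAddChar (1 : ZMod n) : ℂ).re →
    (stdAddChar k' : ℂ).re < (stdAddChar (1 : ZMod n) : ℂ).re →
    ∀ c s c' s' : ℝ, 0 < c → 0 < s → c ^ 2 + s ^ 2 = 1 → 0 < c' → 0 < s' → c' ^ 2 + s' ^ 2 = 1 →
    c < c' →
    Function.Injective (gpos n k' c s c' s') ∧
    (∀ v w, (petersen n k).Adj v w → gpos n k' c s c' s' w ≠ -gpos n k' c s c' s' v) ∧
    ∀ v w v' w', (petersen n k).Adj v w → (petersen n k).Adj v' w' → s(v, w) ≠ s(v', w') →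
      ∀ x, x ∈ arc (gpos n k' c s c' s' v) (gpos n k' c s c' s' w) →
        x ∈ arc (gpos n k' c s c' s' v') (gpos n k' c s c' s' w') →
        ∃ u, (u = v ∨ u = w) ∧ (u = v' ∨ u = w') ∧ x = gpos n k' c s c' s' u

/-- The target: generalised Petersen graphs, for instance the Petersen graph `(n, k, k') = (5, 2, 2)`,
the Moebius-Kantor graph `(8, 3, 3)`, the Desargues graph `(10, 3, 3)`, the Nauru graph
`(12, 5, 5)`. -/
def PetersenTarget : Prop :=
  ∀ (n : ℕ) [NeZero n], 5 ≤ n → ∀ k k' : ZMod n, (k * k' = 1 ∨ k * k' = -1) →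
    (stdAddChar k : ℂ).re < (stdAddChar (1 : ZMod n) : ℂ).re - 1 →
    (stdAddChar k' : ℂ).re < (stdAddChar (1 : ZMod n) : ℂ).re - 1 →
    (petersen n k).Connected ∧ Cubic (petersen n k) ∧ ∃ p, IsNet (petersen n k) p

/-! ### Odd prisms -/

/-- PARO. `a = (n - 1) / 2`, `2 a = -1` in `ZMod n`, `χ a = exp (i (π - π/n))`,
`cos (2π/n) + cos (π/n) ≥ cos (2π/5) + cos (π/5) = √5/2 ≥ 1`. -/
def ParoStm : Prop :=
  ∀ (n : ℕ) [NeZero n], 5 ≤ n → Odd n →
    ∃ a : ZMod n, 2 * a = -1 ∧ stdAddChar a = exp (((Real.pi - Real.pi / n : ℝ) : ℂ) * I) ∧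
      -1 < Real.cos (Real.pi - Real.pi / n) ∧
      Real.cos (Real.pi - Real.pi / n) ≤ Real.cos (2 * Real.pi / n) - 1

/-- PEMBO. The prism, `n` odd, `2 a = -1`.  All cases are as in PEMB (package PEMB.lean, copy it),
except rim/rim of different layers.  There `x = (c χ(ai) (l + μ χ a), s χ i (l + μ e^{iβ}))
= (c χ(aj) (l' + μ' χ a), - s χ j (l' + μ' e^{iβ}))`, `β = 2π/n`, `χ a = e^{iα}`, `α = π - β/2`.
Norms: `l² + μ² + 2 l μ cos α` and `l² + μ² + 2 l μ cos β` agree for both representations, and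
`cos α ≠ cos β`, so `l μ = l' μ'`, `l² + μ² = l'² + μ'²`, hence `(l', μ') = (l, μ)` or `(μ, l)`.
First case: cancel (`l + μ e^{iα} ≠ 0`): `χ (a i) = χ (a j)`, `i = j`, then `1 = -1`.
Second case: `μ + l e^{iβ} = e^{iβ} conj (l + μ e^{iβ})`, and the same for `α`; with
`l + μ e^{iβ} = ρ e^{iω}`, `0 < ω < β` (POL): `e^{2iω} = - χ (j + 1 - i) = χ (d) e^{iβ/2}`,
`d = j + 1 - i + (n-1)/2`, so by SEC `2ω = β/2` or `2ω = 3β/2`.  Case `ω = β/4`: `l : μ =
sin (3β/4) : sin (β/4)` and `l + μ e^{iα} = l - μ e^{-iβ/2}` is a positive multiple of `e^{iβ/4}`;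
case `ω = 3β/4`: `l : μ = sin (β/4) : sin (3β/4)` and `l + μ e^{iα}` is a positive multiple of
`e^{i(α - β/4)}`.  The first coordinate says that the square of this direction is `χ (a (j + 1 - i))`,
i.e. `e^{iβ/2} = χ (..)` or `e^{2iα} e^{-iβ/2} = χ (2a - 1) e^{iβ/2} = χ (..)`: impossible by SEC.
Rim interior against rungs and vertices: by GLAY (`cos α < cos β`) an interior point of a rim edge
has `‖x.1‖ < c`, whereas a rung point has `‖x.1‖ = c (l' + μ') ≥ c` (because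
`1 = c² (l' + μ')² + s² (l' - μ')² ≤ (l' + μ')²`) and a vertex has `‖x.1‖ = c`.
Vertex/rung interior: `l' + μ' = 1` and `|l' - μ'| = 1`.  Rung/rung: the direction of `x.1` gives
`a i = a j`, so `i = j` as `2 a = -1`. -/
def PemboStm : Prop :=
  ∀ (n : ℕ) [NeZero n], 5 ≤ n → Odd n → ∀ a : ZMod n, 2 * a = -1 →
    stdAddChar a = exp (((Real.pi - Real.pi / n : ℝ) : ℂ) * I) →
    ∀ c s : ℝ, 0 < c → 0 < s → c ^ 2 + s ^ 2 = 1 →
    Function.Injective (ppos n a c s) ∧
    (∀ v w, (prism n).Adj v w → ppos n a c s w ≠ -ppos n a c s v) ∧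
    ∀ v w v' w', (prism n).Adj v w → (prism n).Adj v' w' → s(v, w) ≠ s(v', w') →
      ∀ x, x ∈ arc (ppos n a c s v) (ppos n a c s w) →
        x ∈ arc (ppos n a c s v') (ppos n a c s w') →
        ∃ u, (u = v ∨ u = w) ∧ (u = v' ∨ u = w') ∧ x = ppos n a c s u

/-- PRR. Rim/rim of different layers (the essential case of PEMBO, see there). -/
def PrrStm : Prop :=
  ∀ (n : ℕ) [NeZero n], 5 ≤ n → Odd n → ∀ a : ZMod n, 2 * a = -1 →
    stdAddChar a = exp (((Real.pi - Real.pi / n : ℝ) : ℂ) * I) →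
    ∀ c s : ℝ, 0 < c → 0 < s → ∀ (i j : ZMod n) (l μ l' μ' : ℝ), 0 < l → 0 < μ → 0 < l' → 0 < μ' →
    c * (stdAddChar (a * i) * ((l : ℂ) + μ * stdAddChar a)) =
      c * (stdAddChar (a * j) * ((l' : ℂ) + μ' * stdAddChar a)) →
    s * (stdAddChar i * ((l : ℂ) + μ * stdAddChar (1 : ZMod n))) =
      -(s * (stdAddChar j * ((l' : ℂ) + μ' * stdAddChar (1 : ZMod n)))) → False

/-! ### Small graphs by certificates -/

/-- The product `conj P * Q` of quaternions, imaginary part (three coordinates), for integer or real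
quadruples; `a` = first coordinate (real part). -/
def imq {R : Type} [Ring R] (P Q : Fin 4 → R) : Fin 3 → R :=
  ![P 0 * Q 1 - P 1 * Q 0 - P 2 * Q 3 + P 3 * Q 2,
    P 0 * Q 2 - P 2 * Q 0 - P 3 * Q 1 + P 1 * Q 3,
    P 0 * Q 3 - P 3 * Q 0 - P 1 * Q 2 + P 2 * Q 1]

/-- CERT. A certificate for a net: `P v` nonzero vectors, `F v w` the directions.
If for adjacent `v, w`: `imq (P v) (P w) = b v w • F v w` with `b v w > 0`, all `F v w` have the same
nonzero norm and the `F v w` sum to zero over the neighbours `w` of every `v`, and if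
`P v, P w, P v', P w'` are linearly independent for disjoint edges and `P v, P w, P w'` for edges with
a common vertex `v`, then `p v = P v / |P v|` is a net (`(x, y) = (P 0 + i P 1, P 2 + i P 3)`).
Proof: for unit `p, q`: `q - (p·q) p = p * Im (conj p * q)` (quaternions), with norm
`√(1 - (p·q)²) = |Im (conj p * q)|`; so `tang (p v) (p w) = p v * F v w / |F|`, the sum is
`p v * 0 = 0`.  Linear independence of four vectors: two cones meet only in `0`. -/
def CertStm : Prop :=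
  ∀ (V : Type) [Fintype V] (G : SimpleGraph V) (P : V → Fin 4 → ℝ) (F : V → V → Fin 3 → ℝ)
    (b : V → V → ℝ) (M : ℝ), 0 < M →
    (∀ v w, G.Adj v w → 0 < b v w ∧ imq (P v) (P w) = b v w • F v w ∧
      (F v w 0) ^ 2 + (F v w 1) ^ 2 + (F v w 2) ^ 2 = M) →
    (open Classical in ∀ v, ∑ w ∈ Finset.univ.filter (fun w => G.Adj v w), F v w = 0) →
    (∀ v w, v ≠ w → ∀ t : ℝ, 0 ≤ t → P v ≠ t • P w) →
    (∀ v w v' w', G.Adj v w → G.Adj v' w' → v ≠ v' → v ≠ w' → w ≠ v' → w ≠ w' →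
      LinearIndependent ℝ ![P v, P w, P v', P w']) →
    (∀ v w w', G.Adj v w → G.Adj v w' → w ≠ w' → LinearIndependent ℝ ![P v, P w, P w']) →
    (∀ v, ∃ w, G.Adj v w) →
    ∃ p, IsNet G p

/-! ### The flow criterion -/

/-- FLOW1. A finite multigraph is the underlying graph of a balanced geodesic net on `S³` (not
necessarily embedded, arbitrary segments) only if it has a unit vector flow in `ℝ³`.
Proof.  `f e` = imaginary part of `conj (pos (src e)) * dir e` (quaternions, see `imq`): it is a unit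
vector as `pos ⊥ dir`; the same expression for the other end `pos (tgt e)` and the backward tangent
`sin • pos (src e) - cos • dir e` is `- f e`; apply the linear map `Im (conj (pos v) * ·)` to the
balance at `v`. -/
def Flow1Stm : Prop :=
  ∀ (V E : Type) [Fintype V] [Fintype E] (N : GeoNet V E),
    ∃ f : E → Fin 3 → ℝ, (∀ e, (f e 0) ^ 2 + (f e 1) ^ 2 + (f e 2) ^ 2 = 1) ∧
      open Classical in
      ∀ v, ∑ e ∈ Finset.univ.filter (fun e => N.src e = v), f e =
        ∑ e ∈ Finset.univ.filter (fun e => N.tgt e = v), f e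

/-- FLOW2. Conversely, if every vertex has degree three.
Proof.  The three (signed) flow vectors at `v` sum to zero and are unit vectors, so
they span a plane; let `n v` be a unit normal, `pos v = (0, n v)` (in the great sphere `x₀ = 0`, i.e.
`pos v = (i n₁, n₂ + i n₃)`), `dir e = f e × n (src e)`, and `len e ∈ (0, 2π]` such that
`n (tgt e) = cos (len e) n (src e) + sin (len e) dir e` (possible as `n (tgt e) ⊥ f e`).  The backward
tangent at `n (tgt e)` is `- f e × n (tgt e)`; balance is the conservation law, `× n v`. -/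
def Flow2Stm : Prop :=
  ∀ (V E : Type) [Fintype V] [Fintype E] (src tgt : E → V) (f : E → Fin 3 → ℝ),
    (open Classical in ∀ v, (Finset.univ.filter (fun e => src e = v)).card +
      (Finset.univ.filter (fun e => tgt e = v)).card = 3) →
    (∀ e, (f e 0) ^ 2 + (f e 1) ^ 2 + (f e 2) ^ 2 = 1) →
    (open Classical in ∀ v, ∑ e ∈ Finset.univ.filter (fun e => src e = v), f e =
      ∑ e ∈ Finset.univ.filter (fun e => tgt e = v), f e) →
    ∃ N : GeoNet V E, N.src = src ∧ N.tgt = tgt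

end Pool.Agent.T2H75.GN
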