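import Pool.Agent.T2H75.GN.Asm
import Pool.Agent.T2H75.GN.Stm2

/-! Assembly of the second batch of the project GN. -/

namespace Pool.Agent.T2H75.GN

open Complex ZMod

theorem exists_angle {N : ℕ} [NeZero N] (j : ZMod N) :
    ∃ α : ℝ, (stdAddChar j : ℂ) = exp (α * I) ∧ (stdAddChar j : ℂ).re = Real.cos α := by
  refine ⟨Complex.arg (stdAddChar j), ?_, ?_⟩
  · have h := Complex.norm_mul_exp_arg_mul_I (stdAddChar j : ℂ)
    rw [norm_stdAddChar] at h
    simpa using h.symm
  · have h := Complex.norm_mul_exp_arg_mul_I (stdAddChar j : ℂ)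
    rw [norm_stdAddChar] at h
    have h' : (stdAddChar j : ℂ) = exp ((Complex.arg (stdAddChar j : ℂ)) * I) := by
      simpa using h.symm
    conv_lhs => rw [h']
    rw [Complex.exp_ofReal_mul_I_re]

theorem petersen_target (hgen : GenStm) (hmiv : Miv2Stm) (hbal' : GbalStm) (hadj : GadjStm)
    (hemb : GembStm) : PetersenTarget := by
  intro n _ hn5 k k' hkk hk1 hk1'
  have hku : IsUnit k := by
    rcases hkk with h | h
    · exact IsUnit.of_mul_eq_one _ h
    · exact IsUnit.of_mul_eq_one (-k') (by rw [mul_neg, h, neg_neg])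
  have hku' : IsUnit k' := by
    rcases hkk with h | h
    · exact IsUnit.of_mul_eq_one k (by rw [mul_comm, h])
    · exact IsUnit.of_mul_eq_one (-k) (by rw [mul_neg, mul_comm, h, neg_neg])
  obtain ⟨hconn, hadj', hdist⟩ := hadj n k hn5 hku
  have hn : (0 : ℝ) < n := by exact_mod_cast (by omega : 0 < n)
  have hn5' : (5 : ℝ) ≤ n := by exact_mod_cast hn5
  have hπ := Real.pi_pos
  have h1 : (stdAddChar (1 : ZMod n) : ℂ) = exp (((2 * Real.pi / n : ℝ) : ℂ) * I) :=
    stdAddChar_one n
  set β : ℝ := 2 * Real.pi / n with hβdef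
  have h1re : (stdAddChar (1 : ZMod n) : ℂ).re = Real.cos β := by
    rw [h1, Complex.exp_ofReal_mul_I_re]
  have hβ0 : 0 < β := by positivity
  have hβ1 : β < Real.pi := by
    rw [hβdef, div_lt_iff₀ hn]; nlinarith
  have hβ : Real.cos β < 1 := by
    rw [← Real.cos_zero]
    exact Real.cos_lt_cos_of_nonneg_of_le_pi le_rfl hβ1.le hβ0
  -- the real part of chi of a unit is larger than -1
  have hgt : ∀ j : ZMod n, IsUnit j → -1 < (stdAddChar j : ℂ).re := by
    intro j hj
    have hnorm := norm_stdAddChar j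
    have hre := Complex.abs_re_le_norm (stdAddChar j : ℂ)
    rw [hnorm] at hre
    rcases lt_or_eq_of_le (abs_le.mp hre).1 with h | h
    · exact h
    · exfalso
      have hsq := Complex.normSq_eq_norm_sq (stdAddChar j : ℂ)
      rw [hnorm, Complex.normSq_apply, ← h] at hsq
      have him : (stdAddChar j : ℂ).im = 0 := by nlinarith
      have hval : (stdAddChar j : ℂ) = -1 := by
        apply Complex.ext
        · simpa using h.symm
        · simpa using him
      have h2 : (stdAddChar (j + j) : ℂ) = stdAddChar (0 : ZMod n) := by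
        rw [AddChar.map_add_eq_mul, hval, AddChar.map_zero_eq_one]; norm_num
      have h3 : j + j = 0 := injective_stdAddChar h2
      have h4 : (2 : ZMod n) * j = 0 := by rw [two_mul]; exact h3
      have h5 : (2 : ZMod n) = 0 := by
        obtain ⟨w, hw⟩ := hj.exists_right_inv
        calc (2 : ZMod n) = 2 * (j * w) := by rw [hw, mul_one]
          _ = (2 * j) * w := by ring
          _ = 0 := by rw [h4, zero_mul]
      have h6 : ((2 : ℕ) : ZMod n) = 0 := by exact_mod_cast h5
      rw [ZMod.natCast_eq_zero_iff] at h6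
      have := Nat.le_of_dvd (by norm_num) h6
      omega
  obtain ⟨α, hα, hαre⟩ := exists_angle k'
  obtain ⟨κ, hκ, hκre⟩ := exists_angle k
  obtain ⟨α1, hα1, hα1re⟩ := exists_angle (k' * k)
  have hcos1 : Real.cos α1 = Real.cos β := by
    rw [← hα1re, ← h1re]
    rcases hkk with h | h
    · rw [mul_comm, h]
    · rw [mul_comm, h, AddChar.map_neg_eq_inv, h1, ← Complex.exp_neg]
      have : -(((β : ℝ) : ℂ) * I) = ((-β : ℝ) : ℂ) * I := by push_cast; ring
      rw [this, Complex.exp_ofReal_mul_I_re, Complex.exp_ofReal_mul_I_re, Real.cos_neg]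
  have hx1 : -1 < Real.cos α := hαre ▸ hgt k' hku'
  have hx2 : -1 < Real.cos κ := hκre ▸ hgt k hku
  have hy1 : Real.cos α < Real.cos β - 1 := by rw [← hαre, ← h1re]; exact hk1'
  have hy2 : Real.cos κ < Real.cos β - 1 := by rw [← hκre, ← h1re]; exact hk1
  obtain ⟨c, s, hc, hcs', hcs, hk, he⟩ := hmiv _ _ hx1 hy1 hβ
  obtain ⟨c2, s2, hc2, hcs2', hcs2, hk2, he2⟩ := hmiv _ _ hx2 hy2 hβ
  have hs : 0 < s := hc.trans hcs'
  have hs2 : 0 < s2 := hc2.trans hcs2'
  have hlt : c < s2 := by
    have ha : c ^ 2 < 1 / 2 := by nlinarith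
    have hb : 1 / 2 < s2 ^ 2 := by nlinarith
    nlinarith
  obtain ⟨hinj, hap, hembd⟩ := hemb n hn5 k k' hkk (by linarith) (by linarith) c s s2 c2 hc hs hcs
    hs2 hc2 (by linarith) hlt
  obtain ⟨hcub, hbal⟩ := hgen _ (petersen n k)
    (fun v => (v.1 + (if v.2 then k else 1), v.2)) (fun v => (v.1 - (if v.2 then k else 1), v.2))
    (fun v => (v.1, !v.2)) hdist hadj'
  refine ⟨hconn, hcub, gpos n k' c s s2 c2, ?_, hinj, hap, ?_, hembd⟩
  · rintro ⟨i, b⟩
    cases b
    · exact ip_unit c s _ _ (norm_stdAddChar _) (norm_stdAddChar _) hcs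
    · exact ip_unit s2 c2 _ _ (norm_stdAddChar _) (norm_stdAddChar _) (by linarith)
  · apply hbal
    rintro ⟨i, b⟩
    cases b
    · have h := hbal' α β c s s2 c2 1 (stdAddChar (k' * i)) (stdAddChar i) (norm_stdAddChar _)
        (norm_stdAddChar _) hc hs hcs hs2 hc2 (by linarith) hk (Or.inl ⟨rfl, hlt⟩)
        (by rw [he, one_mul])
      have e1 : gpos n k' c s s2 c2 (i + 1, false) =
          ((c : ℂ) * (stdAddChar (k' * i) * exp (α * I)),
            (s : ℂ) * (stdAddChar i * exp (β * I))) := by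
        simp only [gpos, Bool.false_eq_true, if_false]
        rw [mul_add, mul_one, AddChar.map_add_eq_mul, AddChar.map_add_eq_mul, hα, h1]
      have e2 : gpos n k' c s s2 c2 (i - 1, false) =
          ((c : ℂ) * (stdAddChar (k' * i) * exp (-(α * I))),
            (s : ℂ) * (stdAddChar i * exp (-(β * I)))) := by
        simp only [gpos, Bool.false_eq_true, if_false]
        rw [mul_sub, mul_one, sub_eq_add_neg, sub_eq_add_neg, AddChar.map_add_eq_mul,
          AddChar.map_add_eq_mul, stdAddChar_neg_one_mul k' _ hα,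
          stdAddChar_neg_one_mul 1 _ h1, ← Complex.exp_neg, ← Complex.exp_neg]
      have e3 : gpos n k' c s s2 c2 (i, !false) =
          ((s2 : ℂ) * stdAddChar (k' * i), (c2 : ℂ) * stdAddChar i) := rfl
      have e0 : gpos n k' c s s2 c2 (i, false) =
          ((c : ℂ) * stdAddChar (k' * i), (s : ℂ) * stdAddChar i) := rfl
      simp only [Bool.false_eq_true, if_false]
      rw [e1, e2, e3, e0]
      exact h
    · have h := hbal' α1 κ s2 c2 c s (-1) (stdAddChar (k' * i)) (stdAddChar i) (norm_stdAddChar _)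
        (norm_stdAddChar _) hs2 hc2 (by linarith) hc hs hcs
        (by rw [hcos1]; have : s2 ^ 2 * Real.cos β + c2 ^ 2 * Real.cos κ =
              c2 ^ 2 * Real.cos κ + s2 ^ 2 * Real.cos β := by ring
            rw [this]; exact hk2) (Or.inr ⟨rfl, hlt⟩)
        (by rw [hcos1]
            have : s2 ^ 2 * Real.cos β + c2 ^ 2 * Real.cos κ =
              c2 ^ 2 * Real.cos κ + s2 ^ 2 * Real.cos β := by ring
            rw [this, ← he2]; ring)
      have e1 : gpos n k' c s s2 c2 (i + k, true) =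
          ((s2 : ℂ) * (stdAddChar (k' * i) * exp (α1 * I)),
            (c2 : ℂ) * (stdAddChar i * exp (κ * I))) := by
        simp only [gpos, if_true]
        rw [mul_add, AddChar.map_add_eq_mul, AddChar.map_add_eq_mul, hα1, hκ]
      have e2 : gpos n k' c s s2 c2 (i - k, true) =
          ((s2 : ℂ) * (stdAddChar (k' * i) * exp (-(α1 * I))),
            (c2 : ℂ) * (stdAddChar i * exp (-(κ * I)))) := by
        simp only [gpos, if_true]
        rw [mul_sub, sub_eq_add_neg, sub_eq_add_neg, AddChar.map_add_eq_mul,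
          AddChar.map_add_eq_mul, stdAddChar_neg_one_mul (k' * k) _ hα1,
          stdAddChar_neg_one_mul k _ hκ, ← Complex.exp_neg, ← Complex.exp_neg]
      have e3 : gpos n k' c s s2 c2 (i, !true) =
          ((c : ℂ) * stdAddChar (k' * i), (s : ℂ) * stdAddChar i) := rfl
      have e0 : gpos n k' c s s2 c2 (i, true) =
          ((s2 : ℂ) * stdAddChar (k' * i), (c2 : ℂ) * stdAddChar i) := rfl
      simp only [if_true]
      rw [e1, e2, e3, e0]
      exact h

/-- Prisms over odd cycles. -/
theorem prism_odd_target (hgen : GenStm) (hpar : ParoStm) (hmiv : MivStm) (hmbal : MbalStm)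
    (hadj : MadjStm) (hemb : PemboStm) :
    ∀ (n : ℕ) [NeZero n], 5 ≤ n → Odd n →
      (prism n).Connected ∧ Cubic (prism n) ∧ ∃ p, IsNet (prism n) p := by
  intro n _ hn8 hne
  obtain ⟨a, h2a, hα, hα1, hα2⟩ := hpar n hn8 hne
  set α : ℝ := Real.pi - Real.pi / n with hαdef
  have hn : (0 : ℝ) < n := by exact_mod_cast (by omega : 0 < n)
  have hn8' : (5 : ℝ) ≤ n := by exact_mod_cast hn8
  have hπ := Real.pi_pos
  have hβ0 : 0 < 2 * Real.pi / n := by positivity
  have hβ1 : 2 * Real.pi / n < Real.pi := by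
    rw [div_lt_iff₀ hn]; nlinarith
  have hβ : Real.cos (2 * Real.pi / n) < 1 := by
    rw [← Real.cos_zero]
    exact Real.cos_lt_cos_of_nonneg_of_le_pi le_rfl hβ1.le hβ0
  obtain ⟨c, s, hc, hs, hcs, hk, he⟩ := hmiv _ _ hα1 hα2 hβ
  obtain ⟨hconn, hadj', hdist⟩ := hadj.2 n (by omega)
  obtain ⟨hinj, hap, hembd⟩ := hemb n hn8 hne a h2a hα c s hc hs hcs
  obtain ⟨hcub, hbal⟩ := hgen _ (prism n) (fun v => (v.1 + 1, v.2)) (fun v => (v.1 - 1, v.2))
    (fun v => (v.1, !v.2)) hdist hadj'
  have hsg : ∀ b : Bool, ‖((if b then -1 else 1 : ℂ))‖ = 1 := by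
    intro b; cases b <;> simp
  refine ⟨hconn, hcub, ppos n a c s, ?_, hinj, hap, ?_, hembd⟩
  · intro v
    refine ip_unit c s _ _ (norm_stdAddChar _) ?_ hcs
    rw [norm_mul, hsg, norm_stdAddChar, one_mul]
  · apply hbal
    rintro ⟨i, b⟩
    have h := hmbal α (2 * Real.pi / n) c s (stdAddChar (a * i))
      ((if b then -1 else 1) * stdAddChar i) (norm_stdAddChar _)
      (by rw [norm_mul, hsg, norm_stdAddChar, one_mul]) hc hs hcs hk he
    have e1 : ppos n a c s (i + 1, b) = ((c : ℂ) * (stdAddChar (a * i) * exp (α * I)),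
        (s : ℂ) * ((if b then -1 else 1) * stdAddChar i *
          exp ((2 * Real.pi / n : ℝ) * I))) := by
      simp only [ppos]
      rw [mul_add, mul_one, AddChar.map_add_eq_mul, AddChar.map_add_eq_mul, hα,
        stdAddChar_one n, mul_assoc]
    have e2 : ppos n a c s (i - 1, b) = ((c : ℂ) * (stdAddChar (a * i) * exp (-(α * I))),
        (s : ℂ) * ((if b then -1 else 1) * stdAddChar i *
          exp (-((2 * Real.pi / n : ℝ) * I)))) := by
      simp only [ppos]
      rw [mul_sub, mul_one, sub_eq_add_neg, sub_eq_add_neg, AddChar.map_add_eq_mul,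
        AddChar.map_add_eq_mul, stdAddChar_neg_one_mul a _ hα,
        stdAddChar_neg_one_mul 1 _ (stdAddChar_one n), ← Complex.exp_neg, ← Complex.exp_neg,
        mul_assoc]
    have e3 : ppos n a c s (i, !b) =
        ((c : ℂ) * stdAddChar (a * i), -((s : ℂ) * ((if b then -1 else 1) * stdAddChar i))) := by
      cases b <;> simp [ppos]
    have e0 : ppos n a c s (i, b) =
        ((c : ℂ) * stdAddChar (a * i), (s : ℂ) * ((if b then -1 else 1) * stdAddChar i)) := rfl
    simp only
    rw [e1, e2, e3, e0]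
    exact h

end Pool.Agent.T2H75.GN
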