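import Pool.Agent.T2H75.GN.Stm4

/-! Assembly: even necklaces carry no embedded net. -/

namespace Pool.Agent.T2H75.GN

theorem ip_neg_left (p q : ℂ × ℂ) : ip (-p) q = -ip p q := by
  simp only [ip, Prod.fst_neg, Prod.snd_neg, Complex.neg_re, Complex.neg_im]; ring

theorem necklace_target (hna : NaStm) (hnb : NbStm) (hnd : NdStm) : NecklaceTarget := by
  intro k _ hk hke N hsrc htgt hemb
  have hA := hna k hk N hsrc htgt hemb.inj
  have hs2 : ∀ i : ZMod k, N.src (i, 2) = (i, true) := by
    intro i; rw [hsrc]; simp [nsrc]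
  have ht2 : ∀ i : ZMod k, N.tgt (i, 2) = (i + 1, false) := by
    intro i; rw [htgt]; simp [ntgt]
  have hp : ip (N.pos (0, false)) (N.pos (0, false)) = 1 := N.pos_unit _
  have hx : ip (N.dir (0, 2)) (N.dir (0, 2)) = 1 := N.dir_unit _
  have hpx : ip (N.pos ((0 : ZMod k), false)) (N.dir (0, 2)) = 0 := by
    have h := N.dir_perp ((0 : ZMod k), (2 : Fin 3))
    rw [hs2, (hA 0).1, ip_neg_left] at h
    linarith
  obtain ⟨θ, hθ, n, hn⟩ := hnb k (fun i => N.pos (i, false)) (fun i => N.dir (i, 2))
    (fun i => N.len (i, 2)) hp hx hpx (fun i => (hA i).2.1) (fun i => (hA i).2.2)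
  have hpt : ∀ (i : ZMod k) (t : ℝ), N.pt (i, 2) t =
      Real.cos (θ i + Real.pi - t) • N.pos (0, false) +
        Real.sin (θ i + Real.pi - t) • N.dir (0, 2) := by
    intro i t
    unfold GeoNet.pt
    rw [hs2, (hA i).1]
    have h1 := (hθ i).1
    have h2 := (hθ i).2
    rw [h1, h2]
    have hc : Real.cos (θ i + Real.pi - t) =
        -(Real.cos (θ i) * Real.cos t + Real.sin (θ i) * Real.sin t) := by
      rw [show θ i + Real.pi - t = (θ i - t) + Real.pi by ring, Real.cos_add_pi, Real.cos_sub]
    have hs : Real.sin (θ i + Real.pi - t) =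
        -(Real.sin (θ i) * Real.cos t - Real.cos (θ i) * Real.sin t) := by
      rw [show θ i + Real.pi - t = (θ i - t) + Real.pi by ring, Real.sin_add_pi, Real.sin_sub]
    rw [hc, hs]
    module
  have hlt := hnd (ZMod k) (fun i => θ i + Real.pi - N.len (i, 2)) (fun i => N.len (i, 2))
    (by rw [ZMod.card]; exact hk) (fun i => N.len_pos _) (by
      intro i j hij s t hs0 hs1 ht0 ht1 m hm
      have heq : N.pt (i, 2) (N.len (i, 2) - s) = N.pt (j, 2) (N.len (j, 2) - t) := by
        rw [hpt, hpt]
        have e1 : θ i + Real.pi - (N.len (i, 2) - s) =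
            (θ j + Real.pi - (N.len (j, 2) - t)) + m * (2 * Real.pi) := by
          linear_combination hm
        rw [e1, Real.cos_add_int_mul_two_pi, Real.sin_add_int_mul_two_pi]
      obtain ⟨v, hv1, hv2, _⟩ := hemb.disj (i, 2) (j, 2) (by
        intro h; exact hij (congrArg Prod.fst h)) _ _ (by linarith) (by linarith) (by linarith)
        (by linarith) heq
      rw [hs2, ht2] at hv1
      rw [hs2, ht2] at hv2
      rcases hv1 with rfl | rfl
      · rcases hv2 with h | h
        · exact hij (congrArg Prod.fst h)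
        · have := congrArg Prod.snd h
          simp at this
      · rcases hv2 with h | h
        · have := congrArg Prod.snd h
          simp at this
        · have h' : i + 1 = j + 1 := congrArg Prod.fst h
          exact hij (add_right_cancel h'))
  have hpos : 0 < ∑ i : ZMod k, N.len (i, 2) := by
    apply Finset.sum_pos (fun i _ => N.len_pos _) ⟨0, Finset.mem_univ _⟩
  obtain ⟨r, hr⟩ := hke
  have hr' : (k : ℝ) = r + r := by exact_mod_cast hr
  have hπ := Real.pi_pos
  have e : ∑ i : ZMod k, N.len (i, 2) = 2 * Real.pi * ((r : ℤ) - n : ℤ) := by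
    push_cast
    rw [hr'] at hn
    linear_combination -hn
  rw [e] at hlt hpos
  have h1 : (0 : ℝ) < ((r : ℤ) - n : ℤ) := by
    by_contra h
    push Not at h
    nlinarith
  have h2 : (((r : ℤ) - n : ℤ) : ℝ) < 1 := by
    by_contra h
    push Not at h
    nlinarith
  have h1' : (0 : ℤ) < (r : ℤ) - n := by exact_mod_cast h1
  have h2' : (r : ℤ) - n < 1 := by exact_mod_cast h2
  omega

end Pool.Agent.T2H75.GN
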