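import Pool.Agent.T2H75.GN.Stm

set_option autoImplicit false

namespace Pool.Agent.T2H75.GN

namespace BADJ1

lemma par {k : ℕ} [NeZero k] (r : ZMod (2 * k)) (hk : 2 ≤ k) :
    (r + 1).val % 2 = (r.val + 1) % 2 := by
  have : NeZero (2 * k) := ⟨by omega⟩
  rw [ZMod.val_add, ZMod.val_one'' (by omega)]
  exact Nat.mod_mod_of_dvd _ (Dvd.intro k rfl)

lemma ne_add_one {k : ℕ} (r : ZMod (2 * k)) (hk : 2 ≤ k) : r ≠ r + 1 := by
  intro h
  have h1 : (1 : ZMod (2 * k)) = 0 := by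
    have := congrArg (fun x => x - r) h
    simpa using this.symm
  have h2 : ((1 : ℕ) : ZMod (2 * k)) = 0 := by simpa using h1
  rw [ZMod.natCast_eq_zero_iff] at h2
  have := Nat.le_of_dvd one_pos h2
  omega

end BADJ1

open BADJ1 in
theorem badj1 : ∀ (m k : ℕ) [NeZero m] [NeZero k], 2 ≤ m → 2 ≤ k → ∀ v w,
    (brick m k).Adj v w ↔ w = (v.1 + 1, v.2) ∨ w = (v.1 - 1, v.2) ∨
      w = (v.1, if Odd (v.1.val + v.2.val) then v.2 + 1 else v.2 - 1) := by
  intro m k _ _ hm hk v w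
  obtain ⟨a, r⟩ := v
  obtain ⟨b, s⟩ := w
  unfold brick
  rw [SimpleGraph.fromRel_adj]
  simp only [Prod.mk.injEq, ne_eq]
  constructor
  · rintro ⟨-, (⟨h1, h2⟩ | ⟨h0, h1, h2⟩) | (⟨h1, h2⟩ | ⟨h0, h1, h2⟩)⟩
    · exact Or.inl ⟨h1, h2⟩
    · right; right
      rw [if_pos h0]
      exact ⟨h1, h2⟩
    · right; left
      exact ⟨by rw [h1]; ring, h2.symm⟩
    · right; right
      subst h1
      have hp := par s hk
      rw [← h2] at hp
      have : ¬ Odd (a.val + r.val) := by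
        rw [Nat.odd_iff] at h0 ⊢
        omega
      rw [if_neg this]
      exact ⟨rfl, by rw [h2]; ring⟩
  · rintro (⟨h1, h2⟩ | ⟨h1, h2⟩ | ⟨h1, h2⟩)
    · subst h1 h2
      exact ⟨fun h => ne_add_one a hm h.1, Or.inl (Or.inl ⟨rfl, rfl⟩)⟩
    · subst h1 h2
      refine ⟨fun h => ne_add_one (a - 1) hm ?_, Or.inr (Or.inl ⟨by ring, rfl⟩)⟩
      rw [sub_add_cancel]
      exact h.1.symm
    · subst h1
      by_cases h0 : Odd (b.val + r.val)
      · rw [if_pos h0] at h2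
        subst h2
        exact ⟨fun h => ne_add_one r hk h.2, Or.inl (Or.inr ⟨h0, rfl, rfl⟩)⟩
      · rw [if_neg h0] at h2
        subst h2
        refine ⟨fun h => ne_add_one (r - 1) hk ?_, Or.inr (Or.inr ⟨?_, rfl, by ring⟩)⟩
        · rw [sub_add_cancel]
          exact h.2.symm
        · have hp := par (r - 1) hk
          rw [sub_add_cancel] at hp
          rw [Nat.odd_iff] at h0 ⊢
          omega

end Pool.Agent.T2H75.GN
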