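import Pool.Agent.T2H75.GN.Stm

set_option autoImplicit false

namespace Pool.Agent.T2H75.GN

namespace BADJ2

lemma par {k : ℕ} [NeZero k] (r : ZMod (2 * k)) (hk : 2 ≤ k) :
    (r + 1).val % 2 = (r.val + 1) % 2 := by
  have : NeZero (2 * k) := ⟨by omega⟩
  rw [ZMod.val_add, ZMod.val_one'' (by omega)]
  exact Nat.mod_mod_of_dvd _ (Dvd.intro k rfl)

lemma ne_add_one {k : ℕ} (r : ZMod (2 * k)) (hk : 2 ≤ k) : r ≠ r + 1 := by
  intro h
  have h1 : (1 : ZMod (2 * k)) = 0 := by
    have := congrArg (fun x => x - r) h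
    simpa using this.symm
  have h2 : ((1 : ℕ) : ZMod (2 * k)) = 0 := by simpa using h1
  rw [ZMod.natCast_eq_zero_iff] at h2
  have := Nat.le_of_dvd one_pos h2
  omega

lemma step1 {m k : ℕ} (hm : 2 ≤ m) (a : ZMod (2 * m)) (r : ZMod (2 * k)) :
    (brick m k).Reachable (a, r) (a + 1, r) := by
  refine SimpleGraph.Adj.reachable ?_
  unfold brick
  rw [SimpleGraph.fromRel_adj]
  refine ⟨fun h => ne_add_one a hm ?_, Or.inl (Or.inl ⟨rfl, rfl⟩)⟩
  rw [Prod.mk.injEq] at h
  exact h.1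

lemma row {m k : ℕ} (hm : 2 ≤ m) (n : ℕ) (a : ZMod (2 * m)) (r : ZMod (2 * k)) :
    (brick m k).Reachable (a, r) (a + n, r) := by
  induction n with
  | zero => simp
  | succ n ih =>
    refine ih.trans ?_
    have := step1 (k := k) hm (a + n) r
    rw [add_assoc] at this
    push_cast
    exact this

lemma row' {m k : ℕ} [NeZero m] (hm : 2 ≤ m) (a b : ZMod (2 * m)) (r : ZMod (2 * k)) :
    (brick m k).Reachable (a, r) (b, r) := by
  have : NeZero (2 * m) := ⟨by omega⟩
  have h := row (k := k) hm (b - a).val a r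
  rw [ZMod.natCast_zmod_val, add_sub_cancel] at h
  exact h

lemma step2 {m k : ℕ} [NeZero m] [NeZero k] (hm : 2 ≤ m) (hk : 2 ≤ k) (a : ZMod (2 * m))
    (r : ZMod (2 * k)) : (brick m k).Reachable (a, r) (a, r + 1) := by
  have hv : ∀ b : ZMod (2 * m), Odd (b.val + r.val) → (brick m k).Reachable (b, r) (b, r + 1) := by
    intro b hb
    refine SimpleGraph.Adj.reachable ?_
    unfold brick
    rw [SimpleGraph.fromRel_adj]
    refine ⟨fun h => ne_add_one r hk ?_, Or.inl (Or.inr ⟨hb, rfl, rfl⟩)⟩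
    rw [Prod.mk.injEq] at h
    exact h.2
  by_cases h0 : Odd (a.val + r.val)
  · exact hv a h0
  · have h1 : Odd ((a + 1).val + r.val) := by
      have hp := par a hm
      rw [Nat.odd_iff] at h0 ⊢
      omega
    exact ((row' hm a (a + 1) r).trans (hv (a + 1) h1)).trans (row' hm (a + 1) a (r + 1))

lemma col {m k : ℕ} [NeZero m] [NeZero k] (hm : 2 ≤ m) (hk : 2 ≤ k) (n : ℕ) (a : ZMod (2 * m))
    (r : ZMod (2 * k)) : (brick m k).Reachable (a, r) (a, r + n) := by
  induction n with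
  | zero => simp
  | succ n ih =>
    refine ih.trans ?_
    have := step2 hm hk a (r + n)
    rw [add_assoc] at this
    push_cast
    exact this

end BADJ2

open BADJ2 in
theorem badj2 : ∀ (m k : ℕ) [NeZero m] [NeZero k], 2 ≤ m → 2 ≤ k → (brick m k).Connected := by
  intro m k _ _ hm hk
  have : NeZero (2 * k) := ⟨by omega⟩
  refine { preconnected := ?_, nonempty := ⟨(0, 0)⟩ }
  rintro ⟨a, r⟩ ⟨b, s⟩
  have h := col hm hk (s - r).val a r
  rw [ZMod.natCast_zmod_val, add_sub_cancel] at h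
  exact h.trans (row' hm a b s)

end Pool.Agent.T2H75.GN
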