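import Pool.Agent.T2H75.GN.Stm

/-! Package BBAL of project GN: the balance at one vertex of the brick wall. -/

namespace Pool.Agent.T2H75.GN

open Complex ZMod

namespace BBAL

theorem nrm {u : ℂ} (h : ‖u‖ = 1) : u.re ^ 2 + u.im ^ 2 = 1 := by
  have h1 := Complex.sq_norm u
  rw [h, Complex.normSq_apply] at h1
  linarith

theorem ipg (α β γ δ c s : ℝ) (u v : ℂ) (hu : u.re ^ 2 + u.im ^ 2 = 1) (hv : v.re ^ 2 + v.im ^ 2 = 1) :
    ip (c * u, s * v) (c * (u * (α + β * I)), s * (v * (γ + δ * I))) = c ^ 2 * α + s ^ 2 * γ := by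
  simp only [ip, mul_re, mul_im, add_re, add_im, ofReal_re, ofReal_im, I_re, I_im]
  linear_combination (c ^ 2 * α) * hu + (s ^ 2 * γ) * hv

theorem tg (α β γ δ c s κ : ℝ) (u v : ℂ) (hu : u.re ^ 2 + u.im ^ 2 = 1) (hv : v.re ^ 2 + v.im ^ 2 = 1)
    (hκ : c ^ 2 * α + s ^ 2 * γ = κ) :
    tang (c * u, s * v) (c * (u * (α + β * I)), s * (v * (γ + δ * I))) =
      ((((√(1 - κ ^ 2))⁻¹ : ℝ) : ℂ) * (c * u * (α + β * I - κ)),
        (((√(1 - κ ^ 2))⁻¹ : ℝ) : ℂ) * (s * v * (γ + δ * I - κ))) := by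
  unfold tang
  rw [ipg α β γ δ c s u v hu hv, hκ]
  ext1
  · simp only [Prod.smul_fst, Prod.fst_sub, Complex.real_smul]
    ring
  · simp only [Prod.smul_snd, Prod.snd_sub, Complex.real_smul]
    ring

end BBAL

open BBAL in
theorem bbal : BbalStm := by
  intro θ φ ψ c s e u v he hu hv hcs h1 h3 H1 H2
  have hu' := nrm hu
  have hv' := nrm hv
  set κ := c ^ 2 * Real.cos θ + s ^ 2 * Real.cos φ with hκ
  set κ' := c ^ 2 + s ^ 2 * Real.cos ψ with hκ'
  have hS : √(1 - κ ^ 2) ≠ 0 := (Real.sqrt_pos.2 (by linarith)).ne'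
  have hS' : √(1 - κ' ^ 2) ≠ 0 := (Real.sqrt_pos.2 (by linarith)).ne'
  set A := (√(1 - κ ^ 2))⁻¹ with hA
  set B := (√(1 - κ' ^ 2))⁻¹ with hB
  have K1 : 2 * Real.sin φ * A = Real.sin ψ * B := by
    rw [hA, hB]
    field_simp
    linear_combination H1
  have K2 : 2 * (Real.cos φ - Real.cos θ) * A = (1 - Real.cos ψ) * B := by
    rw [hA, hB]
    field_simp
    linear_combination H2
  have E1 : exp (θ * I) = (Real.cos θ : ℂ) + (Real.sin θ : ℝ) * I := by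
    rw [exp_mul_I]; push_cast; ring
  have E2 : exp (-(θ * I)) = (Real.cos θ : ℂ) + ((-Real.sin θ : ℝ) : ℂ) * I := by
    rw [show -((θ : ℂ) * I) = ((-θ : ℝ) : ℂ) * I by push_cast; ring, exp_mul_I, ← ofReal_cos, ← ofReal_sin,
      Real.cos_neg, Real.sin_neg]
  have E3 : exp (e * φ * I) = (Real.cos φ : ℂ) + ((e * Real.sin φ : ℝ) : ℂ) * I := by
    rw [show (e : ℂ) * φ * I = ((e * φ : ℝ) : ℂ) * I by push_cast; ring, exp_mul_I, ← ofReal_cos, ← ofReal_sin]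
    rcases he with rfl | rfl
    · simp
    · simp
  have E4 : exp (-(e * ψ * I)) = (Real.cos ψ : ℂ) + ((-(e * Real.sin ψ) : ℝ) : ℂ) * I := by
    rw [show -((e : ℂ) * ψ * I) = ((-(e * ψ) : ℝ) : ℂ) * I by push_cast; ring, exp_mul_I, ← ofReal_cos,
      ← ofReal_sin, Real.cos_neg, Real.sin_neg]
    rcases he with rfl | rfl
    · simp
    · simp
  have T1 := tg (Real.cos θ) (Real.sin θ) (Real.cos φ) (e * Real.sin φ) c s κ u v hu' hv' hκ.symm
  have T2 := tg (Real.cos θ) (-Real.sin θ) (Real.cos φ) (e * Real.sin φ) c s κ u v hu' hv' hκ.symm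
  have T3 := tg 1 0 (Real.cos ψ) (-(e * Real.sin ψ)) c s κ' u v hu' hv' (by rw [hκ']; ring)
  have e3 : (c : ℂ) * (u * (((1 : ℝ) : ℂ) + ((0 : ℝ) : ℂ) * I)) = c * u := by
    push_cast; ring
  rw [e3] at T3
  rw [E1, E2, E3, E4, T1, T2, T3, ← hA, ← hB]
  have c1 : (2 : ℂ) * Real.sin φ * A = Real.sin ψ * B := by exact_mod_cast K1
  have c2 : (2 : ℂ) * (Real.cos φ - Real.cos θ) * A = (1 - Real.cos ψ) * B := by exact_mod_cast K2
  have c3 : (κ : ℂ) = c ^ 2 * Real.cos θ + s ^ 2 * Real.cos φ := by rw [hκ]; push_cast; ring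
  have c4 : (κ' : ℂ) = c ^ 2 + s ^ 2 * Real.cos ψ := by rw [hκ']; push_cast; ring
  have c5 : (c : ℂ) ^ 2 + s ^ 2 = 1 := by exact_mod_cast hcs
  clear E1 E2 E3 E4 T1 T2 T3 hA hB
  generalize Real.cos θ = Cθ at *
  generalize Real.cos φ = Cφ at *
  generalize Real.cos ψ = Cψ at *
  generalize Real.sin θ = Sθ at *
  generalize Real.sin φ = Sφ at *
  generalize Real.sin ψ = Sψ at *
  ext1
  · simp only [Prod.fst_add, Prod.fst_zero]
    rw [c3, c4]
    push_cast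
    linear_combination (-(c : ℂ) * u * s ^ 2) * c2 +
      (c * u * (2 * A * Cθ + B)) * (-c5)
  · simp only [Prod.snd_add, Prod.snd_zero]
    rw [c3, c4]
    push_cast
    linear_combination (s * v * c ^ 2 : ℂ) * c2 + (s * v * e * I : ℂ) * c1 +
      (s * v * (2 * A * Cφ + B * Cψ) : ℂ) * (-c5)

end Pool.Agent.T2H75.GN
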