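import Pool.Agent.T2H75.GN.Stm

/-! Package BIV of project GN: the radii (intermediate value theorem). -/

namespace Pool.Agent.T2H75.GN

open Complex ZMod

theorem biv : BivStm := by
  intro θ φ ψ hθ0 hθ1 hφ0 hφ1 hψ0 hψ1 H
  have sθ : 0 < Real.sin θ := Real.sin_pos_of_pos_of_lt_pi hθ0 hθ1
  have sφ : 0 < Real.sin φ := Real.sin_pos_of_pos_of_lt_pi hφ0 hφ1
  have sψ : 0 < Real.sin ψ := Real.sin_pos_of_pos_of_lt_pi hψ0 hψ1
  have eθ := Real.sin_sq_add_cos_sq θ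
  have eφ := Real.sin_sq_add_cos_sq φ
  have eψ := Real.sin_sq_add_cos_sq ψ
  set f : ℝ → ℝ := fun C => 4 * Real.sin φ ^ 2 * (1 - ((1 - C) + C * Real.cos ψ) ^ 2) -
    Real.sin ψ ^ 2 * (1 - ((1 - C) * Real.cos θ + C * Real.cos φ) ^ 2) with hf
  have hfc : ContinuousOn f (Set.Icc 0 1) := by
    apply Continuous.continuousOn
    rw [hf]
    fun_prop
  have f0 : f 0 < 0 := by
    have : f 0 = -(Real.sin ψ ^ 2 * Real.sin θ ^ 2) := by
      simp only [hf]
      linear_combination (Real.sin ψ ^ 2) * eθ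
    rw [this]
    have : 0 < Real.sin ψ ^ 2 * Real.sin θ ^ 2 := by positivity
    linarith
  have f1 : 0 < f 1 := by
    have : f 1 = 3 * (Real.sin ψ ^ 2 * Real.sin φ ^ 2) := by
      simp only [hf]
      linear_combination (-4 * Real.sin φ ^ 2) * eψ + (Real.sin ψ ^ 2) * eφ
    rw [this]
    positivity
  obtain ⟨C, ⟨hC0, hC1⟩, hC⟩ := intermediate_value_Ioo (zero_le_one' ℝ) hfc ⟨f0, f1⟩
  have hs : Real.sqrt C ^ 2 = C := Real.sq_sqrt hC0.le
  have hc : Real.sqrt (1 - C) ^ 2 = 1 - C := Real.sq_sqrt (by linarith)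
  have cθ1 : Real.cos θ < 1 := by nlinarith [Real.cos_le_one θ]
  have cθ2 : -1 < Real.cos θ := by nlinarith [Real.neg_one_le_cos θ]
  have cφ1 : Real.cos φ < 1 := by nlinarith [Real.cos_le_one φ]
  have cφ2 : -1 < Real.cos φ := by nlinarith [Real.neg_one_le_cos φ]
  have cψ1 : Real.cos ψ < 1 := by nlinarith [Real.cos_le_one ψ]
  have cψ2 : -1 < Real.cos ψ := by nlinarith [Real.neg_one_le_cos ψ]
  have k1 : ((1 - C) * Real.cos θ + C * Real.cos φ) ^ 2 < 1 := by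
    rw [sq_lt_one_iff_abs_lt_one, abs_lt]
    constructor
    · nlinarith [mul_pos hC0 (by linarith : 0 < Real.cos φ + 1),
        mul_pos (by linarith : 0 < 1 - C) (by linarith : 0 < Real.cos θ + 1)]
    · nlinarith [mul_pos hC0 (by linarith : 0 < 1 - Real.cos φ),
        mul_pos (by linarith : 0 < 1 - C) (by linarith : 0 < 1 - Real.cos θ)]
  have k3 : ((1 - C) + C * Real.cos ψ) ^ 2 < 1 := by
    rw [sq_lt_one_iff_abs_lt_one, abs_lt]
    constructor
    · nlinarith [mul_pos hC0 (by linarith : 0 < Real.cos ψ + 1)]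
    · nlinarith [mul_pos hC0 (by linarith : 0 < 1 - Real.cos ψ)]
  have e1 : 2 * Real.sin φ * √(1 - ((1 - C) + C * Real.cos ψ) ^ 2) =
      Real.sin ψ * √(1 - ((1 - C) * Real.cos θ + C * Real.cos φ) ^ 2) := by
    have q1 : √(1 - ((1 - C) + C * Real.cos ψ) ^ 2) ^ 2 = 1 - ((1 - C) + C * Real.cos ψ) ^ 2 :=
      Real.sq_sqrt (by linarith)
    have q2 : √(1 - ((1 - C) * Real.cos θ + C * Real.cos φ) ^ 2) ^ 2 =
        1 - ((1 - C) * Real.cos θ + C * Real.cos φ) ^ 2 := Real.sq_sqrt (by linarith)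
    have h0 : 4 * Real.sin φ ^ 2 * (1 - ((1 - C) + C * Real.cos ψ) ^ 2) -
      Real.sin ψ ^ 2 * (1 - ((1 - C) * Real.cos θ + C * Real.cos φ) ^ 2) = 0 := hC
    rw [← sq_eq_sq₀ (by positivity) (by positivity), mul_pow, mul_pow (Real.sin ψ), q1, q2]
    linear_combination h0
  refine ⟨√(1 - C), √C, Real.sqrt_pos.2 (by linarith), Real.sqrt_pos.2 hC0, ?_, ?_, ?_, ?_, ?_⟩
  · rw [hs, hc]; ring
  · rw [hs, hc]; exact k1
  · rw [hs, hc]; exact k3
  · rw [hs, hc]; exact e1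
  · rw [hs, hc]
    apply mul_left_cancel₀ sψ.ne'
    linear_combination (2 * √(1 - ((1 - C) + C * Real.cos ψ) ^ 2)) * H + (1 - Real.cos ψ) * e1

end Pool.Agent.T2H75.GN
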