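import Pool.Agent.T2H75.GN.BNB

/-! # Package BLOC: the points of an edge of the brick wall -/

set_option autoImplicit false

namespace Pool.Agent.T2H75.GN

open Complex ZMod

namespace BLOC

lemma ip_smul (l : ℝ) (p : ℂ × ℂ) : ip (l • p) (l • p) = l ^ 2 * ip p p := by
  unfold ip
  simp only [Prod.smul_fst, Prod.smul_snd, real_smul, re_ofReal_mul, im_ofReal_mul]
  ring

lemma ip_self (p : ℂ × ℂ) : ip p p = ‖p.1‖ ^ 2 + ‖p.2‖ ^ 2 := by
  unfold ip
  rw [← normSq_eq_norm_sq, ← normSq_eq_norm_sq, normSq_apply, normSq_apply]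
  ring

lemma ip_bpos (m k : ℕ) [NeZero m] [NeZero k] {φ c s : ℝ} (hcs : c ^ 2 + s ^ 2 = 1)
    (v : ZMod (2 * m) × ZMod (2 * k)) : ip (bpos m k φ c s v) (bpos m k φ c s v) = 1 := by
  rw [ip_self]
  unfold bpos
  simp only [norm_mul, BNB.norm_chi, norm_real, Real.norm_eq_abs]
  have h : ‖(if Odd (v.1.val + v.2.val) then exp (φ * I) else 1 : ℂ)‖ = 1 := by
    split_ifs
    · exact norm_exp_ofReal_mul_I φ
    · simp
  rw [h]
  simp only [mul_one, sq_abs]
  exact hcs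

/-- points of the arc are endpoints or interior -/
lemma arc_cases {p q x : ℂ × ℂ} (hp : ip p p = 1) (hq : ip q q = 1) (hx : x ∈ arc p q) :
    x = p ∨ x = q ∨ ∃ l μ : ℝ, 0 < l ∧ 0 < μ ∧ x = l • p + μ • q := by
  obtain ⟨h1, l, μ, hl, hμ, hxe⟩ := hx
  rcases hl.eq_or_lt with h2 | h2
  · right; left
    rw [← h2, zero_smul, zero_add] at hxe
    rw [hxe, ip_smul, hq, mul_one] at h1
    have h3 : μ = 1 := by nlinarith
    rw [hxe, h3, one_smul]
  · rcases hμ.eq_or_lt with h3 | h3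
    · left
      rw [← h3, zero_smul, add_zero] at hxe
      rw [hxe, ip_smul, hp, mul_one] at h1
      have h4 : l = 1 := by nlinarith
      rw [hxe, h4, one_smul]
    · exact Or.inr (Or.inr ⟨l, μ, h2, h3, hxe⟩)

lemma zint (m k : ℕ) [NeZero m] [NeZero k] (φ c s : ℝ) (a : ZMod (2 * m)) (r : ZMod (2 * k))
    (ε : ℤ) (hε : ε = 1 ∨ ε = -1) (h : ¬ Odd (a.val + r.val)) {x : ℂ × ℂ} {l μ : ℝ}
    (hl : 0 < l) (hμ : 0 < μ)
    (hx : x = l • bpos m k φ c s (a, r) + μ • bpos m k φ c s (a + (ε : ZMod (2 * m)), r)) :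
    ZInt m k φ c s a r ε x := by
  refine ⟨l, μ, hl, hμ, ?_⟩
  rw [hx]
  rcases hε with rfl | rfl
  · have h1 : Odd ((a + 1).val + r.val) := by
      rw [Nat.odd_iff] at h ⊢
      have := BNB.val_add_one m a
      omega
    simp only [Int.cast_one, bpos, if_neg h, if_pos h1, BNB.chi_add_one]
    ext1
    · simp only [Prod.fst_add, Prod.smul_fst, real_smul, one_mul]
      ring
    · simp only [Prod.snd_add, Prod.smul_snd, real_smul]
      ring
  · have h1 : Odd ((a - 1).val + r.val) := by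
      rw [Nat.odd_iff] at h ⊢
      have := BNB.val_sub_one m a
      omega
    simp only [Int.cast_neg, Int.cast_one, ← sub_eq_add_neg, bpos, if_neg h, if_pos h1,
      BNB.chi_sub_one]
    ext1
    · simp only [Prod.fst_add, Prod.smul_fst, real_smul]
      have h2 : (((-1 * (Real.pi / m) : ℝ) : ℂ) * I) = -(((Real.pi / m : ℝ) : ℂ) * I) := by
        push_cast
        ring
      rw [h2]
      ring
    · simp only [Prod.snd_add, Prod.smul_snd, real_smul]
      ring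

lemma vint (m k : ℕ) [NeZero m] [NeZero k] (φ ψ c s : ℝ) (hφψ : φ + ψ = Real.pi / k)
    (a : ZMod (2 * m)) (r : ZMod (2 * k))
    (h : Odd (a.val + r.val)) {x : ℂ × ℂ} {l μ : ℝ}
    (hl : 0 < l) (hμ : 0 < μ)
    (hx : x = l • bpos m k φ c s (a, r) + μ • bpos m k φ c s (a, r + 1)) :
    VInt m k φ ψ c s a r x := by
  refine ⟨l, μ, hl, hμ, ?_⟩
  have h1 : ¬ Odd (a.val + (r + 1).val) := by
    rw [Nat.odd_iff] at h ⊢
    have := BNB.val_add_one k r
    omega
  rw [hx]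
  simp only [bpos, if_pos h, if_neg h1, BNB.chi_add_one]
  ext1
  · simp only [Prod.fst_add, Prod.smul_fst, real_smul]
    ring
  · simp only [Prod.snd_add, Prod.smul_snd, real_smul]
    have h2 : exp (((Real.pi / k : ℝ) : ℂ) * I) = exp (φ * I) * exp (ψ * I) := by
      rw [← exp_add, ← hφψ]
      push_cast
      ring_nf
    rw [h2]
    ring

/-- the oriented version -/
lemma oriented (m k : ℕ) [NeZero m] [NeZero k] (φ ψ c s : ℝ) (hφψ : φ + ψ = Real.pi / k)
    (hcs : c ^ 2 + s ^ 2 = 1) (v w : ZMod (2 * m) × ZMod (2 * k))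
    (hR : (w.1 = v.1 + 1 ∧ w.2 = v.2) ∨ (Odd (v.1.val + v.2.val) ∧ w.1 = v.1 ∧ w.2 = v.2 + 1))
    (x : ℂ × ℂ) (hx : x ∈ arc (bpos m k φ c s v) (bpos m k φ c s w)) :
    x = bpos m k φ c s v ∨ x = bpos m k φ c s w ∨
      (∃ a r, ∃ ε : ℤ, (ε = 1 ∨ ε = -1) ∧ ¬ Odd (a.val + r.val) ∧
        s(v, w) = s((a, r), (a + (ε : ZMod (2 * m)), r)) ∧ ZInt m k φ c s a r ε x) ∨
      (∃ a r, Odd (a.val + r.val) ∧ s(v, w) = s((a, r), (a, r + 1)) ∧ VInt m k φ ψ c s a r x) := by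
  rcases arc_cases (ip_bpos m k hcs v) (ip_bpos m k hcs w) hx with h | h | ⟨l, μ, hl, hμ, hxe⟩
  · exact Or.inl h
  · exact Or.inr (Or.inl h)
  obtain ⟨a, r⟩ := v
  obtain ⟨b, t⟩ := w
  simp only at hR
  rcases hR with ⟨rfl, rfl⟩ | ⟨ho, rfl, rfl⟩
  · right; right; left
    by_cases ho : Odd (a.val + t.val)
    · have h1 : ¬ Odd ((a + 1).val + t.val) := by
        rw [Nat.odd_iff] at ho ⊢
        have := BNB.val_add_one m a
        omega
      have h2 : a + 1 + ((-1 : ℤ) : ZMod (2 * m)) = a := by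
        push_cast
        ring
      refine ⟨a + 1, t, -1, Or.inr rfl, h1, ?_, ?_⟩
      · rw [h2]
        exact Sym2.eq_swap
      · refine zint m k φ c s (a + 1) t (-1) (Or.inr rfl) h1 hμ hl ?_
        rw [h2, hxe, add_comm]
    · refine ⟨a, t, 1, Or.inl rfl, ho, ?_, ?_⟩
      · rw [Int.cast_one]
      · refine zint m k φ c s a t 1 (Or.inl rfl) ho hl hμ ?_
        rw [Int.cast_one, hxe]
  · right; right; right
    exact ⟨b, r, ho, rfl, vint m k φ ψ c s hφψ b r ho hl hμ hxe⟩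

end BLOC

open BLOC in
theorem bloc : BlocStm := by
  intro m k _ _ _ _ φ ψ c s hφψ hcs v w hadj x hx
  unfold brick at hadj
  rw [SimpleGraph.fromRel_adj] at hadj
  obtain ⟨-, h | h⟩ := hadj
  · exact oriented m k φ ψ c s hφψ hcs v w h x hx
  · have hx' : x ∈ arc (bpos m k φ c s w) (bpos m k φ c s v) := by
      obtain ⟨h1, l, μ, hl, hμ, hxe⟩ := hx
      exact ⟨h1, μ, l, hμ, hl, by rw [hxe, add_comm]⟩
    rw [Sym2.eq_swap]
    rcases oriented m k φ ψ c s hφψ hcs w v h x hx' with h1 | h1 | h1 | h1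
    · exact Or.inr (Or.inl h1)
    · exact Or.inl h1
    · exact Or.inr (Or.inr (Or.inl h1))
    · exact Or.inr (Or.inr (Or.inr h1))

end Pool.Agent.T2H75.GN
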