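import Pool.Agent.T2H75.GN.Stm

/-! # Package BNB: positions of the three neighbours in the brick wall -/

set_option autoImplicit false

namespace Pool.Agent.T2H75.GN

open Complex ZMod

namespace BNB

lemma val_add_mod (m : ℕ) [NeZero m] (a b : ZMod (2 * m)) :
    (a + b).val % 2 = (a.val + b.val) % 2 := by
  rw [ZMod.val_add, Nat.mod_mod_of_dvd _ (dvd_mul_right 2 m)]

lemma val_one (m : ℕ) [NeZero m] : (1 : ZMod (2 * m)).val = 1 := by
  refine ZMod.val_one'' ?_
  have := NeZero.ne m
  omega

lemma val_add_one (m : ℕ) [NeZero m] (a : ZMod (2 * m)) :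
    (a + 1).val % 2 = (a.val + 1) % 2 := by
  rw [val_add_mod, val_one]

lemma val_sub_one (m : ℕ) [NeZero m] (a : ZMod (2 * m)) :
    (a - 1).val % 2 = (a.val + 1) % 2 := by
  have h := val_add_one m (a - 1)
  rw [sub_add_cancel] at h
  omega

lemma chi_one (m : ℕ) [NeZero m] :
    stdAddChar (1 : ZMod (2 * m)) = exp (((Real.pi / m : ℝ) : ℂ) * I) := by
  have h := stdAddChar_coe (N := 2 * m) 1
  rw [Int.cast_one] at h
  rw [h]
  congr 1
  have hm : (m : ℂ) ≠ 0 := by exact_mod_cast NeZero.ne m
  push_cast
  field_simp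

lemma chi_add_one (m : ℕ) [NeZero m] (a : ZMod (2 * m)) :
    stdAddChar (a + 1) = stdAddChar a * exp (((Real.pi / m : ℝ) : ℂ) * I) := by
  rw [AddChar.map_add_eq_mul, chi_one]

lemma chi_sub_one (m : ℕ) [NeZero m] (a : ZMod (2 * m)) :
    stdAddChar (a - 1) = stdAddChar a * exp (-(((Real.pi / m : ℝ) : ℂ) * I)) := by
  have h : stdAddChar a = stdAddChar (a - 1) * exp (((Real.pi / m : ℝ) : ℂ) * I) := by
    rw [← chi_add_one, sub_add_cancel]
  rw [h, mul_assoc, ← exp_add]
  simp

lemma norm_chi (m : ℕ) [NeZero m] (a : ZMod (2 * m)) : ‖stdAddChar a‖ = 1 := by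
  rw [stdAddChar_apply]
  exact Circle.norm_coe _

end BNB

open BNB in
theorem bnb : BnbStm := by
  intro m k _ _ _ _ φ ψ c s hφψ v
  obtain ⟨a, r⟩ := v
  have hψ : ψ = Real.pi / k - φ := by linarith
  by_cases h : Odd (a.val + r.val)
  · refine ⟨-1, stdAddChar a, stdAddChar r * exp (φ * I), Or.inr rfl, norm_chi m a, ?_, ?_, ?_, ?_,
      ?_⟩
    · rw [norm_mul, norm_chi, norm_exp_ofReal_mul_I, one_mul]
    · simp only [bpos, if_pos h]
    · have h1 : ¬ Odd ((a + 1).val + r.val) := by
        rw [Nat.odd_iff] at h ⊢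
        have := val_add_one m a
        omega
      simp only [bpos, if_neg h1, chi_add_one]
      congr 2
      rw [mul_one, mul_assoc, ← exp_add]
      simp
    · have h1 : ¬ Odd ((a - 1).val + r.val) := by
        rw [Nat.odd_iff] at h ⊢
        have := val_sub_one m a
        omega
      simp only [bpos, if_neg h1, chi_sub_one]
      congr 2
      rw [mul_one, mul_assoc, ← exp_add]
      simp
    · have h1 : ¬ Odd (a.val + (r + 1).val) := by
        rw [Nat.odd_iff] at h ⊢
        have := val_add_one k r
        omega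
      simp only [if_pos h]
      simp only [bpos, if_neg h1, chi_add_one]
      congr 2
      rw [mul_one, mul_assoc, ← exp_add, hψ]
      congr 2
      push_cast
      ring
  · refine ⟨1, stdAddChar a, stdAddChar r, Or.inl rfl, norm_chi m a, norm_chi k r, ?_, ?_, ?_, ?_⟩
    · simp only [bpos, if_neg h, mul_one]
    · have h1 : Odd ((a + 1).val + r.val) := by
        rw [Nat.odd_iff] at h ⊢
        have := val_add_one m a
        omega
      simp only [bpos, if_pos h1, chi_add_one]
      congr 3
      simp
    · have h1 : Odd ((a - 1).val + r.val) := by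
        rw [Nat.odd_iff] at h ⊢
        have := val_sub_one m a
        omega
      simp only [bpos, if_pos h1, chi_sub_one]
      congr 3
      simp
    · have h1 : Odd (a.val + (r - 1).val) := by
        rw [Nat.odd_iff] at h ⊢
        have := val_sub_one k r
        omega
      simp only [if_neg h]
      simp only [bpos, if_pos h1, chi_sub_one]
      congr 2
      rw [mul_assoc, ← exp_add, hψ]
      congr 2
      push_cast
      ring

end Pool.Agent.T2H75.GN
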