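import Pool.Agent.T2H75.GN.BNB

/-! # Package BPT: vertices against interior points -/

set_option autoImplicit false

namespace Pool.Agent.T2H75.GN

open Complex ZMod

namespace BPT

/-- the angle of a vertex -/
lemma snd_eq (m k : ℕ) [NeZero m] [NeZero k] (φ c s : ℝ) (v : ZMod (2 * m) × ZMod (2 * k)) :
    ∃ ω : ℝ, (ω = 0 ∨ ω = φ) ∧
      (bpos m k φ c s v).2 = s * (stdAddChar v.2 * exp (ω * I)) := by
  by_cases h : Odd (v.1.val + v.2.val)
  · exact ⟨φ, Or.inr rfl, by simp only [bpos, if_pos h]⟩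
  · exact ⟨0, Or.inl rfl, by simp only [bpos, if_neg h, ofReal_zero, zero_mul, exp_zero]⟩

lemma fst_eq (m k : ℕ) [NeZero m] [NeZero k] (φ c s : ℝ) (v : ZMod (2 * m) × ZMod (2 * k)) :
    (bpos m k φ c s v).1 = c * stdAddChar v.1 := rfl

lemma chi_ne_zero (m : ℕ) [NeZero m] (a : ZMod (2 * m)) : stdAddChar a ≠ 0 := by
  rw [← norm_ne_zero_iff, BNB.norm_chi]
  exact one_ne_zero

end BPT

open BPT in
theorem bpt (hpol : PolStm) (hsec : SecStm) : BptStm := by
  intro m k _ _ hm hk φ ψ c s hφ hψ hφψ hc hs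
  have hcC : (c : ℂ) ≠ 0 := by exact_mod_cast hc.ne'
  have hsC : (s : ℂ) ≠ 0 := by exact_mod_cast hs.ne'
  have hπ := Real.pi_pos
  have hk2 : (2 : ℝ) ≤ k := by exact_mod_cast hk
  have hkpi : Real.pi / k ≤ Real.pi / 2 := by
    exact div_le_div_of_nonneg_left hπ.le (by norm_num) hk2
  have hφπ : φ < Real.pi := by linarith
  have hψπ : ψ < Real.pi := by linarith
  have hN : 2 * Real.pi / ((2 * k : ℕ) : ℝ) = Real.pi / k := by
    push_cast
    rw [mul_div_mul_left _ _ (by norm_num)]
  have hω : ∀ ω : ℝ, (ω = 0 ∨ ω = φ) → 0 ≤ ω ∧ ω < 2 * Real.pi / ((2 * k : ℕ) : ℝ) := by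
    rintro ω (rfl | rfl)
    · rw [hN]; constructor <;> linarith
    · rw [hN]; constructor <;> linarith
  refine ⟨?_, ?_, ?_, ?_⟩
  · -- injectivity
    intro v w hvw
    obtain ⟨ω, h1, h2⟩ := snd_eq m k φ c s v
    obtain ⟨ω', h3, h4⟩ := snd_eq m k φ c s w
    have h5 : (bpos m k φ c s v).2 = (bpos m k φ c s w).2 := by rw [hvw]
    rw [h2, h4] at h5
    have h6 := mul_left_cancel₀ hsC h5
    have h7 := (hsec (2 * k) v.2 w.2 1 1 ω ω' one_pos one_pos (hω ω h1).1 (hω ω h1).2
      (hω ω' h3).1 (hω ω' h3).2 (by rw [h6])).1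
    have h8 : (bpos m k φ c s v).1 = (bpos m k φ c s w).1 := by rw [hvw]
    rw [fst_eq, fst_eq] at h8
    have h9 := injective_stdAddChar (mul_left_cancel₀ hcC h8)
    exact Prod.ext h9 h7
  · -- adjacent vertices are not antipodal
    -- oriented version
    have key : ∀ v w : ZMod (2 * m) × ZMod (2 * k),
        ((w.1 = v.1 + 1 ∧ w.2 = v.2) ∨ (Odd (v.1.val + v.2.val) ∧ w.1 = v.1 ∧ w.2 = v.2 + 1)) →
        bpos m k φ c s v + bpos m k φ c s w ≠ 0 := by
      rintro ⟨a, r⟩ ⟨b, t⟩ hR h0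
      simp only at hR
      have hf : (bpos m k φ c s (a, r) + bpos m k φ c s (b, t)).1 = 0 := by rw [h0]; rfl
      have hsn : (bpos m k φ c s (a, r) + bpos m k φ c s (b, t)).2 = 0 := by rw [h0]; rfl
      rw [Prod.fst_add, fst_eq, fst_eq] at hf
      rcases hR with ⟨rfl, rfl⟩ | ⟨ho, rfl, rfl⟩
      · -- horizontal
        have hsin : 0 < Real.sin φ := Real.sin_pos_of_pos_of_lt_pi hφ hφπ
        have him : (exp (φ * I)).im = Real.sin φ := by rw [exp_ofReal_mul_I_im]
        have hχ := chi_ne_zero k t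
        have hexp : exp (φ * I) + 1 = 0 := by
          by_cases ho : Odd (a.val + t.val)
          · have h1 : ¬ Odd ((a + 1).val + t.val) := by
              rw [Nat.odd_iff] at ho ⊢
              have := BNB.val_add_one m a
              omega
            simp only [bpos, if_pos ho, if_neg h1, Prod.snd_add] at hsn
            have h2 : (s : ℂ) * stdAddChar t * (exp (φ * I) + 1) = 0 := by
              rw [← hsn]
              ring
            exact (mul_eq_zero.1 h2).resolve_left (mul_ne_zero hsC hχ)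
          · have h1 : Odd ((a + 1).val + t.val) := by
              rw [Nat.odd_iff] at ho ⊢
              have := BNB.val_add_one m a
              omega
            simp only [bpos, if_pos h1, if_neg ho, Prod.snd_add] at hsn
            have h2 : (s : ℂ) * stdAddChar t * (exp (φ * I) + 1) = 0 := by
              rw [← hsn]
              ring
            exact (mul_eq_zero.1 h2).resolve_left (mul_ne_zero hsC hχ)
        have h3 : (exp (φ * I) + 1).im = 0 := by rw [hexp]; rfl
        rw [add_im, him, one_im, add_zero] at h3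
        linarith
      · -- vertical
        simp only at hf
        have h2 : (2 * c : ℂ) * stdAddChar b = 0 := by
          rw [← hf]
          ring
        exact mul_ne_zero (mul_ne_zero two_ne_zero hcC) (chi_ne_zero m b) h2
    intro v w hadj h
    unfold brick at hadj
    rw [SimpleGraph.fromRel_adj] at hadj
    obtain ⟨-, h1 | h1⟩ := hadj
    · exact key v w h1 (by rw [h, add_neg_cancel])
    · exact key w v h1 (by rw [h, neg_add_cancel])
  · -- zigzag edges
    rintro v a r ε hε ⟨l, μ, hl, hμ, hx⟩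
    obtain ⟨ω, h1, h2⟩ := snd_eq m k φ c s v
    have h3 : (bpos m k φ c s v).2 = s * (stdAddChar r * (l + μ * exp (φ * I))) := by rw [hx]
    rw [h2] at h3
    have h4 := mul_left_cancel₀ hsC h3
    obtain ⟨ρ, ω', hρ, h5, h6, h7, h8, h9⟩ := hpol φ l μ hφ hφπ hl.le hμ.le (Or.inl hl.ne')
    rw [h9] at h4
    have h10 := hsec (2 * k) v.2 r 1 ρ ω ω' one_pos hρ (hω ω h1).1 (hω ω h1).2 h5
      (by rw [hN]; linarith) (by rw [ofReal_one, one_mul, h4]; ring)
    obtain ⟨-, h11, -⟩ := h10
    rcases h1 with h1 | h1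
    · exact hμ.ne' (h7.1 (by rw [← h11, h1]))
    · exact hl.ne' (h8.1 (by rw [← h11, h1]))
  · -- vertical edges
    rintro v a r ⟨l, μ, hl, hμ, hx⟩
    obtain ⟨ω, h1, h2⟩ := snd_eq m k φ c s v
    have h3 : (bpos m k φ c s v).2 =
        s * (stdAddChar r * (exp (φ * I) * (l + μ * exp (ψ * I)))) := by rw [hx]
    rw [h2] at h3
    have h4 := mul_left_cancel₀ hsC h3
    obtain ⟨ρ, ω', hρ, h5, h6, h7, h8, h9⟩ := hpol ψ l μ hψ hψπ hl.le hμ.le (Or.inl hl.ne')
    have h6' : ω' < ψ := lt_of_le_of_ne h6 fun h => hl.ne' (h8.1 h)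
    have h5' : 0 < ω' := lt_of_le_of_ne h5 fun h => hμ.ne' (h7.1 h.symm)
    rw [h9] at h4
    have h10 := hsec (2 * k) v.2 r 1 ρ ω (φ + ω') one_pos hρ (hω ω h1).1 (hω ω h1).2
      (by linarith) (by rw [hN]; linarith) (by
        rw [ofReal_one, one_mul, h4]
        have h12 : exp (((φ + ω' : ℝ) : ℂ) * I) = exp (φ * I) * exp (ω' * I) := by
          rw [← exp_add]
          push_cast
          ring_nf
        rw [h12]
        ring)
    obtain ⟨-, h11, -⟩ := h10
    rcases h1 with h1 | h1 <;> linarith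

end Pool.Agent.T2H75.GN
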