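import Pool.Agent.T2H75.GN.Stm

namespace Pool.Agent.T2H75.GN

open Complex ZMod

namespace BRG

lemma ip_comm (p q : ℂ × ℂ) : ip p q = ip q p := by unfold ip; ring

/-- `ip` is linear in the first argument -/
noncomputable def ipL (z : ℂ × ℂ) : (ℂ × ℂ) →ₗ[ℝ] ℝ where
  toFun x := ip x z
  map_add' x y := by simp [ip]; ring
  map_smul' a x := by simp [ip]; ring

lemma ipL_apply (z x : ℂ × ℂ) : ipL z x = ip x z := rfl

lemma ip_ext (x y : ℂ × ℂ) (h : ∀ w, ip x w = ip y w) : x = y := by
  have h1 := h (1, 0)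
  have h2 := h (I, 0)
  have h3 := h (0, 1)
  have h4 := h (0, I)
  simp [ip] at h1 h2 h3 h4
  exact Prod.ext (Complex.ext h1 h2) (Complex.ext h3 h4)

/-- the wedge form -/
noncomputable def Wd (p d z w : ℂ × ℂ) : ℝ := ip p z * ip d w - ip p w * ip d z

noncomputable def T (p z w : ℂ × ℂ) : (ℂ × ℂ) →ₗ[ℝ] ℝ := ip p z • ipL w - ip p w • ipL z

lemma T_apply (p z w d : ℂ × ℂ) : T p z w d = Wd p d z w := by
  simp [T, Wd, ipL_apply]

variable {V E : Type} [Fintype V] [Fintype E]

lemma flux (N : GeoNet V E) (z w : ℂ × ℂ) (v : V) :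
    open Classical in
    ∑ e, (if N.src e = v then Wd (N.pos (N.src e)) (N.dir e) z w else 0) -
      ∑ e, (if N.tgt e = v then Wd (N.pos (N.src e)) (N.dir e) z w else 0) = 0 := by
  classical
  have h := congrArg (T (N.pos v) z w) (N.balanced v)
  rw [map_add, map_sum, map_sum, map_zero] at h
  refine Eq.trans ?_ h
  rw [← Finset.sum_filter, ← Finset.sum_filter, sub_eq_add_neg, ← Finset.sum_neg_distrib]
  congr 1
  · apply Finset.sum_congr
    · ext e; simp
    · intro e he
      rw [Finset.mem_filter] at he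
      rw [T_apply, he.2]
  · apply Finset.sum_congr
    · ext e; simp
    · intro e he
      rw [Finset.mem_filter] at he
      rw [T_apply, ← he.2, N.end_pt e]
      have hcs := Real.sin_sq_add_cos_sq (N.len e)
      generalize N.pos (N.src e) = p
      generalize N.dir e = d
      generalize Real.sin (N.len e) = D at *
      generalize Real.cos (N.len e) = C at *
      have e1 : ∀ y, ip (C • p + D • d) y = C * ip p y + D * ip d y := by
        intro y
        rw [← ipL_apply, map_add, _root_.map_smul, _root_.map_smul, ipL_apply, ipL_apply]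
        rfl
      have e2 : ∀ y, ip (D • p - C • d) y = D * ip p y - C * ip d y := by
        intro y
        rw [← ipL_apply, map_sub, _root_.map_smul, _root_.map_smul, ipL_apply, ipL_apply]
        rfl
      unfold Wd
      rw [e1, e1, e2, e2]
      linear_combination (ip p z * ip d w - ip p w * ip d z) * hcs

lemma cut (N : GeoNet V E) (S : Set V) (z w : ℂ × ℂ) :
    open Classical in
    ∑ e, ((if N.src e ∈ S then (1 : ℝ) else 0) - (if N.tgt e ∈ S then 1 else 0)) *
      Wd (N.pos (N.src e)) (N.dir e) z w = 0 := by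
  classical
  have h : ∑ v ∈ Finset.univ.filter (fun v => v ∈ S),
      (∑ e, (if N.src e = v then Wd (N.pos (N.src e)) (N.dir e) z w else 0) -
      ∑ e, (if N.tgt e = v then Wd (N.pos (N.src e)) (N.dir e) z w else 0)) = 0 :=
    Finset.sum_eq_zero fun v _ => by
      have := flux N z w v
      convert this
  rw [Finset.sum_sub_distrib, Finset.sum_comm] at h
  rw [Finset.sum_comm (s := Finset.univ.filter (fun v => v ∈ S))] at h
  refine Eq.trans ?_ h
  rw [← Finset.sum_sub_distrib]
  apply Finset.sum_congr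
  · rfl
  · intro e _
    rw [Finset.sum_ite_eq, Finset.sum_ite_eq]
    simp only [Finset.mem_filter, Finset.mem_univ, true_and]
    split_ifs <;> ring

lemma span_le (p d p' d' : ℂ × ℂ) (t : ℝ) (h1 : ip p p = 1) (h2 : ip d d = 1)
    (h3 : ip p d = 0) (h : ∀ z w, Wd p d z w = t * Wd p' d' z w) :
    Submodule.span ℝ {p, d} ≤ Submodule.span ℝ {p', d'} := by
  rw [Submodule.span_le]
  have hd : d = (-(t * ip d' p)) • p' + (t * ip p' p) • d' := by
    apply ip_ext
    intro w
    have := h p w
    unfold Wd at this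
    rw [ip_comm d p, h1, h3] at this
    rw [← ipL_apply w ((-(t * ip d' p)) • p' + (t * ip p' p) • d'), map_add, _root_.map_smul, _root_.map_smul,
      ipL_apply, ipL_apply, smul_eq_mul, smul_eq_mul]
    linarith
  have hp : p = (t * ip d' d) • p' + (-(t * ip p' d)) • d' := by
    apply ip_ext
    intro w
    have := h d w
    unfold Wd at this
    rw [h2, h3] at this
    rw [← ipL_apply w ((t * ip d' d) • p' + (-(t * ip p' d)) • d'), map_add, _root_.map_smul, _root_.map_smul,
      ipL_apply, ipL_apply, smul_eq_mul, smul_eq_mul]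
    linarith
  have hm1 : p' ∈ Submodule.span ℝ {p', d'} := Submodule.subset_span (by simp)
  have hm2 : d' ∈ Submodule.span ℝ {p', d'} := Submodule.subset_span (by simp)
  intro x hx
  rcases hx with rfl | hx
  · rw [hp]
    exact Submodule.add_mem _ (Submodule.smul_mem _ _ hm1) (Submodule.smul_mem _ _ hm2)
  · rw [Set.mem_singleton_iff] at hx
    subst hx
    rw [hd]
    exact Submodule.add_mem _ (Submodule.smul_mem _ _ hm1) (Submodule.smul_mem _ _ hm2)

end BRG

open BRG in
theorem brg : BrgStm := by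
  classical
  intro V E _ _ N S
  have hcoef : ∀ g, ¬ (N.src g ∈ S ↔ N.tgt g ∈ S) →
      ((if N.src g ∈ S then (1 : ℝ) else 0) - (if N.tgt g ∈ S then 1 else 0)) = 1 ∨
      ((if N.src g ∈ S then (1 : ℝ) else 0) - (if N.tgt g ∈ S then 1 else 0)) = -1 := by
    intro g hg
    by_cases h1 : N.src g ∈ S <;> by_cases h2 : N.tgt g ∈ S
    · exact absurd ⟨fun _ => h2, fun _ => h1⟩ hg
    · left; rw [if_pos h1, if_neg h2]; norm_num
    · right; rw [if_neg h1, if_pos h2]; norm_num
    · exact absurd ⟨fun h => absurd h h1, fun h => absurd h h2⟩ hg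
  have hcoef0 : ∀ g, (N.src g ∈ S ↔ N.tgt g ∈ S) →
      ((if N.src g ∈ S then (1 : ℝ) else 0) - (if N.tgt g ∈ S then 1 else 0)) = 0 := by
    intro g hg
    by_cases h1 : N.src g ∈ S
    · rw [if_pos h1, if_pos (hg.1 h1)]; norm_num
    · rw [if_neg h1, if_neg (fun h => h1 (hg.2 h))]; norm_num
  have hcut : ∀ z w, ∑ e, ((if N.src e ∈ S then (1 : ℝ) else 0) - (if N.tgt e ∈ S then 1 else 0)) *
      Wd (N.pos (N.src e)) (N.dir e) z w = 0 := by
    intro z w
    have := cut N S z w
    convert this
  constructor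
  · intro e he
    have h := hcut (N.pos (N.src e)) (N.dir e)
    rw [Finset.sum_eq_single e] at h
    · have hW : Wd (N.pos (N.src e)) (N.dir e) (N.pos (N.src e)) (N.dir e) = 1 := by
        unfold Wd
        rw [N.pos_unit, N.dir_unit, N.dir_perp]
        norm_num
      rw [hW, mul_one] at h
      have hmem : e ∈ {g | ¬ (N.src g ∈ S ↔ N.tgt g ∈ S)} := by rw [he]; rfl
      rcases hcoef e hmem with h1 | h1 <;> rw [h1] at h <;> norm_num at h
    · intro g _ hg
      have hn : g ∉ {g | ¬ (N.src g ∈ S ↔ N.tgt g ∈ S)} := by rw [he]; exact hg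
      have hn' : (N.src g ∈ S ↔ N.tgt g ∈ S) := by
        by_contra hc
        exact hn hc
      rw [hcoef0 g hn', zero_mul]
    · intro h; exact absurd (Finset.mem_univ e) h
  · intro e f hef hS
    have hmem : e ∈ {g | ¬ (N.src g ∈ S ↔ N.tgt g ∈ S)} := by rw [hS]; simp
    have hmem' : f ∈ {g | ¬ (N.src g ∈ S ↔ N.tgt g ∈ S)} := by rw [hS]; simp
    set ce := ((if N.src e ∈ S then (1 : ℝ) else 0) - (if N.tgt e ∈ S then 1 else 0)) with hce
    set cf := ((if N.src f ∈ S then (1 : ℝ) else 0) - (if N.tgt f ∈ S then 1 else 0)) with hcf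
    have hsum : ∀ z w, ce * Wd (N.pos (N.src e)) (N.dir e) z w +
        cf * Wd (N.pos (N.src f)) (N.dir f) z w = 0 := by
      intro z w
      have h := hcut z w
      rw [Finset.sum_eq_add e f hef] at h
      · exact h
      · intro g _ hg
        have hn : g ∉ {g | ¬ (N.src g ∈ S ↔ N.tgt g ∈ S)} := by
          rw [hS]
          simp only [Set.mem_insert_iff, Set.mem_singleton_iff, not_or]
          exact hg
        have hn' : (N.src g ∈ S ↔ N.tgt g ∈ S) := by
          by_contra hc
          exact hn hc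
        rw [hcoef0 g hn', zero_mul]
      · intro h; exact absurd (Finset.mem_univ e) h
      · intro h; exact absurd (Finset.mem_univ f) h
    have hce1 : ce = 1 ∨ ce = -1 := hcoef e hmem
    have hcf1 : cf = 1 ∨ cf = -1 := hcoef f hmem'
    apply le_antisymm
    · apply span_le _ _ _ _ (-(ce * cf)) (N.pos_unit _) (N.dir_unit _) (N.dir_perp _)
      intro z w
      have := hsum z w
      rcases hce1 with h1 | h1 <;> rcases hcf1 with h2 | h2 <;> rw [h1, h2] at this ⊢ <;> linarith
    · apply span_le _ _ _ _ (-(ce * cf)) (N.pos_unit _) (N.dir_unit _) (N.dir_perp _)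
      intro z w
      have := hsum z w
      rcases hce1 with h1 | h1 <;> rcases hcf1 with h2 | h2 <;> rw [h1, h2] at this ⊢ <;> linarith

end Pool.Agent.T2H75.GN
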