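import Pool.Agent.T2H75.GN.Stm

set_option autoImplicit false

namespace Pool.Agent.T2H75.GN

theorem btr : BtrStm := by
  intro θ δ hθ hθδ hδ
  have hpi := Real.pi_pos
  set D := δ / 2 with hD
  have hD0 : 0 < D := by rw [hD]; linarith
  have hD1 : D < Real.pi / 2 := by rw [hD]; linarith
  have hcD : 0 < Real.cos D := Real.cos_pos_of_mem_Ioo ⟨by linarith, hD1⟩
  have hcθ : 0 < Real.cos (θ / 2) := Real.cos_pos_of_mem_Ioo ⟨by linarith, by linarith⟩
  set T := Real.tan D with hT
  set τ := Real.tan (θ / 2) with hτ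
  have hτ0 : 0 < τ := Real.tan_pos_of_pos_of_lt_pi_div_two (by linarith) (by linarith)
  have hτT : τ < T := Real.tan_lt_tan_of_nonneg_of_lt_pi_div_two (by linarith) hD1 (by linarith)
  have hT0 : 0 < T := hτ0.trans hτT
  set u := τ ^ 2 / T with hu
  have hu0 : 0 < u := by positivity
  have huT : u < T := by
    rw [hu, div_lt_iff₀ hT0]
    nlinarith
  set x := Real.arctan u with hx
  have hx0 : 0 < x := Real.arctan_pos.2 hu0
  have hxD : x < D := by
    have h1 : Real.arctan T = D := Real.arctan_tan (by linarith) hD1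
    rw [← h1]
    exact Real.arctan_strictMono huT
  refine ⟨2 * x, δ - 2 * x, by linarith, by linarith, by ring, ?_⟩
  have hcx : 0 < Real.cos x := Real.cos_arctan_pos u
  have hsx : Real.sin x = u * Real.cos x := by
    have h1 : Real.tan x = u := Real.tan_arctan u
    rw [Real.tan_eq_sin_div_cos, div_eq_iff hcx.ne'] at h1
    exact h1
  have hsD : Real.sin D = T * Real.cos D := by
    rw [hT, Real.tan_eq_sin_div_cos, div_mul_cancel₀ _ hcD.ne']
  have huT2 : u * T = τ ^ 2 := by rw [hu, div_mul_cancel₀ _ hT0.ne']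
  have hsθ : Real.sin (θ / 2) = τ * Real.cos (θ / 2) := by
    rw [hτ, Real.tan_eq_sin_div_cos, div_mul_cancel₀ _ hcθ.ne']
  have hcosθ : Real.cos θ * (1 + τ ^ 2) = 1 - τ ^ 2 := by
    have h1 : Real.cos θ = Real.cos (θ / 2) ^ 2 - Real.sin (θ / 2) ^ 2 := by
      rw [← Real.cos_two_mul']; congr 1; ring
    have h2 := Real.sin_sq_add_cos_sq (θ / 2)
    rw [hsθ] at h1 h2
    have h3 : Real.cos (θ / 2) ^ 2 * (1 + τ ^ 2) = 1 := by nlinarith
    rw [h1]
    calc (Real.cos (θ / 2) ^ 2 - (τ * Real.cos (θ / 2)) ^ 2) * (1 + τ ^ 2)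
        = (Real.cos (θ / 2) ^ 2 * (1 + τ ^ 2)) * (1 - τ ^ 2) := by ring
      _ = 1 - τ ^ 2 := by rw [h3, one_mul]
  -- half angle
  set y := D - x with hy
  have hψ : δ - 2 * x = 2 * y := by rw [hy, hD]; ring
  rw [hψ]
  have key : (Real.cos (2 * x) - Real.cos θ) * Real.cos y = Real.sin (2 * x) * Real.sin y := by
    have e1 : Real.cos y = Real.cos D * Real.cos x + Real.sin D * Real.sin x := by
      rw [hy, Real.cos_sub]
    have e2 : Real.sin y = Real.sin D * Real.cos x - Real.cos D * Real.sin x := by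
      rw [hy, Real.sin_sub]
    have e3 : Real.cos (2 * x) = Real.cos x ^ 2 - Real.sin x ^ 2 := Real.cos_two_mul' x
    have e4 : Real.sin (2 * x) = 2 * Real.sin x * Real.cos x := Real.sin_two_mul x
    have e5 := Real.sin_sq_add_cos_sq x
    rw [e1, e2, e3, e4, hsD, hsx]
    rw [hsx] at e5
    have e6 : Real.cos x ^ 2 * (1 + u ^ 2) = 1 := by nlinarith
    have e7 : Real.cos D * Real.cos x + T * Real.cos D * (u * Real.cos x) =
        Real.cos D * Real.cos x * (1 + τ ^ 2) := by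
      rw [← huT2]; ring
    rw [e7]
    have e8 : (Real.cos x ^ 2 - (u * Real.cos x) ^ 2 - Real.cos θ) *
        (Real.cos D * Real.cos x * (1 + τ ^ 2)) =
        Real.cos D * Real.cos x * ((Real.cos x ^ 2 - (u * Real.cos x) ^ 2) * (1 + τ ^ 2) -
          Real.cos θ * (1 + τ ^ 2)) := by ring
    rw [e8, hcosθ]
    have e9 : 2 * (u * Real.cos x) * Real.cos x *
        (T * Real.cos D * Real.cos x - Real.cos D * (u * Real.cos x)) =
        Real.cos D * Real.cos x * (2 * Real.cos x ^ 2 * (u * T) - 2 * Real.cos x ^ 2 * u ^ 2) := by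
      ring
    rw [e9, huT2]
    have e10 : (Real.cos x ^ 2 - (u * Real.cos x) ^ 2) * (1 + τ ^ 2) - (1 - τ ^ 2) =
        2 * Real.cos x ^ 2 * τ ^ 2 - 2 * Real.cos x ^ 2 * u ^ 2 := by
      have : (1 : ℝ) - τ ^ 2 = (Real.cos x ^ 2 * (1 + u ^ 2)) * (1 - τ ^ 2) := by
        rw [e6, one_mul]
      rw [this]; ring
    rw [e10]
  have s1 : Real.sin (2 * y) = 2 * Real.sin y * Real.cos y := Real.sin_two_mul y
  have s2 : 1 - Real.cos (2 * y) = 2 * Real.sin y ^ 2 := by
    rw [Real.cos_two_mul']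
    have := Real.sin_sq_add_cos_sq y
    linarith
  rw [s1, s2]
  calc (Real.cos (2 * x) - Real.cos θ) * (2 * Real.sin y * Real.cos y)
      = 2 * Real.sin y * ((Real.cos (2 * x) - Real.cos θ) * Real.cos y) := by ring
    _ = 2 * Real.sin y * (Real.sin (2 * x) * Real.sin y) := by rw [key]
    _ = _ := by ring

end Pool.Agent.T2H75.GN
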