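import Pool.Agent.T2H75.GN.Stm

namespace Pool.Agent.T2H75.GN

open Complex ZMod

namespace BVV

lemma two_pi (k : ℕ) (hk : 2 ≤ k) : 2 * Real.pi / ((2 * k : ℕ) : ℝ) = Real.pi / k := by
  have : (k : ℝ) ≠ 0 := by positivity
  push_cast
  field_simp

lemma pi_div_lt (k : ℕ) (hk : 2 ≤ k) : Real.pi / k < Real.pi := by
  have h : (2 : ℝ) ≤ k := by exact_mod_cast hk
  have hp := Real.pi_pos
  rw [div_lt_iff₀ (by linarith)]
  nlinarith

end BVV

open BVV in
theorem bvv (hpol : PolStm) (hsec : SecStm) : BvvStm := by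
  intro m k _ _ hm hk φ ψ c s hφ hψ hsum hc hs
  have hlt := pi_div_lt k hk
  have h2 := two_pi k hk
  have h2m := two_pi m hm
  have hmpos : (0 : ℝ) < Real.pi / m := by
    have : (0 : ℝ) < m := by positivity
    positivity
  have hV : ∀ (a : ZMod (2 * m)) (r : ZMod (2 * k)) (x : ℂ × ℂ), VInt m k φ ψ c s a r x →
      ∃ ρ ω κ : ℝ, 0 < ρ ∧ 0 < ω ∧ ω < ψ ∧ 0 < κ ∧
        x = ((κ : ℂ) * (stdAddChar a * exp (((0 : ℝ) : ℂ) * I)),
          (ρ : ℂ) * (stdAddChar r * exp (((φ + ω : ℝ) : ℂ) * I))) := by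
    rintro a r x ⟨l, μ, hl, hμ, rfl⟩
    obtain ⟨ρ, ω, hρ, h0, h1, h3, h4, h5⟩ := hpol ψ l μ hψ (by linarith) hl.le hμ.le
      (Or.inl hl.ne')
    have hω0 : 0 < ω := lt_of_le_of_ne h0 (fun h => hμ.ne' (h3.1 h.symm))
    have hωψ : ω < ψ := lt_of_le_of_ne h1 (fun h => hl.ne' (h4.1 h))
    refine ⟨s * ρ, ω, c * (l + μ), by positivity, hω0, hωψ, by positivity, ?_⟩
    rw [h5]
    refine Prod.ext ?_ ?_
    · simp only [ofReal_zero, zero_mul, exp_zero, mul_one]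
      push_cast
      ring
    · simp only
      rw [show ((φ + ω : ℝ) : ℂ) * I = (φ : ℂ) * I + (ω : ℂ) * I by push_cast; ring, Complex.exp_add]
      push_cast
      ring
  constructor
  · intro a a' r r' x hx hx'
    obtain ⟨ρ, ω, κ, h1, h2', h3, h4, h5⟩ := hV a r x hx
    obtain ⟨ρ', ω', κ', h1', h2'', h3', h4', h5'⟩ := hV a' r' x hx'
    rw [h5] at h5'
    have e1 := congrArg Prod.fst h5'
    have e2 := congrArg Prod.snd h5'
    simp only at e1 e2
    have s1 := hsec (2 * m) a a' κ κ' 0 0 h4 h4' le_rfl (by rw [h2m]; exact hmpos) le_rfl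
      (by rw [h2m]; exact hmpos) e1
    have s2 := hsec (2 * k) r r' ρ ρ' (φ + ω) (φ + ω') h1 h1' (by linarith)
      (by rw [h2]; linarith) (by linarith) (by rw [h2]; linarith) e2
    exact ⟨s1.1, s2.1⟩
  · rintro a a' r r' ε x - ⟨l, μ, hl, hμ, hx⟩ hx'
    obtain ⟨ρ', ω', κ', h1', h2'', h3', h4', h5'⟩ := hV a' r' x hx'
    obtain ⟨ρ, ω, hρ, h0, h1, h3, h4, h5⟩ := hpol φ l μ hφ (by linarith) hl.le hμ.le
      (Or.inl hl.ne')
    have hωφ : ω < φ := lt_of_le_of_ne h1 (fun h => hl.ne' (h4.1 h))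
    rw [hx, h5] at h5'
    have e2 := congrArg Prod.snd h5'
    simp only at e2
    have e3 : ((s * ρ : ℝ) : ℂ) * (stdAddChar r * exp ((ω : ℂ) * I)) =
        (ρ' : ℂ) * (stdAddChar r' * exp (((φ + ω' : ℝ) : ℂ) * I)) := by
      rw [← e2]
      push_cast
      ring
    have s2 := hsec (2 * k) r r' (s * ρ) ρ' ω (φ + ω') (by positivity) h1' h0
      (by rw [h2]; linarith) (by linarith) (by rw [h2]; linarith) e3
    linarith [s2.2.1]

end Pool.Agent.T2H75.GN
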