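import Pool.Agent.T2H75.GN.Stm

/-!
# Package BZZ: zigzag edges do not meet in interior points
-/

set_option autoImplicit false

namespace Pool.Agent.T2H75.GN

open Complex ZMod

namespace BZZ

lemma chi_norm {N : ℕ} [NeZero N] (j : ZMod N) : ‖(stdAddChar j : ℂ)‖ = 1 :=
  AddChar.norm_apply _ _

lemma chi_inj {N : ℕ} [NeZero N] {i j : ZMod N} (h : (stdAddChar i : ℂ) = stdAddChar j) : i = j :=
  injective_stdAddChar h

lemma chi_one (m : ℕ) [NeZero m] :
    (stdAddChar (1 : ZMod (2 * m)) : ℂ) = exp (((Real.pi / m : ℝ) : ℂ) * I) := by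
  have h := stdAddChar_coe (N := 2 * m) 1
  rw [Int.cast_one] at h
  rw [h]
  congr 1
  have hm : (m : ℂ) ≠ 0 := Nat.cast_ne_zero.2 (NeZero.ne m)
  push_cast
  field_simp

lemma two_pi (m : ℕ) [NeZero m] : 2 * Real.pi / ((2 * m : ℕ) : ℝ) = Real.pi / m := by
  have hm : (m : ℝ) ≠ 0 := Nat.cast_ne_zero.2 (NeZero.ne m)
  push_cast
  field_simp

lemma beta_pos (m : ℕ) [NeZero m] : 0 < Real.pi / m := by
  have hm : (0 : ℝ) < m := Nat.cast_pos.2 (NeZero.pos m)
  positivity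

lemma beta_lt (m : ℕ) (hm : 2 ≤ m) : Real.pi / m < Real.pi := by
  have h1 : (1 : ℝ) < m := by exact_mod_cast (by omega : 1 < m)
  exact div_lt_self Real.pi_pos h1

/-- polar form -/
lemma pol (hpol : PolStm) (φ l μ : ℝ) (h0 : 0 < φ) (h1 : φ < Real.pi) (hl : 0 < l) (hμ : 0 < μ) :
    ∃ ρ ω : ℝ, 0 < ρ ∧ 0 < ω ∧ ω < φ ∧ (l : ℂ) + μ * exp (φ * I) = ρ * exp (ω * I) := by
  obtain ⟨ρ, ω, g1, g2, g3, g4, g5, g6⟩ := hpol φ l μ h0 h1 hl.le hμ.le (Or.inl hl.ne')
  refine ⟨ρ, ω, g1, ?_, ?_, g6⟩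
  · exact lt_of_le_of_ne g2 (fun h => hμ.ne' (g4.1 h.symm))
  · exact lt_of_le_of_ne g3 (fun h => hl.ne' (g5.1 h))

lemma par (m : ℕ) [NeZero m] (hm : 2 ≤ m) (a : ZMod (2 * m)) :
    (a + 1).val % 2 = (a.val + 1) % 2 := by
  have : Fact (1 < 2 * m) := ⟨by omega⟩
  rw [ZMod.val_add, ZMod.val_one]
  exact Nat.mod_mod_of_dvd _ (dvd_mul_right 2 m)

lemma exp_cs (φ : ℝ) : exp ((φ : ℂ) * I) = (Real.cos φ : ℂ) + (Real.sin φ : ℂ) * I := by
  rw [Complex.exp_mul_I, Complex.ofReal_cos, Complex.ofReal_sin]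

lemma ne_zero_of (l μ C S : ℝ) (hμ : μ ≠ 0) (hS : S ≠ 0) :
    (l : ℂ) + μ * ((C : ℂ) + (S : ℂ) * I) ≠ 0 := by
  intro h
  have := congrArg Complex.im h
  simp at this
  rcases this with h7 | h7
  · exact hμ h7
  · exact hS h7

/-- opposite directions are impossible -/
lemma opp (hpol : PolStm) (hsec : SecStm) (m : ℕ) [NeZero m] (hm : 2 ≤ m) (a a' : ZMod (2 * m))
    (l μ : ℝ) (hl : 0 < l) (hμ : 0 < μ)
    (h : (stdAddChar a : ℂ) * ((l : ℂ) + μ * exp (((Real.pi / m : ℝ) : ℂ) * I)) =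
      stdAddChar a' * ((l : ℂ) + μ * exp (((-(Real.pi / m) : ℝ) : ℂ) * I))) : a' = a + 1 := by
  obtain ⟨ρ, ω, h1, h2, h3, h4⟩ := pol hpol (Real.pi / m) l μ (beta_pos m) (beta_lt m hm) hl hμ
  have h5 : (l : ℂ) + μ * exp (((-(Real.pi / m) : ℝ) : ℂ) * I) = ρ * exp (((-ω : ℝ) : ℂ) * I) := by
    have h6 := congrArg (starRingEnd ℂ) h4
    rw [map_add, map_mul, map_mul, Complex.conj_ofReal, Complex.conj_ofReal, Complex.conj_ofReal,
      ← Complex.exp_conj, ← Complex.exp_conj, map_mul, map_mul, Complex.conj_ofReal,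
      Complex.conj_ofReal, Complex.conj_I] at h6
    rw [Complex.ofReal_neg, Complex.ofReal_neg, neg_mul, neg_mul, ← mul_neg, ← mul_neg]
    exact h6
  rw [h4, h5] at h
  have hρ : (ρ : ℂ) ≠ 0 := Complex.ofReal_ne_zero.2 h1.ne'
  have e0 : exp (((-ω : ℝ) : ℂ) * I) * exp ((ω : ℂ) * I) = 1 := by
    rw [← Complex.exp_add]
    push_cast
    rw [show -(ω : ℂ) * I + ω * I = 0 by ring, Complex.exp_zero]
  have e1 : exp ((ω : ℂ) * I) * exp ((ω : ℂ) * I) = exp (((2 * ω : ℝ) : ℂ) * I) := by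
    rw [← Complex.exp_add]
    congr 1
    push_cast
    ring
  have h7 : (stdAddChar a : ℂ) * exp ((ω : ℂ) * I) = stdAddChar a' * exp (((-ω : ℝ) : ℂ) * I) := by
    refine mul_left_cancel₀ hρ ?_
    linear_combination h
  have h8 : (stdAddChar a : ℂ) * exp (((2 * ω : ℝ) : ℂ) * I) = stdAddChar a' := by
    calc (stdAddChar a : ℂ) * exp (((2 * ω : ℝ) : ℂ) * I)
        = ((stdAddChar a : ℂ) * exp ((ω : ℂ) * I)) * exp ((ω : ℂ) * I) := by rw [← e1]; ring
      _ = stdAddChar a' * (exp (((-ω : ℝ) : ℂ) * I) * exp ((ω : ℂ) * I)) := by rw [h7]; ring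
      _ = stdAddChar a' := by rw [e0, mul_one]
  have hb := two_pi m
  rcases lt_or_ge (2 * ω) (Real.pi / m) with h9 | h9
  · exfalso
    have h10 := hsec (2 * m) a a' 1 1 (2 * ω) 0 one_pos one_pos (by linarith) (by rw [hb]; exact h9)
      le_rfl (by rw [hb]; exact beta_pos m) (by
        rw [h8, Complex.ofReal_zero, zero_mul, Complex.exp_zero, mul_one])
    have := h10.2.1
    linarith
  · have h10 := hsec (2 * m) (a + 1) a' 1 1 (2 * ω - Real.pi / m) 0 one_pos one_pos (by linarith)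
      (by rw [hb]; linarith) le_rfl (by rw [hb]; exact beta_pos m) (by
        have e2 : exp (((Real.pi / m : ℝ) : ℂ) * I) *
            exp (((2 * ω - Real.pi / m : ℝ) : ℂ) * I) = exp (((2 * ω : ℝ) : ℂ) * I) := by
          rw [← Complex.exp_add]
          congr 1
          push_cast
          ring
        rw [AddChar.map_add_eq_mul, chi_one, mul_assoc (stdAddChar a : ℂ), e2, h8,
          Complex.ofReal_zero, zero_mul, Complex.exp_zero, mul_one])
    exact h10.1.symm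

end BZZ

open BZZ in
theorem bzz (hpol : PolStm) (hsec : SecStm) : BzzStm := by
  intro m k _ _ hm hk φ ψ c s hφ hψ hφψ hc hs a a' r r' ε ε' x hε hε' hp hp' h h'
  obtain ⟨l, μ, hl, hμ, hx⟩ := h
  obtain ⟨l', μ', hl', hμ', hx'⟩ := h'
  rw [hx] at hx'
  have h1 := congrArg Prod.fst hx'
  have h2 := congrArg Prod.snd hx'
  dsimp only at h1 h2
  have hs0 : (s : ℂ) ≠ 0 := Complex.ofReal_ne_zero.2 hs.ne'
  have hc0 : (c : ℂ) ≠ 0 := Complex.ofReal_ne_zero.2 hc.ne'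
  have h3 := mul_left_cancel₀ hs0 h2
  have h4 := mul_left_cancel₀ hc0 h1
  have hφk : φ < Real.pi / k := by linarith
  have hφπ : φ < Real.pi := hφk.trans (beta_lt k hk)
  obtain ⟨ρ, ω, r1, r2, r3, r4⟩ := pol hpol φ l μ hφ hφπ hl hμ
  obtain ⟨ρ', ω', r1', r2', r3', r4'⟩ := pol hpol φ l' μ' hφ hφπ hl' hμ'
  rw [r4, r4'] at h3
  have hb := two_pi k
  obtain ⟨hr, hω, hρ⟩ := hsec (2 * k) r r' ρ ρ' ω ω' r1 r1' r2.le (by rw [hb]; linarith) r2'.le
    (by rw [hb]; linarith) (by linear_combination h3)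
  have h5 : (l : ℂ) + μ * exp (φ * I) = (l' : ℂ) + μ' * exp (φ * I) := by
    rw [r4, r4', hω, hρ]
  have hsin : 0 < Real.sin φ := Real.sin_pos_of_pos_of_lt_pi hφ hφπ
  rw [exp_cs] at h5
  have him := congrArg Complex.im h5
  have hre := congrArg Complex.re h5
  simp at him hre
  have hμμ : μ = μ' := by
    rcases him with h6 | h6
    · exact h6
    · exact absurd h6 hsin.ne'
  have hll : l = l' := by
    rw [hμμ] at hre
    linarith
  rw [← hμμ, ← hll] at h4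
  have hθ := beta_pos m
  have hθ2 : Real.pi / m ≤ Real.pi / 2 := by
    have : (2 : ℝ) ≤ m := by exact_mod_cast hm
    exact div_le_div_of_nonneg_left Real.pi_pos.le (by norm_num) this
  have hsinθ : 0 < Real.sin (Real.pi / m) :=
    Real.sin_pos_of_pos_of_lt_pi hθ (beta_lt m hm)
  rw [← hr] at hp'
  rw [Nat.not_odd_iff] at hp hp'
  have hcast1 : (((1 : ℤ) : ℝ) * (Real.pi / m : ℝ) : ℝ) = Real.pi / m := by
    rw [Int.cast_one, one_mul]
  have hcast2 : (((-1 : ℤ) : ℝ) * (Real.pi / m : ℝ) : ℝ) = -(Real.pi / m) := by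
    rw [Int.cast_neg, Int.cast_one]
    ring
  rcases hε with rfl | rfl
  · rcases hε' with rfl | rfl
    · refine ⟨?_, hr, rfl⟩
      refine chi_inj (mul_right_cancel₀ (b := (l : ℂ) + μ * exp (((((1 : ℤ) : ℝ) * (Real.pi / m : ℝ) : ℝ) : ℂ) * I)) ?_ h4)
      intro h6
      rw [hcast1, exp_cs] at h6
      exact ne_zero_of l μ _ _ hμ.ne' hsinθ.ne' h6
    · exfalso
      rw [hcast1, hcast2] at h4
      have h6 := opp hpol hsec m hm a a' l μ hl hμ h4
      have h7 := par m hm a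
      rw [h6] at hp'
      omega
  · rcases hε' with rfl | rfl
    · exfalso
      rw [hcast1, hcast2] at h4
      have h6 := opp hpol hsec m hm a' a l μ hl hμ h4.symm
      have h7 := par m hm a'
      rw [h6] at hp
      omega
    · refine ⟨?_, hr, rfl⟩
      refine chi_inj (mul_right_cancel₀ (b := (l : ℂ) + μ * exp (((((-1 : ℤ) : ℝ) * (Real.pi / m : ℝ) : ℝ) : ℂ) * I)) ?_ h4)
      intro h6
      rw [hcast2, exp_cs] at h6
      refine ne_zero_of l μ _ _ hμ.ne' ?_ h6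
      rw [Real.sin_neg]
      exact neg_ne_zero.2 hsinθ.ne'

end Pool.Agent.T2H75.GN
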