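import Pool.Agent.T2H75.GN.Stm2

set_option autoImplicit false

namespace Pool.Agent.T2H75.GN

open Complex ZMod

namespace CERT

/-- the inner product of quadruples -/
def d4 (x y : Fin 4 → ℝ) : ℝ := x 0 * y 0 + x 1 * y 1 + x 2 * y 2 + x 3 * y 3

/-- quadruples as pairs of complex numbers -/
def J4 : (Fin 4 → ℝ) →ₗ[ℝ] ℂ × ℂ where
  toFun x := (⟨x 0, x 1⟩, ⟨x 2, x 3⟩)
  map_add' x y := by
    refine Prod.ext (Complex.ext ?_ ?_) (Complex.ext ?_ ?_) <;> simp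
  map_smul' c x := by
    refine Prod.ext (Complex.ext ?_ ?_) (Complex.ext ?_ ?_) <;> simp

theorem J4_apply (x : Fin 4 → ℝ) : J4 x = ((⟨x 0, x 1⟩ : ℂ), (⟨x 2, x 3⟩ : ℂ)) := rfl

theorem J4_inj {x y : Fin 4 → ℝ} (h : J4 x = J4 y) : x = y := by
  rw [J4_apply, J4_apply] at h
  have h1 := congrArg (fun p : ℂ × ℂ => p.1.re) h
  have h2 := congrArg (fun p : ℂ × ℂ => p.1.im) h
  have h3 := congrArg (fun p : ℂ × ℂ => p.2.re) h
  have h4 := congrArg (fun p : ℂ × ℂ => p.2.im) h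
  simp only at h1 h2 h3 h4
  funext i
  fin_cases i
  · exact h1
  · exact h2
  · exact h3
  · exact h4

theorem ip_J4 (x y : Fin 4 → ℝ) : ip (J4 x) (J4 y) = d4 x y := by
  unfold ip d4
  rw [J4_apply, J4_apply]

/-- the product of the quaternion `x` and the imaginary quaternion `y` -/
def qm (x : Fin 4 → ℝ) : (Fin 3 → ℝ) →ₗ[ℝ] (Fin 4 → ℝ) where
  toFun y := ![-(x 1 * y 0) - x 2 * y 1 - x 3 * y 2, x 0 * y 0 + x 2 * y 2 - x 3 * y 1,
    x 0 * y 1 - x 1 * y 2 + x 3 * y 0, x 0 * y 2 + x 1 * y 1 - x 2 * y 0]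
  map_add' y y' := by
    ext i
    fin_cases i <;> simp <;> ring
  map_smul' c y := by
    ext i
    fin_cases i <;> simp <;> ring

theorem imq0 (P Q : Fin 4 → ℝ) : imq P Q 0 = P 0 * Q 1 - P 1 * Q 0 - P 2 * Q 3 + P 3 * Q 2 := rfl
theorem imq1 (P Q : Fin 4 → ℝ) : imq P Q 1 = P 0 * Q 2 - P 2 * Q 0 - P 3 * Q 1 + P 1 * Q 3 := rfl
theorem imq2 (P Q : Fin 4 → ℝ) : imq P Q 2 = P 0 * Q 3 - P 3 * Q 0 - P 1 * Q 2 + P 2 * Q 1 := rfl

theorem qm_imq (P Q : Fin 4 → ℝ) : qm P (imq P Q) = d4 P P • Q - d4 P Q • P := by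
  funext i
  fin_cases i
  · show -(P 1 * imq P Q 0) - P 2 * imq P Q 1 - P 3 * imq P Q 2 = d4 P P * Q 0 - d4 P Q * P 0
    rw [imq0, imq1, imq2]
    unfold d4
    ring
  · show P 0 * imq P Q 0 + P 2 * imq P Q 2 - P 3 * imq P Q 1 = d4 P P * Q 1 - d4 P Q * P 1
    rw [imq0, imq1, imq2]
    unfold d4
    ring
  · show P 0 * imq P Q 1 - P 1 * imq P Q 2 + P 3 * imq P Q 0 = d4 P P * Q 2 - d4 P Q * P 2
    rw [imq0, imq1, imq2]
    unfold d4
    ring
  · show P 0 * imq P Q 2 + P 1 * imq P Q 1 - P 2 * imq P Q 0 = d4 P P * Q 3 - d4 P Q * P 3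
    rw [imq0, imq1, imq2]
    unfold d4
    ring

theorem imq_norm (P Q : Fin 4 → ℝ) : imq P Q 0 ^ 2 + imq P Q 1 ^ 2 + imq P Q 2 ^ 2 =
    d4 P P * d4 Q Q - d4 P Q ^ 2 := by
  rw [imq0, imq1, imq2]
  unfold d4
  ring

theorem d4_nonneg (x : Fin 4 → ℝ) : 0 ≤ d4 x x := by
  unfold d4
  nlinarith [mul_self_nonneg (x 0), mul_self_nonneg (x 1), mul_self_nonneg (x 2),
    mul_self_nonneg (x 3)]

theorem d4_pos {x : Fin 4 → ℝ} (hx : x ≠ 0) : 0 < d4 x x := by
  rcases (d4_nonneg x).lt_or_eq with h | h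
  · exact h
  · exfalso
    apply hx
    unfold d4 at h
    have a0 : x 0 = 0 := by nlinarith [mul_self_nonneg (x 0), mul_self_nonneg (x 1), mul_self_nonneg (x 2), mul_self_nonneg (x 3)]
    have a1 : x 1 = 0 := by nlinarith [mul_self_nonneg (x 0), mul_self_nonneg (x 1), mul_self_nonneg (x 2), mul_self_nonneg (x 3)]
    have a2 : x 2 = 0 := by nlinarith [mul_self_nonneg (x 0), mul_self_nonneg (x 1), mul_self_nonneg (x 2), mul_self_nonneg (x 3)]
    have a3 : x 3 = 0 := by nlinarith [mul_self_nonneg (x 0), mul_self_nonneg (x 1), mul_self_nonneg (x 2), mul_self_nonneg (x 3)]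
    funext i
    fin_cases i
    · exact a0
    · exact a1
    · exact a2
    · exact a3

theorem d4_smul (a b : ℝ) (x y : Fin 4 → ℝ) : d4 (a • x) (b • y) = a * b * d4 x y := by
  simp only [d4, Pi.smul_apply, smul_eq_mul]
  ring

/-- the tangent vector -/
theorem tang_eq {P Q : Fin 4 → ℝ} {F : Fin 3 → ℝ} {b M : ℝ} (hP : 0 < d4 P P) (hQ : 0 < d4 Q Q)
    (hM : 0 < M) (hb : 0 < b) (hPQ : imq P Q = b • F) (hF : F 0 ^ 2 + F 1 ^ 2 + F 2 ^ 2 = M) :
    tang (J4 ((√(d4 P P))⁻¹ • P)) (J4 ((√(d4 Q Q))⁻¹ • Q)) =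
      J4 ((√M)⁻¹ • qm ((√(d4 P P))⁻¹ • P) F) := by
  obtain ⟨r, hr⟩ : ∃ r : ℝ, r = √(d4 P P) := ⟨_, rfl⟩
  obtain ⟨s, hs⟩ : ∃ s : ℝ, s = √(d4 Q Q) := ⟨_, rfl⟩
  obtain ⟨k, hk⟩ : ∃ k : ℝ, k = √M := ⟨_, rfl⟩
  have hr0 : 0 < r := by rw [hr]; exact Real.sqrt_pos.2 hP
  have hs0 : 0 < s := by rw [hs]; exact Real.sqrt_pos.2 hQ
  have hk0 : 0 < k := by rw [hk]; exact Real.sqrt_pos.2 hM
  have hr2 : r ^ 2 = d4 P P := by rw [hr]; exact Real.sq_sqrt hP.le
  have hs2 : s ^ 2 = d4 Q Q := by rw [hs]; exact Real.sq_sqrt hQ.le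
  have hk2 : k ^ 2 = M := by rw [hk]; exact Real.sq_sqrt hM.le
  rw [← hr, ← hs, ← hk]
  have h1 : d4 P P * d4 Q Q - d4 P Q ^ 2 = b ^ 2 * M := by
    rw [← imq_norm, hPQ, ← hF]
    simp only [Pi.smul_apply, smul_eq_mul]
    ring
  have h2 : ip (J4 (r⁻¹ • P)) (J4 (s⁻¹ • Q)) = r⁻¹ * s⁻¹ * d4 P Q := by rw [ip_J4, d4_smul]
  have h3 : 1 - (r⁻¹ * s⁻¹ * d4 P Q) ^ 2 = (b * k / (r * s)) ^ 2 := by
    have e : (b * k / (r * s)) ^ 2 = (b ^ 2 * M) / (r ^ 2 * s ^ 2) := by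
      rw [← hk2]
      field_simp
    rw [e, ← h1, ← hr2, ← hs2]
    field_simp
  unfold tang
  rw [h2, h3, Real.sqrt_sq (by positivity), ← LinearMap.map_smul, ← map_sub, ← LinearMap.map_smul]
  congr 1
  have h4 := qm_imq P Q
  rw [hPQ, LinearMap.map_smul, ← hr2] at h4
  have h5 : qm (r⁻¹ • P) F = r⁻¹ • qm P F := by
    funext i
    fin_cases i <;> simp [qm] <;> ring
  rw [h5]
  have h6 : qm P F = b⁻¹ • (r ^ 2 • Q - d4 P Q • P) := by
    rw [← h4, smul_smul, inv_mul_cancel₀ hb.ne', one_smul]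
  rw [h6]
  funext i
  simp only [Pi.smul_apply, Pi.sub_apply, smul_eq_mul]
  field_simp

theorem gram_pos {P Q : Fin 4 → ℝ} {F : Fin 3 → ℝ} {b M : ℝ}
    (hM : 0 < M) (hb : 0 < b) (hPQ : imq P Q = b • F) (hF : F 0 ^ 2 + F 1 ^ 2 + F 2 ^ 2 = M) :
    0 < d4 P P * d4 Q Q - d4 P Q ^ 2 := by
  have h1 : d4 P P * d4 Q Q - d4 P Q ^ 2 = b ^ 2 * M := by
    rw [← imq_norm, hPQ, ← hF]
    simp only [Pi.smul_apply, smul_eq_mul]
    ring
  rw [h1]
  positivity

theorem li4 {A B C D : Fin 4 → ℝ} (h : LinearIndependent ℝ ![A, B, C, D]) {a b c d : ℝ}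
    (he : a • A + b • B = c • C + d • D) : a = 0 ∧ b = 0 ∧ c = 0 ∧ d = 0 := by
  have h1 := Fintype.linearIndependent_iff.1 h ![a, b, -c, -d] (by
    rw [Fin.sum_univ_four]
    simp only [Matrix.cons_val_zero, Matrix.cons_val_one, Matrix.cons_val]
    rw [he]
    module)
  refine ⟨h1 0, h1 1, ?_, ?_⟩
  · have := h1 2
    simp only [Matrix.cons_val] at this
    linarith
  · have := h1 3
    simp only [Matrix.cons_val] at this
    linarith

theorem li3 {A B C : Fin 4 → ℝ} (h : LinearIndependent ℝ ![A, B, C]) {a b c d : ℝ}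
    (he : a • A + b • B = c • A + d • C) : a = c ∧ b = 0 ∧ d = 0 := by
  have h1 := Fintype.linearIndependent_iff.1 h ![a - c, b, -d] (by
    rw [Fin.sum_univ_three]
    simp only [Matrix.cons_val_zero, Matrix.cons_val_one, Matrix.cons_val]
    have e : (a - c) • A + b • B + -d • C = (a • A + b • B) - (c • A + d • C) := by module
    rw [e, he, sub_self])
  have h2 : a - c = 0 := h1 0
  have h3 : -d = 0 := h1 2
  exact ⟨by linarith, h1 1, by linarith⟩

theorem arc_comm (p q : ℂ × ℂ) {x : ℂ × ℂ} (hx : x ∈ arc p q) : x ∈ arc q p := by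
  obtain ⟨h1, l, m, h2, h3, h4⟩ := hx
  exact ⟨h1, m, l, h3, h2, by rw [h4, add_comm]⟩

theorem ip_smul (a : ℝ) (p : ℂ × ℂ) : ip (a • p) (a • p) = a ^ 2 * ip p p := by
  unfold ip
  simp only [Prod.smul_fst, Prod.smul_snd, Complex.real_smul, Complex.mul_re, Complex.mul_im,
    Complex.ofReal_re, Complex.ofReal_im]
  ring

end CERT

open CERT in
theorem cert : CertStm := by
  classical
  intro V _ G P F b M hM hadj hsum hne hind4 hind3 hex
  have hP0 : ∀ v, 0 < d4 (P v) (P v) := by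
    intro v
    apply d4_pos
    obtain ⟨w, hw⟩ := hex v
    have h := hne v w hw.ne 0 le_rfl
    rwa [zero_smul] at h
  obtain ⟨r, hr⟩ : ∃ r : V → ℝ, r = fun v => √(d4 (P v) (P v)) := ⟨_, rfl⟩
  have hr0 : ∀ v, 0 < r v := fun v => by rw [hr]; exact Real.sqrt_pos.2 (hP0 v)
  have hr2 : ∀ v, r v ^ 2 = d4 (P v) (P v) := fun v => by rw [hr]; exact Real.sq_sqrt (hP0 v).le
  obtain ⟨p, hp⟩ : ∃ p : V → ℂ × ℂ, p = fun v => J4 ((r v)⁻¹ • P v) := ⟨_, rfl⟩
  have hpv : ∀ v, p v = J4 ((r v)⁻¹ • P v) := fun v => by rw [hp]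
  have hunit : ∀ v, ip (p v) (p v) = 1 := by
    intro v
    rw [hpv, ip_J4, d4_smul, ← hr2]
    have := (hr0 v).ne'
    field_simp
  have hcomb : ∀ (v w : V) (l m : ℝ), l • p v + m • p w =
      J4 ((l * (r v)⁻¹) • P v + (m * (r w)⁻¹) • P w) := by
    intro v w l m
    rw [hpv, hpv, ← LinearMap.map_smul, ← LinearMap.map_smul, ← map_add, smul_smul, smul_smul]
  have hone : ∀ (v : V) (l : ℝ), 0 ≤ l → ip (l • p v) (l • p v) = 1 → l = 1 := by
    intro v l hl h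
    rw [ip_smul, hunit, mul_one] at h
    nlinarith
  have common : ∀ y w w', G.Adj y w → G.Adj y w' → w ≠ w' → ∀ x, x ∈ arc (p y) (p w) →
      x ∈ arc (p y) (p w') → x = p y := by
    intro y w w' h1 h2 h3 x hx hx'
    obtain ⟨k1, l, m, k2, k3, k4⟩ := hx
    obtain ⟨_, l', m', k2', k3', k4'⟩ := hx'
    have h4 : l • p y + m • p w = l' • p y + m' • p w' := by rw [← k4, ← k4']
    rw [hcomb, hcomb] at h4
    obtain ⟨q1, q2, q3⟩ := li3 (hind3 y w w' h1 h2 h3) (J4_inj h4)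
    have hm : m = 0 := by
      rcases mul_eq_zero.1 q2 with h | h
      · exact h
      · exact absurd h (inv_ne_zero (hr0 w).ne')
    have hx : x = l • p y := by rw [k4, hm, zero_smul, add_zero]
    have hl : l = 1 := hone y l k2 (by rw [← hx]; exact k1)
    rw [hx, hl, one_smul]
  refine ⟨p, hunit, ?_, ?_, ?_, ?_⟩
  · intro v w hvw
    by_contra hne'
    rw [hpv, hpv] at hvw
    have h1 := J4_inj hvw
    have h2 : P v = (r v * (r w)⁻¹) • P w := by
      have h3 : P v = r v • ((r v)⁻¹ • P v) := by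
        rw [smul_smul, mul_inv_cancel₀ (hr0 v).ne', one_smul]
      rw [h3, h1, smul_smul]
    exact hne v w hne' _ (by have := hr0 v; have := hr0 w; positivity) h2
  · intro v w hvw h
    rw [hpv, hpv, ← map_neg] at h
    have h1 := J4_inj h
    have h2 : P w = (-(r w * (r v)⁻¹)) • P v := by
      have h3 : P w = r w • ((r w)⁻¹ • P w) := by
        rw [smul_smul, mul_inv_cancel₀ (hr0 w).ne', one_smul]
      rw [h3, h1, smul_neg, smul_smul, neg_smul]
    obtain ⟨b1, b2, b3⟩ := hadj v w hvw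
    have h4 := gram_pos hM b1 b2 b3
    rw [h2] at h4
    have h5 : d4 (P v) ((-(r w * (r v)⁻¹)) • P v) = -(r w * (r v)⁻¹) * d4 (P v) (P v) := by
      have := d4_smul 1 (-(r w * (r v)⁻¹)) (P v) (P v)
      rw [one_smul, one_mul] at this
      exact this
    rw [h5, d4_smul] at h4
    nlinarith
  · intro v
    have h1 : ∀ w ∈ Finset.univ.filter (fun w => G.Adj v w), tang (p v) (p w) =
        J4 ((√M)⁻¹ • qm ((r v)⁻¹ • P v) (F v w)) := by
      intro w hw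
      obtain ⟨b1, b2, b3⟩ := hadj v w (Finset.mem_filter.1 hw).2
      have h2 := tang_eq (hP0 v) (hP0 w) hM b1 b2 b3
      rw [hpv, hpv, hr]
      exact h2
    have h2 : ∑ w ∈ Finset.univ.filter (fun w => G.Adj v w), tang (p v) (p w) = 0 := by
      rw [Finset.sum_congr rfl h1, ← map_sum, ← Finset.smul_sum, ← map_sum]
      have h3 : ∑ w ∈ Finset.univ.filter (fun w => G.Adj v w), F v w = 0 := by convert hsum v
      rw [h3, map_zero, smul_zero, map_zero]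
    convert h2
  · intro v w v' w' h1 h2 h3 x hx hx'
    by_cases c1 : v = v'
    · subst c1
      have hw : w ≠ w' := fun h => h3 (by rw [h])
      exact ⟨v, Or.inl rfl, Or.inl rfl, common v w w' h1 h2 hw x hx hx'⟩
    by_cases c2 : v = w'
    · subst c2
      have hw : w ≠ v' := fun h => h3 (by rw [h, Sym2.eq_swap])
      exact ⟨v, Or.inl rfl, Or.inr rfl, common v w v' h1 h2.symm hw x hx (arc_comm _ _ hx')⟩
    by_cases c3 : w = v'
    · subst c3
      have hw : v ≠ w' := c2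
      exact ⟨w, Or.inr rfl, Or.inl rfl, common w v w' h1.symm h2 hw x (arc_comm _ _ hx) hx'⟩
    by_cases c4 : w = w'
    · subst c4
      exact ⟨w, Or.inr rfl, Or.inr rfl, common w v v' h1.symm h2.symm c1 x (arc_comm _ _ hx)
        (arc_comm _ _ hx')⟩
    exfalso
    obtain ⟨k1, l, m, k2, k3, k4⟩ := hx
    obtain ⟨_, l', m', k2', k3', k4'⟩ := hx'
    have h4 : l • p v + m • p w = l' • p v' + m' • p w' := by rw [← k4, ← k4']
    rw [hcomb, hcomb] at h4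
    obtain ⟨q1, q2, q3, q4⟩ := li4 (hind4 v w v' w' h1 h2 c1 c2 c3 c4) (J4_inj h4)
    have hl : l = 0 := by
      rcases mul_eq_zero.1 q1 with h | h
      · exact h
      · exact absurd h (inv_ne_zero (hr0 v).ne')
    have hm : m = 0 := by
      rcases mul_eq_zero.1 q2 with h | h
      · exact h
      · exact absurd h (inv_ne_zero (hr0 w).ne')
    rw [k4, hl, hm, zero_smul, zero_smul, add_zero] at k1
    simp [ip] at k1

end Pool.Agent.T2H75.GN
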