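import Pool.Agent.T2H75.GN.Stm3
import Pool.Agent.T2H75.GN.CERT

/-! Package CERTZ of project GN: certificates with entries in the ring of integers of the real
quadratic field, decidable hypotheses. -/

set_option autoImplicit false

namespace Pool.Agent.T2H75.GN

open Complex ZMod

namespace CERTZ

/-- the real embedding -/
noncomputable def φ : ℤ√10 →+* ℝ := Zsqrtd.toReal (by norm_num : (0 : ℤ) ≤ 10)

theorem φ_apply (x : ℤ√10) : φ x = x.re + x.im * √10 := by
  unfold φ Zsqrtd.toReal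
  rw [Zsqrtd.lift_apply_apply]
  simp

theorem φ_inj : Function.Injective φ := by
  apply Zsqrtd.toReal_injective
  intro n hn
  have h1 : n * n ≤ 16 := by omega
  have h2 : n ≤ 4 := by nlinarith
  have h3 : -4 ≤ n := by nlinarith
  interval_cases n <;> omega

theorem φ_ne {x : ℤ√10} (h : x ≠ 0) : φ x ≠ 0 := by
  intro h0
  exact h (φ_inj (by rw [h0, map_zero]))

theorem sq1 : 3162 / 1000 < √(10 : ℝ) := by
  rw [Real.lt_sqrt (by norm_num)]
  norm_num

theorem sq2 : √(10 : ℝ) < 3163 / 1000 := by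
  rw [Real.sqrt_lt' (by norm_num)]
  norm_num

theorem posT_pos {x : ℤ√10} (h : posT x = true) : 0 < φ x := by
  unfold posT at h
  rw [φ_apply]
  simp only [Bool.or_eq_true, Bool.and_eq_true, decide_eq_true_eq] at h
  have s1 := sq1
  have s2 := sq2
  rcases h with ⟨h1, h2⟩ | ⟨h1, h2⟩
  · have h1' : (0 : ℝ) ≤ x.im := by exact_mod_cast h1
    have h2' : (0 : ℝ) < 1000 * x.re + 3162 * x.im := by exact_mod_cast h2
    nlinarith [mul_nonneg h1' (by linarith : (0 : ℝ) ≤ √10 - 3162 / 1000)]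
  · have h1' : (x.im : ℝ) < 0 := by exact_mod_cast h1
    have h2' : (0 : ℝ) < 1000 * x.re + 3163 * x.im := by exact_mod_cast h2
    nlinarith [mul_pos (neg_pos.2 h1') (by linarith : (0 : ℝ) < 3163 / 1000 - √10)]

/-- real minors -/
def m2 (P Q : Fin 4 → ℝ) (i j : Fin 4) : ℝ := P i * Q j - P j * Q i

/-- real minors -/
def m3 (P Q R : Fin 4 → ℝ) (i j k : Fin 4) : ℝ := P i * m2 Q R j k - P j * m2 Q R i k + P k * m2 Q R i j

/-- real determinant -/
def r4 (P Q R S : Fin 4 → ℝ) : ℝ :=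
  P 0 * m3 Q R S 1 2 3 - P 1 * m3 Q R S 0 2 3 + P 2 * m3 Q R S 0 1 3 - P 3 * m3 Q R S 0 1 2

/-- the real vector -/
noncomputable def rv (P : Fin 4 → ℤ√10) (i : Fin 4) : ℝ := φ (P i)

theorem m2_rv (P Q : Fin 4 → ℤ√10) (i j : Fin 4) : m2 (rv P) (rv Q) i j = φ (min2 P Q i j) := by
  simp only [m2, min2, rv, map_sub, map_mul]

theorem m3_rv (P Q R : Fin 4 → ℤ√10) (i j k : Fin 4) :
    m3 (rv P) (rv Q) (rv R) i j k = φ (min3 P Q R i j k) := by
  simp only [m3, min3, m2_rv, map_sub, map_mul, map_add]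
  rfl

theorem r4_rv (P Q R S : Fin 4 → ℤ√10) : r4 (rv P) (rv Q) (rv R) (rv S) = φ (det4 P Q R S) := by
  simp only [r4, det4, m3_rv, map_sub, map_mul, map_add]
  rfl

theorem imq_rv (P Q : Fin 4 → ℤ√10) (i : Fin 3) : imq (rv P) (rv Q) i = φ (imq P Q i) := by
  fin_cases i <;> simp [imq, rv]

theorem li3 {P Q R : Fin 4 → ℝ} (i j k : Fin 4) (h : m3 P Q R i j k ≠ 0) :
    LinearIndependent ℝ ![P, Q, R] := by
  rw [Fintype.linearIndependent_iff]
  intro g hg
  rw [Fin.sum_univ_three] at hg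
  have e : ∀ l, g 0 * P l + g 1 * Q l + g 2 * R l = 0 := by
    intro l
    have := congrFun hg l
    simpa using this
  have h0 : g 0 * m3 P Q R i j k = 0 := by
    unfold m3 m2
    linear_combination (Q j * R k - Q k * R j) * e i - (Q i * R k - Q k * R i) * e j +
      (Q i * R j - Q j * R i) * e k
  have h1 : g 1 * m3 P Q R i j k = 0 := by
    unfold m3 m2
    linear_combination -(P j * R k - P k * R j) * e i + (P i * R k - P k * R i) * e j -
      (P i * R j - P j * R i) * e k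
  have h2 : g 2 * m3 P Q R i j k = 0 := by
    unfold m3 m2
    linear_combination (P j * Q k - P k * Q j) * e i - (P i * Q k - P k * Q i) * e j +
      (P i * Q j - P j * Q i) * e k
  intro l
  fin_cases l
  · exact (mul_eq_zero.1 h0).resolve_right h
  · exact (mul_eq_zero.1 h1).resolve_right h
  · exact (mul_eq_zero.1 h2).resolve_right h

theorem li4 {P Q R S : Fin 4 → ℝ} (h : r4 P Q R S ≠ 0) : LinearIndependent ℝ ![P, Q, R, S] := by
  rw [Fintype.linearIndependent_iff]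
  intro g hg
  rw [Fin.sum_univ_four] at hg
  have e : ∀ l, g 0 * P l + g 1 * Q l + g 2 * R l + g 3 * S l = 0 := by
    intro l
    have := congrFun hg l
    simpa using this
  have h0 : g 0 * r4 P Q R S = 0 := by
    have : g 0 * r4 P Q R S = (g 0 * P 0 + g 1 * Q 0 + g 2 * R 0 + g 3 * S 0) * m3 Q R S 1 2 3 -
        (g 0 * P 1 + g 1 * Q 1 + g 2 * R 1 + g 3 * S 1) * m3 Q R S 0 2 3 +
        (g 0 * P 2 + g 1 * Q 2 + g 2 * R 2 + g 3 * S 2) * m3 Q R S 0 1 3 -
        (g 0 * P 3 + g 1 * Q 3 + g 2 * R 3 + g 3 * S 3) * m3 Q R S 0 1 2 := by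
      unfold r4 m3 m2
      ring
    rw [this, e, e, e, e]
    ring
  have h1 : g 1 * r4 P Q R S = 0 := by
    have : g 1 * r4 P Q R S = -((g 0 * P 0 + g 1 * Q 0 + g 2 * R 0 + g 3 * S 0) * m3 P R S 1 2 3 -
        (g 0 * P 1 + g 1 * Q 1 + g 2 * R 1 + g 3 * S 1) * m3 P R S 0 2 3 +
        (g 0 * P 2 + g 1 * Q 2 + g 2 * R 2 + g 3 * S 2) * m3 P R S 0 1 3 -
        (g 0 * P 3 + g 1 * Q 3 + g 2 * R 3 + g 3 * S 3) * m3 P R S 0 1 2) := by
      unfold r4 m3 m2
      ring
    rw [this, e, e, e, e]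
    ring
  have h2 : g 2 * r4 P Q R S = 0 := by
    have : g 2 * r4 P Q R S = (g 0 * P 0 + g 1 * Q 0 + g 2 * R 0 + g 3 * S 0) * m3 P Q S 1 2 3 -
        (g 0 * P 1 + g 1 * Q 1 + g 2 * R 1 + g 3 * S 1) * m3 P Q S 0 2 3 +
        (g 0 * P 2 + g 1 * Q 2 + g 2 * R 2 + g 3 * S 2) * m3 P Q S 0 1 3 -
        (g 0 * P 3 + g 1 * Q 3 + g 2 * R 3 + g 3 * S 3) * m3 P Q S 0 1 2 := by
      unfold r4 m3 m2
      ring
    rw [this, e, e, e, e]
    ring
  have h3 : g 3 * r4 P Q R S = 0 := by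
    have : g 3 * r4 P Q R S = -((g 0 * P 0 + g 1 * Q 0 + g 2 * R 0 + g 3 * S 0) * m3 P Q R 1 2 3 -
        (g 0 * P 1 + g 1 * Q 1 + g 2 * R 1 + g 3 * S 1) * m3 P Q R 0 2 3 +
        (g 0 * P 2 + g 1 * Q 2 + g 2 * R 2 + g 3 * S 2) * m3 P Q R 0 1 3 -
        (g 0 * P 3 + g 1 * Q 3 + g 2 * R 3 + g 3 * S 3) * m3 P Q R 0 1 2) := by
      unfold r4 m3 m2
      ring
    rw [this, e, e, e, e]
    ring
  intro l
  fin_cases l
  · exact (mul_eq_zero.1 h0).resolve_right h
  · exact (mul_eq_zero.1 h1).resolve_right h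
  · exact (mul_eq_zero.1 h2).resolve_right h
  · exact (mul_eq_zero.1 h3).resolve_right h

end CERTZ

open CERTZ in
theorem certz : CertzStm := by
  intro V _ _ G adj P F A B M hadj hM hedge hsum hne hdet hmin hex
  refine cert V G (fun v => rv (P v)) (fun v w i => φ (F v w i)) (fun v w => φ (B v w) / φ (A v w))
    (φ M) (posT_pos hM) ?_ ?_ ?_ ?_ ?_ ?_
  · intro v w hvw
    obtain ⟨h1, h2, h3, h4⟩ := hedge v w ((hadj v w).1 hvw)
    have a1 := posT_pos h1
    have a2 := posT_pos h2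
    refine ⟨div_pos a2 a1, ?_, ?_⟩
    · funext i
      have h5 := congrArg φ (h3 i)
      rw [map_mul, map_mul] at h5
      show imq (rv (P v)) (rv (P w)) i = φ (B v w) / φ (A v w) * φ (F v w i)
      rw [imq_rv, div_mul_eq_mul_div, eq_div_iff a1.ne', ← h5, mul_comm]
    · have h5 := congrArg φ h4
      rw [map_add, map_add, map_mul, map_mul, map_mul] at h5
      rw [← h5]
      ring
  · intro v
    funext i
    rw [Finset.sum_filter, Finset.sum_apply, Pi.zero_apply]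
    have h5 := congrArg φ (hsum v i)
    rw [map_sum, map_zero] at h5
    rw [← h5]
    apply Finset.sum_congr rfl
    intro w _
    by_cases h : adj v w = true
    · rw [if_pos ((hadj v w).2 h), if_pos h]
    · rw [if_neg (fun h' => h ((hadj v w).1 h')), if_neg h, map_zero, Pi.zero_apply]
  · intro v w hvw t _ he
    obtain ⟨i, j, hij⟩ := hne v w hvw
    apply φ_ne hij
    rw [← m2_rv]
    have e : ∀ l, rv (P v) l = t * rv (P w) l := fun l => congrFun he l
    unfold m2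
    rw [e i, e j]
    ring
  · intro v w v' w' h1 h2 h3 h4 h5 h6
    apply li4
    rw [r4_rv]
    exact φ_ne (hdet v w v' w' ((hadj v w).1 h1) ((hadj v' w').1 h2) h3 h4 h5 h6)
  · intro v w w' h1 h2 h3
    obtain ⟨i, j, k, hijk⟩ := hmin v w w' ((hadj v w).1 h1) ((hadj v w').1 h2) h3
    apply li3 i j k
    rw [m3_rv]
    exact φ_ne hijk
  · intro v
    obtain ⟨w, hw⟩ := hex v
    exact ⟨w, (hadj v w).2 hw⟩

end Pool.Agent.T2H75.GN
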