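import Pool.Agent.T2H75.GN.CERTZ

/-! Project GN: certificate for the graph `moebius 6`. -/

namespace Pool.Agent.T2H75.GN.M12

open Pool.Agent.T2H75.GN

abbrev Z10 := ℤ√10

def adj (v w : ZMod (2 * 6)) : Bool :=
  decide (v ≠ w ∧ ((w = v + 1 ∨ w = v + (6 : ZMod (2 * 6))) ∨ (v = w + 1 ∨ v = w + (6 : ZMod (2 * 6)))))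

/-- The positions (up to positive factors). -/
def tabP : List (List Z10) :=
  [[⟨9, 0⟩, ⟨17, 0⟩, ⟨5, 0⟩, ⟨1, 0⟩],
   [⟨1, 0⟩, ⟨4, 0⟩, ⟨2, 0⟩, ⟨1, 0⟩],
   [⟨-1, 0⟩, ⟨-2, 0⟩, ⟨0, 0⟩, ⟨-1, 0⟩],
   [⟨11, 0⟩, ⟨15, 0⟩, ⟨-1, 0⟩, ⟨7, 0⟩],
   [⟨2, 0⟩, ⟨3, 0⟩, ⟨0, 0⟩, ⟨3, 0⟩],
   [⟨-4, 0⟩, ⟨-1, 0⟩, ⟨0, 0⟩, ⟨-1, 0⟩],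
   [⟨7, 0⟩, ⟨3, 0⟩, ⟨5, 0⟩, ⟨-7, 0⟩],
   [⟨-3, 0⟩, ⟨-4, 0⟩, ⟨-4, 0⟩, ⟨5, 0⟩],
   [⟨-3, 0⟩, ⟨-2, 0⟩, ⟨-2, 0⟩, ⟨1, 0⟩],
   [⟨-1, 0⟩, ⟨11, 0⟩, ⟨1, 0⟩, ⟨-3, 0⟩],
   [⟨1, 0⟩, ⟨-8, 0⟩, ⟨1, 0⟩, ⟨0, 0⟩],
   [⟨-1, 0⟩, ⟨-2, 0⟩, ⟨-1, 0⟩, ⟨0, 0⟩]]

/-- For every directed edge: `A`, `B` and the flow vector. -/
def tabF : List (List (ℕ × Z10 × Z10 × List Z10)) :=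
  [[(1, ⟨3, 0⟩, ⟨2, 0⟩, [⟨24, 0⟩, ⟨39, 0⟩, ⟨-9, 0⟩]), (6, ⟨1, 0⟩, ⟨4, 0⟩, [⟨-13, 0⟩, ⟨-28, 0⟩, ⟨-35, 0⟩]), (11, ⟨11, 0⟩, ⟨2, 0⟩, [⟨-11, 0⟩, ⟨-11, 0⟩, ⟨44, 0⟩])],
   [(0, ⟨3, 0⟩, ⟨2, 0⟩, [⟨-24, 0⟩, ⟨-39, 0⟩, ⟨9, 0⟩]), (2, ⟨33, 0⟩, ⟨4, 0⟩, [⟨33, 0⟩, ⟨0, 0⟩, ⟨-33, 0⟩]), (7, ⟨3, 0⟩, ⟨2, 0⟩, [⟨-9, 0⟩, ⟨39, 0⟩, ⟨24, 0⟩])],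
   [(1, ⟨33, 0⟩, ⟨4, 0⟩, [⟨-33, 0⟩, ⟨0, 0⟩, ⟨33, 0⟩]), (3, ⟨11, 0⟩, ⟨2, 0⟩, [⟨44, 0⟩, ⟨11, 0⟩, ⟨11, 0⟩]), (8, ⟨11, 0⟩, ⟨2, 0⟩, [⟨-11, 0⟩, ⟨-11, 0⟩, ⟨-44, 0⟩])],
   [(2, ⟨11, 0⟩, ⟨2, 0⟩, [⟨-44, 0⟩, ⟨-11, 0⟩, ⟨-11, 0⟩]), (4, ⟨3, 0⟩, ⟨2, 0⟩, [⟨9, 0⟩, ⟨39, 0⟩, ⟨24, 0⟩]), (9, ⟨1, 0⟩, ⟨4, 0⟩, [⟨35, 0⟩, ⟨-28, 0⟩, ⟨-13, 0⟩])],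
   [(3, ⟨3, 0⟩, ⟨2, 0⟩, [⟨-9, 0⟩, ⟨-39, 0⟩, ⟨-24, 0⟩]), (5, ⟨33, 0⟩, ⟨10, 0⟩, [⟨33, 0⟩, ⟨0, 0⟩, ⟨33, 0⟩]), (10, ⟨3, 0⟩, ⟨2, 0⟩, [⟨-24, 0⟩, ⟨39, 0⟩, ⟨-9, 0⟩])],
   [(4, ⟨33, 0⟩, ⟨10, 0⟩, [⟨-33, 0⟩, ⟨0, 0⟩, ⟨-33, 0⟩]), (6, ⟨11, 0⟩, ⟨10, 0⟩, [⟨-11, 0⟩, ⟨-11, 0⟩, ⟨44, 0⟩]), (11, ⟨11, 0⟩, ⟨2, 0⟩, [⟨44, 0⟩, ⟨11, 0⟩, ⟨-11, 0⟩])],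
   [(0, ⟨1, 0⟩, ⟨4, 0⟩, [⟨13, 0⟩, ⟨28, 0⟩, ⟨35, 0⟩]), (5, ⟨11, 0⟩, ⟨10, 0⟩, [⟨11, 0⟩, ⟨11, 0⟩, ⟨-44, 0⟩]), (7, ⟨3, 0⟩, ⟨2, 0⟩, [⟨-24, 0⟩, ⟨-39, 0⟩, ⟨9, 0⟩])],
   [(1, ⟨3, 0⟩, ⟨2, 0⟩, [⟨9, 0⟩, ⟨-39, 0⟩, ⟨-24, 0⟩]), (6, ⟨3, 0⟩, ⟨2, 0⟩, [⟨24, 0⟩, ⟨39, 0⟩, ⟨-9, 0⟩]), (8, ⟨11, 0⟩, ⟨4, 0⟩, [⟨-33, 0⟩, ⟨0, 0⟩, ⟨33, 0⟩])],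
   [(2, ⟨11, 0⟩, ⟨2, 0⟩, [⟨11, 0⟩, ⟨11, 0⟩, ⟨44, 0⟩]), (7, ⟨11, 0⟩, ⟨4, 0⟩, [⟨33, 0⟩, ⟨0, 0⟩, ⟨-33, 0⟩]), (9, ⟨11, 0⟩, ⟨10, 0⟩, [⟨-44, 0⟩, ⟨-11, 0⟩, ⟨-11, 0⟩])],
   [(3, ⟨1, 0⟩, ⟨4, 0⟩, [⟨-35, 0⟩, ⟨28, 0⟩, ⟨13, 0⟩]), (8, ⟨11, 0⟩, ⟨10, 0⟩, [⟨44, 0⟩, ⟨11, 0⟩, ⟨11, 0⟩]), (10, ⟨3, 0⟩, ⟨2, 0⟩, [⟨-9, 0⟩, ⟨-39, 0⟩, ⟨-24, 0⟩])],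
   [(4, ⟨3, 0⟩, ⟨2, 0⟩, [⟨24, 0⟩, ⟨-39, 0⟩, ⟨9, 0⟩]), (9, ⟨3, 0⟩, ⟨2, 0⟩, [⟨9, 0⟩, ⟨39, 0⟩, ⟨24, 0⟩]), (11, ⟨33, 0⟩, ⟨10, 0⟩, [⟨-33, 0⟩, ⟨0, 0⟩, ⟨-33, 0⟩])],
   [(0, ⟨11, 0⟩, ⟨2, 0⟩, [⟨11, 0⟩, ⟨11, 0⟩, ⟨-44, 0⟩]), (5, ⟨11, 0⟩, ⟨2, 0⟩, [⟨-44, 0⟩, ⟨-11, 0⟩, ⟨11, 0⟩]), (10, ⟨33, 0⟩, ⟨10, 0⟩, [⟨33, 0⟩, ⟨0, 0⟩, ⟨33, 0⟩])]]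

def P (v : ZMod (2 * 6)) (i : Fin 4) : Z10 := (tabP.getD v.val []).getD i.val 0

def ent (v w : ZMod (2 * 6)) : ℕ × Z10 × Z10 × List Z10 :=
  ((tabF.getD v.val []).find? (fun t => t.1 == w.val)).getD (0, 1, 1, [])

def A (v w : ZMod (2 * 6)) : Z10 := (ent v w).2.1

def B (v w : ZMod (2 * 6)) : Z10 := (ent v w).2.2.1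

def F (v w : ZMod (2 * 6)) (i : Fin 3) : Z10 := (ent v w).2.2.2.getD i.val 0

theorem hadj (v w : ZMod (2 * 6)) : (moebius 6).Adj v w ↔ adj v w = true := by
  simp [moebius, SimpleGraph.fromRel_adj, adj]

theorem h1 : ∀ v w : ZMod (2 * 6), adj v w = true → posT (A v w) = true ∧ posT (B v w) = true ∧
    (∀ i, A v w * imq (P v) (P w) i = B v w * F v w i) ∧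
    F v w 0 * F v w 0 + F v w 1 * F v w 1 + F v w 2 * F v w 2 = ⟨2178, 0⟩ := by
  decide +kernel

theorem h2 : ∀ (v : ZMod (2 * 6)) (i : Fin 3), (∑ w, if adj v w then F v w i else 0) = 0 := by
  decide +kernel

theorem h3 : ∀ v w : ZMod (2 * 6), v ≠ w → ∃ i j, min2 (P v) (P w) i j ≠ 0 := by
  decide +kernel

theorem h4 : ∀ v w v' w' : ZMod (2 * 6), adj v w = true → adj v' w' = true → v ≠ v' → v ≠ w' →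
    w ≠ v' → w ≠ w' → det4 (P v) (P w) (P v') (P w') ≠ 0 := by
  decide +kernel

theorem h5 : ∀ v w w' : ZMod (2 * 6), adj v w = true → adj v w' = true → w ≠ w' →
    ∃ i j k, min3 (P v) (P w) (P w') i j k ≠ 0 := by
  decide +kernel

theorem h6 : ∀ v : ZMod (2 * 6), ∃ w, adj v w = true := by
  decide +kernel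

theorem net : ∃ p, IsNet (moebius 6) p :=
  certz (ZMod (2 * 6)) (moebius 6) adj P F A B ⟨2178, 0⟩ hadj (by decide +kernel) h1 h2 h3 h4 h5 h6

end Pool.Agent.T2H75.GN.M12
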