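import Pool.Agent.T2H75.GN.CERTZ

/-! Project GN: certificate for the graph `moebius 4`. -/

namespace Pool.Agent.T2H75.GN.M8

open Pool.Agent.T2H75.GN

abbrev Z10 := ℤ√10

def adj (v w : ZMod (2 * 4)) : Bool :=
  decide (v ≠ w ∧ ((w = v + 1 ∨ w = v + (4 : ZMod (2 * 4))) ∨ (v = w + 1 ∨ v = w + (4 : ZMod (2 * 4)))))

/-- The positions (up to positive factors). -/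
def tabP : List (List Z10) :=
  [[⟨-1, 1⟩, ⟨5, 1⟩, ⟨3, 0⟩, ⟨3, 0⟩],
   [⟨-1, 0⟩, ⟨1, 0⟩, ⟨1, 0⟩, ⟨1, 0⟩],
   [⟨-3, 0⟩, ⟨1, 0⟩, ⟨1, 0⟩, ⟨-1, 0⟩],
   [⟨5, -7⟩, ⟨17, 1⟩, ⟨3, 2⟩, ⟨-31, 0⟩],
   [⟨1, 1⟩, ⟨-3, -1⟩, ⟨-1, 0⟩, ⟨1, 0⟩],
   [⟨1, 0⟩, ⟨-3, 0⟩, ⟨-1, 0⟩, ⟨1, 0⟩],
   [⟨1, 0⟩, ⟨-5, 0⟩, ⟨-3, 0⟩, ⟨1, 0⟩],
   [⟨5, -1⟩, ⟨7, 1⟩, ⟨-7, 2⟩, ⟨-3, 0⟩]]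

/-- For every directed edge: `A`, `B` and the flow vector. -/
def tabF : List (List (ℕ × Z10 × Z10 × List Z10)) :=
  [[(1, ⟨6, 0⟩, ⟨2, 1⟩, [⟨12, 0⟩, ⟨12, 0⟩, ⟨0, 0⟩]), (4, ⟨3, 0⟩, ⟨4, 2⟩, [⟨-6, -3⟩, ⟨-6, 3⟩, ⟨-6, 0⟩]), (7, ⟨1, 0⟩, ⟨4, 0⟩, [⟨-6, 3⟩, ⟨-6, -3⟩, ⟨6, 0⟩])],
   [(0, ⟨6, 0⟩, ⟨2, 1⟩, [⟨-12, 0⟩, ⟨-12, 0⟩, ⟨0, 0⟩]), (2, ⟨3, 0⟩, ⟨1, 0⟩, [⟨12, 0⟩, ⟨0, 0⟩, ⟨12, 0⟩]), (5, ⟨3, 0⟩, ⟨1, 0⟩, [⟨0, 0⟩, ⟨12, 0⟩, ⟨-12, 0⟩])],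
   [(1, ⟨3, 0⟩, ⟨1, 0⟩, [⟨-12, 0⟩, ⟨0, 0⟩, ⟨-12, 0⟩]), (3, ⟨2, 0⟩, ⟨14, -1⟩, [⟨-4, 0⟩, ⟨-4, 0⟩, ⟨16, 0⟩]), (6, ⟨1, 0⟩, ⟨1, 0⟩, [⟨16, 0⟩, ⟨4, 0⟩, ⟨-4, 0⟩])],
   [(2, ⟨2, 0⟩, ⟨14, -1⟩, [⟨4, 0⟩, ⟨4, 0⟩, ⟨-16, 0⟩]), (4, ⟨3, 0⟩, ⟨12, 8⟩, [⟨-6, 3⟩, ⟨-6, -3⟩, ⟨6, 0⟩]), (7, ⟨1, 0⟩, ⟨28, -2⟩, [⟨2, -3⟩, ⟨2, 3⟩, ⟨10, 0⟩])],
   [(0, ⟨3, 0⟩, ⟨4, 2⟩, [⟨6, 3⟩, ⟨6, -3⟩, ⟨6, 0⟩]), (3, ⟨3, 0⟩, ⟨12, 8⟩, [⟨6, -3⟩, ⟨6, 3⟩, ⟨-6, 0⟩]), (5, ⟨6, 0⟩, ⟨0, 1⟩, [⟨-12, 0⟩, ⟨-12, 0⟩, ⟨0, 0⟩])],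
   [(1, ⟨3, 0⟩, ⟨1, 0⟩, [⟨0, 0⟩, ⟨-12, 0⟩, ⟨12, 0⟩]), (4, ⟨6, 0⟩, ⟨0, 1⟩, [⟨12, 0⟩, ⟨12, 0⟩, ⟨0, 0⟩]), (6, ⟨3, 0⟩, ⟨1, 0⟩, [⟨-12, 0⟩, ⟨0, 0⟩, ⟨-12, 0⟩])],
   [(2, ⟨1, 0⟩, ⟨1, 0⟩, [⟨-16, 0⟩, ⟨-4, 0⟩, ⟨4, 0⟩]), (5, ⟨3, 0⟩, ⟨1, 0⟩, [⟨12, 0⟩, ⟨0, 0⟩, ⟨12, 0⟩]), (7, ⟨2, 0⟩, ⟨8, -1⟩, [⟨4, 0⟩, ⟨4, 0⟩, ⟨-16, 0⟩])],
   [(0, ⟨1, 0⟩, ⟨4, 0⟩, [⟨6, -3⟩, ⟨6, 3⟩, ⟨-6, 0⟩]), (3, ⟨1, 0⟩, ⟨28, -2⟩, [⟨-2, 3⟩, ⟨-2, -3⟩, ⟨-10, 0⟩]), (6, ⟨2, 0⟩, ⟨8, -1⟩, [⟨-4, 0⟩, ⟨-4, 0⟩, ⟨16, 0⟩])]]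

def P (v : ZMod (2 * 4)) (i : Fin 4) : Z10 := (tabP.getD v.val []).getD i.val 0

def ent (v w : ZMod (2 * 4)) : ℕ × Z10 × Z10 × List Z10 :=
  ((tabF.getD v.val []).find? (fun t => t.1 == w.val)).getD (0, 1, 1, [])

def A (v w : ZMod (2 * 4)) : Z10 := (ent v w).2.1

def B (v w : ZMod (2 * 4)) : Z10 := (ent v w).2.2.1

def F (v w : ZMod (2 * 4)) (i : Fin 3) : Z10 := (ent v w).2.2.2.getD i.val 0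

theorem hadj (v w : ZMod (2 * 4)) : (moebius 4).Adj v w ↔ adj v w = true := by
  simp [moebius, SimpleGraph.fromRel_adj, adj]

theorem h1 : ∀ v w : ZMod (2 * 4), adj v w = true → posT (A v w) = true ∧ posT (B v w) = true ∧
    (∀ i, A v w * imq (P v) (P w) i = B v w * F v w i) ∧
    F v w 0 * F v w 0 + F v w 1 * F v w 1 + F v w 2 * F v w 2 = ⟨288, 0⟩ := by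
  decide +kernel

theorem h2 : ∀ (v : ZMod (2 * 4)) (i : Fin 3), (∑ w, if adj v w then F v w i else 0) = 0 := by
  decide +kernel

theorem h3 : ∀ v w : ZMod (2 * 4), v ≠ w → ∃ i j, min2 (P v) (P w) i j ≠ 0 := by
  decide +kernel

theorem h4 : ∀ v w v' w' : ZMod (2 * 4), adj v w = true → adj v' w' = true → v ≠ v' → v ≠ w' →
    w ≠ v' → w ≠ w' → det4 (P v) (P w) (P v') (P w') ≠ 0 := by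
  decide +kernel

theorem h5 : ∀ v w w' : ZMod (2 * 4), adj v w = true → adj v w' = true → w ≠ w' →
    ∃ i j k, min3 (P v) (P w) (P w') i j k ≠ 0 := by
  decide +kernel

theorem h6 : ∀ v : ZMod (2 * 4), ∃ w, adj v w = true := by
  decide +kernel

theorem net : ∃ p, IsNet (moebius 4) p :=
  certz (ZMod (2 * 4)) (moebius 4) adj P F A B ⟨288, 0⟩ hadj (by decide +kernel) h1 h2 h3 h4 h5 h6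

end Pool.Agent.T2H75.GN.M8
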