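import Pool.Agent.T2H75.GN.CERTZ

/-! Project GN: certificate for the graph `prism 6`. -/

namespace Pool.Agent.T2H75.GN.P6

open Pool.Agent.T2H75.GN

abbrev Z10 := ℤ√10

def adj (v w : ZMod 6 × Bool) : Bool :=
  decide (v ≠ w ∧ (((w.1 = v.1 + 1 ∧ w.2 = v.2) ∨ (w.1 = v.1 ∧ w.2 = !v.2)) ∨ ((v.1 = w.1 + 1 ∧ v.2 = w.2) ∨ (v.1 = w.1 ∧ v.2 = !w.2))))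

/-- The positions (up to positive factors). -/
def tabP : List (List Z10) :=
  [[⟨-1, 0⟩, ⟨3, 0⟩, ⟨2, 0⟩, ⟨2, 0⟩],
   [⟨3, 0⟩, ⟨5, 0⟩, ⟨1, 0⟩, ⟨1, 0⟩],
   [⟨1, 0⟩, ⟨2, 0⟩, ⟨0, 0⟩, ⟨-1, 0⟩],
   [⟨-1, 0⟩, ⟨-3, 0⟩, ⟨-1, 0⟩, ⟨1, 0⟩],
   [⟨-1, 0⟩, ⟨-4, 0⟩, ⟨1, 0⟩, ⟨0, 0⟩],
   [⟨-1, 0⟩, ⟨1, 0⟩, ⟨1, 0⟩, ⟨0, 0⟩],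
   [⟨0, 0⟩, ⟨-2, 0⟩, ⟨-1, 0⟩, ⟨1, 0⟩],
   [⟨1, 0⟩, ⟨-3, 0⟩, ⟨-1, 0⟩, ⟨1, 0⟩],
   [⟨-1, 0⟩, ⟨2, 0⟩, ⟨2, 0⟩, ⟨-3, 0⟩],
   [⟨-3, 0⟩, ⟨-1, 0⟩, ⟨-1, 0⟩, ⟨5, 0⟩],
   [⟨2, 0⟩, ⟨1, 0⟩, ⟨0, 0⟩, ⟨-1, 0⟩],
   [⟨-1, 0⟩, ⟨2, 0⟩, ⟨0, 0⟩, ⟨-2, 0⟩]]

/-- For every directed edge: `A`, `B` and the flow vector. -/
def tabF : List (List (ℕ × Z10 × Z10 × List Z10)) :=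
  [[(1, ⟨3, 0⟩, ⟨14, 0⟩, [⟨-3, 0⟩, ⟨-3, 0⟩, ⟨0, 0⟩]), (5, ⟨1, 0⟩, ⟨1, 0⟩, [⟨4, 0⟩, ⟨-1, 0⟩, ⟨1, 0⟩]), (6, ⟨1, 0⟩, ⟨2, 0⟩, [⟨-1, 0⟩, ⟨4, 0⟩, ⟨-1, 0⟩])],
   [(0, ⟨3, 0⟩, ⟨14, 0⟩, [⟨3, 0⟩, ⟨3, 0⟩, ⟨0, 0⟩]), (2, ⟨1, 0⟩, ⟨2, 0⟩, [⟨1, 0⟩, ⟨-4, 0⟩, ⟨-1, 0⟩]), (7, ⟨1, 0⟩, ⟨4, 0⟩, [⟨-4, 0⟩, ⟨1, 0⟩, ⟨1, 0⟩])],
   [(1, ⟨1, 0⟩, ⟨2, 0⟩, [⟨-1, 0⟩, ⟨4, 0⟩, ⟨1, 0⟩]), (3, ⟨3, 0⟩, ⟨2, 0⟩, [⟨0, 0⟩, ⟨-3, 0⟩, ⟨3, 0⟩]), (8, ⟨1, 0⟩, ⟨2, 0⟩, [⟨1, 0⟩, ⟨-1, 0⟩, ⟨-4, 0⟩])],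
   [(2, ⟨3, 0⟩, ⟨2, 0⟩, [⟨0, 0⟩, ⟨3, 0⟩, ⟨-3, 0⟩]), (4, ⟨1, 0⟩, ⟨2, 0⟩, [⟨1, 0⟩, ⟨1, 0⟩, ⟨4, 0⟩]), (9, ⟨1, 0⟩, ⟨4, 0⟩, [⟨-1, 0⟩, ⟨-4, 0⟩, ⟨-1, 0⟩])],
   [(3, ⟨1, 0⟩, ⟨2, 0⟩, [⟨-1, 0⟩, ⟨-1, 0⟩, ⟨-4, 0⟩]), (5, ⟨3, 0⟩, ⟨5, 0⟩, [⟨-3, 0⟩, ⟨0, 0⟩, ⟨3, 0⟩]), (10, ⟨1, 0⟩, ⟨2, 0⟩, [⟨4, 0⟩, ⟨1, 0⟩, ⟨1, 0⟩])],
   [(0, ⟨1, 0⟩, ⟨1, 0⟩, [⟨-4, 0⟩, ⟨1, 0⟩, ⟨-1, 0⟩]), (4, ⟨3, 0⟩, ⟨5, 0⟩, [⟨3, 0⟩, ⟨0, 0⟩, ⟨-3, 0⟩]), (11, ⟨1, 0⟩, ⟨1, 0⟩, [⟨1, 0⟩, ⟨-1, 0⟩, ⟨4, 0⟩])],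
   [(0, ⟨1, 0⟩, ⟨2, 0⟩, [⟨1, 0⟩, ⟨-4, 0⟩, ⟨1, 0⟩]), (7, ⟨3, 0⟩, ⟨2, 0⟩, [⟨3, 0⟩, ⟨3, 0⟩, ⟨0, 0⟩]), (11, ⟨1, 0⟩, ⟨1, 0⟩, [⟨-4, 0⟩, ⟨1, 0⟩, ⟨-1, 0⟩])],
   [(1, ⟨1, 0⟩, ⟨4, 0⟩, [⟨4, 0⟩, ⟨-1, 0⟩, ⟨-1, 0⟩]), (6, ⟨3, 0⟩, ⟨2, 0⟩, [⟨-3, 0⟩, ⟨-3, 0⟩, ⟨0, 0⟩]), (8, ⟨1, 0⟩, ⟨2, 0⟩, [⟨-1, 0⟩, ⟨4, 0⟩, ⟨1, 0⟩])],
   [(2, ⟨1, 0⟩, ⟨2, 0⟩, [⟨-1, 0⟩, ⟨1, 0⟩, ⟨4, 0⟩]), (7, ⟨1, 0⟩, ⟨2, 0⟩, [⟨1, 0⟩, ⟨-4, 0⟩, ⟨-1, 0⟩]), (9, ⟨3, 0⟩, ⟨14, 0⟩, [⟨0, 0⟩, ⟨3, 0⟩, ⟨-3, 0⟩])],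
   [(3, ⟨1, 0⟩, ⟨4, 0⟩, [⟨1, 0⟩, ⟨4, 0⟩, ⟨1, 0⟩]), (8, ⟨3, 0⟩, ⟨14, 0⟩, [⟨0, 0⟩, ⟨-3, 0⟩, ⟨3, 0⟩]), (10, ⟨1, 0⟩, ⟨2, 0⟩, [⟨-1, 0⟩, ⟨-1, 0⟩, ⟨-4, 0⟩])],
   [(4, ⟨1, 0⟩, ⟨2, 0⟩, [⟨-4, 0⟩, ⟨-1, 0⟩, ⟨-1, 0⟩]), (9, ⟨1, 0⟩, ⟨2, 0⟩, [⟨1, 0⟩, ⟨1, 0⟩, ⟨4, 0⟩]), (11, ⟨3, 0⟩, ⟨5, 0⟩, [⟨3, 0⟩, ⟨0, 0⟩, ⟨-3, 0⟩])],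
   [(5, ⟨1, 0⟩, ⟨1, 0⟩, [⟨-1, 0⟩, ⟨1, 0⟩, ⟨-4, 0⟩]), (6, ⟨1, 0⟩, ⟨1, 0⟩, [⟨4, 0⟩, ⟨-1, 0⟩, ⟨1, 0⟩]), (10, ⟨3, 0⟩, ⟨5, 0⟩, [⟨-3, 0⟩, ⟨0, 0⟩, ⟨3, 0⟩])]]

def P (v : ZMod 6 × Bool) (i : Fin 4) : Z10 := (tabP.getD (v.1.val + if v.2 then 6 else 0) []).getD i.val 0

def ent (v w : ZMod 6 × Bool) : ℕ × Z10 × Z10 × List Z10 :=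
  ((tabF.getD (v.1.val + if v.2 then 6 else 0) []).find? (fun t => t.1 == (w.1.val + if w.2 then 6 else 0))).getD (0, 1, 1, [])

def A (v w : ZMod 6 × Bool) : Z10 := (ent v w).2.1

def B (v w : ZMod 6 × Bool) : Z10 := (ent v w).2.2.1

def F (v w : ZMod 6 × Bool) (i : Fin 3) : Z10 := (ent v w).2.2.2.getD i.val 0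

theorem hadj (v w : ZMod 6 × Bool) : (prism 6).Adj v w ↔ adj v w = true := by
  simp [prism, SimpleGraph.fromRel_adj, adj]

theorem h1 : ∀ v w : ZMod 6 × Bool, adj v w = true → posT (A v w) = true ∧ posT (B v w) = true ∧
    (∀ i, A v w * imq (P v) (P w) i = B v w * F v w i) ∧
    F v w 0 * F v w 0 + F v w 1 * F v w 1 + F v w 2 * F v w 2 = ⟨18, 0⟩ := by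
  decide +kernel

theorem h2 : ∀ (v : ZMod 6 × Bool) (i : Fin 3), (∑ w, if adj v w then F v w i else 0) = 0 := by
  decide +kernel

theorem h3 : ∀ v w : ZMod 6 × Bool, v ≠ w → ∃ i j, min2 (P v) (P w) i j ≠ 0 := by
  decide +kernel

theorem h4 : ∀ v w v' w' : ZMod 6 × Bool, adj v w = true → adj v' w' = true → v ≠ v' → v ≠ w' →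
    w ≠ v' → w ≠ w' → det4 (P v) (P w) (P v') (P w') ≠ 0 := by
  decide +kernel

theorem h5 : ∀ v w w' : ZMod 6 × Bool, adj v w = true → adj v w' = true → w ≠ w' →
    ∃ i j k, min3 (P v) (P w) (P w') i j k ≠ 0 := by
  decide +kernel

theorem h6 : ∀ v : ZMod 6 × Bool, ∃ w, adj v w = true := by
  decide +kernel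

theorem net : ∃ p, IsNet (prism 6) p :=
  certz (ZMod 6 × Bool) (prism 6) adj P F A B ⟨18, 0⟩ hadj (by decide +kernel) h1 h2 h3 h4 h5 h6

end Pool.Agent.T2H75.GN.P6
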