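import Pool.Agent.T2H75.GN.Stm2

set_option autoImplicit false

namespace Pool.Agent.T2H75.GN

open Complex ZMod

namespace FLOW2

/-- the dot product -/
def dt (x y : Fin 3 → ℝ) : ℝ := x 0 * y 0 + x 1 * y 1 + x 2 * y 2

/-- the embedding of `ℝ³` in `ℂ × ℂ` -/
def J : (Fin 3 → ℝ) →ₗ[ℝ] ℂ × ℂ where
  toFun x := (⟨0, x 0⟩, ⟨x 1, x 2⟩)
  map_add' x y := by
    refine Prod.ext (Complex.ext ?_ ?_) (Complex.ext ?_ ?_) <;> simp
  map_smul' c x := by
    refine Prod.ext (Complex.ext ?_ ?_) (Complex.ext ?_ ?_) <;> simp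

theorem J_apply (x : Fin 3 → ℝ) : J x = ((⟨0, x 0⟩ : ℂ), (⟨x 1, x 2⟩ : ℂ)) := rfl

theorem ip_J (x y : Fin 3 → ℝ) : ip (J x) (J y) = dt x y := by
  unfold ip dt
  rw [J_apply, J_apply]
  simp only
  ring

/-- the cross product with a fixed second factor -/
def cr (y : Fin 3 → ℝ) : (Fin 3 → ℝ) →ₗ[ℝ] (Fin 3 → ℝ) where
  toFun x := ![x 1 * y 2 - x 2 * y 1, x 2 * y 0 - x 0 * y 2, x 0 * y 1 - x 1 * y 0]
  map_add' x x' := by
    ext i
    fin_cases i <;> simp <;> ring
  map_smul' c x := by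
    ext i
    fin_cases i <;> simp <;> ring

theorem cr_apply (y x : Fin 3 → ℝ) :
    cr y x = ![x 1 * y 2 - x 2 * y 1, x 2 * y 0 - x 0 * y 2, x 0 * y 1 - x 1 * y 0] := rfl

theorem cr0 (y x : Fin 3 → ℝ) : cr y x 0 = x 1 * y 2 - x 2 * y 1 := rfl
theorem cr1 (y x : Fin 3 → ℝ) : cr y x 1 = x 2 * y 0 - x 0 * y 2 := rfl
theorem cr2 (y x : Fin 3 → ℝ) : cr y x 2 = x 0 * y 1 - x 1 * y 0 := rfl

theorem ker_ne {E : Type} [Fintype E] (f : E → Fin 3 → ℝ) (W : Finset E) (hW : W.card ≤ 2) :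
    ∃ n : Fin 3 → ℝ, dt n n = 1 ∧ ∀ e ∈ W, dt n (f e) = 0 := by
  let T : (Fin 3 → ℝ) →ₗ[ℝ] (W → ℝ) :=
    { toFun := fun n e => dt n (f e.1)
      map_add' := fun x y => by
        funext e
        simp only [dt, Pi.add_apply]
        ring
      map_smul' := fun c x => by
        funext e
        simp only [dt, Pi.smul_apply, smul_eq_mul, RingHom.id_apply]
        ring }
  have hlt : Module.finrank ℝ (W → ℝ) < Module.finrank ℝ (Fin 3 → ℝ) := by
    rw [Module.finrank_pi, Module.finrank_pi, Fintype.card_coe, Fintype.card_fin]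
    omega
  have hk : LinearMap.ker T ≠ ⊥ := LinearMap.ker_ne_bot_of_finrank_lt hlt
  obtain ⟨x, hx, hx0⟩ := Submodule.exists_mem_ne_zero_of_ne_bot hk
  have hpos : 0 < dt x x := by
    by_contra hc
    apply hx0
    have h0 : x 0 * x 0 + x 1 * x 1 + x 2 * x 2 ≤ 0 := by
      unfold dt at hc
      linarith
    have a0 : x 0 = 0 := by nlinarith [mul_self_nonneg (x 0), mul_self_nonneg (x 1), mul_self_nonneg (x 2)]
    have a1 : x 1 = 0 := by nlinarith [mul_self_nonneg (x 0), mul_self_nonneg (x 1), mul_self_nonneg (x 2)]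
    have a2 : x 2 = 0 := by nlinarith [mul_self_nonneg (x 0), mul_self_nonneg (x 1), mul_self_nonneg (x 2)]
    funext i
    fin_cases i
    · exact a0
    · exact a1
    · exact a2
  have hs : (√(dt x x)) ^ 2 = dt x x := Real.sq_sqrt hpos.le
  have hs0 : √(dt x x) ≠ 0 := (Real.sqrt_pos.2 hpos).ne'
  refine ⟨(√(dt x x))⁻¹ • x, ?_, ?_⟩
  · have e : dt ((√(dt x x))⁻¹ • x) ((√(dt x x))⁻¹ • x) = ((√(dt x x)) ^ 2)⁻¹ * dt x x := by
      simp only [dt, Pi.smul_apply, smul_eq_mul]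
      ring
    rw [e, hs, inv_mul_cancel₀ hpos.ne']
  · intro e he
    have h1 : T x = 0 := hx
    have h2 : dt x (f e) = 0 := congrFun h1 ⟨e, he⟩
    have e : dt ((√(dt x x))⁻¹ • x) (f e) = (√(dt x x))⁻¹ * dt x (f e) := by
      simp only [dt, Pi.smul_apply, smul_eq_mul]
      ring
    rw [e, h2, mul_zero]

theorem dt_sum {E : Type} (n : Fin 3 → ℝ) (f : E → Fin 3 → ℝ) (A : Finset E) :
    dt n (∑ e ∈ A, f e) = ∑ e ∈ A, dt n (f e) := by
  unfold dt
  rw [Finset.sum_apply, Finset.sum_apply, Finset.sum_apply, Finset.mul_sum, Finset.mul_sum,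
    Finset.mul_sum, ← Finset.sum_add_distrib, ← Finset.sum_add_distrib]

open Classical in
theorem normal {E : Type} [Fintype E] (f : E → Fin 3 → ℝ) (A B : Finset E)
    (hc : A.card + B.card = 3) (hf : ∑ e ∈ A, f e = ∑ e ∈ B, f e) :
    ∃ n : Fin 3 → ℝ, dt n n = 1 ∧ ∀ e, (e ∈ A ∨ e ∈ B) → dt n (f e) = 0 := by
  have hU : (A ∪ B).card ≤ 3 := (Finset.card_union_le A B).trans hc.le
  rcases Nat.lt_or_ge (A ∪ B).card 3 with h3 | h3
  · obtain ⟨n, h1, h2⟩ := ker_ne f (A ∪ B) (by omega)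
    exact ⟨n, h1, fun e he => h2 e (Finset.mem_union.2 he)⟩
  · have h33 : (A ∪ B).card = A.card + B.card := by omega
    have hd : Disjoint A B := Finset.card_union_eq_card_add_card.1 h33
    obtain ⟨e₀, he₀⟩ : (A ∪ B).Nonempty := Finset.card_pos.1 (by omega)
    obtain ⟨n, h1, h2⟩ := ker_ne f ((A ∪ B).erase e₀) (by
      rw [Finset.card_erase_of_mem he₀]
      omega)
    have hs : ∑ e ∈ A, dt n (f e) = ∑ e ∈ B, dt n (f e) := by
      rw [← dt_sum, ← dt_sum, hf]
    have hz : ∀ e, e ≠ e₀ → (e ∈ A ∨ e ∈ B) → dt n (f e) = 0 := fun e hne he =>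
      h2 e (Finset.mem_erase.2 ⟨hne, Finset.mem_union.2 he⟩)
    have h0 : dt n (f e₀) = 0 := by
      rcases Finset.mem_union.1 he₀ with h | h
      · have hB : ∑ e ∈ B, dt n (f e) = 0 := Finset.sum_eq_zero fun e he =>
          hz e (fun h' => Finset.disjoint_left.1 hd h (h' ▸ he)) (Or.inr he)
        rw [hB, ← Finset.add_sum_erase A _ h] at hs
        have hA : ∑ e ∈ A.erase e₀, dt n (f e) = 0 := Finset.sum_eq_zero fun e he =>
          hz e (Finset.ne_of_mem_erase he) (Or.inl (Finset.mem_of_mem_erase he))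
        rw [hA, add_zero] at hs
        exact hs
      · have hA : ∑ e ∈ A, dt n (f e) = 0 := Finset.sum_eq_zero fun e he =>
          hz e (fun h' => Finset.disjoint_left.1 hd (h' ▸ he) h) (Or.inl he)
        rw [hA, ← Finset.add_sum_erase B _ h] at hs
        have hB : ∑ e ∈ B.erase e₀, dt n (f e) = 0 := Finset.sum_eq_zero fun e he =>
          hz e (Finset.ne_of_mem_erase he) (Or.inr (Finset.mem_of_mem_erase he))
        rw [hB, add_zero] at hs
        exact hs.symm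
    refine ⟨n, h1, fun e he => ?_⟩
    by_cases h : e = e₀
    · rw [h, h0]
    · exact hz e h he

theorem angle {a b : ℝ} (h : a ^ 2 + b ^ 2 = 1) :
    ∃ θ : ℝ, 0 < θ ∧ Real.cos θ = a ∧ Real.sin θ = b := by
  have hn : ‖(⟨a, b⟩ : ℂ)‖ = 1 := by
    rw [Complex.norm_def, Complex.normSq_mk]
    have : a * a + b * b = 1 := by nlinarith
    rw [this, Real.sqrt_one]
  have hz : (⟨a, b⟩ : ℂ) ≠ 0 := by
    intro h0
    rw [h0, norm_zero] at hn
    exact zero_ne_one hn
  have hc := Complex.cos_arg hz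
  have hs := Complex.sin_arg (⟨a, b⟩ : ℂ)
  rw [hn, div_one] at hc hs
  refine ⟨Complex.arg ⟨a, b⟩ + 2 * Real.pi, ?_, ?_, ?_⟩
  · have := Complex.neg_pi_lt_arg (⟨a, b⟩ : ℂ)
    have := Real.pi_pos
    linarith
  · rw [Real.cos_add_two_pi, hc]
  · rw [Real.sin_add_two_pi, hs]

theorem fin3 (i : Fin 3) : i = 0 ∨ i = 1 ∨ i = 2 := by
  fin_cases i <;> simp

theorem zero_of_dt {d : Fin 3 → ℝ} (h : dt d d = 0) : d = 0 := by
  unfold dt at h
  have a0 : d 0 = 0 := by nlinarith [mul_self_nonneg (d 0), mul_self_nonneg (d 1), mul_self_nonneg (d 2)]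
  have a1 : d 1 = 0 := by nlinarith [mul_self_nonneg (d 0), mul_self_nonneg (d 1), mul_self_nonneg (d 2)]
  have a2 : d 2 = 0 := by nlinarith [mul_self_nonneg (d 0), mul_self_nonneg (d 1), mul_self_nonneg (d 2)]
  funext i
  rcases fin3 i with rfl | rfl | rfl
  · exact a0
  · exact a1
  · exact a2

theorem cr_unit {n f : Fin 3 → ℝ} (h1 : dt n n = 1) (h3 : dt n f = 0) (h5 : dt f f = 1) :
    dt (cr n f) (cr n f) = 1 := by
  have key : dt (cr n f) (cr n f) = dt f f * dt n n - dt n f * dt n f := by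
    unfold dt
    rw [cr0, cr1, cr2]
    ring
  rw [key, h1, h3, h5]
  ring

theorem cr_perp (n f : Fin 3 → ℝ) : dt n (cr n f) = 0 := by
  unfold dt
  rw [cr0, cr1, cr2]
  ring

theorem gram {t n f : Fin 3 → ℝ} (h1 : dt n n = 1) (h2 : dt t t = 1) (h3 : dt n f = 0)
    (h4 : dt t f = 0) (h5 : dt f f = 1) : dt t n ^ 2 + dt t (cr n f) ^ 2 = 1 := by
  have key : dt t (cr n f) ^ 2 = dt t t * (dt f f * dt n n - dt n f * dt n f) -
      dt t f * (dt t f * dt n n - dt n f * dt t n) + dt t n * (dt t f * dt n f - dt f f * dt t n) := by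
    unfold dt
    rw [cr0, cr1, cr2]
    ring
  rw [key, h1, h2, h3, h4, h5]
  ring

theorem decomp {t n f : Fin 3 → ℝ} (h1 : dt n n = 1) (h2 : dt t t = 1) (h3 : dt n f = 0)
    (h4 : dt t f = 0) (h5 : dt f f = 1) : t = dt t n • n + dt t (cr n f) • cr n f := by
  have h6 := cr_unit h1 h3 h5
  have h7 := cr_perp n f
  have h8 := gram h1 h2 h3 h4 h5
  obtain ⟨g, hg⟩ : ∃ g : Fin 3 → ℝ, g = cr n f := ⟨_, rfl⟩
  rw [← hg] at h6 h7 h8 ⊢
  obtain ⟨a, ha⟩ : ∃ a : ℝ, a = dt t n := ⟨_, rfl⟩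
  obtain ⟨b, hb⟩ : ∃ b : ℝ, b = dt t g := ⟨_, rfl⟩
  rw [← ha, ← hb] at h8 ⊢
  have h9 : dt (t - (a • n + b • g)) (t - (a • n + b • g)) = dt t t - 2 * a * dt t n -
      2 * b * dt t g + a ^ 2 * dt n n + b ^ 2 * dt g g + 2 * a * b * dt n g := by
    simp only [dt, Pi.sub_apply, Pi.add_apply, Pi.smul_apply, smul_eq_mul]
    ring
  rw [h1, h2, h6, h7, ← ha, ← hb] at h9
  have h10 : dt (t - (a • n + b • g)) (t - (a • n + b • g)) = 0 := by
    rw [h9]
    linear_combination (-1) * h8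
  exact sub_eq_zero.1 (zero_of_dt h10)

theorem back {t n f : Fin 3 → ℝ} {C S : ℝ} (h3 : dt n f = 0) (h5 : dt f f = 1)
    (h : t = C • n + S • cr n f) : S • n - C • cr n f = -cr t f := by
  have T0 : t 0 = C * n 0 + S * (f 1 * n 2 - f 2 * n 1) := congrFun h 0
  have T1 : t 1 = C * n 1 + S * (f 2 * n 0 - f 0 * n 2) := congrFun h 1
  have T2 : t 2 = C * n 2 + S * (f 0 * n 1 - f 1 * n 0) := congrFun h 2
  unfold dt at h3 h5
  funext i
  rcases fin3 i with rfl | rfl | rfl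
  · show S * n 0 - C * (f 1 * n 2 - f 2 * n 1) = -(f 1 * t 2 - f 2 * t 1)
    rw [T1, T2]
    linear_combination (S * f 0) * h3 - (S * n 0) * h5
  · show S * n 1 - C * (f 2 * n 0 - f 0 * n 2) = -(f 2 * t 0 - f 0 * t 2)
    rw [T0, T2]
    linear_combination (S * f 1) * h3 - (S * n 1) * h5
  · show S * n 2 - C * (f 0 * n 1 - f 1 * n 0) = -(f 0 * t 1 - f 1 * t 0)
    rw [T0, T1]
    linear_combination (S * f 2) * h3 - (S * n 2) * h5

end FLOW2

open FLOW2 in
theorem flow2 : Flow2Stm := by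
  classical
  intro V E _ _ src tgt f hdeg hunit hcons
  have hn : ∀ v, ∃ n : Fin 3 → ℝ, dt n n = 1 ∧ ∀ e, (src e = v ∨ tgt e = v) → dt n (f e) = 0 := by
    intro v
    obtain ⟨n, h1, h2⟩ := normal f (Finset.univ.filter (fun e => src e = v))
      (Finset.univ.filter (fun e => tgt e = v)) (by convert hdeg v) (by convert hcons v)
    refine ⟨n, h1, fun e he => h2 e ?_⟩
    rcases he with he | he
    · exact Or.inl (by simp [he])
    · exact Or.inr (by simp [he])
  choose n hn1 hn2 using hn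
  have hfu : ∀ e, dt (f e) (f e) = 1 := by
    intro e
    have := hunit e
    unfold dt
    nlinarith
  have hs : ∀ e, dt (n (src e)) (f e) = 0 := fun e => hn2 _ e (Or.inl rfl)
  have ht : ∀ e, dt (n (tgt e)) (f e) = 0 := fun e => hn2 _ e (Or.inr rfl)
  have hang : ∀ e, ∃ θ : ℝ, 0 < θ ∧ Real.cos θ = dt (n (tgt e)) (n (src e)) ∧
      Real.sin θ = dt (n (tgt e)) (cr (n (src e)) (f e)) := fun e =>
    angle (gram (hn1 (src e)) (hn1 (tgt e)) (hs e) (ht e) (hfu e))
  choose len hlen hcos hsin using hang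
  have hend : ∀ e, n (tgt e) = Real.cos (len e) • n (src e) + Real.sin (len e) •
      cr (n (src e)) (f e) := by
    intro e
    rw [hcos, hsin]
    exact decomp (hn1 (src e)) (hn1 (tgt e)) (hs e) (ht e) (hfu e)
  refine ⟨{ src := src, tgt := tgt, pos := fun v => J (n v), dir := fun e => J (cr (n (src e)) (f e)),
            len := len, pos_unit := ?_, dir_unit := ?_, dir_perp := ?_, len_pos := hlen,
            end_pt := ?_, balanced := ?_ }, rfl, rfl⟩
  · intro v
    rw [ip_J, hn1]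
  · intro e
    rw [ip_J]
    exact cr_unit (hn1 (src e)) (hs e) (hfu e)
  · intro e
    rw [ip_J]
    exact cr_perp _ _
  · intro e
    show J (n (tgt e)) = _
    rw [hend e, map_add, LinearMap.map_smul, LinearMap.map_smul]
  · intro v
    have e1 : ∑ e ∈ Finset.univ.filter (fun e => src e = v), J (cr (n (src e)) (f e)) =
        J (cr (n v) (∑ e ∈ Finset.univ.filter (fun e => src e = v), f e)) := by
      rw [map_sum, map_sum]
      refine Finset.sum_congr rfl fun e he => ?_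
      rw [(Finset.mem_filter.1 he).2]
    have e2 : ∑ e ∈ Finset.univ.filter (fun e => tgt e = v),
        (Real.sin (len e) • J (n (src e)) - Real.cos (len e) • J (cr (n (src e)) (f e))) =
        -J (cr (n v) (∑ e ∈ Finset.univ.filter (fun e => tgt e = v), f e)) := by
      rw [map_sum, map_sum, ← Finset.sum_neg_distrib]
      refine Finset.sum_congr rfl fun e he => ?_
      have hv : tgt e = v := (Finset.mem_filter.1 he).2
      rw [← hv, ← LinearMap.map_smul, ← LinearMap.map_smul, ← map_sub, ← map_neg,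
        back (hs e) (hfu e) (hend e)]
    have h6 : (∑ e ∈ Finset.univ.filter (fun e => src e = v), f e) =
      ∑ e ∈ Finset.univ.filter (fun e => tgt e = v), f e := by convert hcons v
    have h7 : (∑ e ∈ Finset.univ.filter (fun e => src e = v), J (cr (n (src e)) (f e))) +
      (∑ e ∈ Finset.univ.filter (fun e => tgt e = v),
        (Real.sin (len e) • J (n (src e)) - Real.cos (len e) • J (cr (n (src e)) (f e)))) = 0 := by
      rw [e1, e2, h6, add_neg_cancel]
    convert h7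

end Pool.Agent.T2H75.GN
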