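import Pool.Agent.T2H75.GN.Stm

set_option autoImplicit false

namespace Pool.Agent.T2H75.GN

open Complex ZMod

open Classical in
theorem GEN.hset {V : Type} [Fintype V] (G : SimpleGraph V) (a b c : V → V)
    (hadj : ∀ v w, G.Adj v w ↔ w = a v ∨ w = b v ∨ w = c v) (v : V) :
    Finset.univ.filter (fun w => G.Adj v w) = ({a v, b v, c v} : Finset V) := by
  ext w
  rw [Finset.mem_filter]
  simp [hadj]

open Classical in
theorem gen : GenStm := by
  intro V _ G a b c hne hadj
  constructor
  · intro v
    rw [GEN.hset G a b c hadj v]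
    obtain ⟨h1, h2, h3⟩ := hne v
    exact Finset.card_eq_three.2 ⟨a v, b v, c v, h1, h2, h3, rfl⟩
  · intro p hp v
    rw [GEN.hset G a b c hadj v]
    obtain ⟨h1, h2, h3⟩ := hne v
    rw [← hp v, Finset.sum_insert (by simp [h1, h2]), Finset.sum_insert (by simp [h3]),
      Finset.sum_singleton, add_assoc]

end Pool.Agent.T2H75.GN
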