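import Pool.Agent.T2H75.GN.Stm

namespace Pool.Agent.T2H75.GN

open Complex ZMod

namespace MADJ

lemma cast_ne (N a : ℕ) (h0 : 0 < a) (h1 : a < N) : (a : ZMod N) ≠ 0 := by
  intro h
  rw [ZMod.natCast_eq_zero_iff] at h
  exact absurd (Nat.le_of_dvd h0 h) (by omega)

end MADJ

open MADJ in
theorem madj : MadjStm := by
  constructor
  · intro m _ hm
    have : NeZero (2 * m) := ⟨by omega⟩
    have f1 : (1 : ZMod (2 * m)) ≠ 0 := by
      simpa using cast_ne (2 * m) 1 (by omega) (by omega)
    have f2 : (m : ZMod (2 * m)) ≠ 0 := cast_ne (2 * m) m (by omega) (by omega)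
    have f3 : (m : ZMod (2 * m)) + m = 0 := by
      have h : ((2 * m : ℕ) : ZMod (2 * m)) = 0 := ZMod.natCast_self _
      push_cast at h
      linear_combination h
    have f4 : (2 : ZMod (2 * m)) ≠ 0 := by
      simpa using cast_ne (2 * m) 2 (by omega) (by omega)
    have f5 : (m : ZMod (2 * m)) - 1 ≠ 0 := by
      have h := cast_ne (2 * m) (m - 1) (by omega) (by omega)
      rwa [Nat.cast_sub (by omega), Nat.cast_one] at h
    have f6 : (m : ZMod (2 * m)) + 1 ≠ 0 := by
      have h := cast_ne (2 * m) (m + 1) (by omega) (by omega)
      rwa [Nat.cast_add, Nat.cast_one] at h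
    have hadj : ∀ i j, (moebius m).Adj i j ↔
        j = i + 1 ∨ j = i - 1 ∨ j = i + (m : ZMod (2 * m)) := by
      intro i j
      unfold moebius
      rw [SimpleGraph.fromRel_adj]
      constructor
      · rintro ⟨-, (h | h) | (h | h)⟩
        · exact Or.inl h
        · exact Or.inr (Or.inr h)
        · right; left; rw [h]; ring
        · right; right; rw [h]; linear_combination -f3
      · rintro (h | h | h)
        · refine ⟨?_, Or.inl (Or.inl h)⟩
          rintro rfl
          exact f1 (by linear_combination -h)
        · refine ⟨?_, Or.inr (Or.inl ?_)⟩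
          · rintro rfl
            exact f1 (by linear_combination h)
          · rw [h]; ring
        · refine ⟨?_, Or.inl (Or.inr h)⟩
          rintro rfl
          exact f2 (by linear_combination -h)
    refine ⟨?_, hadj, ?_⟩
    · have hr : ∀ k : ℕ, (moebius m).Reachable 0 (k : ZMod (2 * m)) := by
        intro k
        induction k with
        | zero => simp
        | succ k ih =>
          refine ih.trans (SimpleGraph.Adj.reachable ?_)
          rw [hadj]
          left
          push_cast
          ring
      have hr' : ∀ i : ZMod (2 * m), (moebius m).Reachable 0 i := by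
        intro i
        have := hr i.val
        rwa [ZMod.natCast_zmod_val] at this
      refine ⟨fun i j => (hr' i).symm.trans (hr' j)⟩
    · intro i
      refine ⟨?_, ?_, ?_⟩
      · intro h; exact f4 (by linear_combination h)
      · intro h; exact f5 (by linear_combination -h)
      · intro h; exact f6 (by linear_combination -h)
  · intro n _ hn
    have f1 : (1 : ZMod n) ≠ 0 := by
      simpa using cast_ne n 1 (by omega) (by omega)
    have f4 : (2 : ZMod n) ≠ 0 := by
      simpa using cast_ne n 2 (by omega) (by omega)
    have hadj : ∀ v w, (prism n).Adj v w ↔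
        w = (v.1 + 1, v.2) ∨ w = (v.1 - 1, v.2) ∨ w = (v.1, !v.2) := by
      rintro ⟨a, b⟩ ⟨a', b'⟩
      unfold prism
      rw [SimpleGraph.fromRel_adj]
      simp only [Prod.mk.injEq, ne_eq, not_and]
      constructor
      · rintro ⟨-, (⟨h1, h2⟩ | ⟨h1, h2⟩) | (⟨h1, h2⟩ | ⟨h1, h2⟩)⟩
        · exact Or.inl ⟨h1, h2⟩
        · exact Or.inr (Or.inr ⟨h1, h2⟩)
        · right; left; exact ⟨by rw [h1]; ring, h2.symm⟩
        · right; right; exact ⟨h1.symm, by rw [h2]; simp⟩
      · rintro (⟨h1, h2⟩ | ⟨h1, h2⟩ | ⟨h1, h2⟩)
        · refine ⟨?_, Or.inl (Or.inl ⟨h1, h2⟩)⟩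
          intro h
          exact absurd (by linear_combination -h1 - h) f1
        · refine ⟨?_, Or.inr (Or.inl ⟨by rw [h1]; ring, h2.symm⟩)⟩
          intro h
          exact absurd (by linear_combination h1 + h) f1
        · refine ⟨?_, Or.inl (Or.inr ⟨h1, h2⟩)⟩
          intro _ h
          rw [h] at h2
          cases b' <;> simp at h2
    refine ⟨?_, hadj, ?_⟩
    · have hr : ∀ k : ℕ, (prism n).Reachable (0, false) ((k : ZMod n), false) := by
        intro k
        induction k with
        | zero => simp
        | succ k ih =>
          refine ih.trans (SimpleGraph.Adj.reachable ?_)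
          rw [hadj]
          left
          push_cast
          rfl
      have hr' : ∀ v : ZMod n × Bool, (prism n).Reachable (0, false) v := by
        rintro ⟨i, b⟩
        have h1 := hr i.val
        rw [ZMod.natCast_zmod_val] at h1
        cases b
        · exact h1
        · refine h1.trans (SimpleGraph.Adj.reachable ?_)
          rw [hadj]
          right; right
          rfl
      refine ⟨fun i j => (hr' i).symm.trans (hr' j)⟩
    · rintro ⟨i, b⟩
      refine ⟨?_, ?_, ?_⟩
      · intro h
        rw [Prod.mk.injEq] at h
        exact f4 (by linear_combination h.1)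
      · intro h
        rw [Prod.mk.injEq] at h
        have := h.2
        cases b <;> simp at this
      · intro h
        rw [Prod.mk.injEq] at h
        have := h.2
        cases b <;> simp at this

end Pool.Agent.T2H75.GN
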