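import Pool.Agent.T2H75.GN.Stm

set_option autoImplicit false

/-!
# Packages MAR and PAR: winding numbers of Moebius ladders and prisms
-/

namespace Pool.Agent.T2H75.GN

open Complex ZMod

namespace MAR

/-- cosines of small angles -/
lemma cos_half {x : ℝ} (h0 : 0 ≤ x) (h1 : x ≤ Real.pi / 3) : 1 / 2 ≤ Real.cos x := by
  rw [← Real.cos_pi_div_three]
  exact Real.cos_le_cos_of_nonneg_of_le_pi h0 (by linarith [Real.pi_pos]) h1

lemma sqrt5 : 2.2 < √5 := by
  rw [Real.lt_sqrt (by norm_num)]
  norm_num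

lemma cos_two_fifth : Real.cos (2 * (Real.pi / 5)) = (√5 - 1) / 4 := by
  rw [Real.cos_two_mul, Real.cos_pi_div_five]
  have := Real.sq_sqrt (show (0 : ℝ) ≤ 5 by norm_num)
  nlinarith

lemma cos_tenth : (5 + √5) / 8 ≤ Real.cos (Real.pi / 10) := by
  have h1 : Real.cos (Real.pi / 5) = 2 * Real.cos (Real.pi / 10) ^ 2 - 1 := by
    rw [← Real.cos_two_mul]; congr 1; ring
  rw [Real.cos_pi_div_five] at h1
  have h2 : 0 ≤ Real.cos (Real.pi / 10) :=
    Real.cos_nonneg_of_neg_pi_div_two_le_of_le (by linarith [Real.pi_pos]) (by linarith [Real.pi_pos])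
  have h3 := Real.cos_le_one (Real.pi / 10)
  nlinarith

lemma cos_lt_one {x : ℝ} (h0 : 0 < x) (h1 : x ≤ Real.pi) : Real.cos x < 1 := by
  have := Real.cos_lt_cos_of_nonneg_of_le_pi le_rfl h1 h0
  rwa [Real.cos_zero] at this

lemma core (m : ℕ) [NeZero m] (i b : ℕ) (hi : 0 < i) (him : i < m) (h : 2 * b + i = m)
    (hco : Nat.Coprime b m) (hcos : 1 ≤ Real.cos (Real.pi / m) + Real.cos (i * (Real.pi / m))) :
    ∃ a : ZMod (2 * m), a * (m : ZMod (2 * m)) = 0 ∧ (∀ j, a * j = 0 → j = 0 ∨ j = (m : ZMod (2 * m))) ∧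
      ∃ α : ℝ, stdAddChar a = exp (α * I) ∧ -1 < Real.cos α ∧ Real.cos α ≤ Real.cos (Real.pi / m) - 1 := by
  have hm0 : 0 < m := by omega
  have hmR : (0 : ℝ) < m := by exact_mod_cast hm0
  have hmC : (m : ℂ) ≠ 0 := by exact_mod_cast hm0.ne'
  refine ⟨((2 * b : ℕ) : ZMod (2 * m)), ?_, fun j hj => ?_, Real.pi - i * (Real.pi / m), ?_, ?_, ?_⟩
  · rw [← Nat.cast_mul, ZMod.natCast_eq_zero_iff]
    exact ⟨b, by ring⟩
  · have hj' : ((2 * b * j.val : ℕ) : ZMod (2 * m)) = 0 := by
      rw [Nat.cast_mul, ZMod.natCast_zmod_val]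
      exact hj
    rw [ZMod.natCast_eq_zero_iff, mul_assoc] at hj'
    have h1 : m ∣ b * j.val := (Nat.mul_dvd_mul_iff_left (by norm_num)).1 hj'
    have h2 : m ∣ j.val := (Nat.Coprime.dvd_of_dvd_mul_left hco.symm h1)
    have h3 := ZMod.val_lt j
    obtain ⟨t, ht⟩ := h2
    have ht2 : t < 2 := by
      by_contra hcon
      push Not at hcon
      have : m * 2 ≤ m * t := Nat.mul_le_mul_left m hcon
      omega
    interval_cases t
    · left
      rw [← ZMod.natCast_zmod_val j, ht]
      simp
    · right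
      rw [← ZMod.natCast_zmod_val j, ht]
      simp
  · have h1 : stdAddChar (((2 * b : ℕ) : ZMod (2 * m))) = stdAddChar ((((2 * b : ℕ) : ℤ)) : ZMod (2 * m)) := by
      push_cast; rfl
    rw [h1, ZMod.stdAddChar_coe]
    congr 1
    have hb : (2 * (b : ℂ)) = (m : ℂ) - i := by
      have : (2 * (b : ℂ)) + i = m := by exact_mod_cast h
      linear_combination this
    push_cast
    rw [hb]
    field_simp
  · rw [Real.cos_pi_sub]
    have h1 : Real.cos (i * (Real.pi / m)) < 1 := by
      apply cos_lt_one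
      · have := Real.pi_pos
        have : (0 : ℝ) < i := by exact_mod_cast hi
        positivity
      · have h2 : (i : ℝ) ≤ m := by exact_mod_cast him.le
        rw [mul_div_assoc', div_le_iff₀ hmR, mul_comm]
        exact mul_le_mul_of_nonneg_left h2 Real.pi_pos.le
    linarith
  · rw [Real.cos_pi_sub]
    linarith

/-- the small angles -/
lemma ang {m i : ℕ} (hm : 0 < m) (h : 3 * i ≤ m) : (i : ℝ) * (Real.pi / m) ≤ Real.pi / 3 := by
  have hmR : (0 : ℝ) < m := by exact_mod_cast hm
  have h' : (3 : ℝ) * i ≤ m := by exact_mod_cast h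
  rw [mul_div_assoc', div_le_div_iff₀ hmR (by norm_num)]
  nlinarith [Real.pi_pos]

lemma cos_sum {m i : ℕ} (hm : 0 < m) (hi : 1 ≤ i) (h : 3 * i ≤ m) :
    1 ≤ Real.cos (Real.pi / m) + Real.cos (i * (Real.pi / m)) := by
  have hmR : (0 : ℝ) < m := by exact_mod_cast hm
  have hpi := Real.pi_pos
  have h1 := cos_half (x := i * (Real.pi / m)) (by positivity) (ang hm h)
  have h2 := cos_half (x := (1 : ℕ) * (Real.pi / m)) (by positivity) (ang hm (by omega))
  rw [Nat.cast_one, one_mul] at h2
  linarith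

end MAR

open MAR in
theorem mar : MarStm := by
  intro m hm0 h3 h4 h6
  have hmpos : 0 < m := by omega
  rcases Nat.even_or_odd m with hev | hodd
  · rcases (show m % 4 = 0 ∨ m % 4 = 2 by obtain ⟨t, ht⟩ := hev; omega) with h | h
    · -- `4 ∣ m`
      obtain ⟨t, ht⟩ := Nat.dvd_of_mod_eq_zero h
      refine core m 2 (2 * t - 1) (by norm_num) (by omega) (by omega) ?_ ?_
      · have h1 : Nat.Coprime (2 * t - 1) (2 * t) := by
          have := (Nat.coprime_self_sub_left (m := 1) (n := 2 * t) (by omega)).2 (by simp)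
          exact this
        have h2 : Nat.Coprime (2 * t - 1) 2 := by
          rw [Nat.coprime_two_right]
          exact ⟨t - 1, by omega⟩
        have := Nat.Coprime.mul_right h1 h2
        rw [ht, show 4 * t = 2 * t * 2 by ring]
        exact this
      · exact cos_sum hmpos (by norm_num) (by omega)
    · -- `m ≡ 2 mod 4`, `m ≥ 10`
      obtain ⟨t, ht⟩ : ∃ t, m = 4 * t + 2 := ⟨m / 4, by omega⟩
      refine core m 4 (2 * t - 1) (by norm_num) (by omega) (by omega) ?_ ?_
      · have h1 : Nat.Coprime (2 * t - 1) (2 * t + 1) := by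
          have h2 : Nat.Coprime (2 * t - 1) ((2 * t - 1) + 2) := by
            rw [Nat.coprime_self_add_right, Nat.coprime_two_right]
            exact ⟨t - 1, by omega⟩
          have e : (2 * t - 1) + 2 = 2 * t + 1 := by omega
          rwa [e] at h2
        have h2 : Nat.Coprime (2 * t - 1) 2 := by
          rw [Nat.coprime_two_right]
          exact ⟨t - 1, by omega⟩
        have := Nat.Coprime.mul_right h2 h1
        rw [ht, show 4 * t + 2 = 2 * (2 * t + 1) by ring]
        exact this
      · rcases Nat.lt_or_ge m 12 with hlt | hge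
        · have hm10 : m = 10 := by omega
          subst hm10
          have e1 : ((4 : ℕ) : ℝ) * (Real.pi / (10 : ℕ)) = 2 * (Real.pi / 5) := by push_cast; ring
          rw [e1, cos_two_fifth]
          have h5 := cos_tenth
          have h6 := sqrt5
          push_cast
          linarith
        · exact cos_sum hmpos (by norm_num) (by omega)
  · obtain ⟨t, ht⟩ := hodd
    refine core m 1 t (by norm_num) (by omega) (by omega) ?_ ?_
    · rw [ht]
      simp
    · exact cos_sum hmpos le_rfl (by omega)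

end Pool.Agent.T2H75.GN
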