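import Pool.Agent.T2H75.GN.Stm

/-! Package MBAL of project GN: balance at a vertex of a Moebius ladder or prism. -/

set_option autoImplicit false

namespace Pool.Agent.T2H75.GN

open Complex ZMod

namespace MBAL

theorem ip_rot (c s α β : ℝ) (u v : ℂ) (hu : ‖u‖ = 1) (hv : ‖v‖ = 1) :
    ip ((c : ℂ) * u, (s : ℂ) * v) ((c : ℂ) * (u * exp (α * I)), (s : ℂ) * (v * exp (β * I))) =
      c ^ 2 * Real.cos α + s ^ 2 * Real.cos β := by
  have h1 : u.re ^ 2 + u.im ^ 2 = 1 := by
    have := Complex.sq_norm u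
    rw [hu, Complex.normSq_apply] at this
    nlinarith
  have h2 : v.re ^ 2 + v.im ^ 2 = 1 := by
    have := Complex.sq_norm v
    rw [hv, Complex.normSq_apply] at this
    nlinarith
  simp only [ip, Complex.mul_re, Complex.mul_im, Complex.ofReal_re, Complex.ofReal_im,
    Complex.exp_ofReal_mul_I_re, Complex.exp_ofReal_mul_I_im]
  linear_combination (c ^ 2 * Real.cos α) * h1 + (s ^ 2 * Real.cos β) * h2

theorem ip_opp (c s : ℝ) (u v : ℂ) (hu : ‖u‖ = 1) (hv : ‖v‖ = 1) :
    ip ((c : ℂ) * u, (s : ℂ) * v) ((c : ℂ) * u, -((s : ℂ) * v)) = c ^ 2 - s ^ 2 := by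
  have h1 : u.re ^ 2 + u.im ^ 2 = 1 := by
    have := Complex.sq_norm u
    rw [hu, Complex.normSq_apply] at this
    nlinarith
  have h2 : v.re ^ 2 + v.im ^ 2 = 1 := by
    have := Complex.sq_norm v
    rw [hv, Complex.normSq_apply] at this
    nlinarith
  simp only [ip, Complex.mul_re, Complex.mul_im, Complex.ofReal_re, Complex.ofReal_im,
    Complex.neg_re, Complex.neg_im]
  linear_combination (c ^ 2) * h1 - (s ^ 2) * h2

end MBAL

open MBAL

theorem mbal : MbalStm := by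
  intro α β c s u v hu hv hc hs hcs hlt hS
  have e1 := ip_rot c s α β u v hu hv
  have e2 := ip_rot c s (-α) (-β) u v hu hv
  rw [Real.cos_neg, Real.cos_neg] at e2
  have e3 := ip_opp c s u v hu hv
  have hcast1 : exp (((-α : ℝ) : ℂ) * I) = exp (-(α * I)) := by
    congr 1
    push_cast
    ring
  have hcast2 : exp (((-β : ℝ) : ℂ) * I) = exp (-(β * I)) := by
    congr 1
    push_cast
    ring
  rw [hcast1, hcast2] at e2
  set κ : ℝ := c ^ 2 * Real.cos α + s ^ 2 * Real.cos β with hκ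
  have hS0 : 0 < √(1 - κ ^ 2) := Real.sqrt_pos.2 (by linarith)
  have hT : √(1 - (c ^ 2 - s ^ 2) ^ 2) = 2 * c * s := by
    have : 1 - (c ^ 2 - s ^ 2) ^ 2 = (2 * c * s) ^ 2 := by
      have h1 : (c ^ 2 + s ^ 2) ^ 2 = 1 := by rw [hcs]; norm_num
      linear_combination -h1
    rw [this, Real.sqrt_sq (by positivity)]
  have hD : 0 < Real.cos β - Real.cos α := by
    by_contra hcon
    rw [not_lt] at hcon
    have : 2 * c * s * (Real.cos β - Real.cos α) ≤ 0 :=
      mul_nonpos_of_nonneg_of_nonpos (by positivity) hcon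
    linarith
  simp only [tang, e1, e2, e3, hT]
  rw [← hS]
  have hexp1 : exp (α * I) + exp (-(α * I)) = 2 * (Real.cos α : ℂ) := by
    rw [Complex.ofReal_cos, Complex.two_cos, neg_mul]
  have hexp2 : exp (β * I) + exp (-(β * I)) = 2 * (Real.cos β : ℂ) := by
    rw [Complex.ofReal_cos, Complex.two_cos, neg_mul]
  have hcc : (c : ℂ) ≠ 0 := by exact_mod_cast hc.ne'
  have hsc : (s : ℂ) ≠ 0 := by exact_mod_cast hs.ne'
  have hDc : ((Real.cos β : ℝ) : ℂ) - ((Real.cos α : ℝ) : ℂ) ≠ 0 := by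
    rw [← Complex.ofReal_sub]
    exact_mod_cast hD.ne'
  have hcsc : (c : ℂ) ^ 2 + (s : ℂ) ^ 2 = 1 := by exact_mod_cast hcs
  refine Prod.ext ?_ ?_
  · simp only [Prod.fst_add, Prod.smul_fst, Prod.fst_sub, Prod.fst_zero, Complex.real_smul]
    rw [hκ]
    push_cast
    rw [← Complex.ofReal_cos, ← Complex.ofReal_cos]
    field_simp
    linear_combination u * hexp1 - u * ((Real.cos α : ℂ) + (Real.cos β : ℂ)) * hcsc
  · simp only [Prod.snd_add, Prod.smul_snd, Prod.snd_sub, Prod.snd_zero, Complex.real_smul]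
    rw [hκ]
    push_cast
    rw [← Complex.ofReal_cos, ← Complex.ofReal_cos]
    field_simp
    linear_combination v * hexp2 - v * ((Real.cos α : ℂ) + (Real.cos β : ℂ)) * hcsc

end Pool.Agent.T2H75.GN
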