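import Pool.Agent.T2H75.GN.Stm

/-!
# Package MEMB: the Moebius ladder is embedded
-/

set_option autoImplicit false

namespace Pool.Agent.T2H75.GN

open Complex ZMod

namespace MEMB

lemma chi_norm {N : ℕ} [NeZero N] (j : ZMod N) : ‖(stdAddChar j : ℂ)‖ = 1 :=
  AddChar.norm_apply _ _

lemma chi_ne {N : ℕ} [NeZero N] (j : ZMod N) : (stdAddChar j : ℂ) ≠ 0 := by
  intro h
  have := chi_norm j
  rw [h, norm_zero] at this
  exact zero_ne_one this

lemma chi_inj {N : ℕ} [NeZero N] {i j : ZMod N} (h : (stdAddChar i : ℂ) = stdAddChar j) : i = j :=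
  injective_stdAddChar h

lemma chi_one (m : ℕ) [NeZero m] :
    (stdAddChar (1 : ZMod (2 * m)) : ℂ) = exp (((Real.pi / m : ℝ) : ℂ) * I) := by
  have h := stdAddChar_coe (N := 2 * m) 1
  rw [Int.cast_one] at h
  rw [h]
  congr 1
  have hm : (m : ℂ) ≠ 0 := Nat.cast_ne_zero.2 (NeZero.ne m)
  push_cast
  field_simp

lemma chi_m (m : ℕ) [NeZero m] : (stdAddChar ((m : ZMod (2 * m))) : ℂ) = -1 := by
  have h := stdAddChar_coe (N := 2 * m) (m : ℤ)
  rw [Int.cast_natCast] at h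
  rw [h, ← Complex.exp_pi_mul_I]
  congr 1
  have hm : (m : ℂ) ≠ 0 := Nat.cast_ne_zero.2 (NeZero.ne m)
  push_cast
  field_simp

lemma m_add_m (m : ℕ) : (m : ZMod (2 * m)) + (m : ZMod (2 * m)) = 0 := by
  have h : ((2 * m : ℕ) : ZMod (2 * m)) = 0 := ZMod.natCast_self _
  rw [← h]
  push_cast
  ring

lemma ip_self (p : ℂ × ℂ) : ip p p = ‖p.1‖ ^ 2 + ‖p.2‖ ^ 2 := by
  unfold ip
  rw [← Complex.normSq_eq_norm_sq, ← Complex.normSq_eq_norm_sq, Complex.normSq_apply,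
    Complex.normSq_apply]
  ring

lemma ip_smul (l : ℝ) (p : ℂ × ℂ) : ip (l • p) (l • p) = l ^ 2 * ip p p := by
  rw [ip_self, ip_self, Prod.smul_fst, Prod.smul_snd, norm_smul, norm_smul, mul_pow, mul_pow,
    Real.norm_eq_abs, sq_abs]
  ring

lemma arc_symm (p q : ℂ × ℂ) (x : ℂ × ℂ) (h : x ∈ arc p q) : x ∈ arc q p := by
  obtain ⟨h1, l, m, hl, hm, hx⟩ := h
  exact ⟨h1, m, l, hm, hl, by rw [hx, add_comm]⟩

variable {m : ℕ} [NeZero m] {a : ZMod (2 * m)} {c s : ℝ}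

lemma unit_pos (hcs : c ^ 2 + s ^ 2 = 1) (hc : 0 < c) (hs : 0 < s) (j : ZMod (2 * m)) :
    ip (mpos m a c s j) (mpos m a c s j) = 1 := by
  rw [ip_self]
  unfold mpos
  rw [norm_mul, norm_mul, chi_norm, chi_norm, Complex.norm_real, Complex.norm_real,
    Real.norm_of_nonneg hc.le, Real.norm_of_nonneg hs.le, mul_one, mul_one]
  exact hcs

/-- points of an arc: end points or interior points -/
lemma arc_cases {p q x : ℂ × ℂ} (hp : ip p p = 1) (hq : ip q q = 1) (h : x ∈ arc p q) :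
    x = p ∨ x = q ∨ ∃ l μ : ℝ, 0 < l ∧ 0 < μ ∧ x = l • p + μ • q := by
  obtain ⟨h1, l, μ, hl, hm, hx⟩ := h
  rcases hl.eq_or_lt with hl0 | hl0
  · right
    left
    rw [← hl0, zero_smul, zero_add] at hx
    rw [hx, ip_smul, hq, mul_one] at h1
    have : μ = 1 := by nlinarith
    rw [hx, this, one_smul]
  · rcases hm.eq_or_lt with hm0 | hm0
    · left
      rw [← hm0, zero_smul, add_zero] at hx
      rw [hx, ip_smul, hp, mul_one] at h1
      have : l = 1 := by nlinarith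
      rw [hx, this, one_smul]
    · exact Or.inr (Or.inr ⟨l, μ, hl0, hm0, hx⟩)

/-- interior points of the rim edge -/
def Rim (m : ℕ) [NeZero m] (a : ZMod (2 * m)) (c s : ℝ) (j : ZMod (2 * m)) (x : ℂ × ℂ) : Prop :=
  ∃ l μ : ℝ, 0 < l ∧ 0 < μ ∧ x = ((c : ℂ) * (stdAddChar (a * j) * ((l : ℂ) + μ * stdAddChar a)),
    (s : ℂ) * (stdAddChar j * ((l : ℂ) + μ * exp (((Real.pi / m : ℝ) : ℂ) * I))))

/-- interior points of the rung -/
def Rung (m : ℕ) [NeZero m] (a : ZMod (2 * m)) (c s : ℝ) (j : ZMod (2 * m)) (x : ℂ × ℂ) : Prop :=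
  ∃ l μ : ℝ, 0 < l ∧ 0 < μ ∧ x = ((c : ℂ) * (stdAddChar (a * j) * ((l : ℂ) + μ)),
    (s : ℂ) * (stdAddChar j * ((l : ℂ) - μ)))

lemma rim_of (j : ZMod (2 * m)) (l μ : ℝ) (hl : 0 < l) (hμ : 0 < μ) (x : ℂ × ℂ)
    (hx : x = l • mpos m a c s j + μ • mpos m a c s (j + 1)) : Rim m a c s j x := by
  refine ⟨l, μ, hl, hμ, ?_⟩
  rw [hx]
  unfold mpos
  rw [mul_add, mul_one, AddChar.map_add_eq_mul, AddChar.map_add_eq_mul, chi_one]
  refine Prod.ext ?_ ?_
  · show (l : ℝ) • ((c : ℂ) * stdAddChar (a * j)) + (μ : ℝ) • ((c : ℂ) * (stdAddChar (a * j) *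
      stdAddChar a)) = _
    rw [Complex.real_smul, Complex.real_smul]
    ring
  · show (l : ℝ) • ((s : ℂ) * stdAddChar j) + (μ : ℝ) • ((s : ℂ) * (stdAddChar j * _)) = _
    rw [Complex.real_smul, Complex.real_smul]
    ring

lemma rung_of (ham : a * (m : ZMod (2 * m)) = 0) (j : ZMod (2 * m)) (l μ : ℝ) (hl : 0 < l)
    (hμ : 0 < μ) (x : ℂ × ℂ)
    (hx : x = l • mpos m a c s j + μ • mpos m a c s (j + (m : ZMod (2 * m)))) :
    Rung m a c s j x := by
  refine ⟨l, μ, hl, hμ, ?_⟩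
  rw [hx]
  unfold mpos
  rw [mul_add, ham, add_zero, AddChar.map_add_eq_mul, chi_m]
  refine Prod.ext ?_ ?_
  · show (l : ℝ) • ((c : ℂ) * stdAddChar (a * j)) + (μ : ℝ) • ((c : ℂ) * (stdAddChar (a * j))) = _
    rw [Complex.real_smul, Complex.real_smul]
    ring
  · show (l : ℝ) • ((s : ℂ) * stdAddChar j) + (μ : ℝ) • ((s : ℂ) * (stdAddChar j * (-1))) = _
    rw [Complex.real_smul, Complex.real_smul]
    ring

lemma loc (ham : a * (m : ZMod (2 * m)) = 0) (hcs : c ^ 2 + s ^ 2 = 1) (hc : 0 < c) (hs : 0 < s)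
    (v w : ZMod (2 * m)) (hvw : (moebius m).Adj v w) (x : ℂ × ℂ)
    (hx : x ∈ arc (mpos m a c s v) (mpos m a c s w)) :
    (∃ u, (u = v ∨ u = w) ∧ x = mpos m a c s u) ∨
    (∃ j, s(v, w) = s(j, j + 1) ∧ Rim m a c s j x) ∨
    (∃ j, s(v, w) = s(j, j + (m : ZMod (2 * m))) ∧ Rung m a c s j x) := by
  have hv := unit_pos (m := m) (a := a) hcs hc hs v
  have hw := unit_pos (m := m) (a := a) hcs hc hs w
  rcases arc_cases hv hw hx with h | h | ⟨l, μ, hl, hμ, h⟩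
  · exact Or.inl ⟨v, Or.inl rfl, h⟩
  · exact Or.inl ⟨w, Or.inr rfl, h⟩
  · right
    unfold moebius at hvw
    rw [SimpleGraph.fromRel_adj] at hvw
    obtain ⟨-, (h1 | h1) | (h1 | h1)⟩ := hvw
    · left
      refine ⟨v, by rw [h1], rim_of v l μ hl hμ x (by rw [h, h1])⟩
    · right
      refine ⟨v, by rw [h1], rung_of ham v l μ hl hμ x (by rw [h, h1])⟩
    · left
      refine ⟨w, by rw [h1, Sym2.eq_swap], rim_of w μ l hμ hl x (by rw [h, h1, add_comm])⟩
    · right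
      refine ⟨w, by rw [h1, Sym2.eq_swap], rung_of ham w μ l hμ hl x (by rw [h, h1, add_comm])⟩

lemma two_pi (m : ℕ) [NeZero m] : 2 * Real.pi / ((2 * m : ℕ) : ℝ) = Real.pi / m := by
  have hm : (m : ℝ) ≠ 0 := Nat.cast_ne_zero.2 (NeZero.ne m)
  push_cast
  field_simp

lemma beta_pos (m : ℕ) [NeZero m] : 0 < Real.pi / m := by
  have hm : (0 : ℝ) < m := Nat.cast_pos.2 (NeZero.pos m)
  positivity

lemma beta_lt (m : ℕ) (hm : 3 ≤ m) : Real.pi / m < Real.pi := by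
  have h1 : (1 : ℝ) < m := by exact_mod_cast (by omega : 1 < m)
  exact div_lt_self Real.pi_pos h1

/-- polar form of the second coordinate of a rim point -/
lemma rim_pol (hpol : PolStm) (hm : 3 ≤ m) (l μ : ℝ) (hl : 0 < l) (hμ : 0 < μ) :
    ∃ ρ ω : ℝ, 0 < ρ ∧ 0 < ω ∧ ω < Real.pi / m ∧
      (l : ℂ) + μ * exp (((Real.pi / m : ℝ) : ℂ) * I) = ρ * exp (ω * I) := by
  obtain ⟨ρ, ω, h1, h2, h3, h4, h5, h6⟩ := hpol (Real.pi / m) l μ (beta_pos m) (beta_lt m hm) hl.le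
    hμ.le (Or.inl hl.ne')
  refine ⟨ρ, ω, h1, ?_, ?_, h6⟩
  · exact lt_of_le_of_ne h2 (fun h => hμ.ne' (h4.1 h.symm))
  · exact lt_of_le_of_ne h3 (fun h => hl.ne' (h5.1 h))

/-- the angle of a rim point is not that of a vertex -/
lemma key1 (hpol : PolStm) (hsec : SecStm) (hm : 3 ≤ m) (i j : ZMod (2 * m)) (l μ t : ℝ)
    (hl : 0 < l) (hμ : 0 < μ)
    (h : (stdAddChar j : ℂ) * ((l : ℂ) + μ * exp (((Real.pi / m : ℝ) : ℂ) * I)) =
      stdAddChar i * (t : ℂ)) : False := by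
  obtain ⟨ρ, ω, h1, h2, h3, h4⟩ := rim_pol (m := m) hpol hm l μ hl hμ
  rw [h4] at h
  have hb := two_pi m
  rcases lt_trichotomy t 0 with ht | ht | ht
  · have h5 : (ρ : ℂ) * (stdAddChar j * exp (ω * I)) =
        ((-t : ℝ) : ℂ) * (stdAddChar (i + (m : ZMod (2 * m))) * exp (((0 : ℝ) : ℂ) * I)) := by
      rw [AddChar.map_add_eq_mul, chi_m, Complex.ofReal_zero, zero_mul, Complex.exp_zero]
      push_cast
      linear_combination h
    have h6 := hsec (2 * m) j (i + (m : ZMod (2 * m))) ρ (-t) ω 0 h1 (by linarith) h2.le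
      (by rw [hb]; exact h3) le_rfl (by rw [hb]; exact beta_pos m) h5
    exact h2.ne' h6.2.1
  · rw [ht, Complex.ofReal_zero, mul_zero] at h
    have h5 : (ρ : ℂ) ≠ 0 := Complex.ofReal_ne_zero.2 h1.ne'
    exact mul_ne_zero (chi_ne j) (mul_ne_zero h5 (Complex.exp_ne_zero _)) h
  · have h5 : (ρ : ℂ) * (stdAddChar j * exp (ω * I)) =
        (t : ℂ) * (stdAddChar i * exp (((0 : ℝ) : ℂ) * I)) := by
      rw [Complex.ofReal_zero, zero_mul, Complex.exp_zero]
      linear_combination h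
    have h6 := hsec (2 * m) j i ρ t ω 0 h1 ht h2.le
      (by rw [hb]; exact h3) le_rfl (by rw [hb]; exact beta_pos m) h5
    exact h2.ne' h6.2.1

lemma rim_rim (hpol : PolStm) (hsec : SecStm) (hm : 3 ≤ m) (hs : 0 < s) (j j' : ZMod (2 * m))
    (x : ℂ × ℂ) (h : Rim m a c s j x) (h' : Rim m a c s j' x) : j = j' := by
  obtain ⟨l, μ, hl, hμ, hx⟩ := h
  obtain ⟨l', μ', hl', hμ', hx'⟩ := h'
  rw [hx] at hx'
  have h2 := congrArg Prod.snd hx'
  dsimp only at h2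
  have hs0 : (s : ℂ) ≠ 0 := Complex.ofReal_ne_zero.2 hs.ne'
  have h3 := mul_left_cancel₀ hs0 h2
  obtain ⟨ρ, ω, r1, r2, r3, r4⟩ := rim_pol (m := m) hpol hm l μ hl hμ
  obtain ⟨ρ', ω', r1', r2', r3', r4'⟩ := rim_pol (m := m) hpol hm l' μ' hl' hμ'
  rw [r4, r4'] at h3
  have hb := two_pi m
  exact (hsec (2 * m) j j' ρ ρ' ω ω' r1 r1' r2.le (by rw [hb]; exact r3) r2'.le
    (by rw [hb]; exact r3') (by linear_combination h3)).1

lemma rim_rung (hpol : PolStm) (hsec : SecStm) (hm : 3 ≤ m) (hs : 0 < s) (j j' : ZMod (2 * m))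
    (x : ℂ × ℂ) (h : Rim m a c s j x) (h' : Rung m a c s j' x) : False := by
  obtain ⟨l, μ, hl, hμ, hx⟩ := h
  obtain ⟨l', μ', hl', hμ', hx'⟩ := h'
  rw [hx] at hx'
  have h2 := congrArg Prod.snd hx'
  dsimp only at h2
  have hs0 : (s : ℂ) ≠ 0 := Complex.ofReal_ne_zero.2 hs.ne'
  have h3 := mul_left_cancel₀ hs0 h2
  refine key1 hpol hsec hm j' j l μ (l' - μ') hl hμ ?_
  rw [h3]
  push_cast
  rfl

lemma rim_vert (hpol : PolStm) (hsec : SecStm) (hm : 3 ≤ m) (hs : 0 < s) (j i : ZMod (2 * m))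
    (h : Rim m a c s j (mpos m a c s i)) : False := by
  obtain ⟨l, μ, hl, hμ, hx⟩ := h
  have h2 := congrArg Prod.snd hx
  unfold mpos at h2
  dsimp only at h2
  have hs0 : (s : ℂ) ≠ 0 := Complex.ofReal_ne_zero.2 hs.ne'
  have h3 := mul_left_cancel₀ hs0 h2
  refine key1 hpol hsec hm i j l μ 1 hl hμ ?_
  rw [← h3, Complex.ofReal_one, mul_one]

lemma rung_vert (hc : 0 < c) (hs : 0 < s) (j i : ZMod (2 * m))
    (h : Rung m a c s j (mpos m a c s i)) : False := by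
  obtain ⟨l, μ, hl, hμ, hx⟩ := h
  have h1 := congrArg Prod.fst hx
  have h2 := congrArg Prod.snd hx
  unfold mpos at h1 h2
  dsimp only at h1 h2
  have hc0 : (c : ℂ) ≠ 0 := Complex.ofReal_ne_zero.2 hc.ne'
  have hs0 : (s : ℂ) ≠ 0 := Complex.ofReal_ne_zero.2 hs.ne'
  have h3 := congrArg norm (mul_left_cancel₀ hc0 h1)
  have h4 := congrArg norm (mul_left_cancel₀ hs0 h2)
  rw [norm_mul, chi_norm, chi_norm, one_mul, ← Complex.ofReal_add, Complex.norm_real,
    Real.norm_of_nonneg (by linarith)] at h3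
  rw [norm_mul, chi_norm, chi_norm, one_mul, ← Complex.ofReal_sub, Complex.norm_real,
    Real.norm_eq_abs] at h4
  rcases abs_cases (l - μ) with ⟨h5, -⟩ | ⟨h5, -⟩ <;> linarith

lemma rung_rung (ha : ∀ j, a * j = 0 → j = 0 ∨ j = (m : ZMod (2 * m))) (hc : 0 < c)
    (j j' : ZMod (2 * m)) (x : ℂ × ℂ) (h : Rung m a c s j x) (h' : Rung m a c s j' x) :
    s(j, j + (m : ZMod (2 * m))) = s(j', j' + (m : ZMod (2 * m))) := by
  obtain ⟨l, μ, hl, hμ, hx⟩ := h
  obtain ⟨l', μ', hl', hμ', hx'⟩ := h'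
  rw [hx] at hx'
  have h2 := congrArg Prod.fst hx'
  dsimp only at h2
  have hc0 : (c : ℂ) ≠ 0 := Complex.ofReal_ne_zero.2 hc.ne'
  have h3 := mul_left_cancel₀ hc0 h2
  have h4 := congrArg norm h3
  rw [norm_mul, norm_mul, chi_norm, chi_norm, one_mul, one_mul, ← Complex.ofReal_add,
    ← Complex.ofReal_add, Complex.norm_real, Complex.norm_real,
    Real.norm_of_nonneg (by linarith), Real.norm_of_nonneg (by linarith)] at h4
  have h5 : ((l : ℂ) + μ) = (l' : ℂ) + μ' := by exact_mod_cast h4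
  have h6 : ((l' : ℂ) + μ') ≠ 0 := by
    rw [← Complex.ofReal_add]
    exact Complex.ofReal_ne_zero.2 (by positivity)
  rw [h5] at h3
  have h7 := chi_inj (mul_right_cancel₀ h6 h3)
  have h8 : a * (j - j') = 0 := by rw [mul_sub, h7, sub_self]
  rcases ha _ h8 with h9 | h9
  · rw [sub_eq_zero.1 h9]
  · have h10 : j = j' + (m : ZMod (2 * m)) := by rw [← h9]; ring
    have h11 : j + (m : ZMod (2 * m)) = j' := by
      rw [h10, add_assoc, m_add_m, add_zero]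
    rw [h11, ← h10, Sym2.eq_swap]

end MEMB

open MEMB in
theorem memb (hpol : PolStm) (hsec : SecStm) : MembStm := by
  intro m _ hm a ham ha c s hc hs hcs
  have hs0 : (s : ℂ) ≠ 0 := Complex.ofReal_ne_zero.2 hs.ne'
  have hc0 : (c : ℂ) ≠ 0 := Complex.ofReal_ne_zero.2 hc.ne'
  have hinj : Function.Injective (mpos m a c s) := by
    intro i j hij
    have h2 := congrArg Prod.snd hij
    unfold mpos at h2
    dsimp only at h2
    exact chi_inj (mul_left_cancel₀ hs0 h2)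
  refine ⟨hinj, fun v w _ h => ?_, ?_⟩
  · have h1 := congrArg Prod.fst h
    have h2 := congrArg Prod.snd h
    unfold mpos at h1 h2
    simp only [Prod.fst_neg, Prod.snd_neg] at h1 h2
    rw [← mul_neg] at h1 h2
    have h3 := mul_left_cancel₀ hc0 h1
    have h4 := mul_left_cancel₀ hs0 h2
    have h5 : w = v + (m : ZMod (2 * m)) := by
      refine chi_inj ?_
      rw [h4, AddChar.map_add_eq_mul, chi_m]
      ring
    rw [h5, mul_add, ham, add_zero] at h3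
    have h6 : (2 : ℂ) * stdAddChar (a * v) = 0 := by linear_combination h3
    exact mul_ne_zero two_ne_zero (chi_ne _) h6
  · intro v w v' w' hvw hvw' hne x hx hx'
    rcases loc ham hcs hc hs v w hvw x hx with ⟨u, hu, hxu⟩ | ⟨j, hj, hR⟩ | ⟨j, hj, hG⟩
    · rcases loc ham hcs hc hs v' w' hvw' x hx' with ⟨u', hu', hxu'⟩ | ⟨j', hj', hR'⟩ |
        ⟨j', hj', hG'⟩
      · have : u = u' := hinj (hxu.symm.trans hxu')
        exact ⟨u, hu, by rw [this]; exact hu', hxu⟩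
      · rw [hxu] at hR'
        exact (rim_vert hpol hsec hm hs j' u hR').elim
      · rw [hxu] at hG'
        exact (rung_vert hc hs j' u hG').elim
    · rcases loc ham hcs hc hs v' w' hvw' x hx' with ⟨u', hu', hxu'⟩ | ⟨j', hj', hR'⟩ |
        ⟨j', hj', hG'⟩
      · rw [hxu'] at hR
        exact (rim_vert hpol hsec hm hs j u' hR).elim
      · exfalso
        apply hne
        rw [hj, hj', rim_rim hpol hsec hm hs j j' x hR hR']
      · exact (rim_rung hpol hsec hm hs j j' x hR hG').elim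
    · rcases loc ham hcs hc hs v' w' hvw' x hx' with ⟨u', hu', hxu'⟩ | ⟨j', hj', hR'⟩ |
        ⟨j', hj', hG'⟩
      · rw [hxu'] at hG
        exact (rung_vert hc hs j u' hG).elim
      · exact (rim_rung hpol hsec hm hs j' j x hR' hG).elim
      · exfalso
        apply hne
        rw [hj, hj']
        exact rung_rung ha hc j j' x hG hG'

end Pool.Agent.T2H75.GN
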