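import Pool.Agent.T2H75.GN.Stm

set_option autoImplicit false

namespace Pool.Agent.T2H75.GN

theorem miv : MivStm := by
  intro x y hx hxy hy
  set F : ℝ → ℝ := fun t => 2 * Real.cos t * Real.sin t * (y - x) -
    √(1 - (Real.cos t ^ 2 * x + Real.sin t ^ 2 * y) ^ 2) with hF
  have hcont : Continuous F := by
    rw [hF]
    fun_prop
  have h0 : F 0 < 0 := by
    simp only [hF, Real.cos_zero, Real.sin_zero]
    have : 0 < √(1 - (1 ^ 2 * x + 0 ^ 2 * y) ^ 2) := by
      apply Real.sqrt_pos.2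
      nlinarith
    linarith
  have hpi := Real.pi_pos
  have h1 : 0 ≤ F (Real.pi / 4) := by
    simp only [hF]
    have e1 : 2 * Real.cos (Real.pi / 4) * Real.sin (Real.pi / 4) = 1 := by
      rw [Real.cos_pi_div_four, Real.sin_pi_div_four]
      have := Real.mul_self_sqrt (show (0 : ℝ) ≤ 2 by norm_num)
      nlinarith
    rw [e1]
    have e2 : √(1 - (Real.cos (Real.pi / 4) ^ 2 * x + Real.sin (Real.pi / 4) ^ 2 * y) ^ 2) ≤ 1 := by
      have h2 := Real.sqrt_le_sqrt (show 1 - (Real.cos (Real.pi / 4) ^ 2 * x +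
        Real.sin (Real.pi / 4) ^ 2 * y) ^ 2 ≤ 1 by
          linarith [sq_nonneg (Real.cos (Real.pi / 4) ^ 2 * x + Real.sin (Real.pi / 4) ^ 2 * y)])
      rwa [Real.sqrt_one] at h2
    linarith
  obtain ⟨t, ht, hFt⟩ := intermediate_value_Icc (show (0 : ℝ) ≤ Real.pi / 4 by linarith)
    hcont.continuousOn (show (0 : ℝ) ∈ Set.Icc (F 0) (F (Real.pi / 4)) from ⟨h0.le, h1⟩)
  have ht0 : 0 < t := by
    rcases eq_or_lt_of_le ht.1 with h | h
    · rw [← h] at hFt
      linarith
    · exact h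
  have hc : 0 < Real.cos t := Real.cos_pos_of_mem_Ioo ⟨by linarith, by linarith [ht.2]⟩
  have hs : 0 < Real.sin t := Real.sin_pos_of_pos_of_lt_pi ht0 (by linarith [ht.2])
  have hcs : Real.cos t ^ 2 + Real.sin t ^ 2 = 1 := by
    have := Real.sin_sq_add_cos_sq t
    linarith
  refine ⟨Real.cos t, Real.sin t, hc, hs, hcs, ?_, ?_⟩
  · have hc2 : 0 < Real.cos t ^ 2 := by positivity
    have hs2 : 0 < Real.sin t ^ 2 := by positivity
    have hlo : -1 < Real.cos t ^ 2 * x + Real.sin t ^ 2 * y := by nlinarith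
    have hhi : Real.cos t ^ 2 * x + Real.sin t ^ 2 * y < 1 := by nlinarith
    nlinarith
  · have : F t = 0 := hFt
    simp only [hF] at this
    linarith

end Pool.Agent.T2H75.GN
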