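import Pool.Agent.T2H75.GN.Stm

namespace Pool.Agent.T2H75.GN

open Complex ZMod

namespace PEMBx

set_option linter.unusedSectionVars false

variable {n : ℕ} [NeZero n]


lemma chi_inj {x y : ZMod n} (h : (stdAddChar : AddChar (ZMod n) ℂ) x = (stdAddChar : AddChar (ZMod n) ℂ) y) : x = y := injective_stdAddChar h

lemma chi_norm (x : ZMod n) : ‖(stdAddChar : AddChar (ZMod n) ℂ) x‖ = 1 := by
  rw [stdAddChar_apply]
  exact Circle.norm_coe _

lemma chi_ne (x : ZMod n) : (stdAddChar : AddChar (ZMod n) ℂ) x ≠ 0 := by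
  intro h
  have := chi_norm x
  rw [h, norm_zero] at this
  exact zero_ne_one this

/-- half of the modulus -/
def hf (n : ℕ) [NeZero n] : ZMod n := ((n / 2 : ℕ) : ZMod n)

lemma hf_add (he : Even n) : hf n + hf n = 0 := by
  unfold hf
  rw [← Nat.cast_add]
  obtain ⟨k, hk⟩ := he
  have : n / 2 + n / 2 = n := by omega
  rw [this, ZMod.natCast_self]

lemma hf_ne (hn : 4 ≤ n) : hf n ≠ 0 := by
  unfold hf
  intro h
  rw [ZMod.natCast_eq_zero_iff] at h
  have := Nat.le_of_dvd (by omega) h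
  omega

lemma two_ne (hn : 4 ≤ n) : (2 : ZMod n) ≠ 0 := by
  intro h
  have h' : ((2 : ℕ) : ZMod n) = 0 := by exact_mod_cast h
  rw [ZMod.natCast_eq_zero_iff] at h'
  have := Nat.le_of_dvd (by omega) h'
  omega

lemma chi_hf (hn : 4 ≤ n) (he : Even n) : (stdAddChar : AddChar (ZMod n) ℂ) (hf n) = -1 := by
  have h1 : (stdAddChar : AddChar (ZMod n) ℂ) (hf n) * (stdAddChar : AddChar (ZMod n) ℂ) (hf n) = 1 := by
    rw [← AddChar.map_add_eq_mul, hf_add he, AddChar.map_zero_eq_one]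
  have h2 : (stdAddChar : AddChar (ZMod n) ℂ) (hf n) ≠ 1 := by
    intro h
    apply hf_ne hn
    apply chi_inj
    rw [h, AddChar.map_zero_eq_one]
  have h3 : ((stdAddChar : AddChar (ZMod n) ℂ) (hf n) - 1) * ((stdAddChar : AddChar (ZMod n) ℂ) (hf n) + 1) = 0 := by linear_combination h1
  rcases mul_eq_zero.mp h3 with h | h
  · exact absurd (sub_eq_zero.mp h) h2
  · exact eq_neg_of_add_eq_zero_left h

lemma chi_one : (stdAddChar : AddChar (ZMod n) ℂ) 1 = exp (((2 * Real.pi / n : ℝ) : ℂ) * I) := by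
  have h := stdAddChar_coe (N := n) 1
  simp only [Int.cast_one] at h
  rw [h]
  congr 1
  push_cast
  ring

/-- the sector of the second coordinate -/
def idx (v : ZMod n × Bool) : ZMod n := if v.2 then v.1 + hf n else v.1

lemma idx_chi (hn : 4 ≤ n) (he : Even n) (v : ZMod n × Bool) :
    (if v.2 then (-1 : ℂ) else 1) * (stdAddChar : AddChar (ZMod n) ℂ) v.1 = (stdAddChar : AddChar (ZMod n) ℂ) (idx v) := by
  unfold idx
  by_cases h : v.2
  · rw [if_pos h, if_pos h, AddChar.map_add_eq_mul, chi_hf hn he]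
    ring
  · rw [if_neg h, if_neg h, one_mul]

lemma ppos_eq (hn : 4 ≤ n) (he : Even n) (a : ZMod n) (c s : ℝ) (v : ZMod n × Bool) :
    ppos n a c s v = ((c : ℂ) * (stdAddChar : AddChar (ZMod n) ℂ) (a * v.1), (s : ℂ) * (stdAddChar : AddChar (ZMod n) ℂ) (idx v)) := by
  unfold ppos
  rw [idx_chi hn he]

lemma idx_inj (hn : 4 ≤ n) {i : ZMod n} {b b' : Bool} (h : idx (i, b) = idx (i, b')) : b = b' := by
  unfold idx at h
  by_contra hb
  have hn0 := hf_ne hn
  rcases Bool.eq_false_or_eq_true b with h1 | h1 <;> rcases Bool.eq_false_or_eq_true b' with h2 | h2 <;>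
    simp [h1, h2] at h hb <;> exact hn0 h

lemma inj (hn : 4 ≤ n) (he : Even n) {a : ZMod n} (ha : ∀ j, a * j = 0 → j = 0) {c s : ℝ} (hc : 0 < c)
    (hs : 0 < s) : Function.Injective (ppos n a c s) := by
  intro v w h
  rw [ppos_eq hn he, ppos_eq hn he] at h
  have h1 := congrArg Prod.fst h
  have h2 := congrArg Prod.snd h
  simp only at h1 h2
  have hc' : (c : ℂ) ≠ 0 := by exact_mod_cast hc.ne'
  have hs' : (s : ℂ) ≠ 0 := by exact_mod_cast hs.ne'
  have e1 := chi_inj (mul_left_cancel₀ hc' h1)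
  have e2 := chi_inj (mul_left_cancel₀ hs' h2)
  have e3 : v.1 = w.1 := by
    have := ha (v.1 - w.1) (by rw [mul_sub, e1, sub_self])
    exact sub_eq_zero.mp this
  obtain ⟨i, b⟩ := v
  obtain ⟨i', b'⟩ := w
  simp only at e3
  subst e3
  rw [idx_inj hn e2]

/-- adjacency -/
lemma adj {v w : ZMod n × Bool} (h : (prism n).Adj v w) :
    (w = (v.1 + 1, v.2) ∨ v = (w.1 + 1, w.2)) ∨ w = (v.1, !v.2) := by
  unfold prism at h
  rw [SimpleGraph.fromRel_adj] at h
  obtain ⟨-, h⟩ := h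
  obtain ⟨i, b⟩ := v
  obtain ⟨i', b'⟩ := w
  simp only [Prod.mk.injEq] at h ⊢
  rcases h with (⟨h1, h2⟩ | ⟨h1, h2⟩) | (⟨h1, h2⟩ | ⟨h1, h2⟩)
  · exact Or.inl (Or.inl ⟨h1, h2⟩)
  · exact Or.inr ⟨h1, h2⟩
  · exact Or.inl (Or.inr ⟨h1, h2⟩)
  · refine Or.inr ⟨h1.symm, ?_⟩
    rw [h2, Bool.not_not]

lemma antip (hn : 4 ≤ n) (he : Even n) {a : ZMod n} {c s : ℝ} (hc : 0 < c)
    (hs : 0 < s) (v w : ZMod n × Bool) (h : (prism n).Adj v w) : ppos n a c s w ≠ -ppos n a c s v := by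
  have hc' : (c : ℂ) ≠ 0 := by exact_mod_cast hc.ne'
  have hs' : (s : ℂ) ≠ 0 := by exact_mod_cast hs.ne'
  have key : ∀ v w : ZMod n × Bool, w = (v.1 + 1, v.2) → ppos n a c s w ≠ -ppos n a c s v := by
    intro v w hw e
    rw [ppos_eq hn he, ppos_eq hn he] at e
    have h2 := congrArg Prod.snd e
    simp only [Prod.snd_neg] at h2
    have e2 : (stdAddChar : AddChar (ZMod n) ℂ) (idx w) = -(stdAddChar : AddChar (ZMod n) ℂ) (idx v) := by
      apply mul_left_cancel₀ hs'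
      linear_combination h2
    have e3 : (stdAddChar : AddChar (ZMod n) ℂ) (idx w) = (stdAddChar : AddChar (ZMod n) ℂ) (idx v + hf n) := by
      rw [AddChar.map_add_eq_mul, chi_hf hn he, e2]
      ring
    have e4 := chi_inj e3
    have e5 : idx w = idx v + 1 := by
      rw [hw]
      unfold idx
      simp only
      split_ifs <;> ring
    rw [e5] at e4
    have e6 : (1 : ZMod n) = hf n := add_left_cancel e4
    apply two_ne hn
    have := hf_add (n := n) he
    rw [← e6] at this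
    rw [← this]
    norm_num
  rcases adj h with (h | h) | h
  · exact key v w h
  · intro e
    refine key w v h ?_
    rw [e, neg_neg]
  · intro e
    rw [ppos_eq hn he, ppos_eq hn he] at e
    have h1 := congrArg Prod.fst e
    simp only [Prod.fst_neg] at h1
    rw [h] at h1
    simp only at h1
    have : (c : ℂ) * (stdAddChar : AddChar (ZMod n) ℂ) (a * v.1) = 0 := by linear_combination (1 / 2 : ℂ) * h1
    exact mul_ne_zero hc' (chi_ne _) this

/-- interior points of rims and rungs -/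
def RInt (a : ZMod n) (c s : ℝ) (i : ZMod n) (b : Bool) (x : ℂ × ℂ) : Prop :=
  ∃ l μ : ℝ, 0 < l ∧ 0 < μ ∧ x = l • ppos n a c s (i, b) + μ • ppos n a c s (i + 1, b)

def GInt (a : ZMod n) (c s : ℝ) (i : ZMod n) (x : ℂ × ℂ) : Prop :=
  ∃ l μ : ℝ, 0 < l ∧ 0 < μ ∧ x = l • ppos n a c s (i, false) + μ • ppos n a c s (i, true)

lemma idx_succ (i : ZMod n) (b : Bool) : idx (i + 1, b) = idx (i, b) + 1 := by
  unfold idx
  simp only
  split_ifs <;> ring

lemma ip_self_eq (p : ℂ × ℂ) : ip p p = ‖p.1‖ ^ 2 + ‖p.2‖ ^ 2 := by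
  unfold ip
  rw [← Complex.normSq_eq_norm_sq, ← Complex.normSq_eq_norm_sq, Complex.normSq_apply, Complex.normSq_apply]
  ring

lemma unit (hn : 4 ≤ n) (he : Even n) {a : ZMod n} {c s : ℝ} (h : c ^ 2 + s ^ 2 = 1) (v : ZMod n × Bool) :
    ip (ppos n a c s v) (ppos n a c s v) = 1 := by
  rw [ip_self_eq, ppos_eq hn he]
  simp only [norm_mul, chi_norm, mul_one, Complex.norm_real, Real.norm_eq_abs, sq_abs]
  exact h

lemma ip_smul (l : ℝ) (p : ℂ × ℂ) : ip (l • p) (l • p) = l ^ 2 * ip p p := by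
  unfold ip
  simp
  ring

lemma edge_pt {p q x : ℂ × ℂ} (hp : ip p p = 1) (hq : ip q q = 1) (hx : x ∈ arc p q) :
    x = p ∨ x = q ∨ ∃ l μ : ℝ, 0 < l ∧ 0 < μ ∧ x = l • p + μ • q := by
  obtain ⟨h1, l, m, hl, hm, rfl⟩ := hx
  rcases hl.eq_or_lt with h | h
  · right; left
    rw [← h] at h1 ⊢
    rw [zero_smul, zero_add] at h1 ⊢
    rw [ip_smul, hq, mul_one] at h1
    have : m = 1 := by nlinarith
    rw [this, one_smul]
  · rcases hm.eq_or_lt with h' | h'
    · left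
      rw [← h'] at h1 ⊢
      rw [zero_smul, add_zero] at h1 ⊢
      rw [ip_smul, hp, mul_one] at h1
      have : l = 1 := by nlinarith
      rw [this, one_smul]
    · right; right
      exact ⟨l, m, h, h', rfl⟩

lemma classify (hn : 4 ≤ n) (he : Even n) {a : ZMod n} {c s : ℝ} (h : c ^ 2 + s ^ 2 = 1)
    {v w : ZMod n × Bool} (hvw : (prism n).Adj v w) {x : ℂ × ℂ}
    (hx : x ∈ arc (ppos n a c s v) (ppos n a c s w)) :
    x = ppos n a c s v ∨ x = ppos n a c s w ∨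
      (∃ i b, s(v, w) = s((i, b), (i + 1, b)) ∧ RInt a c s i b x) ∨
      (∃ i, s(v, w) = s((i, false), (i, true)) ∧ GInt a c s i x) := by
  rcases edge_pt (unit hn he h v) (unit hn he h w) hx with h1 | h1 | ⟨l, μ, hl, hμ, hxe⟩
  · exact Or.inl h1
  · exact Or.inr (Or.inl h1)
  · right; right
    rcases adj hvw with (h2 | h2) | h2
    · left
      refine ⟨v.1, v.2, ?_, l, μ, hl, hμ, ?_⟩
      · rw [h2]
      · rw [hxe, h2]
    · left
      refine ⟨w.1, w.2, ?_, μ, l, hμ, hl, ?_⟩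
      · rw [Sym2.eq_swap, h2]
      · rw [hxe, add_comm]
        congr 2
        rw [← h2]
    · right
      obtain ⟨i, b⟩ := v
      simp only at h2
      cases b
      · refine ⟨i, ?_, l, μ, hl, hμ, ?_⟩
        · rw [h2]
          rfl
        · rw [hxe, h2]
          rfl
      · refine ⟨i, ?_, μ, l, hμ, hl, ?_⟩
        · rw [h2, Sym2.eq_swap]
          rfl
        · rw [hxe, h2, add_comm]
          rfl

/-- second coordinate of a rim point -/
lemma rint_snd (hpol : PolStm) (hn : 4 ≤ n) (he : Even n) {a : ZMod n} {c s : ℝ} {i : ZMod n} {b : Bool}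
    {x : ℂ × ℂ} (hx : RInt a c s i b x) :
    ∃ l μ ρ ω : ℝ, 0 < l ∧ 0 < μ ∧ 0 < ρ ∧ 0 < ω ∧ ω < 2 * Real.pi / n ∧
      x.1 = (c : ℂ) * ((stdAddChar : AddChar (ZMod n) ℂ) (a * i) * (l + μ * (stdAddChar : AddChar (ZMod n) ℂ) a)) ∧
      x.2 = (s : ℂ) * ((ρ : ℂ) * ((stdAddChar : AddChar (ZMod n) ℂ) (idx (i, b)) * exp (ω * I))) ∧
      (l : ℂ) + μ * exp (((2 * Real.pi / n : ℝ) : ℂ) * I) = ρ * exp (ω * I) := by
  obtain ⟨l, μ, hl, hμ, rfl⟩ := hx
  have hn' : (4 : ℝ) ≤ n := by exact_mod_cast hn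
  have hβ0 : 0 < 2 * Real.pi / n := by
    have := Real.pi_pos
    positivity
  have hβ1 : 2 * Real.pi / n < Real.pi := by
    rw [div_lt_iff₀ (by linarith)]
    nlinarith [Real.pi_pos]
  obtain ⟨ρ, ω, hρ, h0, h1, h2, h3, h4⟩ := hpol (2 * Real.pi / n) l μ hβ0 hβ1 hl.le hμ.le (Or.inl hl.ne')
  refine ⟨l, μ, ρ, ω, hl, hμ, hρ, ?_, ?_, ?_, ?_, h4⟩
  · exact lt_of_le_of_ne h0 (fun e => hμ.ne' (h2.mp e.symm))
  · exact lt_of_le_of_ne h1 (fun e => hl.ne' (h3.mp e))
  · rw [ppos_eq hn he, ppos_eq hn he]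
    simp only [Prod.fst_add, Prod.smul_fst, Complex.real_smul]
    rw [mul_add, AddChar.map_add_eq_mul, mul_one]
    ring
  · rw [ppos_eq hn he, ppos_eq hn he]
    simp only [Prod.snd_add, Prod.smul_snd, Complex.real_smul]
    rw [idx_succ, AddChar.map_add_eq_mul, chi_one]
    linear_combination ((s : ℂ) * (stdAddChar : AddChar (ZMod n) ℂ) (idx (i, b))) * h4

lemma exp0 : exp (((0 : ℝ) : ℂ) * I) = 1 := by
  rw [Complex.ofReal_zero, zero_mul, Complex.exp_zero]

/-- rim against a multiple of a character value -/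
lemma rint_ray (hpol : PolStm) (hsec : SecStm) (hn : 4 ≤ n) (he : Even n) {a : ZMod n} {c s : ℝ} (hs : 0 < s)
    {i : ZMod n} {b : Bool} {x : ℂ × ℂ} (hx : RInt a c s i b x) (j : ZMod n) (t : ℝ) (ht : 0 ≤ t)
    (h : x.2 = (s : ℂ) * (t * (stdAddChar : AddChar (ZMod n) ℂ) j)) : False := by
  obtain ⟨l, μ, ρ, ω, hl, hμ, hρ, h0, h1, -, h2, -⟩ := rint_snd hpol hn he hx
  have hs' : (s : ℂ) ≠ 0 := by exact_mod_cast hs.ne'
  rw [h2] at h
  have e := mul_left_cancel₀ hs' h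
  rcases ht.eq_or_lt with ht | ht
  · rw [← ht, Complex.ofReal_zero, zero_mul] at e
    have hρ' : (ρ : ℂ) ≠ 0 := by exact_mod_cast hρ.ne'
    exact mul_ne_zero hρ' (mul_ne_zero (chi_ne _) (Complex.exp_ne_zero _)) e
  · have hβ0 : 0 < 2 * Real.pi / n := h0.trans h1
    have e' : (ρ : ℂ) * ((stdAddChar : AddChar (ZMod n) ℂ) (idx (i, b)) * exp (ω * I)) = t * ((stdAddChar : AddChar (ZMod n) ℂ) j * exp (((0 : ℝ) : ℂ) * I)) := by
      rw [e, exp0, mul_one]
    have := (hsec n _ _ ρ t ω 0 hρ ht h0.le h1 le_rfl hβ0 e').2.1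
    linarith

lemma rim_vertex (hpol : PolStm) (hsec : SecStm) (hn : 4 ≤ n) (he : Even n) {a : ZMod n} {c s : ℝ} (hs : 0 < s)
    {i : ZMod n} {b : Bool} (v : ZMod n × Bool) : ¬ RInt a c s i b (ppos n a c s v) := by
  intro h
  refine rint_ray hpol hsec hn he hs h (idx v) 1 zero_le_one ?_
  rw [ppos_eq hn he]
  simp

lemma gint_coord (hn : 4 ≤ n) (he : Even n) {a : ZMod n} {c s : ℝ} {i : ZMod n} {x : ℂ × ℂ}
    (hx : GInt a c s i x) : ∃ l μ : ℝ, 0 < l ∧ 0 < μ ∧ x.1 = (c : ℂ) * (((l + μ : ℝ) : ℂ) * (stdAddChar : AddChar (ZMod n) ℂ) (a * i)) ∧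
      x.2 = (s : ℂ) * (((l - μ : ℝ) : ℂ) * (stdAddChar : AddChar (ZMod n) ℂ) i) := by
  obtain ⟨l, μ, hl, hμ, rfl⟩ := hx
  refine ⟨l, μ, hl, hμ, ?_, ?_⟩
  · unfold ppos
    simp only [Prod.fst_add, Prod.smul_fst, Complex.real_smul]
    push_cast
    ring
  · unfold ppos
    simp only [Prod.snd_add, Prod.smul_snd, Complex.real_smul]
    push_cast
    simp
    ring

lemma rim_rung (hpol : PolStm) (hsec : SecStm) (hn : 4 ≤ n) (he : Even n) {a : ZMod n} {c s : ℝ} (hs : 0 < s)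
    {i i' : ZMod n} {b : Bool} {x : ℂ × ℂ} (hx : RInt a c s i b x) (hx' : GInt a c s i' x) : False := by
  obtain ⟨l, μ, -, -, -, h2⟩ := gint_coord hn he hx'
  rcases le_total μ l with h | h
  · exact rint_ray hpol hsec hn he hs hx i' (l - μ) (by linarith) h2
  · refine rint_ray hpol hsec hn he hs hx (i' + hf n) (μ - l) (by linarith) ?_
    rw [h2, AddChar.map_add_eq_mul, chi_hf hn he]
    push_cast
    ring

lemma ray_inj {j j' : ZMod n} {t t' : ℝ} (ht : 0 < t) (ht' : 0 < t') (h : (t : ℂ) * (stdAddChar : AddChar (ZMod n) ℂ) j = t' * (stdAddChar : AddChar (ZMod n) ℂ) j') :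
    j = j' ∧ t = t' := by
  have h1 := congrArg norm h
  rw [norm_mul, norm_mul, chi_norm, chi_norm, mul_one, mul_one, Complex.norm_real, Complex.norm_real,
    Real.norm_eq_abs, Real.norm_eq_abs, abs_of_pos ht, abs_of_pos ht'] at h1
  rw [h1] at h
  have : (t' : ℂ) ≠ 0 := by exact_mod_cast ht'.ne'
  exact ⟨chi_inj (mul_left_cancel₀ this h), h1⟩

lemma rung_rung (hn : 4 ≤ n) (he : Even n) {a : ZMod n} (ha : ∀ j, a * j = 0 → j = 0) {c s : ℝ} (hc : 0 < c)
    {i i' : ZMod n} {x : ℂ × ℂ} (hx : GInt a c s i x) (hx' : GInt a c s i' x) : i = i' := by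
  obtain ⟨l, μ, hl, hμ, h1, -⟩ := gint_coord hn he hx
  obtain ⟨l', μ', hl', hμ', h1', -⟩ := gint_coord hn he hx'
  have hc' : (c : ℂ) ≠ 0 := by exact_mod_cast hc.ne'
  rw [h1] at h1'
  have e := (ray_inj (by linarith) (by linarith) (mul_left_cancel₀ hc' h1')).1
  have := ha (i - i') (by rw [mul_sub, e, sub_self])
  exact sub_eq_zero.mp this

lemma rung_vertex (hn : 4 ≤ n) (he : Even n) {a : ZMod n} (ha : ∀ j, a * j = 0 → j = 0) {c s : ℝ} (hc : 0 < c)
    (hs : 0 < s) {i : ZMod n} (v : ZMod n × Bool) : ¬ GInt a c s i (ppos n a c s v) := by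
  intro h
  obtain ⟨l, μ, hl, hμ, h1, h2⟩ := gint_coord hn he h
  have hc' : (c : ℂ) ≠ 0 := by exact_mod_cast hc.ne'
  have hs' : (s : ℂ) ≠ 0 := by exact_mod_cast hs.ne'
  unfold ppos at h1 h2
  simp only at h1 h2
  have e1 : ((1 : ℝ) : ℂ) * (stdAddChar : AddChar (ZMod n) ℂ) (a * v.1) = ((l + μ : ℝ) : ℂ) * (stdAddChar : AddChar (ZMod n) ℂ) (a * i) := by
    rw [Complex.ofReal_one, one_mul]
    exact mul_left_cancel₀ hc' h1
  obtain ⟨e2, e3⟩ := ray_inj one_pos (by linarith) e1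
  have e4 : v.1 = i := by
    have := ha (v.1 - i) (by rw [mul_sub, e2, sub_self])
    exact sub_eq_zero.mp this
  have e5 := mul_left_cancel₀ hs' h2
  rw [e4] at e5
  have e6 := mul_right_cancel₀ (chi_ne i) e5
  by_cases hb : v.2
  · rw [if_pos hb] at e6
    have : (-1 : ℝ) = l - μ := by exact_mod_cast e6
    linarith
  · rw [if_neg hb] at e6
    have : (1 : ℝ) = l - μ := by exact_mod_cast e6
    linarith

lemma rim_rim (hpol : PolStm) (hsec : SecStm) (hn : 4 ≤ n) (he : Even n) {a : ZMod n}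
    (ha : ∀ j, a * j = 0 → j = 0) (hah : (stdAddChar : AddChar (ZMod n) ℂ) (a * hf n) = -1) {c s : ℝ} (hc : 0 < c) (hs : 0 < s)
    {i i' : ZMod n} {b b' : Bool} {x : ℂ × ℂ} (hx : RInt a c s i b x) (hx' : RInt a c s i' b' x) :
    i = i' ∧ b = b' := by
  obtain ⟨l, μ, ρ, ω, hl, hμ, hρ, h0, h1, hx1, hx2, hx3⟩ := rint_snd hpol hn he hx
  obtain ⟨l', μ', ρ', ω', hl', hμ', hρ', h0', h1', hx1', hx2', hx3'⟩ := rint_snd hpol hn he hx'
  have hc' : (c : ℂ) ≠ 0 := by exact_mod_cast hc.ne'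
  have hs' : (s : ℂ) ≠ 0 := by exact_mod_cast hs.ne'
  rw [hx2] at hx2'
  obtain ⟨e1, e2, e3⟩ := hsec n _ _ ρ ρ' ω ω' hρ hρ' h0.le h1 h0'.le h1' (mul_left_cancel₀ hs' hx2')
  rw [← e2, ← e3, ← hx3] at hx3'
  have hβ1 : 2 * Real.pi / n < Real.pi := by
    have hn' : (4 : ℝ) ≤ n := by exact_mod_cast hn
    rw [div_lt_iff₀ (by linarith)]
    nlinarith [Real.pi_pos]
  have hsin : 0 < Real.sin (2 * Real.pi / n) := Real.sin_pos_of_pos_of_lt_pi (h0.trans h1) hβ1
  have him := congrArg Complex.im hx3'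
  have hre := congrArg Complex.re hx3'
  rw [Complex.exp_mul_I, ← Complex.ofReal_cos, ← Complex.ofReal_sin] at him hre
  simp only [Complex.add_im, Complex.mul_im, Complex.ofReal_im, Complex.ofReal_re, Complex.add_re,
    Complex.mul_re, Complex.I_re, Complex.I_im, mul_zero, zero_mul, add_zero, zero_add, sub_zero, mul_one] at him hre
  have hμμ : μ' = μ := by
    have : (μ' - μ) * Real.sin (2 * Real.pi / n) = 0 := by linear_combination him
    rcases mul_eq_zero.mp this with h | h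
    · linarith
    · exact absurd h hsin.ne'
  have hll : l' = l := by
    rw [hμμ] at hre
    linarith
  rw [hll, hμμ, hx1] at hx1'
  have e4 := mul_left_cancel₀ hc' hx1'
  have hne : (l : ℂ) + μ * (stdAddChar : AddChar (ZMod n) ℂ) a ≠ 0 := by
    intro hz
    have hμ' : (μ : ℂ) ≠ 0 := by exact_mod_cast hμ.ne'
    have hchi0 : (stdAddChar : AddChar (ZMod n) ℂ) a = ((-(l / μ) : ℝ) : ℂ) := by
      push_cast
      field_simp
      linear_combination hz
    have hnorm := chi_norm a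
    rw [hchi0, Complex.norm_real, Real.norm_eq_abs, abs_neg, abs_of_pos (div_pos hl hμ)] at hnorm
    rw [hnorm] at hchi0
    have h2 : (stdAddChar : AddChar (ZMod n) ℂ) (a * 2) = (stdAddChar : AddChar (ZMod n) ℂ) 0 := by
      rw [mul_two, AddChar.map_add_eq_mul, hchi0, AddChar.map_zero_eq_one]
      push_cast
      ring
    exact two_ne hn (ha 2 (chi_inj h2))
  have e5 := chi_inj (mul_right_cancel₀ hne e4)
  have e6 : i = i' := by
    have := ha (i - i') (by rw [mul_sub, e5, sub_self])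
    exact sub_eq_zero.mp this
  subst e6
  exact ⟨rfl, idx_inj hn e1⟩

end PEMBx

open PEMBx in
theorem pemb (hpol : PolStm) (hsec : SecStm) : PembStm := by
  intro n _ hn he a ha hah c s hc hs hcs
  have hah' : (stdAddChar : AddChar (ZMod n) ℂ) (a * hf n) = -1 := hah
  have hinj := inj hn he ha hc hs
  refine ⟨hinj, antip hn he hc hs, ?_⟩
  intro v w v' w' hvw hvw' hne x hx hx'
  have main : ∀ (v w v' w' : ZMod n × Bool), (prism n).Adj v w → (prism n).Adj v' w' →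
      (x = ppos n a c s v ∨ x = ppos n a c s w) → x ∈ arc (ppos n a c s v') (ppos n a c s w') →
      ∃ u, (u = v ∨ u = w) ∧ (u = v' ∨ u = w') ∧ x = ppos n a c s u := by
    intro v w v' w' h1 h2 h3 h4
    obtain ⟨u, hu, hxu⟩ : ∃ u, (u = v ∨ u = w) ∧ x = ppos n a c s u := by
      rcases h3 with h3 | h3
      · exact ⟨v, Or.inl rfl, h3⟩
      · exact ⟨w, Or.inr rfl, h3⟩
    refine ⟨u, hu, ?_, hxu⟩
    rcases classify hn he hcs h2 h4 with h | h | ⟨i, b, -, h⟩ | ⟨i, -, h⟩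
    · exact Or.inl (hinj (hxu.symm.trans h))
    · exact Or.inr (hinj (hxu.symm.trans h))
    · rw [hxu] at h
      exact absurd h (rim_vertex hpol hsec hn he hs u)
    · rw [hxu] at h
      exact absurd h (rung_vertex hn he ha hc hs u)
  rcases classify hn he hcs hvw hx with h | h | ⟨i, b, hs1, h⟩ | ⟨i, hs1, h⟩
  · exact main v w v' w' hvw hvw' (Or.inl h) hx'
  · exact main v w v' w' hvw hvw' (Or.inr h) hx'
  · rcases classify hn he hcs hvw' hx' with h' | h' | ⟨i', b', hs2, h'⟩ | ⟨i', hs2, h'⟩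
    · rw [h'] at h
      exact absurd h (rim_vertex hpol hsec hn he hs v')
    · rw [h'] at h
      exact absurd h (rim_vertex hpol hsec hn he hs w')
    · obtain ⟨e1, e2⟩ := rim_rim hpol hsec hn he ha hah' hc hs h h'
      exact absurd (by rw [hs1, hs2, e1, e2]) hne
    · exact (rim_rung hpol hsec hn he hs h h').elim
  · rcases classify hn he hcs hvw' hx' with h' | h' | ⟨i', b', hs2, h'⟩ | ⟨i', hs2, h'⟩
    · rw [h'] at h
      exact absurd h (rung_vertex hn he ha hc hs v')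
    · rw [h'] at h
      exact absurd h (rung_vertex hn he ha hc hs w')
    · exact (rim_rung hpol hsec hn he hs h' h).elim
    · have e1 := rung_rung hn he ha hc h h'
      exact absurd (by rw [hs1, hs2, e1]) hne

end Pool.Agent.T2H75.GN
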