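import Pool.Agent.T2H75.GN.Stm

namespace Pool.Agent.T2H75.GN

open Complex ZMod

/-- POL -/
theorem pol : PolStm := by
  intro φ l m h0 hπ hl hm hlm
  have hsφ : 0 < Real.sin φ := Real.sin_pos_of_pos_of_lt_pi h0 hπ
  set z : ℂ := (l : ℂ) + m * exp (φ * I) with hz
  have hre : z.re = l + m * Real.cos φ := by
    rw [hz, add_re, ofReal_re, re_ofReal_mul, exp_ofReal_mul_I_re]
  have him : z.im = m * Real.sin φ := by
    rw [hz, add_im, ofReal_im, im_ofReal_mul, exp_ofReal_mul_I_im, zero_add]
  have hz0 : z ≠ 0 := by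
    intro h
    have h1 : z.im = 0 := by rw [h]; rfl
    rw [him] at h1
    have hm0 : m = 0 := by
      rcases mul_eq_zero.mp h1 with h2 | h2
      · exact h2
      · exact absurd h2 hsφ.ne'
    have h3 : z.re = 0 := by rw [h]; rfl
    rw [hre, hm0, zero_mul, add_zero] at h3
    rcases hlm with h4 | h4
    · exact h4 h3
    · exact h4 hm0
  have hρ : 0 < ‖z‖ := norm_pos_iff.mpr hz0
  have hpolar : (‖z‖ : ℂ) * exp (arg z * I) = z := norm_mul_exp_arg_mul_I z
  have hω0 : 0 ≤ arg z := by
    rw [arg_nonneg_iff, him]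
    exact mul_nonneg hm hsφ.le
  have hωπ : arg z ≤ Real.pi := arg_le_pi z
  have hc : ‖z‖ * Real.cos (arg z) = l + m * Real.cos φ := by
    rw [← hre]
    conv_rhs => rw [← hpolar]
    rw [re_ofReal_mul, exp_ofReal_mul_I_re]
  have hs : ‖z‖ * Real.sin (arg z) = m * Real.sin φ := by
    rw [← him]
    conv_rhs => rw [← hpolar]
    rw [im_ofReal_mul, exp_ofReal_mul_I_im]
  have hsub : ‖z‖ * Real.sin (arg z - φ) = -(l * Real.sin φ) := by
    rw [Real.sin_sub]
    linear_combination Real.cos φ * hs - Real.sin φ * hc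
  have hle : arg z ≤ φ := by
    by_contra h
    push Not at h
    have h1 : 0 < Real.sin (arg z - φ) :=
      Real.sin_pos_of_pos_of_lt_pi (by linarith) (by linarith)
    have h2 := mul_pos hρ h1
    rw [hsub] at h2
    have h3 := mul_nonneg hl hsφ.le
    linarith
  refine ⟨‖z‖, arg z, hρ, hω0, hle, ⟨fun h => ?_, fun h => ?_⟩, ⟨fun h => ?_, fun h => ?_⟩,
    hpolar.symm⟩
  · rw [h, Real.sin_zero, mul_zero] at hs
    rcases mul_eq_zero.mp hs.symm with h2 | h2
    · exact h2
    · exact absurd h2 hsφ.ne'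
  · rw [h, zero_mul] at hs
    by_contra hne
    have h1 : 0 < Real.sin (arg z) :=
      Real.sin_pos_of_pos_of_lt_pi (lt_of_le_of_ne hω0 (Ne.symm hne)) (by linarith)
    have h2 := mul_pos hρ h1
    linarith
  · rw [h, sub_self, Real.sin_zero, mul_zero] at hsub
    have h1 : l * Real.sin φ = 0 := by linarith
    rcases mul_eq_zero.mp h1 with h2 | h2
    · exact h2
    · exact absurd h2 hsφ.ne'
  · rw [h, zero_mul, neg_zero] at hsub
    by_contra hne
    have h1 : 0 < Real.sin (φ - arg z) :=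
      Real.sin_pos_of_pos_of_lt_pi (by
        have : arg z < φ := lt_of_le_of_ne hle hne
        linarith) (by linarith)
    have h2 := mul_pos hρ h1
    rw [← neg_sub, Real.sin_neg] at hsub
    linarith

end Pool.Agent.T2H75.GN
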