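import Pool.Agent.T2H75.GN.Asm
import Pool.Agent.T2H75.GN.GEN
import Pool.Agent.T2H75.GN.POL
import Pool.Agent.T2H75.GN.SEC
import Pool.Agent.T2H75.GN.BTR
import Pool.Agent.T2H75.GN.BIV
import Pool.Agent.T2H75.GN.BBAL
import Pool.Agent.T2H75.GN.BADJ1
import Pool.Agent.T2H75.GN.BADJ2
import Pool.Agent.T2H75.GN.BNB
import Pool.Agent.T2H75.GN.BLOC
import Pool.Agent.T2H75.GN.BZZ
import Pool.Agent.T2H75.GN.BVV
import Pool.Agent.T2H75.GN.BPT
import Pool.Agent.T2H75.GN.MAR
import Pool.Agent.T2H75.GN.PAR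
import Pool.Agent.T2H75.GN.MIV
import Pool.Agent.T2H75.GN.MBAL
import Pool.Agent.T2H75.GN.MADJ
import Pool.Agent.T2H75.GN.MEMB
import Pool.Agent.T2H75.GN.PEMB

/-! Project GN: the three families, unconditionally. -/

namespace Pool.Agent.T2H75.GN

theorem brick_nets : BrickTarget :=
  brick_target gen btr biv bbal
    (fun m k _ _ hm hk => ⟨badj2 m k hm hk, badj1 m k hm hk⟩) bnb
    (bemb bloc (bzz pol sec) (bvv pol sec) (bpt pol sec))

theorem moebius_nets : MoebiusTarget :=
  moebius_target gen mar miv mbal madj (memb pol sec)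

theorem prism_nets : PrismTarget :=
  prism_target gen par miv mbal madj (pemb pol sec)

end Pool.Agent.T2H75.GN
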