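import Pool.Agent.T2H75.GN.Stm2

set_option autoImplicit false

namespace Pool.Agent.T2H75.GN

open Complex ZMod

namespace GADJ

lemma cast_ne (N a : ℕ) (h0 : 0 < a) (h1 : a < N) : (a : ZMod N) ≠ 0 := by
  intro h
  rw [ZMod.natCast_eq_zero_iff] at h
  exact absurd (Nat.le_of_dvd h0 h) (by omega)

end GADJ

open GADJ in
theorem gadj : GadjStm := by
  intro n _ k hn hk
  have f1 : (1 : ZMod n) ≠ 0 := by
    simpa using cast_ne n 1 (by omega) (by omega)
  have f2 : (2 : ZMod n) ≠ 0 := by
    simpa using cast_ne n 2 (by omega) (by omega)
  have k2 : 2 * k ≠ 0 := by
    rw [Ne, hk.mul_left_eq_zero]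
    exact f2
  have k1 : k ≠ 0 := by
    rintro rfl
    exact k2 (mul_zero _)
  have hadj : ∀ v w, (petersen n k).Adj v w ↔
      w = (v.1 + (if v.2 then k else 1), v.2) ∨ w = (v.1 - (if v.2 then k else 1), v.2) ∨
        w = (v.1, !v.2) := by
    rintro ⟨a, b⟩ ⟨a', b'⟩
    unfold petersen
    rw [SimpleGraph.fromRel_adj]
    simp only [Prod.mk.injEq, ne_eq, not_and]
    cases b <;> cases b'
    · simp only [Bool.false_eq_true, if_false, true_and, false_and, and_true, and_false, or_false,
        false_or, Bool.not_false, reduceCtorEq]
      constructor
      · rintro ⟨-, h | h⟩
        · exact Or.inl h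
        · right; rw [h]; ring
      · rintro (h | h)
        · refine ⟨?_, Or.inl h⟩
          intro h' _
          exact f1 (by linear_combination -h - h')
        · refine ⟨?_, Or.inr (by rw [h]; ring)⟩
          intro h' _
          exact f1 (by linear_combination h + h')
    · simp only [Bool.false_eq_true, if_false, true_and, false_and, and_true, and_false, or_false,
        false_or, Bool.not_false, reduceCtorEq, not_false_eq_true, implies_true, Bool.not_true,
        Bool.true_eq_false]
      constructor
      · rintro (h | h)
        · exact h
        · exact h.symm
      · intro h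
        exact Or.inl h
    · simp only [Bool.false_eq_true, if_false, true_and, false_and, and_true, and_false, or_false,
        false_or, Bool.not_false, reduceCtorEq, not_false_eq_true, implies_true, Bool.not_true,
        Bool.true_eq_false]
      constructor
      · rintro (h | h)
        · exact h
        · exact h.symm
      · intro h
        exact Or.inl h
    · simp only [Bool.false_eq_true, if_false, true_and, false_and, and_true, and_false, or_false,
        false_or, Bool.not_false, reduceCtorEq, if_true, Bool.not_true, Bool.true_eq_false]
      constructor
      · rintro ⟨-, h | h⟩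
        · exact Or.inl h
        · right; rw [h]; ring
      · rintro (h | h)
        · refine ⟨?_, Or.inl h⟩
          intro h' _
          exact k1 (by linear_combination -h - h')
        · refine ⟨?_, Or.inr (by rw [h]; ring)⟩
          intro h' _
          exact k1 (by linear_combination h + h')
  refine ⟨?_, hadj, ?_⟩
  · have hr : ∀ j : ℕ, (petersen n k).Reachable (0, false) ((j : ZMod n), false) := by
      intro j
      induction j with
      | zero => simp
      | succ j ih =>
        refine ih.trans (SimpleGraph.Adj.reachable ?_)
        rw [hadj]
        left
        push_cast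
        rfl
    have hr' : ∀ v : ZMod n × Bool, (petersen n k).Reachable (0, false) v := by
      rintro ⟨i, b⟩
      have h1 := hr i.val
      rw [ZMod.natCast_zmod_val] at h1
      cases b
      · exact h1
      · refine h1.trans (SimpleGraph.Adj.reachable ?_)
        rw [hadj]
        right; right
        rfl
    exact ⟨fun i j => (hr' i).symm.trans (hr' j)⟩
  · rintro ⟨i, b⟩
    refine ⟨?_, ?_, ?_⟩
    · intro h
      rw [Prod.mk.injEq] at h
      have h1 := h.1
      cases b
      · simp only [Bool.false_eq_true, if_false] at h1
        exact f2 (by linear_combination h1)
      · simp only [if_true] at h1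
        exact k2 (by linear_combination h1)
    · intro h
      rw [Prod.mk.injEq] at h
      have := h.2
      cases b <;> simp at this
    · intro h
      rw [Prod.mk.injEq] at h
      have := h.2
      cases b <;> simp at this

end Pool.Agent.T2H75.GN
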