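import Pool.Agent.T2H75.GN.Stm2

/-! Package GBAL of project GN: balance at a vertex of a generalised Petersen graph. -/

set_option autoImplicit false

namespace Pool.Agent.T2H75.GN

open Complex ZMod

namespace GBAL

theorem sq_one (u : ℂ) (hu : ‖u‖ = 1) : u.re ^ 2 + u.im ^ 2 = 1 := by
  have := Complex.sq_norm u
  rw [hu, Complex.normSq_apply] at this
  nlinarith

theorem ip_rot (c s α β : ℝ) (u v : ℂ) (hu : ‖u‖ = 1) (hv : ‖v‖ = 1) :
    ip ((c : ℂ) * u, (s : ℂ) * v) ((c : ℂ) * (u * exp (α * I)), (s : ℂ) * (v * exp (β * I))) =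
      c ^ 2 * Real.cos α + s ^ 2 * Real.cos β := by
  have h1 := sq_one u hu
  have h2 := sq_one v hv
  simp only [ip, Complex.mul_re, Complex.mul_im, Complex.ofReal_re, Complex.ofReal_im,
    Complex.exp_ofReal_mul_I_re, Complex.exp_ofReal_mul_I_im]
  linear_combination (c ^ 2 * Real.cos α) * h1 + (s ^ 2 * Real.cos β) * h2

theorem ip_spoke (c s c' s' : ℝ) (u v : ℂ) (hu : ‖u‖ = 1) (hv : ‖v‖ = 1) :
    ip ((c : ℂ) * u, (s : ℂ) * v) ((c' : ℂ) * u, (s' : ℂ) * v) = c * c' + s * s' := by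
  have h1 := sq_one u hu
  have h2 := sq_one v hv
  simp only [ip, Complex.mul_re, Complex.mul_im, Complex.ofReal_re, Complex.ofReal_im]
  linear_combination (c * c') * h1 + (s * s') * h2

theorem clear (S x a b d : ℂ) (hS : S ≠ 0) (hx : x ≠ 0) :
    S⁻¹ * a + S⁻¹ * b + x⁻¹ * d = S⁻¹ * x⁻¹ * (a * x + b * x + S * d) := by
  field_simp

end GBAL

open GBAL

theorem gbal : GbalStm := by
  intro α β c s c' s' e u v hu hv hc hs hcs hc' hs' hcs' hlt he hS
  have e1 := GBAL.ip_rot c s α β u v hu hv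
  have e2 := GBAL.ip_rot c s (-α) (-β) u v hu hv
  rw [Real.cos_neg, Real.cos_neg] at e2
  have e3 := GBAL.ip_spoke c s c' s' u v hu hv
  have hcast1 : exp (((-α : ℝ) : ℂ) * I) = exp (-(α * I)) := by
    congr 1
    push_cast
    ring
  have hcast2 : exp (((-β : ℝ) : ℂ) * I) = exp (-(β * I)) := by
    congr 1
    push_cast
    ring
  rw [hcast1, hcast2] at e2
  set κ : ℝ := c ^ 2 * Real.cos α + s ^ 2 * Real.cos β with hκ
  have hS0 : 0 < √(1 - κ ^ 2) := Real.sqrt_pos.2 (by linarith)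
  have hpos : 0 < e * (c' * s - c * s') ∧ e ^ 2 = 1 := by
    rcases he with ⟨h1, h2⟩ | ⟨h1, h2⟩
    · subst h1
      have h3 : s' < s := by
        by_contra hcon
        rw [not_lt] at hcon
        nlinarith
      refine ⟨?_, by norm_num⟩
      nlinarith
    · subst h1
      have h3 : s < s' := by
        by_contra hcon
        rw [not_lt] at hcon
        nlinarith
      refine ⟨?_, by norm_num⟩
      nlinarith
  obtain ⟨hx, he2⟩ := hpos
  have hT : √(1 - (c * c' + s * s') ^ 2) = e * (c' * s - c * s') := by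
    have : 1 - (c * c' + s * s') ^ 2 = (e * (c' * s - c * s')) ^ 2 := by
      have h1 : (c ^ 2 + s ^ 2) * (c' ^ 2 + s' ^ 2) = 1 := by rw [hcs, hcs']; norm_num
      linear_combination -h1 - (c' * s - c * s') ^ 2 * he2
    rw [this, Real.sqrt_sq hx.le]
  set S : ℝ := √(1 - κ ^ 2) with hSdef
  simp only [tang, e1, e2, e3, hT]
  have hexp1 : exp (α * I) + exp (-(α * I)) = 2 * (Real.cos α : ℂ) := by
    rw [Complex.ofReal_cos, Complex.two_cos, neg_mul]
  have hexp2 : exp (β * I) + exp (-(β * I)) = 2 * (Real.cos β : ℂ) := by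
    rw [Complex.ofReal_cos, Complex.two_cos, neg_mul]
  have hSc : (S : ℂ) ≠ 0 := by exact_mod_cast hS0.ne'
  have hxc : (e : ℂ) * ((c' : ℂ) * s - c * s') ≠ 0 := by exact_mod_cast hx.ne'
  have hcsc : (c : ℂ) ^ 2 + (s : ℂ) ^ 2 = 1 := by exact_mod_cast hcs
  have he2c : (e : ℂ) ^ 2 = 1 := by exact_mod_cast he2
  have hSe : 2 * (c : ℂ) * s * ((Real.cos β : ℂ) - (Real.cos α : ℂ)) = e * S := by
    exact_mod_cast hS
  have key : ∀ a b d : ℂ, a * (e * ((c' : ℂ) * s - c * s')) + b * (e * ((c' : ℂ) * s - c * s')) + S * d = 0 →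
      (S : ℂ)⁻¹ * a + (S : ℂ)⁻¹ * b + ((e : ℂ) * ((c' : ℂ) * s - c * s'))⁻¹ * d = 0 := by
    intro a b d h
    have : (S : ℂ)⁻¹ * a + (S : ℂ)⁻¹ * b + ((e : ℂ) * ((c' : ℂ) * s - c * s'))⁻¹ * d =
        (S : ℂ)⁻¹ * ((e : ℂ) * ((c' : ℂ) * s - c * s'))⁻¹ *
        (a * (e * ((c' : ℂ) * s - c * s')) + b * (e * ((c' : ℂ) * s - c * s')) + S * d) :=
      GBAL.clear _ _ a b d hSc hxc
    rw [this, h, mul_zero]
  refine Prod.ext ?_ ?_
  · simp only [Prod.fst_add, Prod.smul_fst, Prod.fst_sub, Prod.fst_zero, Complex.real_smul]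
    rw [hκ]
    push_cast
    rw [← Complex.ofReal_cos, ← Complex.ofReal_cos]
    apply key
    linear_combination (e * ((c' : ℂ) * s - c * s') * c * u) * hexp1 +
      (-2 * e * ((c' : ℂ) * s - c * s') * c * u * (Real.cos α : ℂ) - S * u * c') * hcsc +
      (-(e * ((c' : ℂ) * s - c * s') * u * s)) * hSe +
      (-(((c' : ℂ) * s - c * s') * u * s * S)) * he2c
  · simp only [Prod.snd_add, Prod.smul_snd, Prod.snd_sub, Prod.snd_zero, Complex.real_smul]
    rw [hκ]
    push_cast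
    rw [← Complex.ofReal_cos, ← Complex.ofReal_cos]
    apply key
    linear_combination (e * ((c' : ℂ) * s - c * s') * s * v) * hexp2 +
      (-2 * e * ((c' : ℂ) * s - c * s') * s * v * (Real.cos β : ℂ) - S * v * s') * hcsc +
      (e * ((c' : ℂ) * s - c * s') * v * c) * hSe +
      (((c' : ℂ) * s - c * s') * v * c * S) * he2c

end Pool.Agent.T2H75.GN
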