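import Pool.Agent.T2H75.GN.Stm2

/-!
Package GEMB of project GN: injectivity, non-antipodality and embeddedness of the generalised
Petersen graphs.
-/

namespace Pool.Agent.T2H75.GN

open Complex ZMod

namespace GEMB

set_option linter.unusedSectionVars false

variable {n : ℕ} [NeZero n]

lemma chi_inj {x y : ZMod n} (h : (stdAddChar x : ℂ) = stdAddChar y) : x = y :=
  injective_stdAddChar h

lemma chi_norm (x : ZMod n) : ‖(stdAddChar x : ℂ)‖ = 1 := by
  rw [stdAddChar_apply]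
  exact Circle.norm_coe _

lemma chi_ne (x : ZMod n) : (stdAddChar x : ℂ) ≠ 0 := by
  intro h
  have := chi_norm x
  rw [h, norm_zero] at this
  exact zero_ne_one this

lemma chi_sq (x : ZMod n) : (stdAddChar x : ℂ).re ^ 2 + (stdAddChar x : ℂ).im ^ 2 = 1 := by
  have h := chi_norm x
  have h2 : ‖(stdAddChar x : ℂ)‖ ^ 2 = 1 := by rw [h]; norm_num
  rw [← Complex.normSq_eq_norm_sq, Complex.normSq_apply] at h2
  linarith [h2]

lemma chi_inner (x d : ZMod n) :
    (stdAddChar x : ℂ).re * (stdAddChar (x + d) : ℂ).re +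
      (stdAddChar x : ℂ).im * (stdAddChar (x + d) : ℂ).im = (stdAddChar d : ℂ).re := by
  rw [AddChar.map_add_eq_mul, Complex.mul_re, Complex.mul_im]
  have h := chi_sq x
  linear_combination (stdAddChar d : ℂ).re * h

lemma chi_neg_re (d : ZMod n) : (stdAddChar (-d) : ℂ).re = (stdAddChar d : ℂ).re := by
  have h1 := chi_inner (-d) d
  have h2 := chi_inner d (-d)
  rw [neg_add_cancel, AddChar.map_zero_eq_one] at h1
  rw [add_neg_cancel, AddChar.map_zero_eq_one] at h2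
  simp only [one_re, one_im, mul_one, mul_zero, add_zero] at h1 h2
  exact h1

lemma arc_symm {p q x : ℂ × ℂ} (h : x ∈ arc p q) : x ∈ arc q p := by
  obtain ⟨h1, l, m, hl, hm, h2⟩ := h
  exact ⟨h1, m, l, hm, hl, by rw [h2, add_comm]⟩

/-- if `x = l • p` for unit vectors `x`, `p` and `0 ≤ l` then `x = p` -/
lemma one_of_unit {p x : ℂ × ℂ} {l : ℝ} (hl : 0 ≤ l) (hp : ip p p = 1) (hx : ip x x = 1)
    (h : x = l • p) : x = p := by
  have h1 : ip x x = l ^ 2 * ip p p := by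
    rw [h]
    unfold ip
    simp only [Prod.smul_fst, Prod.smul_snd, Complex.smul_re, Complex.smul_im, smul_eq_mul]
    ring
  rw [hp, hx, mul_one] at h1
  have h2 : l = 1 := by nlinarith
  rw [h, h2, one_smul]

lemma norm_mul_chi {c : ℝ} (hc : 0 < c) (x : ZMod n) : ‖(c : ℂ) * stdAddChar x‖ = c := by
  rw [norm_mul, chi_norm, mul_one, Complex.norm_real, Real.norm_of_nonneg hc.le]

section

variable {k k' : ZMod n} {c s c' s' : ℝ}

lemma g_false (a : ZMod n) : gpos n k' c s c' s' (a, false) =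
    ((c : ℂ) * stdAddChar (k' * a), (s : ℂ) * stdAddChar a) := by
  unfold gpos
  simp

lemma g_true (a : ZMod n) : gpos n k' c s c' s' (a, true) =
    ((c' : ℂ) * stdAddChar (k' * a), (s' : ℂ) * stdAddChar a) := by
  unfold gpos
  simp

lemma unit_aux {c s : ℝ} (h : c ^ 2 + s ^ 2 = 1) (x y : ZMod n) :
    ip ((c : ℂ) * stdAddChar x, (s : ℂ) * stdAddChar y)
      ((c : ℂ) * stdAddChar x, (s : ℂ) * stdAddChar y) = 1 := by
  unfold ip
  simp only [Complex.re_ofReal_mul, Complex.im_ofReal_mul]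
  have h1 := chi_sq x
  have h2 := chi_sq y
  linear_combination c ^ 2 * h1 + s ^ 2 * h2 + h

lemma g_unit (h : c ^ 2 + s ^ 2 = 1) (h' : c' ^ 2 + s' ^ 2 = 1) (v : ZMod n × Bool) :
    ip (gpos n k' c s c' s' v) (gpos n k' c s c' s' v) = 1 := by
  obtain ⟨a, b⟩ := v
  cases b
  · rw [g_false]; exact unit_aux h _ _
  · rw [g_true]; exact unit_aux h' _ _

lemma g_inj (hc : 0 < c) (hs : 0 < s) (hc' : 0 < c') (hs' : 0 < s') (hcc : c < c') :
    Function.Injective (gpos n k' c s c' s') := by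
  have hsc : (s : ℂ) ≠ 0 := by exact_mod_cast hs.ne'
  have hsc' : (s' : ℂ) ≠ 0 := by exact_mod_cast hs'.ne'
  rintro ⟨a, b⟩ ⟨a', b'⟩ h
  cases b <;> cases b'
  · rw [g_false, g_false] at h
    have h2 := congrArg Prod.snd h
    simp only at h2
    rw [chi_inj (mul_left_cancel₀ hsc h2)]
  · rw [g_false, g_true] at h
    have h2 := congrArg (fun z : ℂ × ℂ => ‖z.1‖) h
    simp only at h2
    rw [norm_mul_chi hc, norm_mul_chi hc'] at h2
    exact absurd h2 hcc.ne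
  · rw [g_false, g_true] at h
    have h2 := congrArg (fun z : ℂ × ℂ => ‖z.1‖) h
    simp only at h2
    rw [norm_mul_chi hc, norm_mul_chi hc'] at h2
    exact absurd h2 hcc.ne'
  · rw [g_true, g_true] at h
    have h2 := congrArg Prod.snd h
    simp only at h2
    rw [chi_inj (mul_left_cancel₀ hsc' h2)]

/-- The three types of edges. -/
lemma edge_type {v w : ZMod n × Bool} (h : (petersen n k).Adj v w) :
    (∃ a, s(v, w) = s((a, false), (a + 1, false))) ∨
      (∃ a, s(v, w) = s((a, true), (a + k, true))) ∨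
      (∃ a, s(v, w) = s((a, false), (a, true))) := by
  unfold petersen at h
  rw [SimpleGraph.fromRel_adj] at h
  obtain ⟨-, h⟩ := h
  obtain ⟨a, b⟩ := v
  obtain ⟨a', b'⟩ := w
  simp only at h
  rcases h with (⟨h1, h2, h3⟩ | ⟨h1, h2, h3⟩ | ⟨h1, h2⟩) | (⟨h1, h2, h3⟩ | ⟨h1, h2, h3⟩ | ⟨h1, h2⟩)
  · subst h1 h2 h3
    exact Or.inl ⟨a, rfl⟩
  · subst h1 h2 h3
    exact Or.inr (Or.inl ⟨a, rfl⟩)
  · subst h1 h2
    refine Or.inr (Or.inr ⟨a', ?_⟩)
    cases b
    · rfl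
    · exact Sym2.eq_swap
  · subst h1 h2 h3
    exact Or.inl ⟨a', Sym2.eq_swap⟩
  · subst h1 h2 h3
    exact Or.inr (Or.inl ⟨a', Sym2.eq_swap⟩)
  · subst h1 h2
    refine Or.inr (Or.inr ⟨a, ?_⟩)
    cases b'
    · exact Sym2.eq_swap
    · rfl

lemma arc_of_eq {g : ZMod n × Bool → ℂ × ℂ} {v w v' w' : ZMod n × Bool} (h : s(v, w) = s(v', w'))
    {x : ℂ × ℂ} (hx : x ∈ arc (g v) (g w)) : x ∈ arc (g v') (g w') := by
  rcases Sym2.eq_iff.mp h with ⟨h1, h2⟩ | ⟨h1, h2⟩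
  · rw [← h1, ← h2]; exact hx
  · rw [← h1, ← h2]; exact arc_symm hx

lemma re_kk (hkk : k * k' = 1 ∨ k * k' = -1) :
    (stdAddChar (k' * k) : ℂ).re = (stdAddChar (1 : ZMod n) : ℂ).re := by
  rw [mul_comm]
  rcases hkk with h | h
  · rw [h]
  · rw [h, chi_neg_re]

lemma re_one_gt (hk' : (stdAddChar k' : ℂ).re < (stdAddChar (1 : ZMod n) : ℂ).re) :
    (-1 : ℝ) < (stdAddChar (1 : ZMod n) : ℂ).re := by
  have h1 := chi_sq k'
  have h2 : (-1 : ℝ) ≤ (stdAddChar k' : ℂ).re := by nlinarith [sq_nonneg (stdAddChar k' : ℂ).im]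
  linarith

/-- if `χ (x + d) = - χ x` then `Re χ d = -1` -/
lemma re_of_antip {x d : ZMod n} (h : (stdAddChar (x + d) : ℂ) = -stdAddChar x) :
    (stdAddChar d : ℂ).re = -1 := by
  have h1 := chi_inner x d
  rw [h] at h1
  simp only [neg_re, neg_im] at h1
  have h2 := chi_sq x
  linarith

lemma antip_rep {v w v' w' : ZMod n × Bool}
    (h : s(v, w) = s(v', w'))
    (h' : gpos n k' c s c' s' w' ≠ -gpos n k' c s c' s' v') :
    gpos n k' c s c' s' w ≠ -gpos n k' c s c' s' v := by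
  rcases Sym2.eq_iff.mp h with ⟨h1, h2⟩ | ⟨h1, h2⟩
  · rw [h1, h2]; exact h'
  · rw [h1, h2]
    intro e
    apply h'
    rw [e, neg_neg]

lemma antip (hkk : k * k' = 1 ∨ k * k' = -1)
    (hk' : (stdAddChar k' : ℂ).re < (stdAddChar (1 : ZMod n) : ℂ).re)
    (hc : 0 < c) (hs : 0 < s) (hc' : 0 < c') {v w : ZMod n × Bool}
    (h : (petersen n k).Adj v w) :
    gpos n k' c s c' s' w ≠ -gpos n k' c s c' s' v := by
  have hcc : (c : ℂ) ≠ 0 := by exact_mod_cast hc.ne'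
  have hsc : (s : ℂ) ≠ 0 := by exact_mod_cast hs.ne'
  have hcc' : (c' : ℂ) ≠ 0 := by exact_mod_cast hc'.ne'
  have hgt := re_one_gt hk'
  rcases edge_type h with ⟨a, ha⟩ | ⟨a, ha⟩ | ⟨a, ha⟩
  · refine antip_rep ha ?_
    rw [g_false, g_false]
    intro e
    have e2 := congrArg Prod.snd e
    simp only [Prod.snd_neg] at e2
    have e3 : (stdAddChar (a + 1) : ℂ) = -stdAddChar a := by
      apply mul_left_cancel₀ hsc
      linear_combination e2
    have := re_of_antip e3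
    linarith
  · refine antip_rep ha ?_
    rw [g_true, g_true]
    intro e
    have e2 := congrArg Prod.fst e
    simp only [Prod.fst_neg] at e2
    have e3 : (stdAddChar (k' * a + k' * k) : ℂ) = -stdAddChar (k' * a) := by
      apply mul_left_cancel₀ hcc'
      rw [← mul_add]
      linear_combination e2
    have := re_of_antip e3
    rw [re_kk hkk] at this
    linarith
  · refine antip_rep ha ?_
    rw [g_true, g_false]
    intro e
    have e2 := congrArg Prod.fst e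
    simp only [Prod.fst_neg] at e2
    have e3 : ((c' + c : ℝ) : ℂ) * stdAddChar (k' * a) = 0 := by
      push_cast
      linear_combination e2
    rcases mul_eq_zero.mp e3 with e4 | e4
    · have : c' + c = 0 := by exact_mod_cast e4
      linarith
    · exact chi_ne _ e4

/-! ### The layers -/

lemma outer_pt (hlay : GlayStm) (hk' : (stdAddChar k' : ℂ).re < (stdAddChar (1 : ZMod n) : ℂ).re)
    (hc : 0 < c) (hs : 0 < s) (hcs : c ^ 2 + s ^ 2 = 1) {a : ZMod n} {x : ℂ × ℂ}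
    (hx : x ∈ arc (gpos n k' c s c' s' (a, false)) (gpos n k' c s c' s' (a + 1, false))) :
    x = gpos n k' c s c' s' (a, false) ∨ x = gpos n k' c s c' s' (a + 1, false) ∨ ‖x.1‖ < c := by
  rw [g_false, g_false] at *
  refine (hlay c s (stdAddChar (k' * a)) (stdAddChar a) (stdAddChar (k' * (a + 1)))
    (stdAddChar (a + 1)) hc hs hcs (chi_norm _) (chi_norm _) (chi_norm _) (chi_norm _) x hx).1 ?_
  rw [mul_add, mul_one, chi_inner, chi_inner]
  exact hk'

lemma inner_pt (hlay : GlayStm) (hkk : k * k' = 1 ∨ k * k' = -1)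
    (hk : (stdAddChar k : ℂ).re < (stdAddChar (1 : ZMod n) : ℂ).re)
    (hc' : 0 < c') (hs' : 0 < s') (hcs : c' ^ 2 + s' ^ 2 = 1) {a : ZMod n} {x : ℂ × ℂ}
    (hx : x ∈ arc (gpos n k' c s c' s' (a, true)) (gpos n k' c s c' s' (a + k, true))) :
    x = gpos n k' c s c' s' (a, true) ∨ x = gpos n k' c s c' s' (a + k, true) ∨ c' < ‖x.1‖ := by
  rw [g_true, g_true] at *
  refine (hlay c' s' (stdAddChar (k' * a)) (stdAddChar a) (stdAddChar (k' * (a + k)))
    (stdAddChar (a + k)) hc' hs' hcs (chi_norm _) (chi_norm _) (chi_norm _) (chi_norm _) x hx).2 ?_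
  rw [mul_add, chi_inner, chi_inner, re_kk hkk]
  exact hk

lemma spoke_pt (hsp : GspStm) (hc : 0 < c) (hs : 0 < s) (hcs : c ^ 2 + s ^ 2 = 1) (hc' : 0 < c')
    (hs' : 0 < s') (hcs' : c' ^ 2 + s' ^ 2 = 1) (hcc : c < c') {a : ZMod n} {x : ℂ × ℂ}
    (hx : x ∈ arc (gpos n k' c s c' s' (a, false)) (gpos n k' c s c' s' (a, true))) :
    ∃ y : ℝ, c ≤ ‖x.1‖ ∧ ‖x.1‖ ≤ c' ∧ 0 < y ∧ x.2 = (y : ℂ) * stdAddChar a ∧
      (‖x.1‖ = c → x = gpos n k' c s c' s' (a, false)) ∧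
      (‖x.1‖ = c' → x = gpos n k' c s c' s' (a, true)) := by
  rw [g_false, g_true] at *
  obtain ⟨x0, y, h1, h2, h3, h4, h5, h6⟩ := hsp c s c' s' (stdAddChar (k' * a)) (stdAddChar a)
    hc hs hcs hc' hs' hcs' hcc (chi_norm _) (chi_norm _) x hx
  have hn : ‖x.1‖ = x0 := by
    rw [h4]
    exact norm_mul_chi (lt_of_lt_of_le hc h1) _
  refine ⟨y, by rw [hn]; exact h1, by rw [hn]; exact h2, h3, by rw [h4], ?_, ?_⟩
  · rw [hn]; exact h5
  · rw [hn]; exact h6

lemma out_norm (hc : 0 < c) (a : ZMod n) : ‖(gpos n k' c s c' s' (a, false)).1‖ = c := by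
  rw [g_false]; exact norm_mul_chi hc _

lemma in_norm (hc' : 0 < c') (a : ZMod n) : ‖(gpos n k' c s c' s' (a, true)).1‖ = c' := by
  rw [g_true]; exact norm_mul_chi hc' _

lemma outer_le (hlay : GlayStm) (hk' : (stdAddChar k' : ℂ).re < (stdAddChar (1 : ZMod n) : ℂ).re)
    (hc : 0 < c) (hs : 0 < s) (hcs : c ^ 2 + s ^ 2 = 1) {a : ZMod n} {x : ℂ × ℂ}
    (hx : x ∈ arc (gpos n k' c s c' s' (a, false)) (gpos n k' c s c' s' (a + 1, false))) :
    ‖x.1‖ ≤ c := by
  rcases outer_pt hlay hk' hc hs hcs hx with h | h | h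
  · rw [h, out_norm hc]
  · rw [h, out_norm hc]
  · exact h.le

lemma inner_ge (hlay : GlayStm) (hkk : k * k' = 1 ∨ k * k' = -1)
    (hk : (stdAddChar k : ℂ).re < (stdAddChar (1 : ZMod n) : ℂ).re)
    (hc' : 0 < c') (hs' : 0 < s') (hcs : c' ^ 2 + s' ^ 2 = 1) {a : ZMod n} {x : ℂ × ℂ}
    (hx : x ∈ arc (gpos n k' c s c' s' (a, true)) (gpos n k' c s c' s' (a + k, true))) :
    c' ≤ ‖x.1‖ := by
  rcases inner_pt hlay hkk hk hc' hs' hcs hx with h | h | h
  · rw [h, in_norm hc']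
  · rw [h, in_norm hc']
  · exact h.le

/-! ### Pairs of edges -/

/-- The conclusion for a pair of unordered edges. -/
def Good (k' : ZMod n) (c s c' s' : ℝ) (v w v' w' : ZMod n × Bool) (x : ℂ × ℂ) : Prop :=
  ∃ u, (u = v ∨ u = w) ∧ (u = v' ∨ u = w') ∧ x = gpos n k' c s c' s' u

lemma Good.swap {v w v' w' : ZMod n × Bool} {x : ℂ × ℂ} (h : Good k' c s c' s' v w v' w' x) :
    Good k' c s c' s' v' w' v w x := by
  obtain ⟨u, h1, h2, h3⟩ := h
  exact ⟨u, h2, h1, h3⟩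

lemma Good.congr {v w v' w' v1 w1 v1' w1' : ZMod n × Bool} {x : ℂ × ℂ}
    (h : Good k' c s c' s' v1 w1 v1' w1' x) (e : s(v, w) = s(v1, w1)) (e' : s(v', w') = s(v1', w1')) :
    Good k' c s c' s' v w v' w' x := by
  obtain ⟨u, h1, h2, h3⟩ := h
  refine ⟨u, ?_, ?_, h3⟩
  · rw [← Sym2.mem_iff, e, Sym2.mem_iff]; exact h1
  · rw [← Sym2.mem_iff, e', Sym2.mem_iff]; exact h2

lemma coef_ne {p q x : ℂ × ℂ} {l m : ℝ} (h1 : ip x x = 1) (h2 : x = l • p + m • q) :
    l ≠ 0 ∨ m ≠ 0 := by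
  by_contra h
  push Not at h
  rw [h.1, h.2, zero_smul, zero_smul, add_zero] at h2
  rw [h2] at h1
  unfold ip at h1
  simp at h1

lemma oo (hout : GoutStm) (hn : 5 ≤ n) (hs : 0 < s) (hcs : c ^ 2 + s ^ 2 = 1)
    {a a' : ZMod n} (ha : a ≠ a') {x : ℂ × ℂ}
    (hx : x ∈ arc (gpos n k' c s c' s' (a, false)) (gpos n k' c s c' s' (a + 1, false)))
    (hx' : x ∈ arc (gpos n k' c s c' s' (a', false)) (gpos n k' c s c' s' (a' + 1, false))) :
    Good k' c s c' s' (a, false) (a + 1, false) (a', false) (a' + 1, false) x := by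
  obtain ⟨h1, l, m, hl, hm, h2⟩ := hx
  obtain ⟨-, l', m', hl', hm', h2'⟩ := hx'
  have n1 := coef_ne h1 h2
  have n2 := coef_ne h1 h2'
  have hu : ∀ b : ZMod n, ip (gpos n k' c s c' s' (b, false)) (gpos n k' c s c' s' (b, false)) = 1 := by
    intro b
    rw [g_false]
    exact unit_aux hcs _ _
  have e : l • ((s : ℂ) * stdAddChar a) + m • ((s : ℂ) * stdAddChar (a + 1)) =
        l' • ((s : ℂ) * stdAddChar a') + m' • ((s : ℂ) * stdAddChar (a' + 1)) := by
    have e1 := h2.symm.trans h2'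
    rw [g_false, g_false, g_false, g_false] at e1
    exact congrArg Prod.snd e1
  rcases hout n hn s hs a a' l m l' m' hl hm hl' hm' n1 n2 ha e with ⟨q1, q2, q3⟩ | ⟨q1, q2, q3⟩
  · rw [q1, zero_smul, add_zero] at h2
    refine ⟨(a, false), Or.inl rfl, Or.inr (by rw [q3]), ?_⟩
    exact one_of_unit hl (hu a) h1 h2
  · rw [q1, zero_smul, zero_add] at h2
    refine ⟨(a + 1, false), Or.inr rfl, Or.inl (by rw [q3]), ?_⟩
    exact one_of_unit hm (hu _) h1 h2

lemma kinj (hkk : k * k' = 1 ∨ k * k' = -1) {x y : ZMod n} (h : k' * x = k' * y) : x = y := by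
  have h1 : k * k' * x = k * k' * y := by rw [mul_assoc, h, mul_assoc]
  rcases hkk with e | e
  · rw [e, one_mul, one_mul] at h1
    exact h1
  · rw [e, neg_one_mul, neg_one_mul] at h1
    exact neg_injective h1

lemma ii (hout : GoutStm) (hn : 5 ≤ n) (hkk : k * k' = 1 ∨ k * k' = -1) (hc' : 0 < c')
    (hcs' : c' ^ 2 + s' ^ 2 = 1)
    {a a' : ZMod n} (ha : a ≠ a') {x : ℂ × ℂ}
    (hx : x ∈ arc (gpos n k' c s c' s' (a, true)) (gpos n k' c s c' s' (a + k, true)))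
    (hx' : x ∈ arc (gpos n k' c s c' s' (a', true)) (gpos n k' c s c' s' (a' + k, true))) :
    Good k' c s c' s' (a, true) (a + k, true) (a', true) (a' + k, true) x := by
  obtain ⟨h1, l, m, hl, hm, h2⟩ := hx
  obtain ⟨-, l', m', hl', hm', h2'⟩ := hx'
  have n1 := coef_ne h1 h2
  have n2 := coef_ne h1 h2'
  have hu : ∀ b : ZMod n, ip (gpos n k' c s c' s' (b, true)) (gpos n k' c s c' s' (b, true)) = 1 := by
    intro b
    rw [g_true]
    exact unit_aux hcs' _ _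
  have e : l • ((c' : ℂ) * stdAddChar (k' * a)) + m • ((c' : ℂ) * stdAddChar (k' * (a + k))) =
        l' • ((c' : ℂ) * stdAddChar (k' * a')) + m' • ((c' : ℂ) * stdAddChar (k' * (a' + k))) := by
    have e1 := h2.symm.trans h2'
    rw [g_true, g_true, g_true, g_true] at e1
    exact congrArg Prod.fst e1
  have hak : k' * a ≠ k' * a' := fun h => ha (kinj hkk h)
  have key : (m = 0 ∧ l' = 0 ∧ a = a' + k) ∨ (l = 0 ∧ m' = 0 ∧ a' = a + k) := by
    have hkk' := hkk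
    rcases hkk with hk1 | hk1
    · rw [mul_add, mul_add, mul_comm k' k, hk1] at e
      rcases hout n hn c' hc' (k' * a) (k' * a') l m l' m' hl hm hl' hm' n1 n2 hak e with
        ⟨q1, q2, q3⟩ | ⟨q1, q2, q3⟩
      · refine Or.inl ⟨q1, q2, kinj hkk' ?_⟩
        rw [q3, mul_add, mul_comm k' k, hk1]
      · refine Or.inr ⟨q1, q2, kinj hkk' ?_⟩
        rw [q3, mul_add, mul_comm k' k, hk1]
    · rw [mul_add, mul_add, mul_comm k' k, hk1] at e
      have e' : m • ((c' : ℂ) * stdAddChar (k' * a + -1)) + l • ((c' : ℂ) * stdAddChar (k' * a + -1 + 1)) =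
          m' • ((c' : ℂ) * stdAddChar (k' * a' + -1)) + l' • ((c' : ℂ) * stdAddChar (k' * a' + -1 + 1)) := by
        rw [neg_add_cancel_right, neg_add_cancel_right, add_comm, e, add_comm]
      have hak' : k' * a + -1 ≠ k' * a' + -1 := fun h => hak (add_right_cancel h)
      rcases hout n hn c' hc' (k' * a + -1) (k' * a' + -1) m l m' l' hm hl hm' hl' n1.symm n2.symm
        hak' e' with ⟨q1, q2, q3⟩ | ⟨q1, q2, q3⟩
      · refine Or.inr ⟨q1, q2, kinj hkk' ?_⟩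
        rw [mul_add, mul_comm k' k, hk1, q3, neg_add_cancel_right]
      · refine Or.inl ⟨q1, q2, kinj hkk' ?_⟩
        rw [mul_add, mul_comm k' k, hk1, q3, neg_add_cancel_right]
  rcases key with ⟨q1, q2, q3⟩ | ⟨q1, q2, q3⟩
  · rw [q1, zero_smul, add_zero] at h2
    refine ⟨(a, true), Or.inl rfl, Or.inr (by rw [q3]), ?_⟩
    exact one_of_unit hl (hu a) h1 h2
  · rw [q1, zero_smul, zero_add] at h2
    refine ⟨(a + k, true), Or.inr rfl, Or.inl (by rw [q3]), ?_⟩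
    exact one_of_unit hm (hu _) h1 h2

lemma oi (hlay : GlayStm) (hkk : k * k' = 1 ∨ k * k' = -1)
    (hk : (stdAddChar k : ℂ).re < (stdAddChar (1 : ZMod n) : ℂ).re)
    (hk' : (stdAddChar k' : ℂ).re < (stdAddChar (1 : ZMod n) : ℂ).re)
    (hc : 0 < c) (hs : 0 < s) (hcs : c ^ 2 + s ^ 2 = 1) (hc' : 0 < c')
    (hs' : 0 < s') (hcs' : c' ^ 2 + s' ^ 2 = 1) (hcc : c < c') {a a' : ZMod n} {x : ℂ × ℂ}
    (hx : x ∈ arc (gpos n k' c s c' s' (a, false)) (gpos n k' c s c' s' (a + 1, false)))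
    (hx' : x ∈ arc (gpos n k' c s c' s' (a', true)) (gpos n k' c s c' s' (a' + k, true))) : False := by
  have h1 := outer_le hlay hk' hc hs hcs hx
  have h2 := inner_ge hlay hkk hk hc' hs' hcs' hx'
  linarith

lemma os (hlay : GlayStm) (hsp : GspStm)
    (hk' : (stdAddChar k' : ℂ).re < (stdAddChar (1 : ZMod n) : ℂ).re)
    (hc : 0 < c) (hs : 0 < s) (hcs : c ^ 2 + s ^ 2 = 1) (hc' : 0 < c')
    (hs' : 0 < s') (hcs' : c' ^ 2 + s' ^ 2 = 1) (hcc : c < c') {a a' : ZMod n} {x : ℂ × ℂ}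
    (hx : x ∈ arc (gpos n k' c s c' s' (a, false)) (gpos n k' c s c' s' (a + 1, false)))
    (hx' : x ∈ arc (gpos n k' c s c' s' (a', false)) (gpos n k' c s c' s' (a', true))) :
    Good k' c s c' s' (a, false) (a + 1, false) (a', false) (a', true) x := by
  obtain ⟨y, p1, p2, p3, p4, p5, p6⟩ := spoke_pt hsp hc hs hcs hc' hs' hcs' hcc hx'
  have hinj := g_inj (n := n) (k' := k') hc hs hc' hs' hcc
  rcases outer_pt hlay hk' hc hs hcs hx with h | h | h
  · have e := p5 (by rw [h, out_norm hc])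
    have e2 := hinj (e.symm.trans h)
    exact ⟨(a', false), Or.inl e2, Or.inl rfl, e⟩
  · have e := p5 (by rw [h, out_norm hc])
    have e2 := hinj (e.symm.trans h)
    exact ⟨(a', false), Or.inr e2, Or.inl rfl, e⟩
  · linarith

lemma is (hlay : GlayStm) (hsp : GspStm) (hkk : k * k' = 1 ∨ k * k' = -1)
    (hk : (stdAddChar k : ℂ).re < (stdAddChar (1 : ZMod n) : ℂ).re)
    (hc : 0 < c) (hs : 0 < s) (hcs : c ^ 2 + s ^ 2 = 1) (hc' : 0 < c')
    (hs' : 0 < s') (hcs' : c' ^ 2 + s' ^ 2 = 1) (hcc : c < c') {a a' : ZMod n} {x : ℂ × ℂ}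
    (hx : x ∈ arc (gpos n k' c s c' s' (a, true)) (gpos n k' c s c' s' (a + k, true)))
    (hx' : x ∈ arc (gpos n k' c s c' s' (a', false)) (gpos n k' c s c' s' (a', true))) :
    Good k' c s c' s' (a, true) (a + k, true) (a', false) (a', true) x := by
  obtain ⟨y, p1, p2, p3, p4, p5, p6⟩ := spoke_pt hsp hc hs hcs hc' hs' hcs' hcc hx'
  have hinj := g_inj (n := n) (k' := k') hc hs hc' hs' hcc
  rcases inner_pt hlay hkk hk hc' hs' hcs' hx with h | h | h
  · have e := p6 (by rw [h, in_norm hc'])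
    have e2 := hinj (e.symm.trans h)
    exact ⟨(a', true), Or.inl e2, Or.inr rfl, e⟩
  · have e := p6 (by rw [h, in_norm hc'])
    have e2 := hinj (e.symm.trans h)
    exact ⟨(a', true), Or.inr e2, Or.inr rfl, e⟩
  · linarith

lemma ss (hsp : GspStm)
    (hc : 0 < c) (hs : 0 < s) (hcs : c ^ 2 + s ^ 2 = 1) (hc' : 0 < c')
    (hs' : 0 < s') (hcs' : c' ^ 2 + s' ^ 2 = 1) (hcc : c < c') {a a' : ZMod n} (ha : a ≠ a')
    {x : ℂ × ℂ}
    (hx : x ∈ arc (gpos n k' c s c' s' (a, false)) (gpos n k' c s c' s' (a, true)))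
    (hx' : x ∈ arc (gpos n k' c s c' s' (a', false)) (gpos n k' c s c' s' (a', true))) : False := by
  obtain ⟨y, -, -, p3, p4, -⟩ := spoke_pt hsp hc hs hcs hc' hs' hcs' hcc hx
  obtain ⟨y', -, -, p3', p4', -⟩ := spoke_pt hsp hc hs hcs hc' hs' hcs' hcc hx'
  have e := p4.symm.trans p4'
  have e2 : y = y' := by
    have h1 : ‖(y : ℂ) * stdAddChar a‖ = ‖(y' : ℂ) * stdAddChar a'‖ := by rw [e]
    rwa [norm_mul_chi p3, norm_mul_chi p3'] at h1
  subst e2
  have hy : (y : ℂ) ≠ 0 := by exact_mod_cast p3.ne'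
  exact ha (chi_inj (mul_left_cancel₀ hy e))

end

end GEMB

open GEMB in
theorem gemb (hlay : GlayStm) (hsp : GspStm) (hout : GoutStm) : GembStm := by
  intro n _ hn k k' hkk hk hk' c s c' s' hc hs hcs hc' hs' hcs' hcc
  refine ⟨g_inj hc hs hc' hs' hcc, fun v w h => antip hkk hk' hc hs hc' h, ?_⟩
  intro v w v' w' h h' hne x hx hx'
  show Good k' c s c' s' v w v' w' x
  rcases edge_type h with ⟨a, ea⟩ | ⟨a, ea⟩ | ⟨a, ea⟩ <;>
    rcases edge_type h' with ⟨a', ea'⟩ | ⟨a', ea'⟩ | ⟨a', ea'⟩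
  all_goals
    have h1 := arc_of_eq ea hx
    have h1' := arc_of_eq ea' hx'
    rw [ea, ea'] at hne
  · refine (oo hout hn hs hcs ?_ h1 h1').congr ea ea'
    rintro rfl
    exact hne rfl
  · exact (oi hlay hkk hk hk' hc hs hcs hc' hs' hcs' hcc h1 h1').elim
  · exact (os hlay hsp hk' hc hs hcs hc' hs' hcs' hcc h1 h1').congr ea ea'
  · exact (oi hlay hkk hk hk' hc hs hcs hc' hs' hcs' hcc h1' h1).elim
  · refine (ii hout hn hkk hc' hcs' ?_ h1 h1').congr ea ea'
    rintro rfl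
    exact hne rfl
  · exact (is hlay hsp hkk hk hc hs hcs hc' hs' hcs' hcc h1 h1').congr ea ea'
  · exact (os hlay hsp hk' hc hs hcs hc' hs' hcs' hcc h1' h1).swap.congr ea ea'
  · exact (is hlay hsp hkk hk hc hs hcs hc' hs' hcs' hcc h1' h1).swap.congr ea ea'
  · refine (ss hsp hc hs hcs hc' hs' hcs' hcc ?_ h1 h1').elim
    rintro rfl
    exact hne rfl

end Pool.Agent.T2H75.GN
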