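import Pool.Agent.T2H75.GN.Stm2

/-! package GLAY -/

namespace Pool.Agent.T2H75.GN

open Complex ZMod

private lemma glay_unit {u : ℂ} (hu : ‖u‖ = 1) : u.re ^ 2 + u.im ^ 2 = 1 := by
  have h := Complex.sq_norm u
  rw [hu, Complex.normSq_apply] at h
  nlinarith

private lemma glay_n (c l m : ℝ) (u u' : ℂ) (hu : ‖u‖ = 1) (hu' : ‖u'‖ = 1) :
    ‖l • ((c : ℂ) * u) + m • ((c : ℂ) * u')‖ ^ 2 =
      c ^ 2 * (l ^ 2 + m ^ 2 + 2 * l * m * (u.re * u'.re + u.im * u'.im)) := by
  have h1 := glay_unit hu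
  have h2 := glay_unit hu'
  rw [Complex.sq_norm, Complex.normSq_apply]
  simp only [Complex.add_re, Complex.add_im, Complex.smul_re, Complex.smul_im, Complex.mul_re,
    Complex.mul_im, Complex.ofReal_re, Complex.ofReal_im, smul_eq_mul]
  linear_combination (c ^ 2 * l ^ 2) * h1 + (c ^ 2 * m ^ 2) * h2

private lemma glay_ip (c s l m : ℝ) (u v u' v' : ℂ) (hu : ‖u‖ = 1) (hv : ‖v‖ = 1) (hu' : ‖u'‖ = 1)
    (hv' : ‖v'‖ = 1) :
    ip (l • ((c : ℂ) * u, (s : ℂ) * v) + m • ((c : ℂ) * u', (s : ℂ) * v'))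
      (l • ((c : ℂ) * u, (s : ℂ) * v) + m • ((c : ℂ) * u', (s : ℂ) * v')) =
      c ^ 2 * (l ^ 2 + m ^ 2 + 2 * l * m * (u.re * u'.re + u.im * u'.im)) +
      s ^ 2 * (l ^ 2 + m ^ 2 + 2 * l * m * (v.re * v'.re + v.im * v'.im)) := by
  have h1 := glay_unit hu
  have h2 := glay_unit hu'
  have h3 := glay_unit hv
  have h4 := glay_unit hv'
  unfold ip
  simp only [Prod.fst_add, Prod.snd_add, Prod.smul_fst, Prod.smul_snd,
    Complex.add_re, Complex.add_im, Complex.smul_re, Complex.smul_im, Complex.mul_re,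
    Complex.mul_im, Complex.ofReal_re, Complex.ofReal_im, smul_eq_mul]
  linear_combination (c ^ 2 * l ^ 2) * h1 + (c ^ 2 * m ^ 2) * h2 + (s ^ 2 * l ^ 2) * h3 +
    (s ^ 2 * m ^ 2) * h4

theorem glay : GlayStm := by
  intro c s u v u' v' hc hs hcs hu hv hu' hv' x hx
  obtain ⟨h1, l, m, hl, hm, rfl⟩ := hx
  rw [glay_ip c s l m u v u' v' hu hv hu' hv'] at h1
  have hn := glay_n c l m u u' hu hu'
  generalize hA : u.re * u'.re + u.im * u'.im = A at *
  generalize hB : v.re * v'.re + v.im * v'.im = B at *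
  have hfst : (l • ((c : ℂ) * u, (s : ℂ) * v) + m • ((c : ℂ) * u', (s : ℂ) * v')).1 =
      l • ((c : ℂ) * u) + m • ((c : ℂ) * u') := rfl
  rw [hfst]
  rcases hl.eq_or_lt with hl0 | hl0
  · have hm1 : m = 1 := by
      rw [← hl0] at h1
      have : m ^ 2 = 1 := by nlinarith
      nlinarith
    have : l • ((c : ℂ) * u, (s : ℂ) * v) + m • ((c : ℂ) * u', (s : ℂ) * v') =
        ((c : ℂ) * u', (s : ℂ) * v') := by
      rw [← hl0, hm1, zero_smul, one_smul, zero_add]
    exact ⟨fun _ => Or.inr (Or.inl this), fun _ => Or.inr (Or.inl this)⟩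
  · rcases hm.eq_or_lt with hm0 | hm0
    · have hl1 : l = 1 := by
        rw [← hm0] at h1
        have : l ^ 2 = 1 := by nlinarith
        nlinarith
      have : l • ((c : ℂ) * u, (s : ℂ) * v) + m • ((c : ℂ) * u', (s : ℂ) * v') =
          ((c : ℂ) * u, (s : ℂ) * v) := by
        rw [← hm0, hl1, zero_smul, one_smul, add_zero]
      exact ⟨fun _ => Or.inl this, fun _ => Or.inl this⟩
    · have hlm : 0 < l * m := mul_pos hl0 hm0
      have hc2 : 0 < c ^ 2 := by positivity
      have hs2 : 0 < s ^ 2 := by positivity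
      have key : ‖l • ((c : ℂ) * u) + m • ((c : ℂ) * u')‖ ^ 2 =
          c ^ 2 + c ^ 2 * (s ^ 2 * (2 * (l * m) * (A - B))) := by
        rw [hn]
        linear_combination (c ^ 2) * h1 +
          (- c ^ 2 * (l ^ 2 + m ^ 2 + 2 * l * m * A)) * hcs
      constructor
      · intro hAB
        right; right
        have h5 : 0 < c ^ 2 * (s ^ 2 * (2 * (l * m) * (B - A))) := by
          have : 0 < B - A := by linarith
          positivity
        have h6 : ‖l • ((c : ℂ) * u) + m • ((c : ℂ) * u')‖ ^ 2 < c ^ 2 := by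
          rw [key]
          nlinarith
        exact lt_of_pow_lt_pow_left₀ 2 hc.le h6
      · intro hBA
        right; right
        have h5 : 0 < c ^ 2 * (s ^ 2 * (2 * (l * m) * (A - B))) := by
          have : 0 < A - B := by linarith
          positivity
        have h6 : c ^ 2 < ‖l • ((c : ℂ) * u) + m • ((c : ℂ) * u')‖ ^ 2 := by
          rw [key]
          linarith
        exact lt_of_pow_lt_pow_left₀ 2 (norm_nonneg _) h6

end Pool.Agent.T2H75.GN
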