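import Pool.Agent.T2H75.GN.Stm2

/-!
# Package GOUT: outer edges of generalised Petersen graphs meet only in common endpoints
-/

set_option autoImplicit false

namespace Pool.Agent.T2H75.GN

open Complex ZMod

namespace GOUT

lemma chi_one (n : ℕ) [NeZero n] :
    (stdAddChar (1 : ZMod n) : ℂ) = exp (((2 * Real.pi / n : ℝ) : ℂ) * I) := by
  have h := stdAddChar_coe (N := n) 1
  rw [Int.cast_one] at h
  rw [h]
  congr 1
  have hm : (n : ℂ) ≠ 0 := Nat.cast_ne_zero.2 (NeZero.ne n)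
  push_cast
  field_simp

end GOUT

open GOUT in
theorem gout (hpol : PolStm) (hsec : SecStm) : GoutStm := by
  intro n _ hn s hs i j l m l' m' hl hm hl' hm' h0 h0' hij h
  have hn0 : (0 : ℝ) < n := Nat.cast_pos.2 (NeZero.pos n)
  have hb0 : 0 < 2 * Real.pi / n := by
    have := Real.pi_pos
    positivity
  have hb1 : 2 * Real.pi / n < Real.pi := by
    rw [div_lt_iff₀ hn0]
    have h5 : (5 : ℝ) ≤ n := by exact_mod_cast hn
    nlinarith [Real.pi_pos]
  obtain ⟨ρ, ω, r1, r2, r3, r4, r5, r6⟩ := hpol (2 * Real.pi / n) l m hb0 hb1 hl hm h0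
  obtain ⟨ρ', ω', r1', r2', r3', r4', r5', r6'⟩ := hpol (2 * Real.pi / n) l' m' hb0 hb1 hl' hm' h0'
  have hs0 : (s : ℂ) ≠ 0 := Complex.ofReal_ne_zero.2 hs.ne'
  have hk : (stdAddChar i : ℂ) * ((l : ℂ) + m * exp (((2 * Real.pi / n : ℝ) : ℂ) * I)) =
      stdAddChar j * ((l' : ℂ) + m' * exp (((2 * Real.pi / n : ℝ) : ℂ) * I)) := by
    rw [AddChar.map_add_eq_mul, AddChar.map_add_eq_mul, chi_one, Complex.real_smul, Complex.real_smul,
      Complex.real_smul, Complex.real_smul] at h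
    apply mul_left_cancel₀ hs0
    linear_combination h
  rw [r6, r6'] at hk
  have he : ∀ k : ZMod n, (stdAddChar k : ℂ) * exp (((2 * Real.pi / n : ℝ) : ℂ) * I) =
      stdAddChar (k + 1) := by
    intro k
    rw [AddChar.map_add_eq_mul, chi_one]
  rcases r3.eq_or_lt with h3 | h3
  · rcases r3'.eq_or_lt with h3' | h3'
    · exfalso
      rw [h3, h3'] at hk
      have h5 : (ρ : ℂ) * (stdAddChar (i + 1) * exp (((0 : ℝ) : ℂ) * I)) =
          ρ' * (stdAddChar (j + 1) * exp (((0 : ℝ) : ℂ) * I)) := by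
        rw [Complex.ofReal_zero, zero_mul, Complex.exp_zero, ← he i, ← he j]
        linear_combination hk
      have h6 := (hsec n (i + 1) (j + 1) ρ ρ' 0 0 r1 r1' le_rfl hb0 le_rfl hb0 h5).1
      exact hij (add_right_cancel h6)
    · right
      rw [h3] at hk
      have h5 : (ρ : ℂ) * (stdAddChar (i + 1) * exp (((0 : ℝ) : ℂ) * I)) =
          ρ' * (stdAddChar j * exp (ω' * I)) := by
        rw [Complex.ofReal_zero, zero_mul, Complex.exp_zero, ← he i]
        linear_combination hk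
      have h6 := hsec n (i + 1) j ρ ρ' 0 ω' r1 r1' le_rfl hb0 r2' h3' h5
      exact ⟨r5.1 h3, r4'.1 h6.2.1.symm, h6.1.symm⟩
  · rcases r3'.eq_or_lt with h3' | h3'
    · left
      rw [h3'] at hk
      have h5 : (ρ : ℂ) * (stdAddChar i * exp (ω * I)) =
          ρ' * (stdAddChar (j + 1) * exp (((0 : ℝ) : ℂ) * I)) := by
        rw [Complex.ofReal_zero, zero_mul, Complex.exp_zero, ← he j]
        linear_combination hk
      have h6 := hsec n i (j + 1) ρ ρ' ω 0 r1 r1' r2 h3 le_rfl hb0 h5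
      exact ⟨r4.1 h6.2.1, r5'.1 h3', h6.1⟩
    · exfalso
      have h5 : (ρ : ℂ) * (stdAddChar i * exp (ω * I)) =
          ρ' * (stdAddChar j * exp (ω' * I)) := by
        linear_combination hk
      exact hij (hsec n i j ρ ρ' ω ω' r1 r1' r2 h3 r2' h3' h5).1

end Pool.Agent.T2H75.GN
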