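import Pool.Agent.T2H75.GN.Stm2

/-! package GSP -/

namespace Pool.Agent.T2H75.GN

open Complex ZMod

private lemma gsp_unit {u : ℂ} (hu : ‖u‖ = 1) : u.re ^ 2 + u.im ^ 2 = 1 := by
  have h := Complex.sq_norm u
  rw [hu, Complex.normSq_apply] at h
  nlinarith

theorem gsp : GspStm := by
  intro c s c' s' u v hc hs hcs hc' hs' hcs' hlt hu hv z hz
  obtain ⟨h1, l, m, hl, hm, rfl⟩ := hz
  have e : l • ((c : ℂ) * u, (s : ℂ) * v) + m • ((c' : ℂ) * u, (s' : ℂ) * v) =
      (((l * c + m * c' : ℝ) : ℂ) * u, ((l * s + m * s' : ℝ) : ℂ) * v) := by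
    apply Prod.ext
    · simp only [Prod.fst_add, Prod.smul_fst, Complex.real_smul]
      push_cast
      ring
    · simp only [Prod.snd_add, Prod.smul_snd, Complex.real_smul]
      push_cast
      ring
  rw [e] at h1 ⊢
  have hu2 := gsp_unit hu
  have hv2 := gsp_unit hv
  have hxy : (l * c + m * c') ^ 2 + (l * s + m * s') ^ 2 = 1 := by
    unfold ip at h1
    simp only [Complex.mul_re, Complex.mul_im, Complex.ofReal_re, Complex.ofReal_im] at h1
    linear_combination h1 - (l * c + m * c') ^ 2 * hu2 - (l * s + m * s') ^ 2 * hv2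
  have hx0 : 0 ≤ l * c + m * c' := by positivity
  have hy0 : 0 ≤ l * s + m * s' := by positivity
  have hss : s' < s := by
    have : s' ^ 2 < s ^ 2 := by nlinarith
    exact lt_of_pow_lt_pow_left₀ 2 hs.le this
  have hcr : 0 < c' * s - c * s' := by nlinarith [mul_pos hc hs, mul_pos hc' hs]
  have hy : 0 < l * s + m * s' := by
    rcases hy0.eq_or_lt with h | h
    · exfalso
      have hl0 : l = 0 := by
        by_contra hne
        have : 0 < l := lt_of_le_of_ne hl (Ne.symm hne)
        have := mul_pos this hs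
        nlinarith [mul_nonneg hm hs'.le]
      have hm0 : m = 0 := by
        by_contra hne
        have : 0 < m := lt_of_le_of_ne hm (Ne.symm hne)
        have := mul_pos this hs'
        nlinarith [mul_nonneg hl hs.le]
      rw [hl0, hm0] at hxy
      norm_num at hxy
    · exact h
  have hA : (l * s + m * s') * c ≤ (l * c + m * c') * s := by nlinarith [mul_nonneg hm hcr.le]
  have hB : (l * c + m * c') * s' ≤ (l * s + m * s') * c' := by nlinarith [mul_nonneg hl hcr.le]
  generalize l * c + m * c' = x at *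
  generalize l * s + m * s' = y at *
  have hcx : c ≤ x := by
    have h2 : (y * c) ^ 2 ≤ (x * s) ^ 2 := pow_le_pow_left₀ (by positivity) hA 2
    have h3 : c ^ 2 ≤ x ^ 2 := by nlinarith
    exact le_of_sq_le_sq h3 hx0
  have hxc : x ≤ c' := by
    have h2 : (x * s') ^ 2 ≤ (y * c') ^ 2 := pow_le_pow_left₀ (by positivity) hB 2
    have h3 : x ^ 2 ≤ c' ^ 2 := by nlinarith
    exact le_of_sq_le_sq h3 hc'.le
  refine ⟨x, y, hcx, hxc, hy, rfl, ?_, ?_⟩
  · intro hxe
    have : y = s := by
      have h2 : y ^ 2 = s ^ 2 := by rw [hxe] at hxy; linarith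
      exact (pow_left_inj₀ hy.le hs.le two_ne_zero).mp h2
    rw [hxe, this]
  · intro hxe
    have : y = s' := by
      have h2 : y ^ 2 = s' ^ 2 := by rw [hxe] at hxy; linarith
      exact (pow_left_inj₀ hy.le hs'.le two_ne_zero).mp h2
    rw [hxe, this]

end Pool.Agent.T2H75.GN
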