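import Pool.Agent.T2H75.GN.Stm2
import Pool.Agent.T2H75.GN.MAR

set_option autoImplicit false

/-!
# Package PARO: winding numbers of odd prisms
-/

namespace Pool.Agent.T2H75.GN

open Complex ZMod

namespace PARO

lemma cos_sum (n : ℕ) (hn : 5 ≤ n) : 1 ≤ Real.cos (2 * Real.pi / n) + Real.cos (Real.pi / n) := by
  have hnR : (5 : ℝ) ≤ n := by exact_mod_cast hn
  have hpi := Real.pi_pos
  have h1 : Real.cos (Real.pi / 5) ≤ Real.cos (Real.pi / n) := by
    apply Real.cos_le_cos_of_nonneg_of_le_pi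
    · positivity
    · linarith
    · exact div_le_div_of_nonneg_left hpi.le (by norm_num) hnR
  have h2 : Real.cos (2 * (Real.pi / 5)) ≤ Real.cos (2 * Real.pi / n) := by
    apply Real.cos_le_cos_of_nonneg_of_le_pi
    · positivity
    · linarith
    · have := div_le_div_of_nonneg_left hpi.le (by norm_num : (0:ℝ) < 5) hnR
      rw [mul_div_assoc]
      linarith
  have h5 : (2 : ℝ) ≤ √5 := by
    rw [show (2 : ℝ) = √(2 ^ 2) from by rw [Real.sqrt_sq (by norm_num)]]
    exact Real.sqrt_le_sqrt (by norm_num)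
  have h6 : (√5) ^ 2 = (5 : ℝ) := Real.sq_sqrt (by norm_num)
  rw [Real.cos_two_mul] at h2
  rw [Real.cos_pi_div_five] at h1 h2
  nlinarith

end PARO

open PARO in
theorem paro : ParoStm := by
  intro n hn0 h5 hodd
  obtain ⟨h, hh⟩ := hodd
  have hn5 : (5 : ℝ) ≤ n := by exact_mod_cast h5
  have hnpos : (0 : ℝ) < n := by linarith
  have hnC : (n : ℂ) ≠ 0 := by exact_mod_cast hnpos.ne'
  have hpi := Real.pi_pos
  refine ⟨(h : ZMod n), ?_, ?_, ?_, ?_⟩
  · have h1 : ((n : ℕ) : ZMod n) = 0 := ZMod.natCast_self n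
    have h2 : ((2 * h + 1 : ℕ) : ZMod n) = 0 := by rw [← hh]; exact h1
    push_cast at h2
    linear_combination h2
  · have h1 : stdAddChar (h : ZMod n) = stdAddChar (((h : ℤ)) : ZMod n) := by
      push_cast; rfl
    rw [h1, ZMod.stdAddChar_coe]
    congr 1
    have hb : (n : ℂ) = 2 * (h : ℂ) + 1 := by exact_mod_cast hh
    have hb' : (h : ℂ) = ((n : ℂ) - 1) / 2 := by linear_combination -(1 / 2 : ℂ) * hb
    push_cast
    rw [hb']
    field_simp
  · rw [Real.cos_pi_sub]
    have h1 : Real.cos (Real.pi / n) < 1 := by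
      apply MAR.cos_lt_one
      · positivity
      · rw [div_le_iff₀ hnpos]
        nlinarith
    linarith
  · rw [Real.cos_pi_sub]
    have := cos_sum n h5
    linarith

end Pool.Agent.T2H75.GN
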