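import Pool.Agent.T2H75.GN.Stm2
import Pool.Agent.T2H75.GN.PEMB

/-!
Package PEMBO of project GN (helper75), MP_a226eb_gt: embeddedness of the odd prisms. Written by helper55.
-/

namespace Pool.Agent.T2H75.GN

open Complex ZMod

namespace PEMBOx

open PEMBx (chi_inj chi_norm chi_ne chi_one adj RInt GInt ip_self_eq ip_smul edge_pt ray_inj exp0)

set_option linter.unusedSectionVars false

variable {n : ℕ} [NeZero n]

/-- the sign of the layer -/
def sg (b : Bool) : ℂ := if b then -1 else 1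

lemma sg_ne (b : Bool) : sg b ≠ 0 := by
  unfold sg
  cases b <;> simp

lemma sg_norm (b : Bool) : ‖sg b‖ = 1 := by
  unfold sg
  cases b <;> simp

lemma ppos_sg (a : ZMod n) (c s : ℝ) (v : ZMod n × Bool) :
    ppos n a c s v = ((c : ℂ) * (stdAddChar : AddChar (ZMod n) ℂ) (a * v.1),
      (s : ℂ) * (sg v.2 * (stdAddChar : AddChar (ZMod n) ℂ) v.1)) := rfl

lemma one_ne (hn : 5 ≤ n) : (1 : ZMod n) ≠ 0 := by
  intro h
  have h' : ((1 : ℕ) : ZMod n) = 0 := by exact_mod_cast h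
  rw [ZMod.natCast_eq_zero_iff] at h'
  have := Nat.le_of_dvd (by omega) h'
  omega

lemma ha_inj {a : ZMod n} (ha2 : 2 * a = -1) : ∀ j, a * j = 0 → j = 0 := by
  intro j hj
  have h1 : (2 * a) * j = 0 := by rw [mul_assoc, hj, mul_zero]
  rw [ha2] at h1
  simpa using h1

lemma inj {a : ZMod n} (ha : ∀ j, a * j = 0 → j = 0) {c s : ℝ} (hc : 0 < c)
    (hs : 0 < s) : Function.Injective (ppos n a c s) := by
  intro v w h
  rw [ppos_sg, ppos_sg] at h
  have h1 := congrArg Prod.fst h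
  have h2 := congrArg Prod.snd h
  simp only at h1 h2
  have hc' : (c : ℂ) ≠ 0 := by exact_mod_cast hc.ne'
  have hs' : (s : ℂ) ≠ 0 := by exact_mod_cast hs.ne'
  have e1 := chi_inj (mul_left_cancel₀ hc' h1)
  have e2 := mul_left_cancel₀ hs' h2
  have e3 : v.1 = w.1 := by
    have := ha (v.1 - w.1) (by rw [mul_sub, e1, sub_self])
    exact sub_eq_zero.mp this
  rw [e3] at e2
  have e4 := mul_right_cancel₀ (chi_ne w.1) e2
  obtain ⟨i, b⟩ := v
  obtain ⟨i', b'⟩ := w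
  simp only at e3 e4
  subst e3
  have e5 : b = b' := by
    unfold sg at e4
    have e6 := congrArg Complex.re e4
    cases b <;> cases b'
    · rfl
    · norm_num at e6
    · norm_num at e6
    · rfl
  rw [e5]

lemma antip (hn : 5 ≤ n) {a : ZMod n} (ha2 : 2 * a = -1) {c s : ℝ} (hc : 0 < c)
    (v w : ZMod n × Bool) (h : (prism n).Adj v w) : ppos n a c s w ≠ -ppos n a c s v := by
  have hc' : (c : ℂ) ≠ 0 := by exact_mod_cast hc.ne'
  have key : ∀ v w : ZMod n × Bool, w = (v.1 + 1, v.2) → ppos n a c s w ≠ -ppos n a c s v := by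
    intro v w hw e
    rw [ppos_sg, ppos_sg] at e
    have h1 := congrArg Prod.fst e
    simp only [Prod.fst_neg] at h1
    rw [hw] at h1
    simp only at h1
    have e1 : (c : ℂ) * ((stdAddChar : AddChar (ZMod n) ℂ) (a * v.1) * (stdAddChar : AddChar (ZMod n) ℂ) a) =
        (c : ℂ) * ((stdAddChar : AddChar (ZMod n) ℂ) (a * v.1) * (-1)) := by
      rw [mul_add, mul_one, AddChar.map_add_eq_mul] at h1
      rw [h1]
      ring
    have e2 := mul_left_cancel₀ (chi_ne _) (mul_left_cancel₀ hc' e1)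
    have e3 : (stdAddChar : AddChar (ZMod n) ℂ) (2 * a) = (stdAddChar : AddChar (ZMod n) ℂ) 0 := by
      rw [two_mul, AddChar.map_add_eq_mul, e2, AddChar.map_zero_eq_one]
      norm_num
    have e4 := chi_inj e3
    rw [ha2] at e4
    exact one_ne hn (neg_eq_zero.mp e4)
  rcases adj h with (h | h) | h
  · exact key v w h
  · intro e
    refine key w v h ?_
    rw [e, neg_neg]
  · intro e
    rw [ppos_sg, ppos_sg] at e
    have h1 := congrArg Prod.fst e
    simp only [Prod.fst_neg] at h1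
    rw [h] at h1
    simp only at h1
    have : (c : ℂ) * (stdAddChar : AddChar (ZMod n) ℂ) (a * v.1) = 0 := by linear_combination (1 / 2 : ℂ) * h1
    exact mul_ne_zero hc' (chi_ne _) this

lemma unit (a : ZMod n) {c s : ℝ} (h : c ^ 2 + s ^ 2 = 1) (v : ZMod n × Bool) :
    ip (ppos n a c s v) (ppos n a c s v) = 1 := by
  rw [ip_self_eq, ppos_sg]
  simp only [norm_mul, chi_norm, mul_one, sg_norm, Complex.norm_real, Real.norm_eq_abs, sq_abs]
  exact h

lemma norm_fst (a : ZMod n) {c s : ℝ} (hc : 0 < c) (v : ZMod n × Bool) :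
    ‖(ppos n a c s v).1‖ = c := by
  rw [ppos_sg]
  simp only [norm_mul, chi_norm, mul_one, Complex.norm_real, Real.norm_eq_abs]
  exact abs_of_pos hc

lemma re_mul {u w : ℂ} (hu : ‖u‖ = 1) : u.re * (u * w).re + u.im * (u * w).im = w.re := by
  have h : u.re * u.re + u.im * u.im = 1 := by
    rw [← Complex.normSq_apply, Complex.normSq_eq_norm_sq, hu, one_pow]
  rw [Complex.mul_re, Complex.mul_im]
  linear_combination w.re * h

lemma re_lt (hn : 5 ≤ n) {a : ZMod n}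
    (hχ : (stdAddChar : AddChar (ZMod n) ℂ) a = exp (((Real.pi - Real.pi / n : ℝ) : ℂ) * I)) :
    ((stdAddChar : AddChar (ZMod n) ℂ) a).re < ((stdAddChar : AddChar (ZMod n) ℂ) 1).re := by
  have hn' : (5 : ℝ) ≤ n := by exact_mod_cast hn
  have hpi := Real.pi_pos
  have e1 : ((stdAddChar : AddChar (ZMod n) ℂ) a).re = -Real.cos (Real.pi / n) := by
    rw [hχ, Complex.exp_ofReal_mul_I_re, Real.cos_pi_sub]
  have e2 : ((stdAddChar : AddChar (ZMod n) ℂ) 1).re = Real.cos (2 * Real.pi / n) := by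
    rw [chi_one, Complex.exp_ofReal_mul_I_re]
  have h1 : 0 < Real.cos (Real.pi / n) := by
    apply Real.cos_pos_of_mem_Ioo
    constructor
    · have : 0 < Real.pi / n := by positivity
      linarith
    · rw [div_lt_iff₀ (by linarith)]
      nlinarith
  have h2 : 0 < Real.cos (2 * Real.pi / n) := by
    apply Real.cos_pos_of_mem_Ioo
    constructor
    · have : 0 < 2 * Real.pi / n := by positivity
      linarith
    · rw [div_lt_iff₀ (by linarith)]
      nlinarith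
  rw [e1, e2]
  linarith

/-- rim edges lie in the layer `‖x.1‖ < c` -/
lemma rim_lt (hlay : GlayStm) (hn : 5 ≤ n) {a : ZMod n}
    (hχ : (stdAddChar : AddChar (ZMod n) ℂ) a = exp (((Real.pi - Real.pi / n : ℝ) : ℂ) * I))
    {c s : ℝ} (hc : 0 < c) (hs : 0 < s) (hcs : c ^ 2 + s ^ 2 = 1) (i : ZMod n) (b : Bool) {x : ℂ × ℂ}
    (hx : x ∈ arc (ppos n a c s (i, b)) (ppos n a c s (i + 1, b))) :
    x = ppos n a c s (i, b) ∨ x = ppos n a c s (i + 1, b) ∨ ‖x.1‖ < c := by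
  have e1 : ppos n a c s (i + 1, b) = ((c : ℂ) * ((stdAddChar : AddChar (ZMod n) ℂ) (a * i) *
      (stdAddChar : AddChar (ZMod n) ℂ) a), (s : ℂ) * ((sg b * (stdAddChar : AddChar (ZMod n) ℂ) i) *
        (stdAddChar : AddChar (ZMod n) ℂ) 1)) := by
    rw [ppos_sg]
    simp only
    rw [mul_add, mul_one, AddChar.map_add_eq_mul, AddChar.map_add_eq_mul]
    ring_nf
  have e0 : ppos n a c s (i, b) = ((c : ℂ) * (stdAddChar : AddChar (ZMod n) ℂ) (a * i),
      (s : ℂ) * (sg b * (stdAddChar : AddChar (ZMod n) ℂ) i)) := rfl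
  rw [e0, e1] at hx ⊢
  have hu : ‖(stdAddChar : AddChar (ZMod n) ℂ) (a * i)‖ = 1 := chi_norm _
  have hv : ‖sg b * (stdAddChar : AddChar (ZMod n) ℂ) i‖ = 1 := by
    rw [norm_mul, sg_norm, chi_norm, mul_one]
  have hu' : ‖(stdAddChar : AddChar (ZMod n) ℂ) (a * i) * (stdAddChar : AddChar (ZMod n) ℂ) a‖ = 1 := by
    rw [norm_mul, hu, chi_norm, mul_one]
  have hv' : ‖(sg b * (stdAddChar : AddChar (ZMod n) ℂ) i) * (stdAddChar : AddChar (ZMod n) ℂ) 1‖ = 1 := by
    rw [norm_mul, hv, chi_norm, mul_one]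
  refine (hlay c s _ _ _ _ hc hs hcs hu hv hu' hv' x hx).1 ?_
  rw [re_mul hu, re_mul hv]
  exact re_lt hn hχ

lemma classify (hlay : GlayStm) (hn : 5 ≤ n) {a : ZMod n}
    (hχ : (stdAddChar : AddChar (ZMod n) ℂ) a = exp (((Real.pi - Real.pi / n : ℝ) : ℂ) * I))
    {c s : ℝ} (hc : 0 < c) (hs : 0 < s) (h : c ^ 2 + s ^ 2 = 1)
    {v w : ZMod n × Bool} (hvw : (prism n).Adj v w) {x : ℂ × ℂ}
    (hx : x ∈ arc (ppos n a c s v) (ppos n a c s w)) :
    x = ppos n a c s v ∨ x = ppos n a c s w ∨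
      (∃ i b, s(v, w) = s((i, b), (i + 1, b)) ∧ RInt a c s i b x ∧ ‖x.1‖ < c) ∨
      (∃ i, s(v, w) = s((i, false), (i, true)) ∧ GInt a c s i x ∧ ip x x = 1) := by
  have hxx : ip x x = 1 := hx.1
  have harc : ∀ p q : ℂ × ℂ, x ∈ arc p q → x ∈ arc q p := by
    rintro p q ⟨h1, l, m, hl, hm, h2⟩
    exact ⟨h1, m, l, hm, hl, by rw [h2, add_comm]⟩
  rcases edge_pt (unit a h v) (unit a h w) hx with h1 | h1 | ⟨l, μ, hl, hμ, hxe⟩
  · exact Or.inl h1
  · exact Or.inr (Or.inl h1)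
  · rcases adj hvw with (h2 | h2) | h2
    · have hx2 : x ∈ arc (ppos n a c s (v.1, v.2)) (ppos n a c s (v.1 + 1, v.2)) := by
        rw [← h2]; exact hx
      rcases rim_lt hlay hn hχ hc hs h v.1 v.2 hx2 with h3 | h3 | h3
      · exact Or.inl h3
      · exact Or.inr (Or.inl (by rw [h3, ← h2]))
      · right; right; left
        refine ⟨v.1, v.2, ?_, ⟨l, μ, hl, hμ, ?_⟩, h3⟩
        · rw [h2]
        · rw [hxe, h2]
    · have hx2 : x ∈ arc (ppos n a c s (w.1, w.2)) (ppos n a c s (w.1 + 1, w.2)) := by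
        rw [← h2]; exact harc _ _ hx
      rcases rim_lt hlay hn hχ hc hs h w.1 w.2 hx2 with h3 | h3 | h3
      · exact Or.inr (Or.inl h3)
      · exact Or.inl (by rw [h3, ← h2])
      · right; right; left
        refine ⟨w.1, w.2, ?_, ⟨μ, l, hμ, hl, ?_⟩, h3⟩
        · rw [Sym2.eq_swap, h2]
        · rw [hxe, add_comm]
          congr 2
          rw [← h2]
    · right; right; right
      obtain ⟨i, b⟩ := v
      simp only at h2
      cases b
      · refine ⟨i, ?_, ⟨l, μ, hl, hμ, ?_⟩, hxx⟩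
        · rw [h2]
          rfl
        · rw [hxe, h2]
          rfl
      · refine ⟨i, ?_, ⟨μ, l, hμ, hl, ?_⟩, hxx⟩
        · rw [h2, Sym2.eq_swap]
          rfl
        · rw [hxe, h2, add_comm]
          rfl

lemma rint_coord {a : ZMod n} {c s : ℝ} {i : ZMod n} {b : Bool} {x : ℂ × ℂ} (hx : RInt a c s i b x) :
    ∃ l μ : ℝ, 0 < l ∧ 0 < μ ∧
      x.1 = (c : ℂ) * ((stdAddChar : AddChar (ZMod n) ℂ) (a * i) * ((l : ℂ) + μ * (stdAddChar : AddChar (ZMod n) ℂ) a)) ∧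
      x.2 = (s : ℂ) * (sg b * ((stdAddChar : AddChar (ZMod n) ℂ) i * ((l : ℂ) + μ * (stdAddChar : AddChar (ZMod n) ℂ) 1))) := by
  obtain ⟨l, μ, hl, hμ, rfl⟩ := hx
  refine ⟨l, μ, hl, hμ, ?_, ?_⟩
  · rw [ppos_sg, ppos_sg]
    simp only [Prod.fst_add, Prod.smul_fst, Complex.real_smul]
    rw [mul_add, AddChar.map_add_eq_mul, mul_one]
    ring
  · rw [ppos_sg, ppos_sg]
    simp only [Prod.snd_add, Prod.smul_snd, Complex.real_smul]
    rw [AddChar.map_add_eq_mul]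
    ring

lemma gint_coord {a : ZMod n} {c s : ℝ} {i : ZMod n} {x : ℂ × ℂ}
    (hx : GInt a c s i x) : ∃ l μ : ℝ, 0 < l ∧ 0 < μ ∧ x.1 = (c : ℂ) * (((l + μ : ℝ) : ℂ) * (stdAddChar : AddChar (ZMod n) ℂ) (a * i)) ∧
      x.2 = (s : ℂ) * (((l - μ : ℝ) : ℂ) * (stdAddChar : AddChar (ZMod n) ℂ) i) := by
  obtain ⟨l, μ, hl, hμ, rfl⟩ := hx
  refine ⟨l, μ, hl, hμ, ?_, ?_⟩
  · unfold ppos
    simp only [Prod.fst_add, Prod.smul_fst, Complex.real_smul]
    push_cast
    ring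
  · unfold ppos
    simp only [Prod.snd_add, Prod.smul_snd, Complex.real_smul]
    push_cast
    simp
    ring

/-- rungs lie in the layer `c ≤ ‖x.1‖` -/
lemma rung_ge {a : ZMod n} {c s : ℝ} (hc : 0 < c) (hcs : c ^ 2 + s ^ 2 = 1) {i : ZMod n} {x : ℂ × ℂ}
    (hx : GInt a c s i x) (hxx : ip x x = 1) : c ≤ ‖x.1‖ := by
  obtain ⟨l, μ, hl, hμ, h1, h2⟩ := gint_coord hx
  have e1 : ‖x.1‖ = c * (l + μ) := by
    rw [h1, norm_mul, norm_mul, chi_norm, mul_one, Complex.norm_real, Complex.norm_real,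
      Real.norm_eq_abs, Real.norm_eq_abs, abs_of_pos hc, abs_of_pos (by linarith : 0 < l + μ)]
  have e2 : ‖x.2‖ ^ 2 = s ^ 2 * (l - μ) ^ 2 := by
    rw [h2, norm_mul, norm_mul, chi_norm, mul_one, Complex.norm_real, Complex.norm_real,
      Real.norm_eq_abs, Real.norm_eq_abs, mul_pow, sq_abs, sq_abs]
  rw [ip_self_eq, e1, e2] at hxx
  rw [e1]
  have h3 : 1 ≤ (l + μ) ^ 2 := by
    have h4 : (l - μ) ^ 2 ≤ (l + μ) ^ 2 := by nlinarith
    have h5 : s ^ 2 * (l - μ) ^ 2 ≤ s ^ 2 * (l + μ) ^ 2 := mul_le_mul_of_nonneg_left h4 (sq_nonneg s)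
    calc (1 : ℝ) = (c * (l + μ)) ^ 2 + s ^ 2 * (l - μ) ^ 2 := hxx.symm
      _ ≤ (c * (l + μ)) ^ 2 + s ^ 2 * (l + μ) ^ 2 := by linarith
      _ = (c ^ 2 + s ^ 2) * (l + μ) ^ 2 := by ring
      _ = (l + μ) ^ 2 := by rw [hcs, one_mul]
  have h6 : 1 ≤ l + μ := by nlinarith
  nlinarith

lemma rung_rung {a : ZMod n} (ha : ∀ j, a * j = 0 → j = 0) {c s : ℝ} (hc : 0 < c)
    {i i' : ZMod n} {x : ℂ × ℂ} (hx : GInt a c s i x) (hx' : GInt a c s i' x) : i = i' := by
  obtain ⟨l, μ, hl, hμ, h1, -⟩ := gint_coord hx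
  obtain ⟨l', μ', hl', hμ', h1', -⟩ := gint_coord hx'
  have hc' : (c : ℂ) ≠ 0 := by exact_mod_cast hc.ne'
  rw [h1] at h1'
  have e := (ray_inj (by linarith) (by linarith) (mul_left_cancel₀ hc' h1')).1
  have := ha (i - i') (by rw [mul_sub, e, sub_self])
  exact sub_eq_zero.mp this

lemma rung_vertex {a : ZMod n} (ha : ∀ j, a * j = 0 → j = 0) {c s : ℝ} (hc : 0 < c)
    (hs : 0 < s) {i : ZMod n} (v : ZMod n × Bool) : ¬ GInt a c s i (ppos n a c s v) := by
  intro h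
  obtain ⟨l, μ, hl, hμ, h1, h2⟩ := gint_coord h
  have hc' : (c : ℂ) ≠ 0 := by exact_mod_cast hc.ne'
  have hs' : (s : ℂ) ≠ 0 := by exact_mod_cast hs.ne'
  unfold ppos at h1 h2
  simp only at h1 h2
  have e1 : ((1 : ℝ) : ℂ) * (stdAddChar : AddChar (ZMod n) ℂ) (a * v.1) = ((l + μ : ℝ) : ℂ) * (stdAddChar : AddChar (ZMod n) ℂ) (a * i) := by
    rw [Complex.ofReal_one, one_mul]
    exact mul_left_cancel₀ hc' h1
  obtain ⟨e2, e3⟩ := ray_inj one_pos (by linarith) e1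
  have e4 : v.1 = i := by
    have := ha (v.1 - i) (by rw [mul_sub, e2, sub_self])
    exact sub_eq_zero.mp this
  have e5 := mul_left_cancel₀ hs' h2
  rw [e4] at e5
  have e6 := mul_right_cancel₀ (chi_ne i) e5
  by_cases hb : v.2
  · rw [if_pos hb] at e6
    have : (-1 : ℝ) = l - μ := by exact_mod_cast e6
    linarith
  · rw [if_neg hb] at e6
    have : (1 : ℝ) = l - μ := by exact_mod_cast e6
    linarith

lemma rim_rim (hpol : PolStm) (hsec : SecStm) (hprr : PrrStm) (hn : 5 ≤ n) (ho : Odd n) {a : ZMod n}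
    (ha2 : 2 * a = -1)
    (hχ : (stdAddChar : AddChar (ZMod n) ℂ) a = exp (((Real.pi - Real.pi / n : ℝ) : ℂ) * I))
    {c s : ℝ} (hc : 0 < c) (hs : 0 < s)
    {i i' : ZMod n} {b b' : Bool} {x : ℂ × ℂ} (hx : RInt a c s i b x) (hx' : RInt a c s i' b' x) :
    i = i' ∧ b = b' := by
  obtain ⟨l, μ, hl, hμ, hx1, hx2⟩ := rint_coord hx
  obtain ⟨l', μ', hl', hμ', hx1', hx2'⟩ := rint_coord hx'
  have hs' : (s : ℂ) ≠ 0 := by exact_mod_cast hs.ne'
  rw [hx1] at hx1'
  rw [hx2] at hx2'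
  by_cases hb : b = b'
  · subst hb
    refine ⟨?_, rfl⟩
    have e1 := mul_left_cancel₀ (sg_ne b) (mul_left_cancel₀ hs' hx2')
    have hn' : (5 : ℝ) ≤ n := by exact_mod_cast hn
    have hβ0 : 0 < 2 * Real.pi / n := by
      have := Real.pi_pos
      positivity
    have hβ1 : 2 * Real.pi / n < Real.pi := by
      rw [div_lt_iff₀ (by linarith)]
      nlinarith [Real.pi_pos]
    obtain ⟨ρ, ω, hρ, h0, h1, h2, h3, h4⟩ := hpol (2 * Real.pi / n) l μ hβ0 hβ1 hl.le hμ.le (Or.inl hl.ne')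
    obtain ⟨ρ', ω', hρ', h0', h1', h2', h3', h4'⟩ := hpol (2 * Real.pi / n) l' μ' hβ0 hβ1 hl'.le hμ'.le (Or.inl hl'.ne')
    have hω : ω < 2 * Real.pi / n := lt_of_le_of_ne h1 (fun e => hl.ne' (h3.mp e))
    have hω' : ω' < 2 * Real.pi / n := lt_of_le_of_ne h1' (fun e => hl'.ne' (h3'.mp e))
    rw [chi_one, h4, h4'] at e1
    refine (hsec n i i' ρ ρ' ω ω' hρ hρ' h0 hω h0' hω' ?_).1
    linear_combination e1
  · exfalso
    cases b <;> cases b'
    · exact hb rfl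
    · refine hprr n hn ho a ha2 hχ c s hc hs i i' l μ l' μ' hl hμ hl' hμ' hx1' ?_
      unfold sg at hx2'
      simp only [Bool.false_eq_true, if_false, if_true] at hx2'
      linear_combination hx2'
    · refine hprr n hn ho a ha2 hχ c s hc hs i' i l' μ' l μ hl' hμ' hl hμ hx1'.symm ?_
      unfold sg at hx2'
      simp only [Bool.false_eq_true, if_false, if_true] at hx2'
      linear_combination -hx2'
    · exact hb rfl

end PEMBOx

open PEMBOx in
theorem pembo (hpol : PolStm) (hsec : SecStm) (hlay : GlayStm) (hprr : PrrStm) : PemboStm := by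
  intro n _ hn ho a ha2 hχ c s hc hs hcs
  have ha := ha_inj ha2
  have hinj := inj ha hc hs
  refine ⟨hinj, antip hn ha2 hc, ?_⟩
  intro v w v' w' hvw hvw' hne x hx hx'
  have main : ∀ (v w v' w' : ZMod n × Bool), (prism n).Adj v w → (prism n).Adj v' w' →
      (x = ppos n a c s v ∨ x = ppos n a c s w) → x ∈ arc (ppos n a c s v') (ppos n a c s w') →
      ∃ u, (u = v ∨ u = w) ∧ (u = v' ∨ u = w') ∧ x = ppos n a c s u := by
    intro v w v' w' h1 h2 h3 h4
    obtain ⟨u, hu, hxu⟩ : ∃ u, (u = v ∨ u = w) ∧ x = ppos n a c s u := by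
      rcases h3 with h3 | h3
      · exact ⟨v, Or.inl rfl, h3⟩
      · exact ⟨w, Or.inr rfl, h3⟩
    refine ⟨u, hu, ?_, hxu⟩
    rcases classify hlay hn hχ hc hs hcs h2 h4 with h | h | ⟨i, b, -, -, h⟩ | ⟨i, -, h, -⟩
    · exact Or.inl (hinj (hxu.symm.trans h))
    · exact Or.inr (hinj (hxu.symm.trans h))
    · rw [hxu, norm_fst a hc] at h
      exact absurd h (lt_irrefl _)
    · rw [hxu] at h
      exact absurd h (rung_vertex ha hc hs u)
  rcases classify hlay hn hχ hc hs hcs hvw hx with h | h | ⟨i, b, hs1, h, hlt⟩ | ⟨i, hs1, h, hxx⟩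
  · exact main v w v' w' hvw hvw' (Or.inl h) hx'
  · exact main v w v' w' hvw hvw' (Or.inr h) hx'
  · rcases classify hlay hn hχ hc hs hcs hvw' hx' with h' | h' | ⟨i', b', hs2, h', -⟩ | ⟨i', hs2, h', hxx'⟩
    · rw [h', norm_fst a hc] at hlt
      exact absurd hlt (lt_irrefl _)
    · rw [h', norm_fst a hc] at hlt
      exact absurd hlt (lt_irrefl _)
    · obtain ⟨e1, e2⟩ := rim_rim hpol hsec hprr hn ho ha2 hχ hc hs h h'
      exact absurd (by rw [hs1, hs2, e1, e2]) hne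
    · exact absurd hlt (not_lt.mpr (rung_ge hc hcs h' hxx'))
  · rcases classify hlay hn hχ hc hs hcs hvw' hx' with h' | h' | ⟨i', b', hs2, h', hlt'⟩ | ⟨i', hs2, h', -⟩
    · rw [h'] at h
      exact absurd h (rung_vertex ha hc hs v')
    · rw [h'] at h
      exact absurd h (rung_vertex ha hc hs w')
    · exact absurd hlt' (not_lt.mpr (rung_ge hc hcs h hxx))
    · have e1 := rung_rung ha hc h h'
      exact absurd (by rw [hs1, hs2, e1]) hne

end Pool.Agent.T2H75.GN
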