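import Pool.Agent.T2H75.GN.Stm2

set_option autoImplicit false

/-!
# Package PRR: rims of different layers of an odd prism do not meet

With `ζ = exp (i π / n)`, `w = χ (a (i - j))`: `w (l ζ - μ) = l' ζ - μ'` and
`l + μ ζ² = - w² (l' + μ' ζ²)`.  The norms give `(l', μ') = (l, μ)` (then `w = 1`, impossible) or
`(μ, l)`, and then `(1 + ζ) (1 + w) ((1 + ζ w) (ζ + w) - 2 ζ w) = 0`, i.e. `Re w + Re ζ = 1`,
which is impossible because `|cos (2 π k / n)| ≥ sin (π / (2 n)) > 2 sin² (π / (2 n))`.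
-/

namespace Pool.Agent.T2H75.GN

open Complex ZMod

namespace PRR

lemma sin_ge {θ x : ℝ} (hθ : 0 < θ) (h1 : θ ≤ x) (h2 : x ≤ Real.pi - θ) :
    Real.sin θ ≤ Real.sin x := by
  have hpi := Real.pi_pos
  rcases le_total x (Real.pi / 2) with h | h
  · exact Real.sin_le_sin_of_le_of_le_pi_div_two (by linarith) h h1
  · rw [← Real.sin_pi_sub x]
    exact Real.sin_le_sin_of_le_of_le_pi_div_two (by linarith) (by linarith) (by linarith)

lemma core (n : ℕ) (hn : 5 ≤ n) (hodd : Odd n) (k : ℤ) :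
    Real.cos (2 * Real.pi * k / n) ≠ 1 - Real.cos (Real.pi / n) := by
  have hpi := Real.pi_pos
  have hnR : (5 : ℝ) ≤ n := by exact_mod_cast hn
  have hn0 : (0 : ℝ) < n := by linarith
  set θ : ℝ := Real.pi / (2 * n) with hθ
  have hθ0 : 0 < θ := by positivity
  have hnθ : 2 * n * θ = Real.pi := by rw [hθ]; field_simp
  have hθ1 : θ < 1 / 2 := by
    have h4 := Real.pi_lt_four
    nlinarith
  have hs0 : 0 < Real.sin θ := Real.sin_pos_of_pos_of_lt_pi hθ0 (by nlinarith)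
  have hs1 : Real.sin θ < 1 / 2 := (Real.sin_lt hθ0).trans hθ1
  have hc : Real.cos (Real.pi / n) = 1 - 2 * Real.sin θ ^ 2 := by
    have h1 : Real.pi / n = 2 * θ := by rw [hθ]; field_simp
    rw [h1, Real.cos_two_mul, Real.sin_sq]
    ring
  intro hcon
  rw [hc] at hcon
  set m : ℤ := (n : ℤ) - 4 * k with hm
  have h1 : Real.cos (2 * Real.pi * k / n) = Real.sin (m * θ) := by
    rw [← Real.sin_pi_div_two_sub]
    congr 1
    rw [hm, ← hnθ]
    push_cast
    field_simp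
    ring
  set r : ℤ := m % (2 * n) with hr
  set t : ℤ := m / (2 * n) with ht
  have hmr : m = r + 2 * n * t := by rw [hr, ht, Int.emod_add_mul_ediv]
  have hr0 : 0 ≤ r := Int.emod_nonneg _ (by omega)
  have hr1 : r < 2 * n := Int.emod_lt_of_pos _ (by omega)
  have hrodd : r % 2 = 1 := by
    obtain ⟨g, hg⟩ := hodd
    have e1 : r = m - 2 * (n * t) := by rw [hmr]; ring
    rw [e1, hm, hg]
    push_cast
    omega
  have hr2 : 1 ≤ r := by omega
  have hr3 : r ≤ 2 * n - 1 := by omega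
  have h2 : Real.sin (m * θ) ^ 2 = Real.sin (r * θ) ^ 2 := by
    rw [Real.sin_sq_eq_half_sub, Real.sin_sq_eq_half_sub]
    have e2 : 2 * ((m : ℝ) * θ) = 2 * (r * θ) + t * (2 * Real.pi) := by
      rw [hmr, ← hnθ]
      push_cast
      ring
    rw [e2, Real.cos_add_int_mul_two_pi]
  have h3 : Real.sin θ ≤ Real.sin (r * θ) := by
    have e3 : (1 : ℝ) ≤ r := by exact_mod_cast hr2
    have e4 : (r : ℝ) ≤ 2 * n - 1 := by exact_mod_cast hr3
    refine sin_ge hθ0 (by nlinarith) ?_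
    rw [← hnθ]
    nlinarith
  rw [h1] at hcon
  have h4 : Real.sin θ ^ 2 ≤ Real.sin (m * θ) ^ 2 := by
    rw [h2]
    exact pow_le_pow_left₀ hs0.le h3 2
  rw [hcon] at h4
  have h5 : Real.sin θ ^ 2 < 1 / 4 := by nlinarith
  have h6 : 0 < Real.sin θ ^ 2 := by positivity
  nlinarith

/-- the algebraic core -/
lemma alg {C D W V l μ : ℝ} (hζ : C ^ 2 + D ^ 2 = 1) (hw : W ^ 2 + V ^ 2 = 1) (hμ : μ ≠ 0)
    (hD : D ≠ 0) (hw1 : (⟨W, V⟩ : ℂ) ≠ -1)
    (h1 : (⟨W, V⟩ : ℂ) * ((l : ℂ) * ⟨C, D⟩ - μ) = (μ : ℂ) * ⟨C, D⟩ - l)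
    (h2 : (l : ℂ) + μ * ⟨C, D⟩ ^ 2 = -(⟨W, V⟩ : ℂ) ^ 2 * ((μ : ℂ) + l * ⟨C, D⟩ ^ 2)) :
    W = 1 - C := by
  set ζ : ℂ := ⟨C, D⟩ with hζd
  set w : ℂ := ⟨W, V⟩ with hwd
  have hμC : (μ : ℂ) ≠ 0 := by exact_mod_cast hμ
  have e1 : (μ : ℂ) * ((1 + ζ) * ((1 + w) * ((1 + ζ * w) * (ζ + w) - 2 * (ζ * w)))) = 0 := by
    linear_combination (-(1 + w ^ 2 * ζ ^ 2)) * h1 + (1 + w * ζ) * h2
  have hζ1 : 1 + ζ ≠ 0 := by
    intro h
    have := congrArg Complex.im h
    simp [hζd] at this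
    exact hD this
  have hw2 : 1 + w ≠ 0 := by
    intro h
    apply hw1
    linear_combination h
  have e2 : (1 + ζ * w) * (ζ + w) - 2 * (ζ * w) = 0 := by
    rcases mul_eq_zero.1 e1 with h | h
    · exact absurd h hμC
    rcases mul_eq_zero.1 h with h | h
    · exact absurd h hζ1
    rcases mul_eq_zero.1 h with h | h
    · exact absurd h hw2
    exact h
  have c1 : ζ * (starRingEnd ℂ) ζ = 1 := by
    rw [Complex.mul_conj, Complex.normSq_apply, hζd]
    have : C * C + D * D = 1 := by nlinarith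
    exact_mod_cast this
  have c2 : w * (starRingEnd ℂ) w = 1 := by
    rw [Complex.mul_conj, Complex.normSq_apply, hwd]
    have : W * W + V * V = 1 := by nlinarith
    exact_mod_cast this
  have e3 : ζ + (starRingEnd ℂ) ζ + w + (starRingEnd ℂ) w = 2 := by
    linear_combination ((starRingEnd ℂ) ζ * (starRingEnd ℂ) w) * e2 +
      (-(starRingEnd ℂ) w - (ζ + w - 2)) * c1 +
      (-(starRingEnd ℂ) ζ - (ζ + w - 2) * (ζ * (starRingEnd ℂ) ζ)) * c2
  have e4 := congrArg Complex.re e3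
  simp [hζd, hwd] at e4
  linarith

end PRR

open PRR in
theorem prr (_hpol : PolStm) (_hsec : SecStm) : PrrStm := by
  intro n hn0 hn hodd a ha hχa c s hc hs i j l μ l' μ' hl hμ hl' hμ' h1 h2
  have hpi := Real.pi_pos
  have hnR : (5 : ℝ) ≤ n := by exact_mod_cast hn
  have hn0R : (0 : ℝ) < n := by linarith
  have hnC : (n : ℂ) ≠ 0 := by exact_mod_cast hn0R.ne'
  obtain ⟨x, hx⟩ : ∃ x : ℝ, x = Real.pi / n := ⟨_, rfl⟩
  have hx0 : 0 < x := by rw [hx]; positivity
  have hx1 : x < Real.pi / 3 := by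
    rw [hx]
    exact div_lt_div_of_pos_left hpi (by norm_num) (by linarith)
  obtain ⟨C, hC⟩ : ∃ C : ℝ, C = Real.cos x := ⟨_, rfl⟩
  obtain ⟨D, hD⟩ : ∃ D : ℝ, D = Real.sin x := ⟨_, rfl⟩
  have hCD : C ^ 2 + D ^ 2 = 1 := by rw [hC, hD]; exact Real.cos_sq_add_sin_sq x
  have hD0 : 0 < D := by rw [hD]; exact Real.sin_pos_of_pos_of_lt_pi hx0 (by linarith)
  have hC0 : 1 / 2 < C := by
    rw [hC, ← Real.cos_pi_div_three]
    exact Real.cos_lt_cos_of_nonneg_of_le_pi hx0.le (by linarith) hx1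
  obtain ⟨ζ, hζ⟩ : ∃ ζ : ℂ, ζ = ⟨C, D⟩ := ⟨_, rfl⟩
  have hζexp : exp (x * I) = ζ := by
    rw [hζ]
    apply Complex.ext
    · rw [Complex.exp_ofReal_mul_I_re, hC]
    · rw [Complex.exp_ofReal_mul_I_im, hD]
  have hχ1 : (stdAddChar (1 : ZMod n) : ℂ) = ζ ^ 2 := by
    have e : (1 : ZMod n) = ((1 : ℤ) : ZMod n) := by push_cast; rfl
    rw [e, ZMod.stdAddChar_coe, ← hζexp, ← Complex.exp_nat_mul]
    congr 1
    rw [hx]
    push_cast
    field_simp
  have hA : (stdAddChar a : ℂ) * ζ = -1 := by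
    rw [hχa, ← hζexp, ← Complex.exp_add]
    have e : ((Real.pi - Real.pi / n : ℝ) : ℂ) * I + x * I = Real.pi * I := by
      rw [hx]
      push_cast
      ring
    rw [e, Complex.exp_pi_mul_I]
  obtain ⟨w, hw⟩ : ∃ w : ℂ, w = stdAddChar (a * (i - j)) := ⟨_, rfl⟩
  have hwn : w ^ n = 1 := by
    rw [hw, ← AddChar.map_nsmul_eq_pow]
    have e : n • (a * (i - j)) = 0 := by simp
    rw [e, AddChar.map_zero_eq_one]
  have hw1 : w ≠ -1 := by
    intro h
    rw [h, hodd.neg_one_pow] at hwn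
    norm_num at hwn
  obtain ⟨k, hk⟩ : ∃ k : ℤ, (k : ZMod n) = a * (i - j) :=
    ⟨((a * (i - j)).val : ℤ), by rw [Int.cast_natCast, ZMod.natCast_zmod_val]⟩
  have hwexp : w = exp (((2 * Real.pi * k / n : ℝ) : ℂ) * I) := by
    rw [hw, ← hk, ZMod.stdAddChar_coe]
    congr 1
    push_cast
    ring
  have hwre : w.re = Real.cos (2 * Real.pi * k / n) := by
    rw [hwexp, Complex.exp_ofReal_mul_I_re]
  have hwim : w.im = Real.sin (2 * Real.pi * k / n) := by
    rw [hwexp, Complex.exp_ofReal_mul_I_im]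
  have hWV : w.re ^ 2 + w.im ^ 2 = 1 := by rw [hwre, hwim]; exact Real.cos_sq_add_sin_sq _
  have hwsq : Complex.normSq w = 1 := by rw [Complex.normSq_apply]; nlinarith
  have hcC : (c : ℂ) ≠ 0 := by exact_mod_cast hc.ne'
  have hsC : (s : ℂ) ≠ 0 := by exact_mod_cast hs.ne'
  -- first coordinate
  have e1 : w * ((l : ℂ) * ζ - μ) = (l' : ℂ) * ζ - μ' := by
    have g1 := mul_left_cancel₀ hcC h1
    have g2 : a * i = a * (i - j) + a * j := by ring
    rw [g2, AddChar.map_add_eq_mul, ← hw] at g1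
    have g3 : (stdAddChar (a * j) : ℂ) ≠ 0 := by
      intro h
      have g4 : (stdAddChar (a * j) : ℂ) * stdAddChar (-(a * j)) = 1 := by
        rw [← AddChar.map_add_eq_mul, add_neg_cancel, AddChar.map_zero_eq_one]
      rw [h, zero_mul] at g4
      exact zero_ne_one g4
    have g5 : (stdAddChar (a * j) : ℂ) * (w * ((l : ℂ) + μ * stdAddChar a)) =
        stdAddChar (a * j) * ((l' : ℂ) + μ' * stdAddChar a) := by
      linear_combination g1
    have g6 := mul_left_cancel₀ g3 g5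
    linear_combination ζ * g6 + ((μ' : ℂ) - w * μ) * hA
  -- second coordinate
  have e2 : (l : ℂ) + μ * ζ ^ 2 = -w ^ 2 * ((l' : ℂ) + μ' * ζ ^ 2) := by
    rw [hχ1] at h2
    have g1 : (stdAddChar i : ℂ) * ((l : ℂ) + μ * ζ ^ 2) =
        -(stdAddChar j * ((l' : ℂ) + μ' * ζ ^ 2)) := by
      apply mul_left_cancel₀ hsC
      linear_combination h2
    have g2 : (stdAddChar i : ℂ) = stdAddChar (i - j) * stdAddChar j := by
      rw [← AddChar.map_add_eq_mul, sub_add_cancel]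
    rw [g2] at g1
    have g3 : (stdAddChar j : ℂ) ≠ 0 := by
      intro h
      have g4 : (stdAddChar j : ℂ) * stdAddChar (-j) = 1 := by
        rw [← AddChar.map_add_eq_mul, add_neg_cancel, AddChar.map_zero_eq_one]
      rw [h, zero_mul] at g4
      exact zero_ne_one g4
    have g5 : (stdAddChar j : ℂ) * (stdAddChar (i - j) * ((l : ℂ) + μ * ζ ^ 2)) =
        stdAddChar j * (-((l' : ℂ) + μ' * ζ ^ 2)) := by
      linear_combination g1
    have g6 := mul_left_cancel₀ g3 g5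
    have g8 : (stdAddChar (i - j) : ℂ) * w ^ 2 = 1 := by
      rw [hw, sq, ← AddChar.map_add_eq_mul, ← AddChar.map_add_eq_mul]
      have e : i - j + (a * (i - j) + a * (i - j)) = 0 := by
        linear_combination (i - j) * ha
      rw [e, AddChar.map_zero_eq_one]
    linear_combination w ^ 2 * g6 - ((l : ℂ) + μ * ζ ^ 2) * g8
  -- norms
  have r1 : ∀ l μ : ℝ, Complex.normSq ((l : ℂ) * ζ - μ) = l ^ 2 + μ ^ 2 - 2 * l * μ * C := by
    intro l μ
    have f1 : ((l : ℂ) * ζ - μ).re = l * C - μ := by simp [hζ]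
    have f2 : ((l : ℂ) * ζ - μ).im = l * D := by simp [hζ]
    rw [Complex.normSq_apply, f1, f2]
    linear_combination l ^ 2 * hCD
  have r2 : ∀ l μ : ℝ, Complex.normSq ((l : ℂ) + μ * ζ ^ 2) =
      l ^ 2 + μ ^ 2 + 2 * l * μ * (2 * C ^ 2 - 1) := by
    intro l μ
    have f1 : ((l : ℂ) + μ * ζ ^ 2).re = l + μ * (C ^ 2 - D ^ 2) := by
      simp [hζ, sq]
    have f2 : ((l : ℂ) + μ * ζ ^ 2).im = μ * (2 * C * D) := by
      simp [hζ, sq, -mul_eq_mul_left_iff]
      ring
    rw [Complex.normSq_apply, f1, f2]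
    linear_combination (-2 * l * μ + μ ^ 2 * (C ^ 2 + D ^ 2 + 1)) * hCD
  have p1 : l ^ 2 + μ ^ 2 - 2 * l * μ * C = l' ^ 2 + μ' ^ 2 - 2 * l' * μ' * C := by
    have g := congrArg Complex.normSq e1
    rw [map_mul, hwsq, one_mul, r1, r1] at g
    exact g
  have p2 : l ^ 2 + μ ^ 2 + 2 * l * μ * (2 * C ^ 2 - 1) =
      l' ^ 2 + μ' ^ 2 + 2 * l' * μ' * (2 * C ^ 2 - 1) := by
    have g := congrArg Complex.normSq e2
    rw [map_mul, Complex.normSq_neg, map_pow, hwsq, one_pow, one_mul, r2, r2] at g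
    exact g
  have q1 : l * μ = l' * μ' := by
    have g : (l * μ - l' * μ') * (2 * C ^ 2 + C - 1) = 0 := by linear_combination (p2 - p1) / 2
    rcases mul_eq_zero.1 g with h | h
    · linarith
    · nlinarith
  have q2 : l + μ = l' + μ' := by
    have g : (l + μ - (l' + μ')) * (l + μ + (l' + μ')) = 0 := by
      linear_combination p1 + (2 + 2 * C) * q1
    rcases mul_eq_zero.1 g with h | h
    · linarith
    · linarith
  have q3 : (l - l') * (l - μ') = 0 := by
    linear_combination l * q2 - q1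
  have hmpos : 0 < μ * (2 * C * D) := by positivity
  rcases mul_eq_zero.1 q3 with h | h
  · -- equal coefficients
    have k1 : l = l' := by linarith
    have k2 : μ = μ' := by linarith
    subst k1 k2
    have g1 : (w - 1) * ((l : ℂ) * ζ - μ) = 0 := by linear_combination e1
    rcases mul_eq_zero.1 g1 with g | g
    · have g2 : w = 1 := by linear_combination g
      rw [g2] at e2
      have g3 : (l : ℂ) + μ * ζ ^ 2 = 0 := by linear_combination e2 / 2
      have g4 := r2 l μ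
      have f2 : ((l : ℂ) + μ * ζ ^ 2).im = μ * (2 * C * D) := by
        simp [hζ, sq, -mul_eq_mul_left_iff]
        ring
      rw [g3, Complex.zero_im] at f2
      linarith
    · have f2 : ((l : ℂ) * ζ - μ).im = l * D := by simp [hζ]
      rw [g, Complex.zero_im] at f2
      have : 0 < l * D := by positivity
      linarith
  · -- exchanged coefficients
    have k1 : μ' = l := by linarith
    have k2 : l' = μ := by linarith
    subst k1 k2
    have hwW : (⟨w.re, w.im⟩ : ℂ) = w := Complex.eta w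
    have g := alg (C := C) (D := D) (W := w.re) (V := w.im) (l := μ') (μ := l') hCD hWV
      hl'.ne' hD0.ne' (by rw [hwW]; exact hw1) (by rw [hwW, ← hζ]; exact e1)
      (by rw [hwW, ← hζ]; exact e2)
    rw [hwre, hC, hx] at g
    exact core n hn hodd k g

end Pool.Agent.T2H75.GN
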