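import Pool.Agent.T2H75.GN.Fin
import Pool.Agent.T2H75.GN.Asm2
import Pool.Agent.T2H75.GN.GADJ
import Pool.Agent.T2H75.GN.MIV2
import Pool.Agent.T2H75.GN.GBAL
import Pool.Agent.T2H75.GN.GLAY
import Pool.Agent.T2H75.GN.GSP
import Pool.Agent.T2H75.GN.GOUT
import Pool.Agent.T2H75.GN.GEMB
import Pool.Agent.T2H75.GN.PARO
import Pool.Agent.T2H75.GN.PRR
import Pool.Agent.T2H75.GN.PEMBO
import Pool.Agent.T2H75.GN.FLOW1
import Pool.Agent.T2H75.GN.FLOW2

/-! Project GN: the second batch, unconditionally. -/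

namespace Pool.Agent.T2H75.GN

theorem petersen_nets : PetersenTarget :=
  petersen_target gen miv2 gbal gadj (gemb glay gsp (gout pol sec))

theorem prism_odd_nets : ∀ (n : ℕ) [NeZero n], 5 ≤ n → Odd n →
    (prism n).Connected ∧ Cubic (prism n) ∧ ∃ p, IsNet (prism n) p :=
  prism_odd_target gen paro miv mbal madj (pembo pol sec glay (prr pol sec))

theorem petersen_one (n : ℕ) [NeZero n] : petersen n 1 = prism n := by
  ext v w
  rcases v with ⟨i, b⟩
  rcases w with ⟨j, b'⟩
  simp only [petersen, prism, SimpleGraph.fromRel_adj]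
  cases b <;> cases b' <;> simp

end Pool.Agent.T2H75.GN
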