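import Pool.Agent.T2H75.GN.Fin2
import Pool.Agent.T2H75.GN.DM8
import Pool.Agent.T2H75.GN.DM12
import Pool.Agent.T2H75.GN.DP6

/-! Project GN: the final forms. -/

namespace Pool.Agent.T2H75.GN

open ZMod

theorem moebius_cubic (m : ℕ) [NeZero m] (hm : 2 ≤ m) :
    (moebius m).Connected ∧ Cubic (moebius m) := by
  obtain ⟨hconn, hadj', hdist⟩ := madj.1 m hm
  obtain ⟨hcub, _⟩ := gen _ (moebius m) (fun i => i + 1) (fun i => i - 1)
    (fun i => i + (m : ZMod (2 * m))) hdist hadj'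
  exact ⟨hconn, hcub⟩

theorem prism_cubic (n : ℕ) [NeZero n] (hn : 3 ≤ n) :
    (prism n).Connected ∧ Cubic (prism n) := by
  obtain ⟨hconn, hadj', hdist⟩ := madj.2 n hn
  obtain ⟨hcub, _⟩ := gen _ (prism n) (fun v => (v.1 + 1, v.2)) (fun v => (v.1 - 1, v.2))
    (fun v => (v.1, !v.2)) hdist hadj'
  exact ⟨hconn, hcub⟩

theorem moebius_all : ∀ (m : ℕ) [NeZero m], 3 ≤ m →
    (moebius m).Connected ∧ Cubic (moebius m) ∧ ∃ p, IsNet (moebius m) p := by
  intro m _ hm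
  by_cases h4 : m = 4
  · subst h4
    obtain ⟨h1, h2⟩ := moebius_cubic 4 (by norm_num)
    exact ⟨h1, h2, M8.net⟩
  by_cases h6 : m = 6
  · subst h6
    obtain ⟨h1, h2⟩ := moebius_cubic 6 (by norm_num)
    exact ⟨h1, h2, M12.net⟩
  exact moebius_nets m hm h4 h6

theorem prism_all : ∀ (n : ℕ) [NeZero n], 5 ≤ n →
    (prism n).Connected ∧ Cubic (prism n) ∧ ∃ p, IsNet (prism n) p := by
  intro n _ hn
  rcases Nat.even_or_odd n with he | ho
  · by_cases h6 : n = 6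
    · subst h6
      obtain ⟨h1, h2⟩ := prism_cubic 6 (by norm_num)
      exact ⟨h1, h2, P6.net⟩
    · obtain ⟨r, hr⟩ := he
      exact prism_nets n (by omega) ⟨r, hr⟩
  · exact prism_odd_nets n hn ho

theorem petersen_all : ∀ (n : ℕ) [NeZero n], 5 ≤ n → ∀ k k' : ZMod n, (k * k' = 1 ∨ k * k' = -1) →
    (k = 1 ∨ ((stdAddChar k : ℂ).re < (stdAddChar (1 : ZMod n) : ℂ).re - 1 ∧
      (stdAddChar k' : ℂ).re < (stdAddChar (1 : ZMod n) : ℂ).re - 1)) →
    (petersen n k).Connected ∧ Cubic (petersen n k) ∧ ∃ p, IsNet (petersen n k) p := by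
  intro n _ hn k k' hkk h
  rcases h with rfl | ⟨h1, h2⟩
  · rw [petersen_one]
    exact prism_all n hn
  · exact petersen_nets n hn k k' hkk h1 h2

end Pool.Agent.T2H75.GN
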