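import Pool.Agent.T2H75.GN.Stm4

namespace Pool.Agent.T2H75.GN

namespace PkgNA

lemma ip_add_left (a b c : ℂ × ℂ) : ip (a + b) c = ip a c + ip b c := by
  simp only [ip, Prod.fst_add, Prod.snd_add, Complex.add_re, Complex.add_im]; ring

lemma ip_sub_left (a b c : ℂ × ℂ) : ip (a - b) c = ip a c - ip b c := by
  simp only [ip, Prod.fst_sub, Prod.snd_sub, Complex.sub_re, Complex.sub_im]; ring

lemma ip_smul_left (t : ℝ) (a c : ℂ × ℂ) : ip (t • a) c = t * ip a c := by
  simp only [ip, Prod.smul_fst, Prod.smul_snd, Complex.smul_re, Complex.smul_im, smul_eq_mul]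
  ring

lemma ip_neg_left (a c : ℂ × ℂ) : ip (-a) c = -ip a c := by
  simp only [ip, Prod.fst_neg, Prod.snd_neg, Complex.neg_re, Complex.neg_im]; ring

lemma ip_comm (a b : ℂ × ℂ) : ip a b = ip b a := by
  simp only [ip]; ring

/-- The algebra at one digon. -/
lemma digon (p b d0 d1 x y : ℂ × ℂ) (C0 S0 C1 S1 : ℝ)
    (hp : ip p p = 1) (hd0 : ip d0 d0 = 1) (hd1 : ip d1 d1 = 1)
    (hp0 : ip p d0 = 0) (hp1 : ip p d1 = 0) (hy : ip y y = 1)
    (hc0 : C0 ^ 2 + S0 ^ 2 = 1)
    (ha : d0 + d1 + y = 0) (hb0 : b = C0 • p + S0 • d0) (hb1 : b = C1 • p + S1 • d1)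
    (hbal : x + ((S0 • p - C0 • d0) + (S1 • p - C1 • d1)) = 0) (hne : b ≠ p) :
    b = -p ∧ x = y := by
  have h01 : ip d0 d1 = -1 / 2 := by
    have e : y = -(d0 + d1) := (neg_eq_of_add_eq_zero_right ha).symm
    rw [e, ip_neg_left, ip_comm, ip_neg_left, ip_add_left, ip_comm d0, ip_comm d1, ip_add_left,
      ip_add_left, ip_comm d1 d0, hd0, hd1] at hy
    linarith
  have e0 : ip b p = C0 := by
    rw [hb0, ip_add_left, ip_smul_left, ip_smul_left, hp, ip_comm d0, hp0]; ring
  have e1 : ip b p = C1 := by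
    rw [hb1, ip_add_left, ip_smul_left, ip_smul_left, hp, ip_comm d1, hp1]; ring
  have hC : C1 = C0 := by rw [← e0, ← e1]
  have f0 : ip b d0 = S0 := by
    rw [hb0, ip_add_left, ip_smul_left, ip_smul_left, hp0, hd0]; ring
  have f0' : ip b d0 = S1 * (-1 / 2) := by
    rw [hb1, ip_add_left, ip_smul_left, ip_smul_left, hp0, ip_comm d1, h01]; ring
  have f1 : ip b d1 = S1 := by
    rw [hb1, ip_add_left, ip_smul_left, ip_smul_left, hp1, hd1]; ring
  have f1' : ip b d1 = S0 * (-1 / 2) := by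
    rw [hb0, ip_add_left, ip_smul_left, ip_smul_left, hp1, h01]; ring
  have hS0 : S0 = 0 := by linarith
  have hS1 : S1 = 0 := by linarith
  subst hC
  have hC2 : C1 = 1 ∨ C1 = -1 := by
    have : (C1 - 1) * (C1 + 1) = 0 := by rw [hS0] at hc0; nlinarith
    rcases mul_eq_zero.mp this with h | h
    · left; linarith
    · right; linarith
  rcases hC2 with h | h
  · exfalso; apply hne; rw [hb0, hS0, h]; simp
  · refine ⟨by rw [hb0, hS0, h]; simp, ?_⟩
    rw [hS0, hS1, h] at hbal
    have e : x + (d0 + d1) = 0 := by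
      rw [← hbal]; simp
    have e2 : y + (d0 + d1) = 0 := by rw [← ha]; abel
    exact add_right_cancel (e.trans e2.symm)

end PkgNA

open PkgNA in
theorem na : NaStm := by
  intro k _ hk N hs ht hinj i
  have key : ∀ j : ZMod k, N.pos (j, true) = -N.pos (j, false) ∧
      N.dir (j, 2) = Real.sin (N.len (j - 1, 2)) • N.pos (j - 1, true) -
        Real.cos (N.len (j - 1, 2)) • N.dir (j - 1, 2) := by
    intro j
    have hba := N.balanced (j, false)
    have hbb := N.balanced (j, true)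
    rw [hs, ht] at hba hbb
    rw [Finset.sum_filter, Finset.sum_filter, Fintype.sum_prod_type, Fintype.sum_prod_type] at hba hbb
    simp only [Fin.sum_univ_three, nsrc, ntgt] at hba hbb
    have e0 := N.end_pt (j, 0)
    have e1 := N.end_pt (j, 1)
    have q0 := N.dir_perp (j, 0)
    have q1 := N.dir_perp (j, 1)
    have q2 := N.dir_perp (j - 1, 2)
    rw [hs] at q0 q1 q2
    rw [hs, ht] at e0 e1
    simp [nsrc, ntgt] at q0 q1 q2 e0 e1
    have hy : ip (Real.sin (N.len (j - 1, 2)) • N.pos (j - 1, true) -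
        Real.cos (N.len (j - 1, 2)) • N.dir (j - 1, 2)) (Real.sin (N.len (j - 1, 2)) • N.pos (j - 1, true) -
        Real.cos (N.len (j - 1, 2)) • N.dir (j - 1, 2)) = 1 := by
      rw [ip_sub_left, ip_smul_left, ip_smul_left, ip_comm (N.pos (j-1, true)), ip_comm (N.dir (j-1, 2)),
        ip_sub_left, ip_sub_left, ip_smul_left, ip_smul_left, ip_smul_left, ip_smul_left,
        N.pos_unit, N.dir_unit, ip_comm (N.dir (j-1,2)), q2]
      nlinarith [Real.sin_sq_add_cos_sq (N.len (j - 1, 2))]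
    refine digon (N.pos (j, false)) (N.pos (j, true)) (N.dir (j, 0)) (N.dir (j, 1)) (N.dir (j, 2)) _
      (Real.cos (N.len (j, 0))) (Real.sin (N.len (j, 0))) (Real.cos (N.len (j, 1)))
      (Real.sin (N.len (j, 1))) (N.pos_unit _) (N.dir_unit _) (N.dir_unit _) q0 q1 hy ?_ ?_ e0 e1 ?_ ?_
    · exact Real.cos_sq_add_sin_sq _
    · have h2 : ∀ x : ZMod k, (x + 1 = j) = (x = j - 1) := fun x => by
        rw [eq_iff_iff]; exact eq_sub_iff_add_eq.symm
      simp [Prod.mk.injEq, Finset.sum_add_distrib, h2] at hba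
      exact hba
    · simp [Prod.mk.injEq, Finset.sum_add_distrib] at hbb
      exact hbb
    · intro h
      have := hinj h
      simp at this
  obtain ⟨h1, -⟩ := key i
  obtain ⟨-, h2⟩ := key (i + 1)
  rw [add_sub_cancel_right] at h2
  refine ⟨h1, ?_, ?_⟩
  · have := N.end_pt (i, 2)
    rw [hs, ht] at this
    simp [nsrc, ntgt] at this
    rw [this, h1]
    simp
  · rw [h2, h1]
    simp

end Pool.Agent.T2H75.GN
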