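import Pool.Agent.T2H75.GN.Stm4

set_option autoImplicit false

/-!
# Package NB of project GN (`MP_a226eb_gt`): rotation numbers
-/

namespace Pool.Agent.T2H75.GN

open Finset

namespace NB

theorem sum_range_zmod (k : ℕ) [NeZero k] (l : ZMod k → ℝ) :
    ∑ i ∈ range k, l (i : ZMod k) = ∑ i, l i := by
  refine Finset.sum_bij' (fun (i : ℕ) _ => (i : ZMod k)) (fun (z : ZMod k) _ => z.val) ?_ ?_ ?_ ?_ ?_
  · intro a _
    exact mem_univ _
  · intro z _
    exact mem_range.mpr (ZMod.val_lt z)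
  · intro a ha
    exact ZMod.val_cast_of_lt (mem_range.mp ha)
  · intro z _
    exact ZMod.natCast_zmod_val z
  · intro a _
    rfl

/-- the angle -/
noncomputable def T (k : ℕ) (l : ZMod k → ℝ) : ℕ → ℝ
  | 0 => 0
  | j + 1 => T k l j + Real.pi - l (j : ZMod k)

theorem T_eq (k : ℕ) (l : ZMod k → ℝ) (j : ℕ) :
    T k l j = j * Real.pi - ∑ i ∈ range j, l (i : ZMod k) := by
  induction j with
  | zero => simp [T]
  | succ j ih =>
    rw [T, ih, sum_range_succ]
    push_cast
    ring

theorem cos_T (θ l : ℝ) : Real.cos (θ + Real.pi - l) =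
    -(Real.cos θ * Real.cos l + Real.sin θ * Real.sin l) := by
  have : θ + Real.pi - l = (θ - l) + Real.pi := by ring
  rw [this, Real.cos_add_pi, Real.cos_sub]

theorem sin_T (θ l : ℝ) : Real.sin (θ + Real.pi - l) =
    -(Real.sin θ * Real.cos l - Real.cos θ * Real.sin l) := by
  have : θ + Real.pi - l = (θ - l) + Real.pi := by ring
  rw [this, Real.sin_add_pi, Real.sin_sub]

theorem main (k : ℕ) (p x : ZMod k → ℂ × ℂ) (l : ZMod k → ℝ)
    (hp : ∀ i, p (i + 1) = -(Real.cos (l i) • p i) + Real.sin (l i) • x i)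
    (hx : ∀ i, x (i + 1) = -(Real.sin (l i) • p i) - Real.cos (l i) • x i) (j : ℕ) :
    p (j : ZMod k) = Real.cos (T k l j) • p 0 + Real.sin (T k l j) • x 0 ∧
    x (j : ZMod k) = -(Real.sin (T k l j) • p 0) + Real.cos (T k l j) • x 0 := by
  induction j with
  | zero => simp [T]
  | succ j ih =>
    obtain ⟨h1, h2⟩ := ih
    have e : ((j + 1 : ℕ) : ZMod k) = (j : ZMod k) + 1 := by push_cast; rfl
    rw [e, hp, hx, h1, h2, T, cos_T, sin_T]
    constructor <;> module

theorem ip_comb (p x : ℂ × ℂ) (a b : ℝ) : ip p (a • p + b • x) = a * ip p p + b * ip p x := by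
  simp only [ip, Prod.fst_add, Prod.snd_add, Prod.smul_fst, Prod.smul_snd, Complex.add_re,
    Complex.add_im, Complex.smul_re, Complex.smul_im, smul_eq_mul]
  ring

end NB

theorem nb : NbStm := by
  intro k _ p x l h1 _ h3 hp hx
  refine ⟨fun i => NB.T k l i.val, ?_, ?_⟩
  · intro i
    have := NB.main k p x l hp hx i.val
    rw [ZMod.natCast_zmod_val] at this
    exact this
  · have h := (NB.main k p x l hp hx k).1
    rw [ZMod.natCast_self] at h
    have h4 : ip (p 0) (p 0) = ip (p 0) (Real.cos (NB.T k l k) • p 0 + Real.sin (NB.T k l k) • x 0) :=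
      congrArg (ip (p 0)) h
    rw [NB.ip_comb, h1, h3, mul_one, mul_zero, add_zero] at h4
    obtain ⟨n, hn⟩ := (Real.cos_eq_one_iff _).mp h4.symm
    refine ⟨n, ?_⟩
    rw [← NB.sum_range_zmod k l, ← NB.T_eq k l k, ← hn]
    ring

end Pool.Agent.T2H75.GN
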