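import Pool.Agent.T2H75.GN.Stm4

/-! Package NCUB: the necklace is cubic. -/

namespace Pool.Agent.T2H75.GN

theorem ncub : NcubStm := by
  intro k _ hk
  classical
  rintro ⟨i, c⟩
  cases c with
  | false =>
    have h1 : Finset.univ.filter (fun e : ZMod k × Fin 3 => nsrc k e = (i, false)) =
        {(i, 0), (i, 1)} := by
      ext ⟨j, m⟩
      simp only [Finset.mem_filter, Finset.mem_univ, true_and, Finset.mem_insert,
        Finset.mem_singleton, nsrc]
      fin_cases m <;> simp [Prod.ext_iff]
    have h2 : Finset.univ.filter (fun e : ZMod k × Fin 3 => ntgt k e = (i, false)) =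
        {(i - 1, 2)} := by
      ext ⟨j, m⟩
      simp only [Finset.mem_filter, Finset.mem_univ, true_and, Finset.mem_singleton, ntgt]
      fin_cases m <;> simp [Prod.ext_iff, eq_sub_iff_add_eq]
    rw [h1, h2, Finset.card_singleton, Finset.card_pair (by simp [Prod.ext_iff])]
  | true =>
    have h1 : Finset.univ.filter (fun e : ZMod k × Fin 3 => nsrc k e = (i, true)) =
        {(i, 2)} := by
      ext ⟨j, m⟩
      simp only [Finset.mem_filter, Finset.mem_univ, true_and, Finset.mem_singleton, nsrc]
      fin_cases m <;> simp [Prod.ext_iff]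
    have h2 : Finset.univ.filter (fun e : ZMod k × Fin 3 => ntgt k e = (i, true)) =
        {(i, 0), (i, 1)} := by
      ext ⟨j, m⟩
      simp only [Finset.mem_filter, Finset.mem_univ, true_and, Finset.mem_insert,
        Finset.mem_singleton, ntgt]
      fin_cases m <;> simp [Prod.ext_iff]
    rw [h1, h2, Finset.card_singleton, Finset.card_pair (by simp [Prod.ext_iff])]

end Pool.Agent.T2H75.GN
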