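import Pool.Agent.T2H75.GN.Stm4

set_option autoImplicit false

open MeasureTheory Set

namespace Pool.Agent.T2H75.GN

theorem nd : NdStm := by
  intro ι _ _ α l hcard hl hdis
  have hp : (0 : ℝ) < 2 * Real.pi := by positivity
  obtain ⟨i₀⟩ : Nonempty ι := Fintype.card_pos_iff.1 (by omega)
  obtain ⟨β, hβ⟩ : ∃ β : ι → ℝ, β = fun i => toIcoMod hp (α i₀) (α i) := ⟨_, rfl⟩
  obtain ⟨m, hm⟩ : ∃ m : ι → ℤ, m = fun i => toIcoDiv hp (α i₀) (α i) := ⟨_, rfl⟩
  have hαβ : ∀ i, α i = β i + 2 * Real.pi * m i := by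
    intro i
    have h := toIcoMod_add_toIcoDiv_zsmul hp (α i₀) (α i)
    rw [hβ, hm]
    simp only
    rw [zsmul_eq_mul] at h
    linarith
  have hβmem : ∀ i, α i₀ ≤ β i ∧ β i < α i₀ + 2 * Real.pi := by
    intro i
    rw [hβ]
    exact ⟨left_le_toIcoMod hp _ _, toIcoMod_lt_right hp _ _⟩
  have hβ0 : β i₀ = α i₀ := by
    rw [hβ]
    exact toIcoMod_apply_left hp (α i₀)
  have hd : ∀ i j, i ≠ j → ∀ s t : ℝ, 0 ≤ s → s ≤ l i → 0 ≤ t → t ≤ l j → ∀ n : ℤ,
      β i + s ≠ β j + t + 2 * Real.pi * n := by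
    intro i j hij s t hs hs' ht ht' n heq
    apply hdis i j hij s t hs hs' ht ht' (n + m i - m j)
    rw [hαβ i, hαβ j]
    push_cast
    linarith
  have h1 : ∀ i, i ≠ i₀ → α i₀ + l i₀ < β i := by
    intro i hi
    by_contra hc
    push Not at hc
    apply hd i i₀ hi 0 (β i - α i₀) le_rfl (hl i).le (by linarith [(hβmem i).1]) (by linarith) 0
    rw [hβ0]
    push_cast
    ring
  have h2 : ∀ i, i ≠ i₀ → β i + l i < α i₀ + 2 * Real.pi := by
    intro i hi
    by_contra hc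
    push Not at hc
    apply hd i i₀ hi (α i₀ + 2 * Real.pi - β i) 0 (by linarith [(hβmem i).2]) (by linarith)
      le_rfl (hl i₀).le 1
    rw [hβ0]
    push_cast
    ring
  obtain ⟨j₀, hj₀⟩ : ∃ j, j ≠ i₀ := Fintype.exists_ne_of_one_lt_card (by omega) i₀
  have h3 : ∀ i, β i + l i < α i₀ + 2 * Real.pi := by
    intro i
    by_cases hi : i = i₀
    · subst hi
      rw [hβ0]
      have e1 := h1 j₀ hj₀
      have e2 := h2 j₀ hj₀
      have e3 := hl j₀
      linarith
    · exact h2 i hi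
  obtain ⟨i₁, -, hi₁⟩ := Finset.exists_max_image Finset.univ (fun i => β i + l i)
    ⟨i₀, Finset.mem_univ i₀⟩
  have hdisj : Pairwise (Function.onFun Disjoint fun i => Ico (β i) (β i + l i)) := by
    intro i j hij
    show Disjoint (Ico (β i) (β i + l i)) (Ico (β j) (β j + l j))
    rw [Set.disjoint_left]
    rintro y ⟨hy1, hy2⟩ ⟨hy3, hy4⟩
    apply hd i j hij (y - β i) (y - β j) (by linarith) (by linarith) (by linarith) (by linarith) 0
    push_cast
    ring
  have hvol : volume (⋃ i, Ico (β i) (β i + l i)) = ∑ i, ENNReal.ofReal (l i) := by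
    rw [measure_iUnion hdisj fun i => measurableSet_Ico, tsum_fintype]
    refine Finset.sum_congr rfl fun i _ => ?_
    rw [Real.volume_Ico]
    congr 1
    ring
  have hsub : (⋃ i, Ico (β i) (β i + l i)) ⊆ Ico (α i₀) (β i₁ + l i₁) := by
    refine iUnion_subset fun i => ?_
    exact Ico_subset_Ico (hβmem i).1 (hi₁ i (Finset.mem_univ i))
  have hle := measure_mono (μ := volume) hsub
  rw [hvol, Real.volume_Ico, ← ENNReal.ofReal_sum_of_nonneg fun i _ => (hl i).le] at hle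
  have hnn : 0 ≤ β i₁ + l i₁ - α i₀ := by
    have e1 := (hβmem i₁).1
    have e2 := hl i₁
    linarith
  have hfin := (ENNReal.ofReal_le_ofReal_iff hnn).1 hle
  have e3 := h3 i₁
  linarith

end Pool.Agent.T2H75.GN
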