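import Pool.Agent.T2H75.GN.Stm4

namespace Pool.Agent.T2H75.GN

namespace NFLOW

/-- the three values of the flow -/
noncomputable def fl : Fin 3 → Fin 3 → ℝ :=
  ![![1 / 2, √3 / 2, 0], ![1 / 2, -(√3 / 2), 0], ![1, 0, 0]]

lemma fl_add : fl 0 + fl 1 = fl 2 := by
  ext i
  fin_cases i <;> (simp [fl]; try norm_num)

lemma fl_norm (j : Fin 3) : (fl j 0) ^ 2 + (fl j 1) ^ 2 + (fl j 2) ^ 2 = 1 := by
  have h3 : √3 ^ 2 = (3 : ℝ) := Real.sq_sqrt (by norm_num)
  fin_cases j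
  · simp [fl, div_pow, h3]
    norm_num
  · simp [fl, div_pow, h3]
    norm_num
  · simp [fl]

open Classical in
lemma sum_src (k : ℕ) [NeZero k] (v : ZMod k × Bool) :
    ∑ e ∈ Finset.univ.filter (fun e => nsrc k e = v), fl e.2 = fl 2 := by
  rw [Finset.sum_filter, Fintype.sum_prod_type]
  simp only [Fin.sum_univ_three]
  obtain ⟨j, b⟩ := v
  have h0 : ∀ i : ZMod k, nsrc k (i, 0) = (i, false) := fun i => rfl
  have h1 : ∀ i : ZMod k, nsrc k (i, 1) = (i, false) := fun i => rfl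
  have h2 : ∀ i : ZMod k, nsrc k (i, 2) = (i, true) := fun i => rfl
  simp only [h0, h1, h2, Prod.mk.injEq]
  cases b
  · simp [Finset.sum_add_distrib, fl_add]
  · simp

open Classical in
lemma sum_tgt (k : ℕ) [NeZero k] (v : ZMod k × Bool) :
    ∑ e ∈ Finset.univ.filter (fun e => ntgt k e = v), fl e.2 = fl 2 := by
  rw [Finset.sum_filter, Fintype.sum_prod_type]
  simp only [Fin.sum_univ_three]
  obtain ⟨j, b⟩ := v
  have h0 : ∀ i : ZMod k, ntgt k (i, 0) = (i, true) := fun i => rfl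
  have h1 : ∀ i : ZMod k, ntgt k (i, 1) = (i, true) := fun i => rfl
  have h2 : ∀ i : ZMod k, ntgt k (i, 2) = (i + 1, false) := fun i => rfl
  simp only [h0, h1, h2, Prod.mk.injEq]
  cases b
  · have h3 : ∀ i : ZMod k, i + 1 = j ↔ i = j - 1 := fun i => eq_sub_iff_add_eq.symm
    simp [h3]
  · simp [Finset.sum_add_distrib, fl_add]

end NFLOW

theorem nflow : NflowStm := by
  intro k _ hk
  refine ⟨fun e => NFLOW.fl e.2, fun e => NFLOW.fl_norm e.2, fun v => ?_⟩
  exact (NFLOW.sum_src k v).trans (NFLOW.sum_tgt k v).symm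

end Pool.Agent.T2H75.GN
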