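import Pool.Agent.T2H75.GN.Asm4
import Pool.Agent.T2H75.GN.NA
import Pool.Agent.T2H75.GN.NB
import Pool.Agent.T2H75.GN.ND
import Pool.Agent.T2H75.GN.NFLOW
import Pool.Agent.T2H75.GN.NCUB
import Pool.Agent.T2H75.GN.FlowDef

/-! Necklaces: the unconditional negative theorem, flows, degrees. -/

namespace Pool.Agent.T2H75.GN

theorem necklace_even : NecklaceTarget := necklace_target na nb nd

theorem necklace_flow (k : ℕ) [NeZero k] (hk : 2 ≤ k) :
    ∃ f : ZMod k × Fin 3 → Fin 3 → ℝ, IsUnitFlow (nsrc k) (ntgt k) f := by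
  obtain ⟨f, h1, h2⟩ := nflow k hk
  refine ⟨f, h1, fun v => ?_⟩
  convert h2 v

theorem necklace_cubic (k : ℕ) [NeZero k] (hk : 2 ≤ k) : IsCubicMulti (nsrc k) (ntgt k) := by
  intro v
  convert ncub k hk v

end Pool.Agent.T2H75.GN
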