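import Pool.Agent.T2H75.GN.Stm5
import Pool.Agent.T2H75.GN.SEC

set_option autoImplicit false

/-!
Project GN, fifth batch, half of NP3: a digon edge and a joining edge meet only in common vertices.
-/

namespace Pool.Agent.T2H75.GN

open Complex ZMod

namespace NP3J

lemma two_h (k : ℕ) (hk : Odd k) : 2 * ((k - 1) / 2) + 1 = k := by
  obtain ⟨m, rfl⟩ := hk
  omega

lemma two_h' (k : ℕ) (hk : Odd k) : (2 : ZMod k) * (((k - 1) / 2 : ℕ) : ZMod k) = -1 := by
  have h1 : ((2 * ((k - 1) / 2) + 1 : ℕ) : ZMod k) = ((k : ℕ) : ZMod k) := by rw [two_h k hk]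
  rw [ZMod.natCast_self, Nat.cast_add, Nat.cast_mul, Nat.cast_one, Nat.cast_ofNat] at h1
  linear_combination h1

lemma h_inj (k : ℕ) (hk : Odd k) (a b : ZMod k)
    (h : (((k - 1) / 2 : ℕ) : ZMod k) * a = (((k - 1) / 2 : ℕ) : ZMod k) * b) : a = b := by
  have h2 := two_h' k hk
  have h3 : (2 : ZMod k) * (((k - 1) / 2 : ℕ) : ZMod k) * a =
      (2 : ZMod k) * (((k - 1) / 2 : ℕ) : ZMod k) * b := by
    rw [mul_assoc, mul_assoc, h]
  rw [h2] at h3
  simpa using h3

lemma chi_h (k : ℕ) [NeZero k] (hk : Odd k) :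
    (stdAddChar (((k - 1) / 2 : ℕ) : ZMod k) : ℂ) * exp (((Real.pi / k : ℝ) : ℂ) * I) = -1 := by
  have hk0 : (k : ℂ) ≠ 0 := by exact_mod_cast NeZero.ne k
  have h1 : (((k - 1) / 2 : ℕ) : ZMod k) = ((((k - 1) / 2 : ℕ) : ℤ) : ZMod k) := by
    rw [Int.cast_natCast]
  rw [h1, stdAddChar_coe, ← exp_add, ← exp_pi_mul_I]
  congr 1
  have h2 : (2 : ℂ) * (((k - 1) / 2 : ℕ) : ℂ) + 1 = k := by
    exact_mod_cast two_h k hk
  have h3 : ((((k - 1) / 2 : ℕ) : ℤ) : ℂ) = (((k - 1) / 2 : ℕ) : ℂ) := Int.cast_natCast _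
  rw [h3]
  push_cast
  field_simp
  linear_combination h2

end NP3J

open NP3J in
theorem np3j :
    ∀ (k : ℕ) [NeZero k], 3 ≤ k → Odd k → ∀ N : GeoNet (ZMod k × Bool) (ZMod k × Fin 3),
    N.src = nsrc k → N.tgt = ntgt k → N.pos = npos k → N.dir = ndir k → N.len = nlen k →
    ∀ e f, e ≠ f → e.2 ≠ 2 → f.2 = 2 → ∀ s t, 0 ≤ s → s ≤ N.len e → 0 ≤ t → t ≤ N.len f →
      N.pt e s = N.pt f t →
        ∃ v, (v = N.src e ∨ v = N.tgt e) ∧ (v = N.src f ∨ v = N.tgt f) ∧ N.pt e s = N.pos v := by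
  intro k _ hk3 hk N hsrc htgt hpos hdir hlen e f _ he hf s t hs0 hs1 ht0 ht1 hst
  obtain ⟨i, c⟩ := e
  obtain ⟨j, d⟩ := f
  simp only at he hf
  subst hf
  have hk0 : (0 : ℝ) < k := by exact_mod_cast (by omega : 0 < k)
  have hpi := Real.pi_pos
  rw [hlen] at hs1 ht1
  simp only [nlen, he, if_false, if_true] at hs1 ht1
  set X : ℂ := stdAddChar ((((k - 1) / 2 : ℕ) : ZMod k) * i) with hX
  set Y : ℂ := stdAddChar ((((k - 1) / 2 : ℕ) : ZMod k) * j) with hY
  have hpe : N.pt (i, c) s = (Real.cos s * X - (1 / 2) * Real.sin s * (I * X),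
      Real.sin s * ((if c = 0 then 1 else -1) *
        (((√3 / 2 : ℝ) : ℂ) * exp (((Real.pi * i.val / k : ℝ) : ℂ) * I)))) := by
    unfold GeoNet.pt
    rw [hpos, hdir, hsrc]
    simp only [nsrc, npos, ndir, he, if_false]
    ext1
    · simp only [Prod.fst_add, Prod.smul_fst, real_smul]
      simp only [← hX]
      simp
      ring
    · simp only [Prod.snd_add, Prod.smul_snd, real_smul]
      simp
  have hpf : N.pt (j, 2) t = (-(Real.cos t * Y) + Real.sin t * (I * Y), 0) := by
    unfold GeoNet.pt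
    rw [hpos, hdir, hsrc]
    simp only [nsrc, npos, ndir, if_true]
    ext1
    · simp only [Prod.fst_add, Prod.smul_fst, real_smul]
      simp only [← hY]
      simp
    · simp only [Prod.snd_add, Prod.smul_snd, real_smul]
      simp
  have hst' := hst
  rw [hpe, hpf] at hst'
  obtain ⟨h1, h2⟩ := Prod.ext_iff.1 hst'
  simp only at h1 h2
  have hsin : Real.sin s = 0 := by
    have h3 : ((if c = 0 then 1 else -1 : ℂ) *
        (((√3 / 2 : ℝ) : ℂ) * exp (((Real.pi * i.val / k : ℝ) : ℂ) * I))) ≠ 0 := by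
      refine mul_ne_zero ?_ (mul_ne_zero ?_ (exp_ne_zero _))
      · split_ifs <;> norm_num
      · exact_mod_cast (by positivity : (√3 / 2 : ℝ) ≠ 0)
    have h4 := (mul_eq_zero.1 h2).resolve_right h3
    exact_mod_cast h4
  -- the point of the joining edge
  have hexp : -(Real.cos t * Y) + Real.sin t * (I * Y) = -(Y * exp (-((t : ℂ) * I))) := by
    have h5 : exp (-((t : ℂ) * I)) = Real.cos t - Real.sin t * I := by
      rw [← neg_mul, exp_mul_I, cos_neg, sin_neg, ofReal_cos, ofReal_sin]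
      ring
    rw [h5]
    ring
  have hkpos : Real.pi / k < 2 * Real.pi / k := by
    apply div_lt_div_of_pos_right _ hk0
    linarith
  rcases Real.sin_eq_zero_iff.1 hsin with ⟨n, hn⟩
  have hn01 : n = 0 ∨ n = 1 := by
    have h6 : (-1 : ℝ) < n := by
      by_contra hc
      push Not at hc
      nlinarith
    have h7 : (n : ℝ) < 2 := by
      by_contra hc
      push Not at hc
      nlinarith
    have h8 : -1 < n := by exact_mod_cast h6
    have h9 : n < 2 := by exact_mod_cast h7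
    omega
  rcases hn01 with rfl | rfl
  · -- s = 0
    have hs : s = 0 := by simpa using hn.symm
    subst hs
    rw [hexp] at h1
    simp only [Real.cos_zero, Real.sin_zero, ofReal_one, ofReal_zero, one_mul, mul_zero, zero_mul,
      sub_zero] at h1
    have h10 : (1 : ℝ) * (stdAddChar ((((k - 1) / 2 : ℕ) : ZMod k) * i) * exp ((0 : ℝ) * I)) =
        (1 : ℝ) * (stdAddChar ((((k - 1) / 2 : ℕ) : ZMod k) * (j + 1)) *
          exp ((Real.pi / k - t : ℝ) * I)) := by
      have h11 : (stdAddChar ((((k - 1) / 2 : ℕ) : ZMod k) * (j + 1)) : ℂ) =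
          Y * stdAddChar (((k - 1) / 2 : ℕ) : ZMod k) := by
        rw [mul_add, mul_one, AddChar.map_add_eq_mul]
      have h12 : exp ((Real.pi / k - t : ℝ) * I) =
          exp (((Real.pi / k : ℝ) : ℂ) * I) * exp (-((t : ℂ) * I)) := by
        rw [← exp_add]
        congr 1
        push_cast
        ring
      rw [h11, h12, ← hX, h1]
      have h13 := chi_h k hk
      simp only [ofReal_zero, zero_mul, exp_zero, mul_one, ofReal_one, one_mul]
      linear_combination (-(Y * exp (-((t : ℂ) * I)))) * h13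
    obtain ⟨h14, h15, -⟩ := sec k _ _ 1 1 0 (Real.pi / k - t) one_pos one_pos le_rfl (by positivity)
      (by linarith) (by linarith) h10
    have hij : i = j + 1 := h_inj k hk _ _ h14
    refine ⟨(i, false), Or.inl ?_, Or.inr ?_, ?_⟩
    · rw [hsrc]
      simp [nsrc, he]
    · rw [htgt]
      simp [ntgt, hij]
    · rw [hpe, hpos]
      simp only [npos]
      ext1
      · simp [← hX]
      · simp
  · -- s = π
    have hs : s = Real.pi := by simpa using hn.symm
    subst hs
    rw [hexp] at h1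
    simp only [Real.cos_pi, Real.sin_pi, ofReal_neg, ofReal_one, ofReal_zero, mul_zero, zero_mul,
      sub_zero, neg_mul, one_mul] at h1
    have h10 : (1 : ℝ) * (stdAddChar ((((k - 1) / 2 : ℕ) : ZMod k) * i) * exp (t * I)) =
        (1 : ℝ) * (stdAddChar ((((k - 1) / 2 : ℕ) : ZMod k) * j) * exp ((0 : ℝ) * I)) := by
      have h12 : exp ((t : ℂ) * I) * exp (-((t : ℂ) * I)) = 1 := by
        rw [← exp_add, add_neg_cancel, exp_zero]
      rw [← hX, ← hY]
      have h1' : X = Y * exp (-((t : ℂ) * I)) := neg_injective h1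
      rw [h1']
      simp only [ofReal_zero, zero_mul, exp_zero, mul_one, ofReal_one, one_mul]
      linear_combination Y * h12
    obtain ⟨h14, h15, -⟩ := sec k _ _ 1 1 t 0 one_pos one_pos ht0 (by linarith) le_rfl
      (by positivity) h10
    have hij : i = j := h_inj k hk _ _ h14
    refine ⟨(i, true), Or.inr ?_, Or.inl ?_, ?_⟩
    · rw [htgt]
      simp [ntgt, he]
    · rw [hsrc]
      simp [nsrc, hij]
    · rw [hpe, hpos]
      simp only [npos]
      ext1
      · simp [← hX]
      · simp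

end Pool.Agent.T2H75.GN
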