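import Pool.Agent.T2H75.GN.MAR

set_option autoImplicit false

/-!
# Package PAR: winding numbers of prisms
-/

namespace Pool.Agent.T2H75.GN

open Complex ZMod

namespace PAR

lemma core (n h : ℕ) [NeZero n] (hn : n = 2 * h) (i a : ℕ) (hi : 0 < i) (hih : i < h) (hai : a + i = h)
    (hodd : Odd a) (hco : Nat.Coprime a n)
    (hcos : 1 ≤ Real.cos (Real.pi / h) + Real.cos (i * (Real.pi / h))) :
    ∃ a : ZMod n, (∀ j, a * j = 0 → j = 0) ∧ stdAddChar (a * ((n / 2 : ℕ) : ZMod n)) = -1 ∧
      ∃ α : ℝ, stdAddChar a = exp (α * I) ∧ -1 < Real.cos α ∧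
        Real.cos α ≤ Real.cos (2 * Real.pi / n) - 1 := by
  have hh0 : 0 < h := by omega
  have hhR : (0 : ℝ) < h := by exact_mod_cast hh0
  have hhC : (h : ℂ) ≠ 0 := by exact_mod_cast hh0.ne'
  have hnh : n / 2 = h := by omega
  have hnC : (n : ℂ) = 2 * h := by rw [hn]; push_cast; ring
  have hnR : (n : ℝ) = 2 * h := by rw [hn]; push_cast; ring
  refine ⟨(a : ZMod n), fun j hj => ?_, ?_, Real.pi - i * (Real.pi / h), ?_, ?_, ?_⟩
  · have hj' : ((a * j.val : ℕ) : ZMod n) = 0 := by
      rw [Nat.cast_mul, ZMod.natCast_zmod_val]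
      exact hj
    rw [ZMod.natCast_eq_zero_iff] at hj'
    have h2 : n ∣ j.val := Nat.Coprime.dvd_of_dvd_mul_left hco.symm hj'
    have h3 := ZMod.val_lt j
    have h4 : j.val = 0 := Nat.eq_zero_of_dvd_of_lt h2 h3
    rw [← ZMod.natCast_zmod_val j, h4, Nat.cast_zero]
  · have h1 : (a : ZMod n) * ((n / 2 : ℕ) : ZMod n) = (((a * h : ℕ) : ℤ) : ZMod n) := by
      rw [hnh]; push_cast; rfl
    rw [h1, ZMod.stdAddChar_coe, hnC]
    obtain ⟨t, ht⟩ := hodd
    have e1 : 2 * (Real.pi : ℂ) * I * (((a * h : ℕ) : ℤ) : ℂ) / (2 * h) =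
        Real.pi * I + t * (2 * Real.pi * I) := by
      rw [ht]
      push_cast
      field_simp
      ring
    rw [e1, Complex.exp_add, Complex.exp_nat_mul_two_pi_mul_I, mul_one, Complex.exp_pi_mul_I]
  · have h1 : stdAddChar (a : ZMod n) = stdAddChar (((a : ℤ)) : ZMod n) := by
      push_cast; rfl
    rw [h1, ZMod.stdAddChar_coe]
    congr 1
    have hb : (a : ℂ) = (h : ℂ) - i := by
      have : (a : ℂ) + i = h := by exact_mod_cast hai
      linear_combination this
    rw [hnC]
    push_cast
    rw [hb]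
    field_simp
  · rw [Real.cos_pi_sub]
    have h1 : Real.cos (i * (Real.pi / h)) < 1 := by
      apply MAR.cos_lt_one
      · have := Real.pi_pos
        have : (0 : ℝ) < i := by exact_mod_cast hi
        positivity
      · have h2 : (i : ℝ) ≤ h := by exact_mod_cast hih.le
        rw [mul_div_assoc', div_le_iff₀ hhR, mul_comm]
        exact mul_le_mul_of_nonneg_left h2 Real.pi_pos.le
    linarith
  · have e1 : 2 * Real.pi / n = Real.pi / h := by
      rw [hnR]
      field_simp
    rw [Real.cos_pi_sub, e1]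
    linarith

end PAR

open PAR in
theorem par : ParStm := by
  intro n hn0 h8 hev
  obtain ⟨h, hh⟩ := hev
  have hn : n = 2 * h := by omega
  have hhpos : 0 < h := by omega
  rcases Nat.even_or_odd h with hev | hodd
  · refine core n h hn 1 (h - 1) (by norm_num) (by omega) (by omega) ?_ ?_ ?_
    · obtain ⟨t, ht⟩ := hev
      exact ⟨t - 1, by omega⟩
    · have h1 : Nat.Coprime (h - 1) h :=
        (Nat.coprime_self_sub_left (m := 1) (n := h) (by omega)).2 (by simp)
      have h2 : Nat.Coprime (h - 1) 2 := by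
        rw [Nat.coprime_two_right]
        obtain ⟨t, ht⟩ := hev
        exact ⟨t - 1, by omega⟩
      rw [hn]
      exact Nat.Coprime.mul_right h2 h1
    · exact MAR.cos_sum hhpos le_rfl (by omega)
  · have hodd' : Odd (h - 2) := by
      obtain ⟨t, ht⟩ := hodd
      exact ⟨t - 1, by omega⟩
    refine core n h hn 2 (h - 2) (by norm_num) (by omega) (by omega) hodd' ?_ ?_
    · have h2 : Nat.Coprime (h - 2) 2 := by
        rw [Nat.coprime_two_right]
        exact hodd'
      have h1 : Nat.Coprime (h - 2) h := by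
        have h3 : Nat.Coprime (h - 2) ((h - 2) + 2) := by
          rw [Nat.coprime_self_add_right]
          exact h2
        have e : (h - 2) + 2 = h := by omega
        rwa [e] at h3
      rw [hn]
      exact Nat.Coprime.mul_right h2 h1
    · rcases Nat.lt_or_ge h 6 with hlt | hge
      · have hm5 : h = 5 := by obtain ⟨t, ht⟩ := hodd; omega
        subst hm5
        have e1 : ((2 : ℕ) : ℝ) * (Real.pi / (5 : ℕ)) = 2 * (Real.pi / 5) := by push_cast; ring
        rw [e1, MAR.cos_two_fifth]
        have h6 := MAR.sqrt5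
        push_cast
        rw [Real.cos_pi_div_five]
        linarith
      · exact MAR.cos_sum hhpos (by norm_num) (by omega)

end Pool.Agent.T2H75.GN
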