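import Mathlib

/-!
Project GN (problem MP_a226eb_gt, trivalent closed geodesic nets on the round 3-sphere).
Definitions and the exact statements of all packages.  `ℝ⁴ = ℂ × ℂ`, with the real inner product
`ip`.  Everywhere `χ = ZMod.stdAddChar : AddChar (ZMod N) ℂ`, `χ j = exp (2 π i j / N)`.
-/

namespace Pool.Agent.T2H75.GN

open Complex ZMod

/-! ### Definitions (used by the final statements) -/

/-- The inner product of `ℝ⁴ = ℂ × ℂ`. -/
def ip (p q : ℂ × ℂ) : ℝ :=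
  p.1.re * q.1.re + p.1.im * q.1.im + p.2.re * q.2.re + p.2.im * q.2.im

/-- The shortest geodesic segment of the unit sphere from `p` to `q` (unit vectors, `q ≠ ± p`):
the unit vectors in the cone spanned by `p` and `q`. -/
def arc (p q : ℂ × ℂ) : Set (ℂ × ℂ) :=
  {x | ip x x = 1 ∧ ∃ l m : ℝ, 0 ≤ l ∧ 0 ≤ m ∧ x = l • p + m • q}

/-- The unit tangent vector at `p` of the segment `arc p q`, directed toward `q`:
the normalised component of `q` orthogonal to `p`. -/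
noncomputable def tang (p q : ℂ × ℂ) : ℂ × ℂ :=
  (√(1 - ip p q ^ 2))⁻¹ • (q - ip p q • p)

open Classical in
/-- `p` places the vertices of the graph `G` on the unit sphere of `ℝ⁴` such that `G`, with the
edges drawn as the shortest geodesic segments, is an embedded balanced net. -/
structure IsNet {V : Type} [Fintype V] (G : SimpleGraph V) (p : V → ℂ × ℂ) : Prop where
  unit : ∀ v, ip (p v) (p v) = 1
  inj : Function.Injective p
  apart : ∀ v w, G.Adj v w → p w ≠ -p v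
  balanced : ∀ v, ∑ w ∈ Finset.univ.filter (fun w => G.Adj v w), tang (p v) (p w) = 0
  embedded : ∀ v w v' w', G.Adj v w → G.Adj v' w' → s(v, w) ≠ s(v', w') →
    ∀ x, x ∈ arc (p v) (p w) → x ∈ arc (p v') (p w') →
      ∃ u, (u = v ∨ u = w) ∧ (u = v' ∨ u = w') ∧ x = p u

open Classical in
/-- Every vertex has exactly three neighbours. -/
def Cubic {V : Type} [Fintype V] (G : SimpleGraph V) : Prop :=
  ∀ v, (Finset.univ.filter (fun w => G.Adj v w)).card = 3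

/-- The brick wall (honeycomb toroidal graph) with `2k` rows of length `2m`:
`(a, r)` is joined to `(a ± 1, r)`, and `(a, r)` with `a + r` odd is joined to `(a, r + 1)`. -/
def brick (m k : ℕ) : SimpleGraph (ZMod (2 * m) × ZMod (2 * k)) :=
  SimpleGraph.fromRel fun v w =>
    (w.1 = v.1 + 1 ∧ w.2 = v.2) ∨ (Odd (v.1.val + v.2.val) ∧ w.1 = v.1 ∧ w.2 = v.2 + 1)

/-- The Moebius ladder with `2m` vertices: `j` is joined to `j ± 1` and to `j + m`. -/
def moebius (m : ℕ) : SimpleGraph (ZMod (2 * m)) :=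
  SimpleGraph.fromRel fun i j => j = i + 1 ∨ j = i + (m : ZMod (2 * m))

/-- The prism over the cycle of length `n`. -/
def prism (n : ℕ) : SimpleGraph (ZMod n × Bool) :=
  SimpleGraph.fromRel fun v w => (w.1 = v.1 + 1 ∧ w.2 = v.2) ∨ (w.1 = v.1 ∧ w.2 = !v.2)

/-! ### General packages -/

/-- GEN. Local to global: a graph all of whose vertices `v` have exactly the three distinct
neighbours `a v`, `b v`, `c v` is cubic, and the balance condition at `v` is a sum of three terms. -/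
def GenStm : Prop :=
  ∀ (V : Type) [Fintype V] (G : SimpleGraph V) (a b c : V → V),
    (∀ v, a v ≠ b v ∧ a v ≠ c v ∧ b v ≠ c v) →
    (∀ v w, G.Adj v w ↔ w = a v ∨ w = b v ∨ w = c v) →
    Cubic G ∧ ∀ p : V → ℂ × ℂ,
      (∀ v, tang (p v) (p (a v)) + tang (p v) (p (b v)) + tang (p v) (p (c v)) = 0) →
      open Classical in
      ∀ v, ∑ w ∈ Finset.univ.filter (fun w => G.Adj v w), tang (p v) (p w) = 0

/-- POL. Polar form of a nonzero vector of the cone spanned by `1` and `exp (i φ)`, `0 < φ < π`.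
Proof: Let `ρ = ‖z‖`, `ω = arg z` for `z = l + m e^{iφ}`; `z.im = m sin φ ≥ 0` gives `ω ∈ [0, π]`;
`z * e^{-iφ} = l e^{-iφ} + m` has imaginary part `- l sin φ ≤ 0`, i.e. `ρ sin (ω - φ) ≤ 0`, and
`ω - φ ∈ (-π, π)`, so `ω ≤ φ`.  Equality cases by `sin ω = 0` and `sin (ω - φ) = 0`
(if `ω = π` were allowed then `ω ≤ φ < π`). -/
def PolStm : Prop :=
  ∀ φ l m : ℝ, 0 < φ → φ < Real.pi → 0 ≤ l → 0 ≤ m → (l ≠ 0 ∨ m ≠ 0) →
    ∃ ρ ω : ℝ, 0 < ρ ∧ 0 ≤ ω ∧ ω ≤ φ ∧ (ω = 0 ↔ m = 0) ∧ (ω = φ ↔ l = 0) ∧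
      (l : ℂ) + m * exp (φ * I) = ρ * exp (ω * I)

/-- SEC. Rows: the sectors `r (2π/N) + [0, 2π/N)` are disjoint.
Proof: norms give `ρ = ρ'`; write `χ r = exp (2πi r.val / N)` (`ZMod.stdAddChar_coe` with
`(r.val : ℤ)` cast), so `exp ((r.val δ + ω) i) = exp ((r'.val δ + ω') i)` with both real numbers
in `[0, 2π)`, hence they are equal (`Complex.exp_eq_exp_iff_exists_int`), and
`(r.val - r'.val) δ = ω' - ω ∈ (-δ, δ)` gives `r.val = r'.val`. -/
def SecStm : Prop :=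
  ∀ (N : ℕ) [NeZero N] (r r' : ZMod N) (ρ ρ' ω ω' : ℝ), 0 < ρ → 0 < ρ' →
    0 ≤ ω → ω < 2 * Real.pi / N → 0 ≤ ω' → ω' < 2 * Real.pi / N →
    (ρ : ℂ) * (stdAddChar r * exp (ω * I)) = ρ' * (stdAddChar r' * exp (ω' * I)) →
    r = r' ∧ ω = ω' ∧ ρ = ρ'

/-! ### Brick walls -/

open Classical in
/-- The position of the vertex `(a, r)`. -/
noncomputable def bpos (m k : ℕ) [NeZero m] [NeZero k] (φ c s : ℝ) (v : ZMod (2 * m) × ZMod (2 * k)) : ℂ × ℂ :=
  (c * stdAddChar v.1,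
    s * (stdAddChar v.2 * (if Odd (v.1.val + v.2.val) then exp (φ * I) else 1)))

/-- BTR. The angles.  Proof: with `T = tan (δ/2) > 0`, `t = tan (θ/2) ^ 2`, `u = t / T`, take
`φ = 2 arctan u`, `ψ = δ - φ`.  As `0 < tan (θ/2) < T` we have `0 < u < T`, so `0 < φ < δ`.
The identity `(cos φ - cos θ) sin ψ = sin φ (1 - cos ψ)` follows from
`cos x = (1 - tan²(x/2)) / (1 + tan²(x/2))`, `sin x = 2 tan (x/2) / (1 + tan²(x/2))` and
`tan (ψ/2) = (T - u) / (1 + T u)`, `T u = t`; equivalently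
`cos φ - cos θ = sin φ tan (ψ/2)`, both sides are `2 (t - u²) / ((1 + u²) (1 + t))`. -/
def BtrStm : Prop :=
  ∀ θ δ : ℝ, 0 < θ → θ < δ → δ ≤ Real.pi / 2 →
    ∃ φ ψ : ℝ, 0 < φ ∧ 0 < ψ ∧ φ + ψ = δ ∧
      (Real.cos φ - Real.cos θ) * Real.sin ψ = Real.sin φ * (1 - Real.cos ψ)

/-- BIV. The radii (intermediate value theorem).  With `C = s² ∈ [0, 1]`,
`κ₁ = (1 - C) cos θ + C cos φ`, `κ₃ = (1 - C) + C cos ψ`: the continuous function
`4 sin² φ (1 - κ₃²) - sin² ψ (1 - κ₁²)` is `- sin² ψ sin² θ < 0` at `C = 0` and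
`3 sin² φ sin² ψ > 0` at `C = 1`, so it vanishes for some `C ∈ (0, 1)`; there `κ₁, κ₃ ∈ (-1, 1)`,
take `s = √C`, `c = √(1 - C)` and square roots; the second equation follows from the first and the
hypothesis (multiply by `sin ψ`). -/
def BivStm : Prop :=
  ∀ θ φ ψ : ℝ, 0 < θ → θ < Real.pi → 0 < φ → φ < Real.pi → 0 < ψ → ψ < Real.pi →
    (Real.cos φ - Real.cos θ) * Real.sin ψ = Real.sin φ * (1 - Real.cos ψ) →
    ∃ c s : ℝ, 0 < c ∧ 0 < s ∧ c ^ 2 + s ^ 2 = 1 ∧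
      (c ^ 2 * Real.cos θ + s ^ 2 * Real.cos φ) ^ 2 < 1 ∧ (c ^ 2 + s ^ 2 * Real.cos ψ) ^ 2 < 1 ∧
      2 * Real.sin φ * √(1 - (c ^ 2 + s ^ 2 * Real.cos ψ) ^ 2) =
        Real.sin ψ * √(1 - (c ^ 2 * Real.cos θ + s ^ 2 * Real.cos φ) ^ 2) ∧
      2 * (Real.cos φ - Real.cos θ) * √(1 - (c ^ 2 + s ^ 2 * Real.cos ψ) ^ 2) =
        (1 - Real.cos ψ) * √(1 - (c ^ 2 * Real.cos θ + s ^ 2 * Real.cos φ) ^ 2)

/-- BBAL. Balance at one vertex of the brick wall (`e = 1` or `-1`, `|u| = |v| = 1`): the three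
neighbours of `(c u, s v)` are `(c u e^{±iθ}, s v e^{i e φ})`, `(c u, s v e^{-i e ψ})`.
Proof: the inner products are `κ₁, κ₁, κ₃`; with `S₁, S₃` the two square roots, the first
coordinate of the sum is `c u (2 (cos θ - κ₁) / S₁ + (1 - κ₃) / S₃)` and the second is
`s v ((2 (cos φ - κ₁) / S₁ + (cos ψ - κ₃) / S₃) + i e (2 sin φ / S₁ - sin ψ / S₃))`; use
`cos θ - κ₁ = s² (cos θ - cos φ)`, `1 - κ₃ = s² (1 - cos ψ)`, `cos φ - κ₁ = c² (cos φ - cos θ)`,
`cos ψ - κ₃ = - c² (1 - cos ψ)`. -/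
def BbalStm : Prop :=
  ∀ (θ φ ψ c s e : ℝ) (u v : ℂ), (e = 1 ∨ e = -1) → ‖u‖ = 1 → ‖v‖ = 1 → c ^ 2 + s ^ 2 = 1 →
    (c ^ 2 * Real.cos θ + s ^ 2 * Real.cos φ) ^ 2 < 1 → (c ^ 2 + s ^ 2 * Real.cos ψ) ^ 2 < 1 →
    2 * Real.sin φ * √(1 - (c ^ 2 + s ^ 2 * Real.cos ψ) ^ 2) =
        Real.sin ψ * √(1 - (c ^ 2 * Real.cos θ + s ^ 2 * Real.cos φ) ^ 2) →
    2 * (Real.cos φ - Real.cos θ) * √(1 - (c ^ 2 + s ^ 2 * Real.cos ψ) ^ 2) =
        (1 - Real.cos ψ) * √(1 - (c ^ 2 * Real.cos θ + s ^ 2 * Real.cos φ) ^ 2) →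
    tang (c * u, s * v) (c * (u * exp (θ * I)), s * (v * exp (e * φ * I))) +
      tang (c * u, s * v) (c * (u * exp (-(θ * I))), s * (v * exp (e * φ * I))) +
      tang (c * u, s * v) (c * u, s * (v * exp (-(e * ψ * I)))) = 0

/-- BADJ. The brick wall: neighbours and connectedness (`(a + 1).val` and `a.val + 1` have the same
parity as the modulus is even). The third neighbour is `(a, r + 1)` if `a + r` is odd and
`(a, r - 1)` otherwise. -/
def BadjStm : Prop :=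
  ∀ (m k : ℕ) [NeZero m] [NeZero k], 2 ≤ m → 2 ≤ k →
    (brick m k).Connected ∧
    ∀ v w, (brick m k).Adj v w ↔
      w = (v.1 + 1, v.2) ∨ w = (v.1 - 1, v.2) ∨
        w = (v.1, if Odd (v.1.val + v.2.val) then v.2 + 1 else v.2 - 1)

/-- BNB. The positions of the three neighbours in the form used by BBAL: with `e = 1` if
`a + r` is even and `e = -1` if it is odd (`θ = π/m`, `φ + ψ = π/k`).
Proof: even `v = (a, r)`: `x = χ a`, `y = χ r`, `e = 1`; the neighbours are odd vertices, and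
`χ (r - 1) e^{iφ} = χ r e^{-iπ/k} e^{iφ} = χ r e^{-iψ}`.  Odd `v`: `x = χ a`, `y = χ r e^{iφ}`,
`e = -1`; the neighbours are even, `χ (r + 1) = χ r e^{iπ/k} = y e^{iψ}`.  Parity: `(a + 1).val` and
`a.val + 1` have the same parity because the modulus is even; `χ 1 = exp (2πi/(2m)) = exp (iπ/m)`. -/
def BnbStm : Prop :=
  ∀ (m k : ℕ) [NeZero m] [NeZero k], 2 ≤ m → 2 ≤ k → ∀ (φ ψ c s : ℝ), φ + ψ = Real.pi / k →
    ∀ v : ZMod (2 * m) × ZMod (2 * k), ∃ (e : ℝ) (x y : ℂ), (e = 1 ∨ e = -1) ∧ ‖x‖ = 1 ∧ ‖y‖ = 1 ∧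
      bpos m k φ c s v = (c * x, s * y) ∧
      bpos m k φ c s (v.1 + 1, v.2) =
        (c * (x * exp (((Real.pi / m : ℝ) : ℂ) * I)), s * (y * exp (e * φ * I))) ∧
      bpos m k φ c s (v.1 - 1, v.2) =
        (c * (x * exp (-(((Real.pi / m : ℝ) : ℂ) * I))), s * (y * exp (e * φ * I))) ∧
      bpos m k φ c s (v.1, if Odd (v.1.val + v.2.val) then v.2 + 1 else v.2 - 1) =
        (c * x, s * (y * exp (-(e * ψ * I))))

/-- Interior points of the zigzag edge from the even vertex `(a, r)` to `(a + ε, r)`, `ε = ±1`. -/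
def ZInt (m k : ℕ) [NeZero m] [NeZero k] (φ c s : ℝ) (a : ZMod (2 * m)) (r : ZMod (2 * k)) (ε : ℤ)
    (x : ℂ × ℂ) : Prop :=
  ∃ l μ : ℝ, 0 < l ∧ 0 < μ ∧
    x = (c * (stdAddChar a * (l + μ * exp ((ε * (Real.pi / m : ℝ) : ℝ) * I))),
      s * (stdAddChar r * (l + μ * exp (φ * I))))

/-- Interior points of the vertical edge from the odd vertex `(a, r)` to `(a, r + 1)`. -/
def VInt (m k : ℕ) [NeZero m] [NeZero k] (φ ψ c s : ℝ) (a : ZMod (2 * m)) (r : ZMod (2 * k))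
    (x : ℂ × ℂ) : Prop :=
  ∃ l μ : ℝ, 0 < l ∧ 0 < μ ∧
    x = (c * (stdAddChar a * (l + μ)),
      s * (stdAddChar r * (exp (φ * I) * (l + μ * exp (ψ * I)))))

/-- BLOC. Every point of an edge is an endpoint or an interior point in the sense of ZInt, VInt.
Proof: unfold the adjacency (SimpleGraph.fromRel), order the edge as (even, odd) for a horizontal
edge and as (odd, even above) for a vertical one (arc is symmetric); if `l = 0` or `m = 0` in `arc`
then `ip x x = 1` forces the other coefficient to be 1 and `x` is an endpoint. -/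
def BlocStm : Prop :=
  ∀ (m k : ℕ) [NeZero m] [NeZero k], 2 ≤ m → 2 ≤ k → ∀ (φ ψ c s : ℝ), φ + ψ = Real.pi / k →
    c ^ 2 + s ^ 2 = 1 →
    ∀ v w, (brick m k).Adj v w → ∀ x, x ∈ arc (bpos m k φ c s v) (bpos m k φ c s w) →
      x = bpos m k φ c s v ∨ x = bpos m k φ c s w ∨
      (∃ a r, ∃ ε : ℤ, (ε = 1 ∨ ε = -1) ∧ ¬ Odd (a.val + r.val) ∧
        s(v, w) = s((a, r), (a + (ε : ZMod (2 * m)), r)) ∧ ZInt m k φ c s a r ε x) ∨
      (∃ a r, Odd (a.val + r.val) ∧ s(v, w) = s((a, r), (a, r + 1)) ∧ VInt m k φ ψ c s a r x)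

/-- BZZ. Zigzag edges do not meet in interior points.
Proof: second coordinates: POL gives angles in `(0, φ)`, SEC with `N = 2k` (`2π/N = π/k > φ`) gives
`r = r'`; cancel `s χ r` and compare imaginary and real parts: `μ = μ'`, `l = l'`.  If `ε = ε'`,
cancel `l + μ e^{iεθ} ≠ 0` in the first coordinate and use injectivity of `χ`.  If `ε = 1`,
`ε' = -1`: POL for `θ = π/m`: `l + μ e^{iθ} = ρ e^{iω}`, `0 < ω < θ`, so `χ (a' - a) = e^{2iω}`;
SEC with `N = 2m`: either `2ω < θ` and then `2ω = 0`, impossible, or `e^{2iω} = χ 1 e^{i(2ω-θ)}`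
with `0 ≤ 2ω - θ < θ` and `a' = a + 1`, contradicting the parities of `a.val + r.val`,
`a'.val + r.val` (both even; even modulus). -/
def BzzStm : Prop :=
  ∀ (m k : ℕ) [NeZero m] [NeZero k], 2 ≤ m → 2 ≤ k → ∀ (φ ψ c s : ℝ), 0 < φ → 0 < ψ →
    φ + ψ = Real.pi / k → 0 < c → 0 < s →
    ∀ (a a' : ZMod (2 * m)) (r r' : ZMod (2 * k)) (ε ε' : ℤ) (x : ℂ × ℂ),
      (ε = 1 ∨ ε = -1) → (ε' = 1 ∨ ε' = -1) →
      ¬ Odd (a.val + r.val) → ¬ Odd (a'.val + r'.val) →
      ZInt m k φ c s a r ε x → ZInt m k φ c s a' r' ε' x → a = a' ∧ r = r' ∧ ε = ε'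

/-- BVV. Vertical edges do not meet each other or zigzag edges in interior points.
Proof: as BZZ, the second coordinate of a point of a vertical edge has the angle `φ + ω`,
`0 < ω < ψ`, in the row `r`; the first one is `c (l + μ) χ a`, so SEC (`ω = 0`) gives `a = a'`. -/
def BvvStm : Prop :=
  ∀ (m k : ℕ) [NeZero m] [NeZero k], 2 ≤ m → 2 ≤ k → ∀ (φ ψ c s : ℝ), 0 < φ → 0 < ψ →
    φ + ψ = Real.pi / k → 0 < c → 0 < s →
    (∀ (a a' : ZMod (2 * m)) (r r' : ZMod (2 * k)) (x : ℂ × ℂ),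
      VInt m k φ ψ c s a r x → VInt m k φ ψ c s a' r' x → a = a' ∧ r = r') ∧
    (∀ (a a' : ZMod (2 * m)) (r r' : ZMod (2 * k)) (ε : ℤ) (x : ℂ × ℂ),
      (ε = 1 ∨ ε = -1) → ZInt m k φ c s a r ε x → ¬ VInt m k φ ψ c s a' r' x)

/-- BPT. Vertices are distinct, adjacent ones are not antipodal, no vertex is an interior point.
Proof: SEC with the angles `0` (even vertex), `φ` (odd vertex), `(0, φ)` (ZInt), `(φ, φ + ψ)`
(VInt) in the second coordinate; the first one determines `a` as `χ` is injective.  Antipodal: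
vertical edges have equal first coordinates; horizontal ones would give `e^{iφ} = -1`. -/
def BptStm : Prop :=
  ∀ (m k : ℕ) [NeZero m] [NeZero k], 2 ≤ m → 2 ≤ k → ∀ (φ ψ c s : ℝ), 0 < φ → 0 < ψ →
    φ + ψ = Real.pi / k → 0 < c → 0 < s →
    Function.Injective (bpos m k φ c s) ∧
    (∀ v w, (brick m k).Adj v w → bpos m k φ c s w ≠ -bpos m k φ c s v) ∧
    (∀ v a r (ε : ℤ), (ε = 1 ∨ ε = -1) → ¬ ZInt m k φ c s a r ε (bpos m k φ c s v)) ∧
    (∀ v a r, ¬ VInt m k φ ψ c s a r (bpos m k φ c s v))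

/-- BEMB. Injectivity and embeddedness of the brick wall in `S³`. -/
def BembStm : Prop :=
  ∀ (m k : ℕ) [NeZero m] [NeZero k], 2 ≤ m → 2 ≤ k → ∀ (φ ψ c s : ℝ), 0 < φ → 0 < ψ → φ + ψ = Real.pi / k →
    0 < c → 0 < s → c ^ 2 + s ^ 2 = 1 →
    Function.Injective (bpos m k φ c s) ∧
    (∀ v w, (brick m k).Adj v w → bpos m k φ c s w ≠ -bpos m k φ c s v) ∧
    ∀ v w v' w', (brick m k).Adj v w → (brick m k).Adj v' w' → s(v, w) ≠ s(v', w') →
      ∀ x, x ∈ arc (bpos m k φ c s v) (bpos m k φ c s w) →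
        x ∈ arc (bpos m k φ c s v') (bpos m k φ c s w') →
        ∃ u, (u = v ∨ u = w) ∧ (u = v' ∨ u = w') ∧ x = bpos m k φ c s u

/-- The target. -/
def BrickTarget : Prop :=
  ∀ (m k : ℕ) [NeZero m] [NeZero k], 2 ≤ k → k < m →
    (brick m k).Connected ∧ Cubic (brick m k) ∧ ∃ p, IsNet (brick m k) p

/-! ### Moebius ladders and prisms -/

/-- Positions of the vertices of the Moebius ladder. -/
noncomputable def mpos (m : ℕ) [NeZero m] (a : ZMod (2 * m)) (c s : ℝ) (j : ZMod (2 * m)) : ℂ × ℂ :=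
  (c * stdAddChar (a * j), s * stdAddChar j)

/-- Positions of the vertices of the prism. -/
noncomputable def ppos (n : ℕ) [NeZero n] (a : ZMod n) (c s : ℝ) (v : ZMod n × Bool) : ℂ × ℂ :=
  (c * stdAddChar (a * v.1), s * ((if v.2 then -1 else 1) * stdAddChar v.1))

/-- MAR. The winding number of the Moebius ladder: `a = m - 1` if `m` is odd, `a = m - 2` if
`4 ∣ m`, `a = m - 4` if `m ≡ 2 mod 4` (`m ≥ 10`).  Then `a` is even, `gcd (a, 2m) = 2`,
`α = π a / m = π - i π/m`, `i = 1, 2, 4`, and `cos α = - cos (i π/m)`; the inequality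
`cos (π/m) + cos (i π/m) ≥ 1` holds by monotonicity of cos and `cos (π/3) = 1/2`,
`cos (π/4) = √2/2`, `cos (π/10) ≥ 0.9`, `cos (2π/5) ≥ 0.3` or simpler bounds such as
`cos x ≥ 1 - x²/2` for `i = 1, 2` at small angles, `cos (4π/m) ≥ cos (2π/5) = (√5 - 1)/4`. -/
def MarStm : Prop :=
  ∀ (m : ℕ) [NeZero m], 3 ≤ m → m ≠ 4 → m ≠ 6 →
    ∃ a : ZMod (2 * m), a * (m : ZMod (2 * m)) = 0 ∧ (∀ j, a * j = 0 → j = 0 ∨ j = (m : ZMod (2 * m))) ∧
      ∃ α : ℝ, stdAddChar a = exp (α * I) ∧ -1 < Real.cos α ∧ Real.cos α ≤ Real.cos (Real.pi / m) - 1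

/-- PAR. The winding number of the prism over the cycle of even length `n ≥ 8`: `a = n/2 - 1` if
`4 ∣ n`, else `a = n/2 - 2`; then `a` is odd and prime to `n`, `α = 2πa/n = π - i 2π/n`, `i = 1, 2`,
`cos (2π/n) + cos (i 2π/n) ≥ 1` (for `n = 8`: `2 cos (π/4) ≥ 1`; for `n ≥ 10`:
`cos (π/5) + cos (2π/5) = √5/2`). -/
def ParStm : Prop :=
  ∀ (n : ℕ) [NeZero n], 8 ≤ n → Even n →
    ∃ a : ZMod n, (∀ j, a * j = 0 → j = 0) ∧ stdAddChar (a * ((n / 2 : ℕ) : ZMod n)) = -1 ∧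
      ∃ α : ℝ, stdAddChar a = exp (α * I) ∧ -1 < Real.cos α ∧
        Real.cos α ≤ Real.cos (2 * Real.pi / n) - 1

/-- MIV. The radii (intermediate value theorem in `t ∈ [0, π/4]`, `c = cos t`, `s = sin t`): the
function `sin 2t (y - x) - √(1 - (x cos² t + y sin² t)²)` is negative at `t = 0` and `≥ 0` at
`t = π/4` because `y - x ≥ 1`. (`0 < t` as the value at 0 is negative.) -/
def MivStm : Prop :=
  ∀ x y : ℝ, -1 < x → x ≤ y - 1 → y < 1 →
    ∃ c s : ℝ, 0 < c ∧ 0 < s ∧ c ^ 2 + s ^ 2 = 1 ∧ (c ^ 2 * x + s ^ 2 * y) ^ 2 < 1 ∧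
      2 * c * s * (y - x) = √(1 - (c ^ 2 * x + s ^ 2 * y) ^ 2)

/-- MBAL. Balance at a vertex of a Moebius ladder or prism.
Proof: with `κ = c² cos α + s² cos β`, `S = √(1 - κ²)`, `κ' = c² - s²`, `√(1 - κ'²) = 2 c s`: the
first coordinate of the sum is `c u (2 (cos α - κ) / S + (1 - κ') / (2cs))
= c u (2 s² (cos α - cos β) / S + s / c)` and the second
`s v (2 (cos β - κ) / S - (1 + κ') / (2cs)) = s v (2 c² (cos β - cos α) / S - c / s)`, both
vanish iff `2 c s (cos β - cos α) = S`. -/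
def MbalStm : Prop :=
  ∀ (α β c s : ℝ) (u v : ℂ), ‖u‖ = 1 → ‖v‖ = 1 → 0 < c → 0 < s → c ^ 2 + s ^ 2 = 1 →
    (c ^ 2 * Real.cos α + s ^ 2 * Real.cos β) ^ 2 < 1 →
    2 * c * s * (Real.cos β - Real.cos α) = √(1 - (c ^ 2 * Real.cos α + s ^ 2 * Real.cos β) ^ 2) →
    tang (c * u, s * v) (c * (u * exp (α * I)), s * (v * exp (β * I))) +
      tang (c * u, s * v) (c * (u * exp (-(α * I))), s * (v * exp (-(β * I)))) +
      tang (c * u, s * v) (c * u, -(s * v)) = 0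

/-- MADJ. Neighbours and connectedness in Moebius ladders and prisms. -/
def MadjStm : Prop :=
  (∀ (m : ℕ) [NeZero m], 2 ≤ m →
    (moebius m).Connected ∧
    (∀ i j, (moebius m).Adj i j ↔ j = i + 1 ∨ j = i - 1 ∨ j = i + (m : ZMod (2 * m))) ∧
    ∀ i : ZMod (2 * m), i + 1 ≠ i - 1 ∧ i + 1 ≠ i + (m : ZMod (2 * m)) ∧
      i - 1 ≠ i + (m : ZMod (2 * m))) ∧
  (∀ (n : ℕ) [NeZero n], 3 ≤ n →
    (prism n).Connected ∧
    (∀ v w, (prism n).Adj v w ↔ w = (v.1 + 1, v.2) ∨ w = (v.1 - 1, v.2) ∨ w = (v.1, !v.2)) ∧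
    ∀ v : ZMod n × Bool, (v.1 + 1, v.2) ≠ (v.1 - 1, v.2) ∧ (v.1 + 1, v.2) ≠ (v.1, !v.2) ∧
      (v.1 - 1, v.2) ≠ (v.1, !v.2))

/-- MEMB. Injectivity and embeddedness of the Moebius ladder.
Proof.  `χ (a m) = 1`, `χ m = -1`, `β = π/m`, `χ 1 = e^{iβ}`.  Interior points (`l, μ > 0`) of the
rim edge `j, j + 1`: `x = (c χ(aj) (l + μ χ a), s χ j (l + μ e^{iβ}))`, by POL the second coordinate
has the angle `jβ + ω`, `0 < ω < β`.  Interior points of the rung `j, j + m`: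
`x = (c χ(aj) (l + μ), s χ j (l - μ))`: the second coordinate is `0` or has the angle `jβ` or
`(j+m)β`, and the first has the direction `χ (aj)`.  Rim/rim: SEC gives `j = j'`.  Rim/rung:
`ω` with `0 < ω < β` against `ω = 0`: impossible by SEC.  Rung/rung: `χ (aj) = χ (aj')` (positive
multiples, equal norms), so `a (j - j') = 0`, `j' = j` or `j' = j + m`: the same edge.  Vertex/rim
interior: SEC.  Vertex `i`/rung interior: `l - μ` is `± 1` by the second coordinate, `l + μ = 1` by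
the first: contradiction.  Endpoint cases: `l = 0` or `μ = 0` gives the endpoint itself because of
`ip x x = 1`; then use injectivity. -/
def MembStm : Prop :=
  ∀ (m : ℕ) [NeZero m], 3 ≤ m → ∀ a : ZMod (2 * m), a * (m : ZMod (2 * m)) = 0 →
    (∀ j, a * j = 0 → j = 0 ∨ j = (m : ZMod (2 * m))) →
    ∀ c s : ℝ, 0 < c → 0 < s → c ^ 2 + s ^ 2 = 1 →
    Function.Injective (mpos m a c s) ∧
    (∀ v w, (moebius m).Adj v w → mpos m a c s w ≠ -mpos m a c s v) ∧
    ∀ v w v' w', (moebius m).Adj v w → (moebius m).Adj v' w' → s(v, w) ≠ s(v', w') →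
      ∀ x, x ∈ arc (mpos m a c s v) (mpos m a c s w) →
        x ∈ arc (mpos m a c s v') (mpos m a c s w') →
        ∃ u, (u = v ∨ u = w) ∧ (u = v' ∨ u = w') ∧ x = mpos m a c s u

/-- PEMB. The same for the prism, `n` even.  Proof.  `-1 = χ (n/2)`, `β = 2π/n`; put
`σ = 1` or `-1` for the layer.  Interior points of the rim edge `(i, b), (i + 1, b)`:
`x = (c χ(ai) (l + μ χ a), σ s χ i (l + μ e^{iβ}))`; `σ χ i = χ (i + n/2 or i)`.  Rim/rim: SEC gives
`i + [σ] n/2 = i' + [σ'] n/2` and then `l = l'`, `μ = μ'` (imaginary parts); if `σ ≠ σ'` then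
`i' = i + n/2`, and the first coordinates differ by the factor `χ (a n/2) = -1`, so
`l + μ χ a = 0`, which is impossible: `χ a ∉ ℝ`: `χ a = ±1` would give `2a = 0`, so `2 = 0`... use the
hypothesis `∀ j, a j = 0 → j = 0` with `j = 2`.  Rungs `(i, 0), (i, 1)`:
`x = (c χ(ai) (l + μ), s χ i (l - μ))`: direction `χ (ai)` of the first coordinate gives `i = i'`.
Rim/rung and vertices as in MEMB. -/
def PembStm : Prop :=
  ∀ (n : ℕ) [NeZero n], 4 ≤ n → Even n → ∀ a : ZMod n, (∀ j, a * j = 0 → j = 0) →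
    stdAddChar (a * ((n / 2 : ℕ) : ZMod n)) = -1 →
    ∀ c s : ℝ, 0 < c → 0 < s → c ^ 2 + s ^ 2 = 1 →
    Function.Injective (ppos n a c s) ∧
    (∀ v w, (prism n).Adj v w → ppos n a c s w ≠ -ppos n a c s v) ∧
    ∀ v w v' w', (prism n).Adj v w → (prism n).Adj v' w' → s(v, w) ≠ s(v', w') →
      ∀ x, x ∈ arc (ppos n a c s v) (ppos n a c s w) →
        x ∈ arc (ppos n a c s v') (ppos n a c s w') →
        ∃ u, (u = v ∨ u = w) ∧ (u = v' ∨ u = w') ∧ x = ppos n a c s u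

/-- The targets. -/
def MoebiusTarget : Prop :=
  ∀ (m : ℕ) [NeZero m], 3 ≤ m → m ≠ 4 → m ≠ 6 →
    (moebius m).Connected ∧ Cubic (moebius m) ∧ ∃ p, IsNet (moebius m) p

def PrismTarget : Prop :=
  ∀ (n : ℕ) [NeZero n], 8 ≤ n → Even n →
    (prism n).Connected ∧ Cubic (prism n) ∧ ∃ p, IsNet (prism n) p

/-! ### Necessary conditions, for arbitrary segments and multigraphs -/

open Classical in
/-- A balanced geodesic net on `S³` with vertex set `V` and edge set `E` (a multigraph, loops and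
parallel edges allowed); the edge `e` is the geodesic segment
`t ↦ cos t • pos (src e) + sin t • dir e`, `0 ≤ t ≤ len e`, of arbitrary positive length. -/
structure GeoNet (V E : Type) [Fintype V] [Fintype E] where
  src : E → V
  tgt : E → V
  pos : V → ℂ × ℂ
  dir : E → ℂ × ℂ
  len : E → ℝ
  pos_unit : ∀ v, ip (pos v) (pos v) = 1
  dir_unit : ∀ e, ip (dir e) (dir e) = 1
  dir_perp : ∀ e, ip (pos (src e)) (dir e) = 0
  len_pos : ∀ e, 0 < len e
  end_pt : ∀ e, pos (tgt e) = Real.cos (len e) • pos (src e) + Real.sin (len e) • dir e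
  balanced : ∀ v,
    ∑ e ∈ Finset.univ.filter (fun e => src e = v), dir e +
      ∑ e ∈ Finset.univ.filter (fun e => tgt e = v),
        (Real.sin (len e) • pos (src e) - Real.cos (len e) • dir e) = 0

/-- BRG. No cut of a geodesic net consists of one edge; if it consists of two edges then they lie
on one great circle.
Proof.  For `z w` put `W e = ip (pos (src e)) z * ip (dir e) w - ip (pos (src e)) w * ip (dir e) z`.
Apply the bilinear form `(x, y) ↦ ip x z * ip y w - ip x w * ip y z` to `pos v` and the balance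
sum at `v`, and sum over `v ∈ S`.  An edge with `src e ∈ S` contributes `W e`; an edge with
`tgt e ∈ S` contributes `- W e`, because with `C = cos (len e)`, `D = sin (len e)` the pair
`(C p + D d, D p - C d)` has the wedge `-(C² + D²) p ∧ d`.  So the sum of `± W e` over the edges of
the cut is `0` for all `z, w`.  One edge: take `z = pos (src e)`, `w = dir e`: `W e = 1`.
Two edges: `W e = ± W f` for all `z, w`: with `z = pos (src e)`, `w = dir e` fixed we get for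
every `x` that `x - ...` the vectors of the planes agree: for `w` arbitrary and `z = pos (src e)`:
`ip (dir e) w = ± (ip (pos (src f)) z * ip (dir f) w - ip (pos (src f)) w * ip (dir f) z)`, so
`dir e` is a combination of `pos (src f)`, `dir f` (nondegeneracy of `ip`); the same with
`z = dir e` for `pos (src e)`. By symmetry the spans are equal. -/
def BrgStm : Prop :=
  ∀ (V E : Type) [Fintype V] [Fintype E] (N : GeoNet V E) (S : Set V),
    (∀ e, {g | ¬ (N.src g ∈ S ↔ N.tgt g ∈ S)} ≠ {e}) ∧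
    ∀ e f, e ≠ f → {g | ¬ (N.src g ∈ S ↔ N.tgt g ∈ S)} = {e, f} →
      Submodule.span ℝ {N.pos (N.src e), N.dir e} = Submodule.span ℝ {N.pos (N.src f), N.dir f}

end Pool.Agent.T2H75.GN
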