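import Pool.Agent.T2H75.GN.Stm2

/-!
Project GN, third batch: certificates over `ℤ√10` for small graphs, checked by `decide +kernel`.
-/

namespace Pool.Agent.T2H75.GN

/-- A sufficient test for `a + b √10 > 0` (`3.162 < √10 < 3.163`). -/
def posT (x : ℤ√10) : Bool :=
  (decide (0 ≤ x.im) && decide (0 < 1000 * x.re + 3162 * x.im)) ||
    (decide (x.im < 0) && decide (0 < 1000 * x.re + 3163 * x.im))

/-- `2 × 2` minor of `P, Q` in the coordinates `i, j`. -/
def min2 (P Q : Fin 4 → ℤ√10) (i j : Fin 4) : ℤ√10 := P i * Q j - P j * Q i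

/-- `3 × 3` minor of `P, Q, R` in the coordinates `i, j, k`. -/
def min3 (P Q R : Fin 4 → ℤ√10) (i j k : Fin 4) : ℤ√10 :=
  P i * min2 Q R j k - P j * min2 Q R i k + P k * min2 Q R i j

/-- `4 × 4` determinant. -/
def det4 (P Q R S : Fin 4 → ℤ√10) : ℤ√10 :=
  P 0 * min3 Q R S 1 2 3 - P 1 * min3 Q R S 0 2 3 + P 2 * min3 Q R S 0 1 3 - P 3 * min3 Q R S 0 1 2

/-- CERTZ. The certificate of CERT with entries in `ℤ√10` and decidable hypotheses.
Proof: apply CERT with `P' v i = φ (P v i)`, `φ (a + b √10) = a + b * √10` (a ring homomorphism, for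
instance `Zsqrtd.lift` or by hand, injective because `√10` is irrational), `F' = φ ∘ F`,
`b' v w = φ (B v w) / φ (A v w)`, `M' = φ M`. Nonzero minors give linear independence. -/
def CertzStm : Prop :=
  ∀ (V : Type) [Fintype V] [DecidableEq V] (G : SimpleGraph V) (adj : V → V → Bool)
    (P : V → Fin 4 → ℤ√10) (F : V → V → Fin 3 → ℤ√10) (A B : V → V → ℤ√10) (M : ℤ√10),
    (∀ v w, G.Adj v w ↔ adj v w = true) →
    posT M = true →
    (∀ v w, adj v w = true → posT (A v w) = true ∧ posT (B v w) = true ∧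
      (∀ i, A v w * imq (P v) (P w) i = B v w * F v w i) ∧
      F v w 0 * F v w 0 + F v w 1 * F v w 1 + F v w 2 * F v w 2 = M) →
    (∀ v i, (∑ w, if adj v w then F v w i else 0) = 0) →
    (∀ v w, v ≠ w → ∃ i j, min2 (P v) (P w) i j ≠ 0) →
    (∀ v w v' w', adj v w = true → adj v' w' = true → v ≠ v' → v ≠ w' → w ≠ v' → w ≠ w' →
      det4 (P v) (P w) (P v') (P w') ≠ 0) →
    (∀ v w w', adj v w = true → adj v w' = true → w ≠ w' →
      ∃ i j k, min3 (P v) (P w) (P w') i j k ≠ 0) →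
    (∀ v, ∃ w, adj v w = true) →
    ∃ p, IsNet G p

end Pool.Agent.T2H75.GN
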