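import Pool.Agent.T2H75.GN.Stm

/-!
Project GN, fourth batch: necklaces.  `k` digons `{a i, b i}`, `a i = (i, false)`, `b i = (i, true)`,
joined cyclically by edges from `b i` to `a (i + 1)`.
-/

namespace Pool.Agent.T2H75.GN

/-- The point of the edge `e` at the parameter `t`. -/
noncomputable def GeoNet.pt {V E : Type} [Fintype V] [Fintype E] (N : GeoNet V E) (e : E) (t : ℝ) :
    ℂ × ℂ :=
  Real.cos t • N.pos (N.src e) + Real.sin t • N.dir e

/-- The net is embedded: distinct vertices have distinct positions, an edge meets itself at most in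
its two endpoints, different edges meet only in positions of common endpoints. -/
structure GeoNet.Embedded {V E : Type} [Fintype V] [Fintype E] (N : GeoNet V E) : Prop where
  inj : Function.Injective N.pos
  simple : ∀ e s t, 0 ≤ s → s < t → t ≤ N.len e → N.pt e s = N.pt e t → s = 0 ∧ t = N.len e
  disj : ∀ e f, e ≠ f → ∀ s t, 0 ≤ s → s ≤ N.len e → 0 ≤ t → t ≤ N.len f →
    N.pt e s = N.pt f t →
      ∃ v, (v = N.src e ∨ v = N.tgt e) ∧ (v = N.src f ∨ v = N.tgt f) ∧ N.pt e s = N.pos v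

/-- Start of the edges of the necklace: the digon edges `(i, 0)`, `(i, 1)` start at `a i`, the
joining edge `(i, 2)` at `b i`. -/
def nsrc (k : ℕ) (e : ZMod k × Fin 3) : ZMod k × Bool := if e.2 = 2 then (e.1, true) else (e.1, false)

/-- End of the edges of the necklace: the digon edges end at `b i`, `(i, 2)` at `a (i + 1)`. -/
def ntgt (k : ℕ) (e : ZMod k × Fin 3) : ZMod k × Bool :=
  if e.2 = 2 then (e.1 + 1, false) else (e.1, true)

/-- NA. Digons.  Put `p i = pos (a i)`, `x i = dir (i, 2)`.  Then `pos (b i) = - p i`, `x i` is a unit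
vector orthogonal to `p i`, and the joining edge gives
`p (i+1) = - cos ℓ p i + sin ℓ x i`, `x (i+1) = - sin ℓ p i - cos ℓ x i`, `ℓ = len (i, 2)`.
Proof: let `d₀, d₁` be the directions of the digon edges at `a i`, `y` the backward tangent of the
edge `(i-1, 2)` at `a i`; all are unit vectors orthogonal to `p i` and `d₀ + d₁ + y = 0`, so
`d₀ · d₁ = -1/2`.  Both edges end at `b i`: `cos ℓ₀ p + sin ℓ₀ d₀ = cos ℓ₁ p + sin ℓ₁ d₁`, so
`sin ℓ₀ d₀ = sin ℓ₁ d₁`, which forces `sin ℓ₀ = sin ℓ₁ = 0`, `cos ℓ₀ = cos ℓ₁ = ± 1` and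
`pos (b i) = ± p i`, and `+` is excluded by injectivity.  The backward tangents of the digon edges at
`b i` are `d₀, d₁`, so the balance at `b i` gives `x i = - d₀ - d₁ = y`.  Now apply this at `i + 1`:
`x (i+1)` = backward tangent of `(i, 2)` at its end `= sin ℓ pos (b i) - cos ℓ x i`. -/
def NaStm : Prop :=
  ∀ (k : ℕ) [NeZero k], 2 ≤ k → ∀ N : GeoNet (ZMod k × Bool) (ZMod k × Fin 3),
    N.src = nsrc k → N.tgt = ntgt k → Function.Injective N.pos →
    ∀ i : ZMod k,
      N.pos (i, true) = -N.pos (i, false) ∧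
      N.pos (i + 1, false) =
        -(Real.cos (N.len (i, 2)) • N.pos (i, false)) + Real.sin (N.len (i, 2)) • N.dir (i, 2) ∧
      N.dir (i + 1, 2) =
        -(Real.sin (N.len (i, 2)) • N.pos (i, false)) - Real.cos (N.len (i, 2)) • N.dir (i, 2)

/-- NB. Rotation numbers, abstractly: orthonormal pairs `(p i, x i)`, `i ∈ ZMod k`, with the
recursion of NA.  Then with `θ j = j π - ∑_{i < j} ℓ i` (`j = 0, 1, ...`, `ℓ` read modulo `k`) one has
`p j = cos θ_j p 0 + sin θ_j x 0`, `x j = - sin θ_j p 0 + cos θ_j x 0`; for `j = k` this gives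
`k π - ∑ ℓ = 2 π n`. -/
def NbStm : Prop :=
  ∀ (k : ℕ) [NeZero k] (p x : ZMod k → ℂ × ℂ) (l : ZMod k → ℝ),
    ip (p 0) (p 0) = 1 → ip (x 0) (x 0) = 1 → ip (p 0) (x 0) = 0 →
    (∀ i, p (i + 1) = -(Real.cos (l i) • p i) + Real.sin (l i) • x i) →
    (∀ i, x (i + 1) = -(Real.sin (l i) • p i) - Real.cos (l i) • x i) →
    ∃ θ : ZMod k → ℝ, (∀ i, p i = Real.cos (θ i) • p 0 + Real.sin (θ i) • x 0 ∧
        x i = -(Real.sin (θ i) • p 0) + Real.cos (θ i) • x 0) ∧
      ∃ n : ℤ, k * Real.pi - ∑ i, l i = 2 * Real.pi * n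

/-- ND. Pairwise disjoint closed arcs on a circle of length `2π` have total length `< 2π`.
Proof: let `i₀` be one index.  Choose for `i ≠ i₀` the representative `α' i ∈ (α i₀, α i₀ + 2π)` of
`α i` modulo `2π`; disjointness from the arc `i₀` gives `α i₀ + l i₀ < α' i` (otherwise the starting
point of `i` lies on the arc `i₀`) and `α' i + l i < α i₀ + 2π` (otherwise the starting point of `i₀`
lies on the arc `i`).  The intervals `[α' i, α' i + l i]` are disjoint subsets of a compact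
subinterval of `(α i₀ + l i₀, α i₀ + 2π)`, so by Lebesgue measure `∑_{i ≠ i₀} l i < 2π - l i₀`. -/
def NdStm : Prop :=
  ∀ (ι : Type) [Fintype ι] [DecidableEq ι] (α l : ι → ℝ), 2 ≤ Fintype.card ι → (∀ i, 0 < l i) →
    (∀ i j, i ≠ j → ∀ s t : ℝ, 0 ≤ s → s ≤ l i → 0 ≤ t → t ≤ l j →
      ∀ n : ℤ, α i + s ≠ α j + t + 2 * Real.pi * n) →
    ∑ i, l i < 2 * Real.pi

/-- NFLOW. The necklace has a unit vector flow: `f (i, 2) = (1, 0, 0)`,
`f (i, 0) = (-1/2, √3/2, 0)`... signs: at `a i` (in: `(i-1, 2)`, out: `(i, 0), (i, 1)`) we need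
`f (i, 0) + f (i, 1) = f (i - 1, 2)`, at `b i`: `f (i, 2) = f (i, 0) + f (i, 1)`.  Take
`f (i, 2) = (1, 0, 0)`, `f (i, 0) = (1/2, √3/2, 0)`, `f (i, 1) = (1/2, -√3/2, 0)`. -/
def NflowStm : Prop :=
  ∀ (k : ℕ) [NeZero k], 2 ≤ k → ∃ f : ZMod k × Fin 3 → Fin 3 → ℝ,
    (∀ e, (f e 0) ^ 2 + (f e 1) ^ 2 + (f e 2) ^ 2 = 1) ∧
    (open Classical in ∀ v, ∑ e ∈ Finset.univ.filter (fun e => nsrc k e = v), f e =
      ∑ e ∈ Finset.univ.filter (fun e => ntgt k e = v), f e)

/-- NCUB. The necklace is cubic. -/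
def NcubStm : Prop :=
  ∀ (k : ℕ) [NeZero k], 2 ≤ k →
    (open Classical in ∀ v, (Finset.univ.filter (fun e : ZMod k × Fin 3 => nsrc k e = v)).card +
      (Finset.univ.filter (fun e : ZMod k × Fin 3 => ntgt k e = v)).card = 3)

/-- The target: a necklace with an even number of digons carries no closed geodesic net. -/
def NecklaceTarget : Prop :=
  ∀ (k : ℕ) [NeZero k], 2 ≤ k → Even k → ∀ N : GeoNet (ZMod k × Bool) (ZMod k × Fin 3),
    N.src = nsrc k → N.tgt = ntgt k → ¬ N.Embedded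

end Pool.Agent.T2H75.GN
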